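/-
P7m.Defs (MP_7b5a71_lc, Stage 2, part (M): machine).  Owner helper15.

WORKING LANGUAGE of the single face project.  This file is the interface:
`Val` (immutable values), `Prog` (total point free programs), `eval` (semantics with cost),
`Enc` (encodings), `RC f c` (the pure function f is computed with cost O(c + 1)),
`RS f c` (the same for computations with a mutable memory of type ℕ → M).

A value is a finite binary tree, every node of which carries a natural number and a real
number.  All operations are total on all values (no run time types).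
-/
import Mathlib

namespace P7m

/-- Immutable values: finite binary trees with a natural and a real label at each node. -/
inductive Val : Type
  | leaf : Val
  | node (n : ℕ) (x : ℝ) (a b : Val) : Val

namespace Val

/-- natural label -/
def nn : Val → ℕ
  | leaf => 0
  | node n _ _ _ => n

/-- real label -/
def rr : Val → ℝ
  | leaf => 0
  | node _ x _ _ => x

/-- first child -/
def fst : Val → Val
  | leaf => leaf
  | node _ _ a _ => a

/-- second child -/
def snd : Val → Val
  | leaf => leaf
  | node _ _ _ b => b

/-- a natural number as a value -/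
def nat (k : ℕ) : Val := node k 0 leaf leaf

/-- a real number as a value -/
def num (x : ℝ) : Val := node 0 x leaf leaf

/-- a truth value as a value -/
def bool (b : Bool) : Val := if b then node 1 0 leaf leaf else leaf

@[simp] lemma nn_leaf : leaf.nn = 0 := rfl
@[simp] lemma nn_node (n x a b) : (node n x a b).nn = n := rfl
@[simp] lemma rr_leaf : leaf.rr = 0 := rfl
@[simp] lemma rr_node (n x a b) : (node n x a b).rr = x := rfl
@[simp] lemma fst_leaf : leaf.fst = leaf := rfl
@[simp] lemma fst_node (n x a b) : (node n x a b).fst = a := rfl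
@[simp] lemma snd_leaf : leaf.snd = leaf := rfl
@[simp] lemma snd_node (n x a b) : (node n x a b).snd = b := rfl
@[simp] lemma nn_nat (k) : (nat k).nn = k := rfl
@[simp] lemma rr_num (x) : (num x).rr = x := rfl
@[simp] lemma bool_true : bool true = node 1 0 leaf leaf := rfl
@[simp] lemma bool_false : bool false = leaf := rfl
@[simp] lemma nn_bool (b : Bool) : (bool b).nn = if b then 1 else 0 := by cases b <;> rfl

end Val

/-- Programs.  Every program transforms a state (value, memory, number of random bits used,
output written).  Below `v` is the current value. -/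
inductive Prog : Type
  /-- do nothing -/
  | id
  /-- first `f`, then `g` -/
  | seq (f g : Prog)
  /-- run `f` on `v`, run `g` on the same `v`, result the node with label `k` and these two
  children -/
  | mk (k : ℕ) (f g : Prog)
  /-- first child -/
  | fst
  /-- second child -/
  | snd
  /-- the leaf -/
  | nil
  /-- the natural number `k` -/
  | const (k : ℕ)
  /-- the natural number `v.nn` (other labels and children dropped) -/
  | getn
  /-- sum of the natural labels of the two children -/
  | nadd
  /-- truncated difference of the natural labels of the two children -/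
  | nsub
  /-- is the natural label of the first child smaller than that of the second? -/
  | nlt
  /-- the real number 0 -/
  | rzero
  /-- the real number 1 -/
  | rone
  | radd
  | rsub
  | rmul
  | rdiv
  | rlt
  /-- run `c` on `v`; if the label of the result is not 0 run `f` on `v`, else `g` on `v` -/
  | ite (c f g : Prog)
  /-- `v = (k, s)`: replace `k` times the value `s` by the result of `f` on `s` -/
  | loop (f : Prog)
  /-- `v = (l, s)`, `l` a list: for each element `x` of `l` in order replace `s` by the
  result of `f` on `(x, s)` -/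
  | fold (f : Prog)
  /-- run `f` with a fresh memory (all cells `leaf`), then restore the old memory -/
  | scope (f : Prog)
  /-- the content of the memory cell `v.nn` -/
  | read
  /-- `v = (i, x)`: put `x` into the memory cell `i.nn`, result leaf -/
  | write
  /-- the real number at place `v.nn` of the input tape -/
  | inp
  /-- the next random bit -/
  | flip
  /-- append the natural number `v.nn` to the output -/
  | outn
  /-- append the real number `v.rr` to the output -/
  | outr

/-- State of the working language. -/
@[ext] structure St : Type where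
  /-- current value -/
  v : Val
  /-- memory -/
  m : ℕ → Val
  /-- number of random bits used -/
  k : ℕ
  /-- output written so far -/
  out : List (ℕ ⊕ ℝ)

/-- `k` fold repetition, with cost -/
def loopE (f : St → St × ℕ) : ℕ → St → St × ℕ
  | 0, s => (s, 1)
  | k + 1, s =>
    ((loopE f k (f s).1).1, (f s).2 + (loopE f k (f s).1).2 + 1)

/-- fold over a list value, with cost -/
def foldE (f : St → St × ℕ) : Val → St → St × ℕ
  | .leaf, s => (s, 1)
  | .node n _ a b, s =>
    if n = 0 then (s, 1) else
      ((foldE f b (f { s with v := .node 0 0 a s.v }).1).1,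
        (f { s with v := .node 0 0 a s.v }).2 +
          (foldE f b (f { s with v := .node 0 0 a s.v }).1).2 + 1)

open Classical in
/-- Semantics with cost: `eval inp w P s = (final state, cost)`, `inp` the input tape, `w` the
random bits. -/
noncomputable def eval (inp : ℕ → ℝ) (w : ℕ → Bool) : Prog → St → St × ℕ
  | .id, s => (s, 1)
  | .seq f g, s =>
    ((eval inp w g (eval inp w f s).1).1,
      (eval inp w f s).2 + (eval inp w g (eval inp w f s).1).2 + 1)
  | .mk k f g, s =>
    let r1 := eval inp w f s
    let r2 := eval inp w g { r1.1 with v := s.v }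
    ({ r2.1 with v := .node k 0 r1.1.v r2.1.v }, r1.2 + r2.2 + 1)
  | .fst, s => ({ s with v := s.v.fst }, 1)
  | .snd, s => ({ s with v := s.v.snd }, 1)
  | .nil, s => ({ s with v := .leaf }, 1)
  | .const k, s => ({ s with v := .nat k }, 1)
  | .getn, s => ({ s with v := .nat s.v.nn }, 1)
  | .nadd, s => ({ s with v := .nat (s.v.fst.nn + s.v.snd.nn) }, 1)
  | .nsub, s => ({ s with v := .nat (s.v.fst.nn - s.v.snd.nn) }, 1)
  | .nlt, s => ({ s with v := .bool (decide (s.v.fst.nn < s.v.snd.nn)) }, 1)
  | .rzero, s => ({ s with v := .num 0 }, 1)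
  | .rone, s => ({ s with v := .num 1 }, 1)
  | .radd, s => ({ s with v := .num (s.v.fst.rr + s.v.snd.rr) }, 1)
  | .rsub, s => ({ s with v := .num (s.v.fst.rr - s.v.snd.rr) }, 1)
  | .rmul, s => ({ s with v := .num (s.v.fst.rr * s.v.snd.rr) }, 1)
  | .rdiv, s => ({ s with v := .num (s.v.fst.rr / s.v.snd.rr) }, 1)
  | .rlt, s => ({ s with v := .bool (decide (s.v.fst.rr < s.v.snd.rr)) }, 1)
  | .ite c f g, s =>
    let r := eval inp w c s
    if r.1.v.nn ≠ 0 then
      ((eval inp w f { r.1 with v := s.v }).1, r.2 + (eval inp w f { r.1 with v := s.v }).2 + 1)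
    else
      ((eval inp w g { r.1 with v := s.v }).1, r.2 + (eval inp w g { r.1 with v := s.v }).2 + 1)
  | .loop f, s => loopE (eval inp w f) s.v.fst.nn { s with v := s.v.snd }
  | .fold f, s => foldE (eval inp w f) s.v.fst { s with v := s.v.snd }
  | .scope f, s =>
    let r := eval inp w f { s with m := fun _ => .leaf }
    ({ r.1 with m := s.m }, r.2 + 1)
  | .read, s => ({ s with v := s.m s.v.nn }, 1)
  | .write, s =>
    ({ s with v := .leaf, m := Function.update s.m s.v.fst.nn s.v.snd }, 1)
  | .inp, s => ({ s with v := .num (inp s.v.nn) }, 1)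
  | .flip, s => ({ s with v := .bool (w s.k), k := s.k + 1 }, 1)
  | .outn, s => ({ s with v := .leaf, out := s.out ++ [Sum.inl s.v.nn] }, 1)
  | .outr, s => ({ s with v := .leaf, out := s.out ++ [Sum.inr s.v.rr] }, 1)

/-! ## Encodings -/

/-- Types with an encoding by values (injectivity is not required). -/
class Enc (A : Type) where
  enc : A → Val

export Enc (enc)

instance : Enc Val := ⟨fun v => v⟩
instance : Enc ℕ := ⟨Val.nat⟩
noncomputable instance : Enc ℝ := ⟨Val.num⟩
instance : Enc Bool := ⟨Val.bool⟩
instance : Enc Unit := ⟨fun _ => .leaf⟩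
instance {A B : Type} [Enc A] [Enc B] : Enc (A × B) :=
  ⟨fun p => .node 0 0 (enc p.1) (enc p.2)⟩
instance {A B : Type} [Enc A] [Enc B] : Enc (A ⊕ B) :=
  ⟨fun s => match s with
    | .inl a => .node 0 0 (enc a) .leaf
    | .inr b => .node 1 0 (enc b) .leaf⟩
instance {A : Type} [Enc A] : Enc (Option A) :=
  ⟨fun o => match o with
    | none => .leaf
    | some a => .node 1 0 (enc a) .leaf⟩

/-- encoding of lists: the empty list is `leaf`, `a :: l` is a node with label 1 -/
def encList {A : Type} [Enc A] : List A → Val
  | [] => .leaf
  | a :: l => .node 1 0 (enc a) (encList l)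

instance {A : Type} [Enc A] : Enc (List A) := ⟨encList⟩
noncomputable instance : Enc ℂ := ⟨fun z => .node 0 0 (enc z.re) (enc z.im)⟩

section
variable {A B : Type} [Enc A] [Enc B]
@[simp] lemma enc_val (v : Val) : enc v = v := rfl
lemma enc_nat (k : ℕ) : enc k = Val.nat k := rfl
lemma enc_real (x : ℝ) : enc x = Val.num x := rfl
lemma enc_bool (b : Bool) : enc b = Val.bool b := rfl
@[simp] lemma enc_unit (u : Unit) : enc u = Val.leaf := rfl
@[simp] lemma enc_prod (a : A) (b : B) : enc (a, b) = .node 0 0 (enc a) (enc b) := rfl
@[simp] lemma enc_inl (a : A) : enc (Sum.inl a : A ⊕ B) = .node 0 0 (enc a) .leaf := rfl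
@[simp] lemma enc_inr (b : B) : enc (Sum.inr b : A ⊕ B) = .node 1 0 (enc b) .leaf := rfl
@[simp] lemma enc_none : enc (none : Option A) = .leaf := rfl
@[simp] lemma enc_some (a : A) : enc (some a) = .node 1 0 (enc a) .leaf := rfl
@[simp] lemma enc_nil : enc ([] : List A) = .leaf := rfl
@[simp] lemma enc_cons (a : A) (l : List A) : enc (a :: l) = .node 1 0 (enc a) (enc l) := rfl
lemma enc_complex (z : ℂ) : enc z = .node 0 0 (.num z.re) (.num z.im) := rfl
@[simp] lemma nn_enc_nat (k : ℕ) : (enc k).nn = k := rfl
@[simp] lemma rr_enc_real (x : ℝ) : (enc x).rr = x := rfl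
@[simp] lemma nn_enc_bool (b : Bool) : (enc b).nn = if b then 1 else 0 := by cases b <;> rfl
end

/-! ## Computability with cost -/

/-- `RC f c`: some program computes `f : A → B` on encodings, without changing the memory,
using random bits or writing output, with cost at most `C * (c a + 1)` on input `a`. -/
def RC {A B : Type} [Enc A] [Enc B] (f : A → B) (c : A → ℕ) : Prop :=
  ∃ (P : Prog) (C : ℕ), ∀ (inp : ℕ → ℝ) (w : ℕ → Bool) (a : A) (m : ℕ → Val) (k : ℕ)
    (out : List (ℕ ⊕ ℝ)),
    (eval inp w P ⟨enc a, m, k, out⟩).1 = ⟨enc (f a), m, k, out⟩ ∧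
    (eval inp w P ⟨enc a, m, k, out⟩).2 ≤ C * (c a + 1)

/-- `RS f c`: the same for computations `f : A → (ℕ → M) → B × (ℕ → M)` with a memory whose
cells hold elements of `M`. -/
def RS {A B M : Type} [Enc A] [Enc B] [Enc M] (f : A → (ℕ → M) → B × (ℕ → M))
    (c : A → (ℕ → M) → ℕ) : Prop :=
  ∃ (P : Prog) (C : ℕ), ∀ (inp : ℕ → ℝ) (w : ℕ → Bool) (a : A) (m : ℕ → M) (k : ℕ)
    (out : List (ℕ ⊕ ℝ)),
    (eval inp w P ⟨enc a, fun i => enc (m i), k, out⟩).1 =
      ⟨enc (f a m).1, fun i => enc ((f a m).2 i), k, out⟩ ∧
    (eval inp w P ⟨enc a, fun i => enc (m i), k, out⟩).2 ≤ C * (c a m + 1)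

/-- Types whose default element is encoded by `leaf` (for memory cells): `Bool`, `Unit`,
`Option A`, `List A`, `Val`. -/
class EncD (M : Type) [Enc M] where
  dflt : M
  enc_dflt : enc dflt = Val.leaf

instance : EncD Val := ⟨.leaf, rfl⟩
instance : EncD Bool := ⟨false, rfl⟩
instance : EncD Unit := ⟨(), rfl⟩
instance {A : Type} [Enc A] : EncD (Option A) := ⟨none, rfl⟩
instance {A : Type} [Enc A] : EncD (List A) := ⟨[], rfl⟩

end P7m
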