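/-
P7m.Base: the basic closure lemmas for `RC`.
-/
import Pool.Agent.Lib.P7m.Defs

namespace P7m

variable {A B C D A' B' : Type} [Enc A] [Enc B] [Enc C] [Enc D] [Enc A'] [Enc B']

/-- Weaken the cost. -/
theorem RC.mono {f : A → B} {c c' : A → ℕ} (h : RC f c) (K : ℕ)
    (hc : ∀ a, c a ≤ K * (c' a + 1)) : RC f c' := by
  obtain ⟨P, C, h⟩ := h
  refine ⟨P, C * (K + 1), fun inp w a m k out => ⟨(h inp w a m k out).1, ?_⟩⟩
  refine (h inp w a m k out).2.trans ?_
  rw [mul_assoc]
  refine Nat.mul_le_mul_left _ ?_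
  have := hc a
  nlinarith

theorem RC.of_le {f : A → B} {c c' : A → ℕ} (h : RC f c)
    (hc : ∀ a, c a ≤ c' a) : RC f c' :=
  h.mono 1 (fun a => by have := hc a; omega)

/-- Change of function and types when the encodings agree. -/
theorem RC.congr_enc {f : A → B} {g : A' → B'} {c : A → ℕ} (h : RC f c) (φ : A' → A)
    (h1 : ∀ a, enc a = enc (φ a)) (h2 : ∀ a, enc (g a) = enc (f (φ a))) :
    RC g (fun a => c (φ a)) := by
  obtain ⟨P, C, h⟩ := h
  refine ⟨P, C, fun inp w a m k out => ?_⟩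
  rw [h1, h2]
  exact h inp w (φ a) m k out

theorem RC.congr {f g : A → B} {c : A → ℕ} (h : RC f c) (h2 : ∀ a, g a = f a) : RC g c := by
  have : g = f := funext h2
  rw [this]; exact h

theorem RC.id : RC (fun a : A => a) (fun _ => 0) :=
  ⟨.id, 1, fun _ _ _ _ _ _ => ⟨rfl, le_refl _⟩⟩

/-- functions computed by one program with constant cost -/
theorem RC.prim {g : A → B} (P : Prog) (K : ℕ)
    (h : ∀ (inp : ℕ → ℝ) (w : ℕ → Bool) (a : A) (m : ℕ → Val) (k : ℕ) (out : List (ℕ ⊕ ℝ)),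
      (eval inp w P ⟨enc a, m, k, out⟩).1 = ⟨enc (g a), m, k, out⟩ ∧
      (eval inp w P ⟨enc a, m, k, out⟩).2 ≤ K) : RC g (fun _ => 0) :=
  ⟨P, K, fun inp w a m k out => ⟨(h inp w a m k out).1, by
    simpa using (h inp w a m k out).2⟩⟩

/-- The general unary rule. -/
theorem RC.comp {f : A → B} {g : B → C} {cf : A → ℕ} {cg : B → ℕ} (hg : RC g cg)
    (hf : RC f cf) : RC (fun a => g (f a)) (fun a => cf a + cg (f a)) := by
  obtain ⟨P, K, hP⟩ := hf
  obtain ⟨Q, L, hQ⟩ := hg
  refine ⟨.seq P Q, K + L + 1, fun inp w a m k out => ?_⟩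
  have h1 := hP inp w a m k out
  have h2 := hQ inp w (f a) m k out
  simp only [eval]
  rw [h1.1]
  refine ⟨h2.1, ?_⟩
  have e1 := h1.2
  have e2 := h2.2
  calc _ ≤ K * (cf a + 1) + L * (cg (f a) + 1) + 1 := by gcongr
    _ ≤ (K + L + 1) * (cf a + cg (f a) + 1) := by nlinarith [Nat.zero_le (K * cg (f a)), Nat.zero_le (L * cf a)]

theorem RC.mkNode (n : ℕ) {f : A → B} {g : A → C} {cf cg : A → ℕ} (hf : RC f cf)
    (hg : RC g cg) (h : A → D) (hh : ∀ a, enc (h a) = .node n 0 (enc (f a)) (enc (g a))) :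
    RC h (fun a => cf a + cg a) := by
  obtain ⟨P, K, hP⟩ := hf
  obtain ⟨Q, L, hQ⟩ := hg
  refine ⟨.mk n P Q, K + L + 1, fun inp w a m k out => ?_⟩
  have h1 := hP inp w a m k out
  have h2 := hQ inp w a m k out
  simp only [eval]
  rw [h1.1]
  simp only []
  rw [h2.1, hh]
  refine ⟨rfl, ?_⟩
  have e1 := h1.2
  have e2 := h2.2
  calc _ ≤ K * (cf a + 1) + L * (cg a + 1) + 1 := by gcongr
    _ ≤ (K + L + 1) * (cf a + cg a + 1) := by nlinarith [Nat.zero_le (K * cg a), Nat.zero_le (L * cf a)]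

theorem RC.pair {f : A → B} {g : A → C} {cf cg : A → ℕ} (hf : RC f cf)
    (hg : RC g cg) : RC (fun a => (f a, g a)) (fun a => cf a + cg a) :=
  RC.mkNode 0 hf hg _ (fun _ => rfl)

/-- the general binary rule -/
theorem RC.comp2 {f : A → B} {g : A → C} {h : B → C → D} {cf cg : A → ℕ} {ch : B × C → ℕ}
    (hh : RC (fun p : B × C => h p.1 p.2) ch) (hf : RC f cf) (hg : RC g cg) :
    RC (fun a => h (f a) (g a)) (fun a => cf a + cg a + ch (f a, g a)) :=
  RC.comp hh (RC.pair hf hg)

theorem RC.comp0 {f : A → B} {g : B → C} {cf : A → ℕ} (hg : RC g (fun _ => 0))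
    (hf : RC f cf) : RC (fun a => g (f a)) cf :=
  (RC.comp hg hf).of_le (fun _ => le_refl _)

theorem RC.comp20 {f : A → B} {g : A → C} {h : B → C → D} {cf cg : A → ℕ}
    (hh : RC (fun p : B × C => h p.1 p.2) (fun _ => 0)) (hf : RC f cf) (hg : RC g cg) :
    RC (fun a => h (f a) (g a)) (fun a => cf a + cg a) :=
  RC.comp0 (g := fun p : B × C => h p.1 p.2) hh (RC.pair hf hg)

/-! ### products -/

theorem RC.fst0 : RC (fun p : A × B => p.1) (fun _ => 0) :=
  RC.prim .fst 1 (fun _ _ _ _ _ _ => ⟨rfl, le_refl _⟩)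

theorem RC.snd0 : RC (fun p : A × B => p.2) (fun _ => 0) :=
  RC.prim .snd 1 (fun _ _ _ _ _ _ => ⟨rfl, le_refl _⟩)

theorem RC.fst {f : A → B × C} {cf : A → ℕ} (hf : RC f cf) : RC (fun a => (f a).1) cf :=
  RC.comp0 RC.fst0 hf

theorem RC.snd {f : A → B × C} {cf : A → ℕ} (hf : RC f cf) : RC (fun a => (f a).2) cf :=
  RC.comp0 RC.snd0 hf

/-! ### constants -/

theorem RC.const_nat (n : ℕ) : RC (fun _ : A => n) (fun _ => 0) :=
  RC.prim (.const n) 1 (fun _ _ _ _ _ _ => ⟨rfl, le_refl _⟩)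

theorem RC.const_true : RC (fun _ : A => true) (fun _ => 0) :=
  RC.prim (.const 1) 1 (fun _ _ _ _ _ _ => ⟨rfl, le_refl _⟩)

theorem RC.const_false : RC (fun _ : A => false) (fun _ => 0) :=
  RC.prim .nil 1 (fun _ _ _ _ _ _ => ⟨rfl, le_refl _⟩)

theorem RC.const_bool (b : Bool) : RC (fun _ : A => b) (fun _ => 0) := by
  cases b
  · exact RC.const_false
  · exact RC.const_true

theorem RC.const_unit : RC (fun _ : A => ()) (fun _ => 0) :=
  RC.prim .nil 1 (fun _ _ _ _ _ _ => ⟨rfl, le_refl _⟩)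

theorem RC.none : RC (fun _ : A => (none : Option B)) (fun _ => 0) :=
  RC.prim .nil 1 (fun _ _ _ _ _ _ => ⟨rfl, le_refl _⟩)

theorem RC.nil : RC (fun _ : A => ([] : List B)) (fun _ => 0) :=
  RC.prim .nil 1 (fun _ _ _ _ _ _ => ⟨rfl, le_refl _⟩)

theorem RC.const_zero : RC (fun _ : A => (0 : ℝ)) (fun _ => 0) :=
  RC.prim .rzero 1 (fun _ _ _ _ _ _ => ⟨rfl, le_refl _⟩)

theorem RC.const_one : RC (fun _ : A => (1 : ℝ)) (fun _ => 0) :=
  RC.prim .rone 1 (fun _ _ _ _ _ _ => ⟨rfl, le_refl _⟩)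

/-! ### case distinction -/

theorem RC.cond {p : A → Bool} {f g : A → B} {cp cf cg : A → ℕ} (hp : RC p cp)
    (hf : RC f cf) (hg : RC g cg) :
    RC (fun a => if p a then f a else g a) (fun a => cp a + if p a then cf a else cg a) := by
  obtain ⟨P, K, hP⟩ := hp
  obtain ⟨Q, L, hQ⟩ := hf
  obtain ⟨R, M, hR⟩ := hg
  refine ⟨.ite P Q R, K + L + M + 1, fun inp w a m k out => ?_⟩
  have h1 := hP inp w a m k out
  have h2 := hQ inp w a m k out
  have h3 := hR inp w a m k out
  simp only [eval]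
  rw [h1.1]
  cases hpa : p a
  · simp only [enc_bool, Val.bool_false, Val.nn_leaf, ne_eq, not_true_eq_false, if_false]
    refine ⟨h3.1, ?_⟩
    have e1 := h1.2
    have e3 := h3.2
    simp only [Bool.false_eq_true, if_false]
    calc _ ≤ K * (cp a + 1) + M * (cg a + 1) + 1 := by gcongr
      _ ≤ (K + L + M + 1) * (cp a + cg a + 1) := by
        nlinarith [Nat.zero_le (K * cg a), Nat.zero_le (M * cp a), Nat.zero_le (L * cp a),
          Nat.zero_le (L * cg a)]
  · simp only [enc_bool, Val.bool_true, Val.nn_node, ne_eq, one_ne_zero,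
      not_false_eq_true, if_true]
    refine ⟨h2.1, ?_⟩
    have e1 := h1.2
    have e2 := h2.2
    calc _ ≤ K * (cp a + 1) + L * (cf a + 1) + 1 := by gcongr
      _ ≤ (K + L + M + 1) * (cp a + cf a + 1) := by
        nlinarith [Nat.zero_le (K * cf a), Nat.zero_le (L * cp a), Nat.zero_le (M * cp a),
          Nat.zero_le (M * cf a)]

theorem RC.ite {p : A → Prop} [∀ a, Decidable (p a)] {f g : A → B} {cp cf cg : A → ℕ}
    (hp : RC (fun a => decide (p a)) cp) (hf : RC f cf) (hg : RC g cg) :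
    RC (fun a => if p a then f a else g a) (fun a => cp a + if p a then cf a else cg a) := by
  have h := RC.cond hp hf hg
  simpa only [decide_eq_true_eq] using h

/-! ### Option -/

theorem RC.some {f : A → B} {cf : A → ℕ} (hf : RC f cf) : RC (fun a => some (f a)) cf :=
  (RC.mkNode (D := Option B) 1 hf (RC.const_unit (A := A)) (fun a => Option.some (f a))
    (fun _ => rfl)).of_le (fun _ => le_refl _)

theorem RC.optionElim {o : A → Option B} {n : A → C} {s : A → B → C} {co cn : A → ℕ}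
    {cs : A × B → ℕ} (ho : RC o co) (hn : RC n cn)
    (hs : RC (fun p : A × B => s p.1 p.2) cs) :
    RC (fun a => (o a).elim (n a) (s a))
      (fun a => co a + (o a).elim (cn a) (fun b => cs (a, b))) := by
  obtain ⟨P, K, hP⟩ := ho
  obtain ⟨Q, L, hQ⟩ := hn
  obtain ⟨R, M, hR⟩ := hs
  refine ⟨.seq (.mk 0 .id P) (.ite .snd (.seq (.mk 0 .fst (.seq .snd .fst)) R)
    (.seq .fst Q)), K + L + M + 20, fun inp w a m k out => ?_⟩
  have h1 := hP inp w a m k out
  have h2 := hQ inp w a m k out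
  simp only [eval]
  rw [h1.1]
  cases hoa : o a with
  | none =>
    simp only [enc_none, Val.snd_node, Val.nn_leaf, ne_eq, not_true_eq_false, if_false,
      Val.fst_node, Option.elim_none]
    refine ⟨h2.1, ?_⟩
    have e1 := h1.2
    have e2 := h2.2
    have z1 := Nat.zero_le (K * cn a)
    have z2 := Nat.zero_le (L * co a)
    have z3 := Nat.zero_le (M * co a)
    have z4 := Nat.zero_le (M * cn a)
    nlinarith
  | some b =>
    simp only [enc_some, Val.snd_node, Val.nn_node, ne_eq, one_ne_zero,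
      not_false_eq_true, if_true, Val.fst_node, Option.elim_some]
    have h3 := hR inp w (a, b) m k out
    rw [enc_prod] at h3
    refine ⟨h3.1, ?_⟩
    have e1 := h1.2
    have e3 := h3.2
    have z1 := Nat.zero_le (K * cs (a, b))
    have z2 := Nat.zero_le (L * co a)
    have z3 := Nat.zero_le (M * co a)
    have z4 := Nat.zero_le (L * cs (a, b))
    nlinarith

theorem RC.isSome0 : RC (fun o : Option B => o.isSome) (fun _ => 0) :=
  RC.prim (.ite .id (.const 1) .nil) 3 (fun _ _ o _ _ _ => by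
    cases o <;> simp [eval, enc_bool, Val.nat])

theorem RC.getD0 : RC (fun p : Option B × B => p.1.getD p.2) (fun _ => 0) :=
  RC.prim (.ite .fst (.seq .fst .fst) .snd) 5 (fun _ _ p _ _ _ => by
    obtain ⟨o, b⟩ := p
    cases o <;> simp [eval])

/-! ### Lists: constructors and cases -/

theorem RC.cons {f : A → B} {g : A → List B} {cf cg : A → ℕ} (hf : RC f cf) (hg : RC g cg) :
    RC (fun a => f a :: g a) (fun a => cf a + cg a) :=
  RC.mkNode 1 hf hg _ (fun _ => rfl)

/-- case distinction on a list -/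
def listElim {X Y : Type} (l : List X) (n : Y) (c : X → List X → Y) : Y :=
  match l with
  | [] => n
  | x :: t => c x t

@[simp] lemma listElim_nil {X Y : Type} (n : Y) (c : X → List X → Y) :
    listElim [] n c = n := rfl
@[simp] lemma listElim_cons {X Y : Type} (x : X) (t : List X) (n : Y) (c : X → List X → Y) :
    listElim (x :: t) n c = c x t := rfl

theorem RC.listElim {l : A → List B} {n : A → C} {s : A → B → List B → C} {cl cn : A → ℕ}
    {cs : A × B × List B → ℕ} (hl : RC l cl) (hn : RC n cn)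
    (hs : RC (fun p : A × B × List B => s p.1 p.2.1 p.2.2) cs) :
    RC (fun a => P7m.listElim (l a) (n a) (s a))
      (fun a => cl a + P7m.listElim (l a) (cn a) (fun b t => cs (a, b, t))) := by
  obtain ⟨P, K, hP⟩ := hl
  obtain ⟨Q, L, hQ⟩ := hn
  obtain ⟨R, M, hR⟩ := hs
  refine ⟨.seq (.mk 0 .id P) (.ite .snd (.seq (.mk 0 .fst (.seq .snd (.mk 0 .fst .snd))) R)
    (.seq .fst Q)), K + L + M + 20, fun inp w a m k out => ?_⟩
  have h1 := hP inp w a m k out
  have h2 := hQ inp w a m k out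
  simp only [eval]
  rw [h1.1]
  cases hoa : l a with
  | nil =>
    simp only [enc_nil, Val.snd_node, Val.nn_leaf, ne_eq, not_true_eq_false, if_false,
      Val.fst_node, listElim_nil]
    refine ⟨h2.1, ?_⟩
    have e1 := h1.2
    have e2 := h2.2
    have z1 := Nat.zero_le (K * cn a)
    have z2 := Nat.zero_le (L * cl a)
    have z3 := Nat.zero_le (M * cl a)
    have z4 := Nat.zero_le (M * cn a)
    nlinarith
  | cons b t =>
    simp only [enc_cons, Val.snd_node, Val.nn_node, ne_eq, one_ne_zero,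
      not_false_eq_true, if_true, Val.fst_node, listElim_cons]
    have h3 := hR inp w (a, b, t) m k out
    rw [enc_prod, enc_prod] at h3
    refine ⟨h3.1, ?_⟩
    have e1 := h1.2
    have e3 := h3.2
    have z1 := Nat.zero_le (K * cs (a, b, t))
    have z2 := Nat.zero_le (L * cl a)
    have z3 := Nat.zero_le (M * cl a)
    have z4 := Nat.zero_le (L * cs (a, b, t))
    nlinarith

theorem RC.tail0 : RC (fun l : List B => l.tail) (fun _ => 0) :=
  RC.prim .snd 1 (fun _ _ l _ _ _ => by cases l <;> simp [eval])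

theorem RC.head?0 : RC (fun l : List B => l.head?) (fun _ => 0) :=
  RC.prim (.ite .id (.mk 1 .fst .nil) .nil) 5 (fun _ _ l _ _ _ => by
    cases l <;> simp [eval])

theorem RC.isEmpty0 : RC (fun l : List B => l.isEmpty) (fun _ => 0) :=
  RC.prim (.ite .id .nil (.const 1)) 3 (fun _ _ o _ _ _ => by
    cases o <;> simp [eval, enc_bool, Val.nat])

end P7m
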