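/-
P7m.Arith: closure lemmas for `RC`: Booleans, natural numbers, real numbers.
-/
import Pool.Agent.Lib.P7m.Base

namespace P7m

variable {A B C D : Type} [Enc A] [Enc B] [Enc C] [Enc D]

/-! ### Booleans -/

theorem RC.not {f : A → Bool} {cf : A → ℕ} (hf : RC f cf) : RC (fun a => !(f a)) cf := by
  refine ((RC.cond hf RC.const_false RC.const_true).of_le (fun a => ?_)).congr (fun a => ?_)
  · simp
  · cases f a <;> rfl

theorem RC.and {f g : A → Bool} {cf cg : A → ℕ} (hf : RC f cf) (hg : RC g cg) :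
    RC (fun a => f a && g a) (fun a => cf a + cg a) := by
  refine ((RC.cond hf hg RC.const_false).of_le (fun a => ?_)).congr (fun a => ?_)
  · split_ifs <;> simp
  · cases f a <;> rfl

theorem RC.or {f g : A → Bool} {cf cg : A → ℕ} (hf : RC f cf) (hg : RC g cg) :
    RC (fun a => f a || g a) (fun a => cf a + cg a) := by
  refine ((RC.cond hf RC.const_true hg).of_le (fun a => ?_)).congr (fun a => ?_)
  · split_ifs <;> simp
  · cases f a <;> rfl

/-- change a Boolean test into a decided proposition -/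
theorem RC.decide_of_bool {p : A → Prop} [∀ a, Decidable (p a)] {b : A → Bool} {c : A → ℕ}
    (h : RC b c) (hb : ∀ a, b a = true ↔ p a) : RC (fun a => decide (p a)) c :=
  h.congr (fun a => by
    rw [Bool.eq_iff_iff, decide_eq_true_eq, hb a])

theorem RC.decide_not {p : A → Prop} [∀ a, Decidable (p a)] [∀ a, Decidable (¬ p a)] {c : A → ℕ}
    (h : RC (fun a => decide (p a)) c) : RC (fun a => decide (¬ p a)) c :=
  RC.decide_of_bool (RC.not h) (fun a => by simp)

theorem RC.decide_and {p q : A → Prop} [∀ a, Decidable (p a)] [∀ a, Decidable (q a)]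
    [∀ a, Decidable (p a ∧ q a)] {c d : A → ℕ}
    (h : RC (fun a => decide (p a)) c) (h' : RC (fun a => decide (q a)) d) :
    RC (fun a => decide (p a ∧ q a)) (fun a => c a + d a) :=
  RC.decide_of_bool (RC.and h h') (fun a => by simp)

theorem RC.decide_or {p q : A → Prop} [∀ a, Decidable (p a)] [∀ a, Decidable (q a)]
    [∀ a, Decidable (p a ∨ q a)] {c d : A → ℕ}
    (h : RC (fun a => decide (p a)) c) (h' : RC (fun a => decide (q a)) d) :
    RC (fun a => decide (p a ∨ q a)) (fun a => c a + d a) :=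
  RC.decide_of_bool (RC.or h h') (fun a => by simp)

theorem RC.decide_bool {b : A → Bool} [∀ a, Decidable (b a = true)] {c : A → ℕ}
    (h : RC b c) : RC (fun a => decide (b a = true)) c :=
  RC.decide_of_bool h (fun _ => Iff.rfl)

/-- equality of Booleans -/
theorem RC.beqBool {f g : A → Bool} {cf cg : A → ℕ} (hf : RC f cf) (hg : RC g cg) :
    RC (fun a => f a == g a) (fun a => cf a + cg a) := by
  refine ((RC.cond hf hg (RC.not hg)).of_le (fun a => ?_)).congr (fun a => ?_)
  · split_ifs <;> simp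
  · cases f a <;> cases g a <;> rfl

/-! ### Natural numbers -/

theorem RC.nadd {f g : A → ℕ} {cf cg : A → ℕ} (hf : RC f cf) (hg : RC g cg) :
    RC (fun a => f a + g a) (fun a => cf a + cg a) :=
  RC.comp20 (h := fun x y => x + y)
    (RC.prim .nadd 1 (fun _ _ _ _ _ _ => ⟨rfl, le_refl _⟩)) hf hg

theorem RC.nsub {f g : A → ℕ} {cf cg : A → ℕ} (hf : RC f cf) (hg : RC g cg) :
    RC (fun a => f a - g a) (fun a => cf a + cg a) :=
  RC.comp20 (h := fun x y => x - y)
    (RC.prim .nsub 1 (fun _ _ _ _ _ _ => ⟨rfl, le_refl _⟩)) hf hg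

theorem RC.nlt {f g : A → ℕ} [∀ a, Decidable (f a < g a)] {cf cg : A → ℕ} (hf : RC f cf)
    (hg : RC g cg) :
    RC (fun a => decide (f a < g a)) (fun a => cf a + cg a) := by
  have h : RC (fun p : ℕ × ℕ => decide (p.1 < p.2)) (fun _ => 0) :=
    RC.prim .nlt 1 (fun _ _ _ _ _ _ => ⟨rfl, le_refl _⟩)
  exact (RC.comp0 h (RC.pair hf hg)).congr (fun a => by
    rw [Bool.eq_iff_iff]; simp)

theorem RC.nle {f g : A → ℕ} [∀ a, Decidable (f a ≤ g a)] {cf cg : A → ℕ} (hf : RC f cf)
    (hg : RC g cg) :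
    RC (fun a => decide (f a ≤ g a)) (fun a => cf a + cg a) :=
  (RC.decide_of_bool (RC.not (RC.nlt hg hf)) (fun a => by simp)).of_le (fun a => by
    rw [add_comm])

theorem RC.neq {f g : A → ℕ} [∀ a, Decidable (f a = g a)] {cf cg : A → ℕ} (hf : RC f cf)
    (hg : RC g cg) :
    RC (fun a => decide (f a = g a)) (fun a => cf a + cg a) :=
  (RC.decide_of_bool (RC.and (RC.nle hf hg) (RC.nle hg hf))
    (fun a => by simp; omega)).mono 2 (fun a => by omega)

theorem RC.succ {f : A → ℕ} {cf : A → ℕ} (hf : RC f cf) : RC (fun a => f a + 1) cf :=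
  (RC.nadd hf (RC.const_nat 1)).of_le (fun _ => le_refl _)

theorem RC.pred {f : A → ℕ} {cf : A → ℕ} (hf : RC f cf) : RC (fun a => f a - 1) cf :=
  (RC.nsub hf (RC.const_nat 1)).of_le (fun _ => le_refl _)

theorem RC.nmin {f g : A → ℕ} {cf cg : A → ℕ} (hf : RC f cf) (hg : RC g cg) :
    RC (fun a => min (f a) (g a)) (fun a => cf a + cg a) := by
  refine ((RC.ite (RC.nle hf hg) hf hg).mono 2 (fun a => ?_)).congr (fun a => ?_)
  · split_ifs <;> omega
  · split_ifs <;> omega

theorem RC.nmax {f g : A → ℕ} {cf cg : A → ℕ} (hf : RC f cf) (hg : RC g cg) :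
    RC (fun a => max (f a) (g a)) (fun a => cf a + cg a) := by
  refine ((RC.ite (RC.nle hf hg) hg hf).mono 2 (fun a => ?_)).congr (fun a => ?_)
  · split_ifs <;> omega
  · split_ifs <;> omega

/-- multiplication by a constant -/
theorem RC.nmulConst (n : ℕ) {f : A → ℕ} {cf : A → ℕ} (hf : RC f cf) :
    RC (fun a => n * f a) cf := by
  induction n with
  | zero => exact (((RC.const_nat 0).of_le (fun _ => Nat.zero_le _)).congr (fun a => by simp))
  | succ n ih =>
    exact ((RC.nadd ih hf).mono 2 (fun a => by omega)).congr (fun a => by ring)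

/-! ### Real numbers -/

theorem RC.radd {f g : A → ℝ} {cf cg : A → ℕ} (hf : RC f cf) (hg : RC g cg) :
    RC (fun a => f a + g a) (fun a => cf a + cg a) :=
  RC.comp20 (h := fun x y => x + y)
    (RC.prim .radd 1 (fun _ _ _ _ _ _ => ⟨rfl, le_refl _⟩)) hf hg

theorem RC.rsub {f g : A → ℝ} {cf cg : A → ℕ} (hf : RC f cf) (hg : RC g cg) :
    RC (fun a => f a - g a) (fun a => cf a + cg a) :=
  RC.comp20 (h := fun x y => x - y)
    (RC.prim .rsub 1 (fun _ _ _ _ _ _ => ⟨rfl, le_refl _⟩)) hf hg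

theorem RC.rmul {f g : A → ℝ} {cf cg : A → ℕ} (hf : RC f cf) (hg : RC g cg) :
    RC (fun a => f a * g a) (fun a => cf a + cg a) :=
  RC.comp20 (h := fun x y => x * y)
    (RC.prim .rmul 1 (fun _ _ _ _ _ _ => ⟨rfl, le_refl _⟩)) hf hg

theorem RC.rdiv {f g : A → ℝ} {cf cg : A → ℕ} (hf : RC f cf) (hg : RC g cg) :
    RC (fun a => f a / g a) (fun a => cf a + cg a) :=
  RC.comp20 (h := fun x y => x / y)
    (RC.prim .rdiv 1 (fun _ _ _ _ _ _ => ⟨rfl, le_refl _⟩)) hf hg

theorem RC.const_real (n : ℕ) : RC (fun _ : A => (n : ℝ)) (fun _ => 0) := by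
  induction n with
  | zero => exact RC.const_zero.congr (fun a => by simp)
  | succ n ih =>
    exact ((RC.radd ih RC.const_one).of_le (fun _ => le_refl _)).congr (fun a => by
      push_cast; ring)

theorem RC.rneg {f : A → ℝ} {cf : A → ℕ} (hf : RC f cf) : RC (fun a => - f a) cf :=
  ((RC.rsub RC.const_zero hf).of_le (fun a => by simp)).congr (fun a => by simp)

theorem RC.rinv {f : A → ℝ} {cf : A → ℕ} (hf : RC f cf) : RC (fun a => (f a)⁻¹) cf :=
  ((RC.rdiv RC.const_one hf).of_le (fun a => by simp)).congr (fun a => by simp)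

theorem RC.const_rat (q : ℚ) : RC (fun _ : A => (q : ℝ)) (fun _ => 0) := by
  have h1 : RC (fun _ : A => ((q.num.natAbs : ℕ) : ℝ) / ((q.den : ℕ) : ℝ)) (fun _ => 0) :=
    (RC.rdiv (RC.const_real _) (RC.const_real _)).of_le (fun _ => le_refl _)
  by_cases h : 0 ≤ q.num
  · refine h1.congr (fun _ => ?_)
    have h2 : ((q.num.natAbs : ℕ) : ℝ) = ((q.num : ℤ) : ℝ) := by
      rw [Nat.cast_natAbs, abs_of_nonneg h]
    rw [h2]
    exact_mod_cast congrArg (Rat.cast (K := ℝ)) (Rat.num_div_den q).symm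
  · refine (RC.rneg h1).congr (fun _ => ?_)
    have h2 : ((q.num.natAbs : ℕ) : ℝ) = -((q.num : ℤ) : ℝ) := by
      rw [Nat.cast_natAbs, abs_of_neg (not_le.mp h), Int.cast_neg]
    rw [h2, neg_div, neg_neg]
    exact_mod_cast congrArg (Rat.cast (K := ℝ)) (Rat.num_div_den q).symm

theorem RC.rlt {f g : A → ℝ} [∀ a, Decidable (f a < g a)] {cf cg : A → ℕ} (hf : RC f cf)
    (hg : RC g cg) :
    RC (fun a => decide (f a < g a)) (fun a => cf a + cg a) := by
  have h : RC (fun p : ℝ × ℝ => @decide (p.1 < p.2) (Classical.propDecidable _)) (fun _ => 0) :=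
    RC.prim .rlt 1 (fun _ _ _ _ _ _ => ⟨rfl, le_refl _⟩)
  exact (RC.comp0 h (RC.pair hf hg)).congr (fun a => by
    rw [Bool.eq_iff_iff]; simp)

theorem RC.rle {f g : A → ℝ} [∀ a, Decidable (f a ≤ g a)] {cf cg : A → ℕ} (hf : RC f cf)
    (hg : RC g cg) :
    RC (fun a => decide (f a ≤ g a)) (fun a => cf a + cg a) := by
  classical
  exact (RC.decide_of_bool (RC.not (RC.rlt hg hf)) (fun a => by simp)).of_le (fun a => by
    rw [add_comm])

theorem RC.req {f g : A → ℝ} [∀ a, Decidable (f a = g a)] {cf cg : A → ℕ} (hf : RC f cf)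
    (hg : RC g cg) :
    RC (fun a => decide (f a = g a)) (fun a => cf a + cg a) := by
  classical
  exact (RC.decide_of_bool (RC.and (RC.rle hf hg) (RC.rle hg hf))
    (fun a => by rw [Bool.and_eq_true, decide_eq_true_eq, decide_eq_true_eq,
      le_antisymm_iff])).mono 2 (fun a => by omega)

theorem RC.rmin {f g : A → ℝ} {cf cg : A → ℕ} (hf : RC f cf) (hg : RC g cg) :
    RC (fun a => min (f a) (g a)) (fun a => cf a + cg a) := by
  classical
  refine ((RC.ite (RC.rle hf hg) hf hg).mono 2 (fun a => ?_)).congr (fun a => ?_)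
  · split_ifs <;> omega
  · rw [min_def]

theorem RC.rmax {f g : A → ℝ} {cf cg : A → ℕ} (hf : RC f cf) (hg : RC g cg) :
    RC (fun a => max (f a) (g a)) (fun a => cf a + cg a) := by
  classical
  refine ((RC.ite (RC.rle hf hg) hg hf).mono 2 (fun a => ?_)).congr (fun a => ?_)
  · split_ifs <;> omega
  · rw [max_def]

theorem RC.rabs {f : A → ℝ} {cf : A → ℕ} (hf : RC f cf) :
    RC (fun a => |f a|) cf :=
  ((RC.rmax hf (RC.rneg hf)).mono 2 (fun a => by omega)).congr (fun _ => rfl)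

/-! ### Complex numbers -/

theorem RC.re {f : A → ℂ} {cf : A → ℕ} (hf : RC f cf) : RC (fun a => (f a).re) cf :=
  RC.comp0 (g := fun z : ℂ => z.re) (RC.prim .fst 1 (fun _ _ _ _ _ _ => ⟨rfl, le_refl _⟩)) hf

theorem RC.im {f : A → ℂ} {cf : A → ℕ} (hf : RC f cf) : RC (fun a => (f a).im) cf :=
  RC.comp0 (g := fun z : ℂ => z.im) (RC.prim .snd 1 (fun _ _ _ _ _ _ => ⟨rfl, le_refl _⟩)) hf

theorem RC.complex {f g : A → ℝ} {cf cg : A → ℕ} (hf : RC f cf) (hg : RC g cg) :
    RC (fun a => (⟨f a, g a⟩ : ℂ)) (fun a => cf a + cg a) :=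
  RC.mkNode 0 hf hg _ (fun _ => rfl)

end P7m
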