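/-
P7m.RAM: the final machine model, a real RAM.

Integer registers r_0, r_1, ... (natural numbers), real registers x_0, x_1, ..., an integer
memory M[0], M[1], ... and a real memory R[0], R[1], ... with indirect addressing, a read-only
input tape of real numbers, an output tape of natural and real numbers, and a supply of random
bits.  The code is a list of instructions with a program counter; the machine halts when the
program counter leaves the code.  Every instruction costs one step.  Division by zero is not
allowed: the machine gets stuck there for ever (it never halts).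
-/
import Mathlib

namespace P7m

/-- Instructions of the real RAM. -/
inductive Instr : Type
  /-- `r_d := k` -/
  | set (d k : ℕ)
  /-- `r_d := r_a` -/
  | mov (d a : ℕ)
  /-- `r_d := r_a + r_b` -/
  | add (d a b : ℕ)
  /-- `r_d := max (r_a - r_b) 0` -/
  | sub (d a b : ℕ)
  /-- `r_d := M[r_a]` -/
  | load (d a : ℕ)
  /-- `M[r_a] := r_b` -/
  | store (a b : ℕ)
  /-- goto `l` -/
  | jmp (l : ℕ)
  /-- if `r_a < r_b` goto `l` -/
  | jlt (a b l : ℕ)
  /-- `x_d := 0` -/
  | rzero (d : ℕ)
  /-- `x_d := 1` -/
  | rone (d : ℕ)
  /-- `x_d := x_a + x_b` -/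
  | radd (d a b : ℕ)
  /-- `x_d := x_a - x_b` -/
  | rsub (d a b : ℕ)
  /-- `x_d := x_a * x_b` -/
  | rmul (d a b : ℕ)
  /-- `x_d := x_a / x_b`, stuck if `x_b = 0` -/
  | rdiv (d a b : ℕ)
  /-- `x_d := R[r_a]` -/
  | rload (d a : ℕ)
  /-- `R[r_a] := x_b` -/
  | rstore (a b : ℕ)
  /-- if `x_a < x_b` goto `l` -/
  | rjlt (a b l : ℕ)
  /-- `x_d :=` the real number at place `r_a` of the input tape -/
  | rinp (d a : ℕ)
  /-- `r_d :=` the next random bit (0 or 1) -/
  | flip (d : ℕ)
  /-- append `r_a` to the output -/
  | outn (a : ℕ)
  /-- append `x_a` to the output -/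
  | outr (a : ℕ)

/-- Configurations of the real RAM. -/
@[ext] structure Cfg : Type where
  /-- program counter -/
  pc : ℕ
  /-- integer registers -/
  r : ℕ → ℕ
  /-- real registers -/
  x : ℕ → ℝ
  /-- integer memory -/
  M : ℕ → ℕ
  /-- real memory -/
  R : ℕ → ℝ
  /-- number of random bits read so far -/
  k : ℕ
  /-- output written so far -/
  out : List (ℕ ⊕ ℝ)

open Classical Function in
/-- Effect of one instruction. -/
noncomputable def Instr.exec (inp : ℕ → ℝ) (w : ℕ → Bool) (c : Cfg) : Instr → Cfg
  | .set d k => { c with pc := c.pc + 1, r := update c.r d k }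
  | .mov d a => { c with pc := c.pc + 1, r := update c.r d (c.r a) }
  | .add d a b => { c with pc := c.pc + 1, r := update c.r d (c.r a + c.r b) }
  | .sub d a b => { c with pc := c.pc + 1, r := update c.r d (c.r a - c.r b) }
  | .load d a => { c with pc := c.pc + 1, r := update c.r d (c.M (c.r a)) }
  | .store a b => { c with pc := c.pc + 1, M := update c.M (c.r a) (c.r b) }
  | .jmp l => { c with pc := l }
  | .jlt a b l => if c.r a < c.r b then { c with pc := l } else { c with pc := c.pc + 1 }
  | .rzero d => { c with pc := c.pc + 1, x := update c.x d 0 }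
  | .rone d => { c with pc := c.pc + 1, x := update c.x d 1 }
  | .radd d a b => { c with pc := c.pc + 1, x := update c.x d (c.x a + c.x b) }
  | .rsub d a b => { c with pc := c.pc + 1, x := update c.x d (c.x a - c.x b) }
  | .rmul d a b => { c with pc := c.pc + 1, x := update c.x d (c.x a * c.x b) }
  | .rdiv d a b =>
    if c.x b = 0 then c else { c with pc := c.pc + 1, x := update c.x d (c.x a / c.x b) }
  | .rload d a => { c with pc := c.pc + 1, x := update c.x d (c.R (c.r a)) }
  | .rstore a b => { c with pc := c.pc + 1, R := update c.R (c.r a) (c.x b) }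
  | .rjlt a b l => if c.x a < c.x b then { c with pc := l } else { c with pc := c.pc + 1 }
  | .rinp d a => { c with pc := c.pc + 1, x := update c.x d (inp (c.r a)) }
  | .flip d =>
    { c with pc := c.pc + 1, r := update c.r d (if w c.k then 1 else 0), k := c.k + 1 }
  | .outn a => { c with pc := c.pc + 1, out := c.out ++ [Sum.inl (c.r a)] }
  | .outr a => { c with pc := c.pc + 1, out := c.out ++ [Sum.inr (c.x a)] }

/-- One step of the machine with code `Q` (no step if the program counter is outside). -/
noncomputable def step (Q : List Instr) (inp : ℕ → ℝ) (w : ℕ → Bool) (c : Cfg) : Cfg :=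
  match Q[c.pc]? with
  | none => c
  | some i => i.exec inp w c

/-- `t` steps of the machine -/
noncomputable def run (Q : List Instr) (inp : ℕ → ℝ) (w : ℕ → Bool) (t : ℕ) (c : Cfg) : Cfg :=
  (step Q inp w)^[t] c

/-- The initial configuration with the natural number `n` in register 0, everything else 0. -/
def Cfg.init (n : ℕ) : Cfg where
  pc := 0
  r := fun i => if i = 0 then n else 0
  x := fun _ => 0
  M := fun _ => 0
  R := fun _ => 0
  k := 0
  out := []

/-- The machine has halted: the program counter is outside of the code. -/
def Halted (Q : List Instr) (c : Cfg) : Prop := Q.length ≤ c.pc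

end P7m
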