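/-
P7m.Coin: halting time of the real RAM, the measure of an infinite sequence of fair coins and
expectations of functions of the first `m` coins.
-/
import Pool.Agent.Lib.P7m.RAM

open MeasureTheory ENNReal

namespace P7m

/-! ### halting -/

theorem step_halted {Q : List Instr} {inp : ℕ → ℝ} {w : ℕ → Bool} {c : Cfg}
    (h : Halted Q c) : step Q inp w c = c := by
  have h0 : Q[c.pc]? = none := List.getElem?_eq_none_iff.2 h
  simp [step, h0]

theorem run_halted {Q : List Instr} {inp : ℕ → ℝ} {w : ℕ → Bool} {c : Cfg}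
    (h : Halted Q c) (t : ℕ) : run Q inp w t c = c := by
  induction t with
  | zero => rfl
  | succ t ih =>
    have : run Q inp w (t + 1) c = run Q inp w t (step Q inp w c) := by
      simp [run, Function.iterate_succ]
    rw [this, step_halted h, ih]

theorem run_add (Q : List Instr) (inp : ℕ → ℝ) (w : ℕ → Bool) (c : Cfg) (s t : ℕ) :
    run Q inp w (s + t) c = run Q inp w t (run Q inp w s c) := by
  rw [run, run, run, ← Function.iterate_add_apply, add_comm]

/-- The halting time: the number of steps until the machine halts (0 if it never halts; the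
theorems always state halting separately). -/
noncomputable def haltTime (Q : List Instr) (inp : ℕ → ℝ) (w : ℕ → Bool) (n : ℕ) : ℕ :=
  sInf {t | Halted Q (run Q inp w t (Cfg.init n))}

theorem haltTime_le {Q : List Instr} {inp : ℕ → ℝ} {w : ℕ → Bool} {n t : ℕ}
    (h : Halted Q (run Q inp w t (Cfg.init n))) : haltTime Q inp w n ≤ t :=
  Nat.sInf_le h

theorem haltTime_halted {Q : List Instr} {inp : ℕ → ℝ} {w : ℕ → Bool} {n t : ℕ}
    (h : Halted Q (run Q inp w t (Cfg.init n))) :
    Halted Q (run Q inp w (haltTime Q inp w n) (Cfg.init n)) :=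
  Nat.sInf_mem (s := {t | Halted Q (run Q inp w t (Cfg.init n))}) ⟨t, h⟩

theorem haltTime_run {Q : List Instr} {inp : ℕ → ℝ} {w : ℕ → Bool} {n t : ℕ}
    (h : Halted Q (run Q inp w t (Cfg.init n))) :
    run Q inp w (haltTime Q inp w n) (Cfg.init n) = run Q inp w t (Cfg.init n) := by
  obtain ⟨s, hs⟩ := Nat.exists_eq_add_of_le (haltTime_le h)
  conv_rhs => rw [hs, run_add, run_halted (haltTime_halted h)]

/-! ### fair coins -/

/-- one fair coin -/
noncomputable def coin : Measure Bool := (PMF.uniformOfFintype Bool).toMeasure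

instance : IsProbabilityMeasure coin := by unfold coin; infer_instance

theorem coin_singleton (b : Bool) : coin {b} = 2⁻¹ := by
  rw [coin, PMF.toMeasure_apply_singleton _ _ (measurableSet_singleton b),
    PMF.uniformOfFintype_apply]
  simp

/-- an infinite sequence of independent fair coins -/
noncomputable def coins : Measure (ℕ → Bool) := Measure.infinitePi (fun _ => coin)

instance : IsProbabilityMeasure coins := by unfold coins; infer_instance

theorem coins_cylinder (m : ℕ) (b : Fin m → Bool) :
    coins {w | ∀ i : Fin m, w i = b i} = (2⁻¹ : ℝ≥0∞) ^ m := by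
  have h : {w : ℕ → Bool | ∀ i : Fin m, w i = b i} =
      Set.pi (Finset.range m : Set ℕ) (fun i => {if h : i < m then b ⟨i, h⟩ else false}) := by
    ext w
    simp only [Set.mem_ofPred_eq, Set.mem_pi, Finset.coe_range, Set.mem_Iio,
      Set.mem_singleton_iff]
    constructor
    · intro hw i hi
      rw [dif_pos hi]
      exact hw ⟨i, hi⟩
    · intro hw i
      have := hw i i.2
      rw [dif_pos i.2] at this
      exact this
  rw [h, coins, Measure.infinitePi_pi (fun _ => coin) (fun i _ => measurableSet_singleton _)]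
  simp [coin_singleton]

/-- Expectation of a function of the first `m` coins. -/
theorem lintegral_coins (m : ℕ) (G : List Bool → ℝ≥0∞) :
    ∫⁻ w, G ((List.range m).map w) ∂coins =
      (∑ b : Fin m → Bool, G (List.ofFn b)) / 2 ^ m := by
  have hφ : Measurable (fun (w : ℕ → Bool) (i : Fin m) => w i) :=
    measurable_pi_lambda _ (fun i => measurable_pi_apply _)
  have h1 : ∀ w : ℕ → Bool, (List.range m).map w = List.ofFn (fun i : Fin m => w i) := by
    intro w
    apply List.ext_getElem
    · simp
    · intro i h1 h2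
      simp
  have h2 : ∫⁻ w, G ((List.range m).map w) ∂coins =
      ∫⁻ b, G (List.ofFn b) ∂(coins.map (fun (w : ℕ → Bool) (i : Fin m) => w i)) := by
    rw [lintegral_map (measurable_of_finite _) hφ]
    simp only [h1]
  have h3 : ∀ b : Fin m → Bool,
      (coins.map (fun (w : ℕ → Bool) (i : Fin m) => w i)) {b} = (2⁻¹ : ℝ≥0∞) ^ m := by
    intro b
    rw [Measure.map_apply hφ (measurableSet_singleton b), ← coins_cylinder m b]
    congr 1
    ext w
    simp [funext_iff]
  rw [h2, lintegral_fintype]
  simp only [h3]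
  rw [← Finset.sum_mul, ENNReal.div_eq_inv_mul, mul_comm, ENNReal.inv_pow]

/-- Expected halting time from a pointwise bound by a function of the first `m` coins. -/
theorem expected_haltTime_le (Q : List Instr) (inp : ℕ → ℝ) (n m : ℕ) (F : List Bool → ℕ)
    (h : ∀ w : ℕ → Bool, haltTime Q inp w n ≤ F ((List.range m).map w)) :
    ∫⁻ w, (haltTime Q inp w n : ℝ≥0∞) ∂coins ≤
      (∑ b : Fin m → Bool, (F (List.ofFn b) : ℝ≥0∞)) / 2 ^ m := by
  rw [← lintegral_coins m (fun l => (F l : ℝ≥0∞))]
  exact lintegral_mono (fun w => Nat.cast_le.2 (h w))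

/-- The same with a real bound of the average. -/
theorem expected_haltTime_le' (Q : List Instr) (inp : ℕ → ℝ) (n m : ℕ) (F : List Bool → ℕ)
    (h : ∀ w : ℕ → Bool, haltTime Q inp w n ≤ F ((List.range m).map w)) (B : ℝ)
    (hB : (∑ b : Fin m → Bool, (F (List.ofFn b) : ℝ)) ≤ B * 2 ^ m) :
    ∫⁻ w, (haltTime Q inp w n : ℝ≥0∞) ∂coins ≤ ENNReal.ofReal B := by
  refine (expected_haltTime_le Q inp n m F h).trans ?_
  have h2 : (0 : ℝ) < 2 ^ m := by positivity
  rw [ENNReal.div_le_iff (by simp) (by simp)]
  have e1 : (∑ b : Fin m → Bool, (F (List.ofFn b) : ℝ≥0∞)) =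
      ENNReal.ofReal (∑ b : Fin m → Bool, (F (List.ofFn b) : ℝ)) := by
    rw [ENNReal.ofReal_sum_of_nonneg (fun _ _ => by positivity)]
    simp
  have e2 : (2 : ℝ≥0∞) ^ m = ENNReal.ofReal (2 ^ m) := by
    rw [ENNReal.ofReal_pow (by norm_num)]; simp
  rw [e1, e2]
  by_cases hB0 : 0 ≤ B
  · rw [← ENNReal.ofReal_mul hB0]
    exact ENNReal.ofReal_le_ofReal hB
  · have : (∑ b : Fin m → Bool, (F (List.ofFn b) : ℝ)) ≤ 0 :=
      hB.trans (mul_nonpos_of_nonpos_of_nonneg (not_le.1 hB0).le h2.le)
    rw [ENNReal.ofReal_of_nonpos this]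
    exact bot_le

end P7m
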