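/-
P7m.Coin2: expectations of functions of a block of coins, expected halting time of algorithms
with phases.
-/
import Pool.Agent.Lib.P7m.Coin

open MeasureTheory ENNReal

namespace P7m

theorem coins_block (M m : ℕ) (b : Fin m → Bool) :
    coins {w | ∀ i : Fin m, w (M + i) = b i} = (2⁻¹ : ℝ≥0∞) ^ m := by
  have h : {w : ℕ → Bool | ∀ i : Fin m, w (M + i) = b i} =
      Set.pi (Finset.Ico M (M + m) : Set ℕ)
        (fun i => {if h : i - M < m then b ⟨i - M, h⟩ else false}) := by
    ext w
    simp only [Set.mem_ofPred_eq, Set.mem_pi, Finset.coe_Ico, Set.mem_Ico,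
      Set.mem_singleton_iff]
    constructor
    · rintro hw i ⟨hi1, hi2⟩
      have hi : i - M < m := by omega
      rw [dif_pos hi]
      have := hw ⟨i - M, hi⟩
      simpa [Nat.add_sub_cancel' hi1] using this
    · intro hw i
      have := hw (M + i) ⟨by omega, by omega⟩
      have e : M + (i : ℕ) - M = i := by omega
      rw [dif_pos (by rw [e]; exact i.2)] at this
      rw [this]
      congr 1
      exact Fin.ext e
  rw [h, coins, Measure.infinitePi_pi (fun _ => coin) (fun i _ => measurableSet_singleton _)]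
  simp [coin_singleton]

/-- Expectation of a function of a block of `m` coins. -/
theorem lintegral_block (M m : ℕ) (G : List Bool → ℝ≥0∞) :
    ∫⁻ w, G ((List.range m).map (fun j => w (M + j))) ∂coins =
      (∑ b : Fin m → Bool, G (List.ofFn b)) / 2 ^ m := by
  have hφ : Measurable (fun (w : ℕ → Bool) (i : Fin m) => w (M + i)) :=
    measurable_pi_lambda _ (fun i => measurable_pi_apply _)
  have h1 : ∀ w : ℕ → Bool, (List.range m).map (fun j => w (M + j)) =
      List.ofFn (fun i : Fin m => w (M + i)) := by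
    intro w
    apply List.ext_getElem
    · simp
    · intro i h1 h2
      simp
  have h2 : ∫⁻ w, G ((List.range m).map (fun j => w (M + j))) ∂coins =
      ∫⁻ b, G (List.ofFn b) ∂(coins.map (fun (w : ℕ → Bool) (i : Fin m) => w (M + i))) := by
    rw [lintegral_map (measurable_of_finite _) hφ]
    simp only [h1]
  have h3 : ∀ b : Fin m → Bool,
      (coins.map (fun (w : ℕ → Bool) (i : Fin m) => w (M + i))) {b} = (2⁻¹ : ℝ≥0∞) ^ m := by
    intro b
    rw [Measure.map_apply hφ (measurableSet_singleton b), ← coins_block M m b]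
    congr 1
    ext w
    simp [funext_iff]
  rw [h2, lintegral_fintype]
  simp only [h3]
  rw [← Finset.sum_mul, ENNReal.div_eq_inv_mul, mul_comm, ENNReal.inv_pow]

/-- Expectation of a function of a block of `m` coins, real bound. -/
theorem lintegral_block_le (M m : ℕ) (F : List Bool → ℕ) (B : ℝ)
    (hB : (∑ b : Fin m → Bool, (F (List.ofFn b) : ℝ)) ≤ B * 2 ^ m) :
    ∫⁻ w, (F ((List.range m).map (fun j => w (M + j))) : ℝ≥0∞) ∂coins ≤ ENNReal.ofReal B := by
  rw [lintegral_block M m (fun l => (F l : ℝ≥0∞))]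
  have h2 : (0 : ℝ) < 2 ^ m := by positivity
  rw [ENNReal.div_le_iff (by simp) (by simp)]
  have e1 : (∑ b : Fin m → Bool, (F (List.ofFn b) : ℝ≥0∞)) =
      ENNReal.ofReal (∑ b : Fin m → Bool, (F (List.ofFn b) : ℝ)) := by
    rw [ENNReal.ofReal_sum_of_nonneg (fun _ _ => by positivity)]
    simp
  have e2 : (2 : ℝ≥0∞) ^ m = ENNReal.ofReal (2 ^ m) := by
    rw [ENNReal.ofReal_pow (by norm_num)]; simp
  rw [e1, e2]
  by_cases hB0 : 0 ≤ B
  · rw [← ENNReal.ofReal_mul hB0]
    exact ENNReal.ofReal_le_ofReal hB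
  · have : (∑ b : Fin m → Bool, (F (List.ofFn b) : ℝ)) ≤ 0 :=
      hB.trans (mul_nonpos_of_nonpos_of_nonneg (not_le.1 hB0).le h2.le)
    rw [ENNReal.ofReal_eq_zero.2 this]
    exact zero_le

/-- Expected halting time of an algorithm with phases: phase `i` uses the block of `N i` coins
after the blocks of the phases before it; `c0 + ∑ F i (block i)` bounds the halting time. -/
theorem expected_phases (Q : List Instr) (inp : ℕ → ℝ) (n : ℕ) (N : ℕ → ℕ)
    (F : ℕ → List Bool → ℕ) (s : ℕ) (c0 : ℕ)
    (h : ∀ w : ℕ → Bool, haltTime Q inp w n ≤ c0 + ∑ i ∈ Finset.range s,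
      F i ((List.range (N i)).map (fun j => w ((∑ i' ∈ Finset.range i, N i') + j))))
    (B : ℕ → ℝ) (hB0 : ∀ i, 0 ≤ B i)
    (hB : ∀ i < s, (∑ b : Fin (N i) → Bool, (F i (List.ofFn b) : ℝ)) ≤ B i * 2 ^ (N i)) :
    ∫⁻ w, (haltTime Q inp w n : ℝ≥0∞) ∂coins ≤
      ENNReal.ofReal (c0 + ∑ i ∈ Finset.range s, B i) := by
  have hm : ∀ i, Measurable (fun w : ℕ → Bool => (F i ((List.range (N i)).map
      (fun j => w ((∑ i' ∈ Finset.range i, N i') + j))) : ℝ≥0∞)) := by
    intro i
    have hφ : Measurable (fun (w : ℕ → Bool) (j : Fin (N i)) =>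
        w ((∑ i' ∈ Finset.range i, N i') + j)) :=
      measurable_pi_lambda _ (fun i => measurable_pi_apply _)
    have h1 : ∀ w : ℕ → Bool, (List.range (N i)).map
        (fun j => w ((∑ i' ∈ Finset.range i, N i') + j)) =
        List.ofFn (fun j : Fin (N i) => w ((∑ i' ∈ Finset.range i, N i') + j)) := by
      intro w
      apply List.ext_getElem
      · simp
      · intro i h1 h2
        simp
    have h2 : Measurable (fun b : Fin (N i) → Bool => (F i (List.ofFn b) : ℝ≥0∞)) :=
      measurable_of_finite _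
    have h3 := h2.comp hφ
    convert h3 using 2 with w
    simp only [Function.comp_apply, h1]
  calc ∫⁻ w, (haltTime Q inp w n : ℝ≥0∞) ∂coins
      ≤ ∫⁻ w, ((c0 : ℝ≥0∞) + ∑ i ∈ Finset.range s, (F i ((List.range (N i)).map
        (fun j => w ((∑ i' ∈ Finset.range i, N i') + j))) : ℝ≥0∞)) ∂coins := by
        refine lintegral_mono (fun w => ?_)
        have := h w
        calc (haltTime Q inp w n : ℝ≥0∞) ≤ ((c0 + ∑ i ∈ Finset.range s,
            F i ((List.range (N i)).map
              (fun j => w ((∑ i' ∈ Finset.range i, N i') + j))) : ℕ) : ℝ≥0∞) :=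
              Nat.cast_le.2 this
          _ = _ := by push_cast; rfl
    _ = (c0 : ℝ≥0∞) + ∑ i ∈ Finset.range s, ∫⁻ w, (F i ((List.range (N i)).map
        (fun j => w ((∑ i' ∈ Finset.range i, N i') + j))) : ℝ≥0∞) ∂coins := by
        rw [lintegral_add_left measurable_const, lintegral_finsetSum _ (fun i _ => hm i)]
        simp
    _ ≤ (c0 : ℝ≥0∞) + ∑ i ∈ Finset.range s, ENNReal.ofReal (B i) := by
        gcongr with i hi
        exact lintegral_block_le _ _ _ _ (hB i (Finset.mem_range.1 hi))
    _ = _ := by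
        rw [ENNReal.ofReal_add (by positivity) (Finset.sum_nonneg (fun i _ => hB0 i)),
          ENNReal.ofReal_sum_of_nonneg (fun i _ => hB0 i)]
        simp

end P7m
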