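/-
P7m.Stm: structured programs on a machine with several integer memories, the intermediate
language between `Prog` and the flat real RAM.
-/
import Pool.Agent.Lib.P7m.RAM

namespace P7m

/-- Basic operations. -/
inductive Op : Type
  | set (d k : ℕ)
  | mov (d a : ℕ)
  | add (d a b : ℕ)
  | sub (d a b : ℕ)
  /-- `r_d := W_j[r_a]` -/
  | load (d j a : ℕ)
  /-- `W_j[r_a] := r_b` -/
  | store (j a b : ℕ)
  | rzero (d : ℕ)
  | rone (d : ℕ)
  | radd (d a b : ℕ)
  | rsub (d a b : ℕ)
  | rmul (d a b : ℕ)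
  | rdiv (d a b : ℕ)
  | rload (d a : ℕ)
  | rstore (a b : ℕ)
  | rinp (d a : ℕ)
  | flip (d : ℕ)
  | outn (a : ℕ)
  | outr (a : ℕ)

/-- Structured programs. -/
inductive Stm : Type
  | op (o : Op)
  | seq (s t : Stm)
  /-- if `r_a < r_b` then `s` else `t` -/
  | ifl (a b : ℕ) (s t : Stm)
  /-- if `x_a < x_b` then `s` else `t` -/
  | ifr (a b : ℕ) (s t : Stm)
  /-- while `r_a < r_b` do `s` -/
  | wh (a b : ℕ) (s : Stm)

/-- States of the machine with several integer memories `W_0, W_1, ...`. -/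
@[ext] structure MSt : Type where
  r : ℕ → ℕ
  x : ℕ → ℝ
  W : ℕ → ℕ → ℕ
  R : ℕ → ℝ
  k : ℕ
  out : List (ℕ ⊕ ℝ)

open Function in
/-- Effect of a basic operation. -/
noncomputable def Op.app (inp : ℕ → ℝ) (w : ℕ → Bool) (c : MSt) : Op → MSt
  | .set d k => { c with r := update c.r d k }
  | .mov d a => { c with r := update c.r d (c.r a) }
  | .add d a b => { c with r := update c.r d (c.r a + c.r b) }
  | .sub d a b => { c with r := update c.r d (c.r a - c.r b) }
  | .load d j a => { c with r := update c.r d (c.W j (c.r a)) }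
  | .store j a b => { c with W := update c.W j (update (c.W j) (c.r a) (c.r b)) }
  | .rzero d => { c with x := update c.x d 0 }
  | .rone d => { c with x := update c.x d 1 }
  | .radd d a b => { c with x := update c.x d (c.x a + c.x b) }
  | .rsub d a b => { c with x := update c.x d (c.x a - c.x b) }
  | .rmul d a b => { c with x := update c.x d (c.x a * c.x b) }
  | .rdiv d a b => { c with x := update c.x d (c.x a / c.x b) }
  | .rload d a => { c with x := update c.x d (c.R (c.r a)) }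
  | .rstore a b => { c with R := update c.R (c.r a) (c.x b) }
  | .rinp d a => { c with x := update c.x d (inp (c.r a)) }
  | .flip d => { c with r := update c.r d (if w c.k then 1 else 0), k := c.k + 1 }
  | .outn a => { c with out := c.out ++ [Sum.inl (c.r a)] }
  | .outr a => { c with out := c.out ++ [Sum.inr (c.x a)] }

/-- The operation is allowed (no division by zero). -/
def Op.ok (c : MSt) : Op → Prop
  | .rdiv _ _ b => c.x b ≠ 0
  | _ => True

/-- Big step semantics with cost. -/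
inductive Exec (inp : ℕ → ℝ) (w : ℕ → Bool) : Stm → MSt → MSt → ℕ → Prop
  | op (o : Op) (σ : MSt) (h : o.ok σ) : Exec inp w (.op o) σ (o.app inp w σ) 1
  | seq {s s' : Stm} {σ σ' σ'' : MSt} {t t' : ℕ} (h : Exec inp w s σ σ' t)
      (h' : Exec inp w s' σ' σ'' t') : Exec inp w (.seq s s') σ σ'' (t + t')
  | iflT {a b : ℕ} {s s' : Stm} {σ σ' : MSt} {t : ℕ} (hc : σ.r a < σ.r b)
      (h : Exec inp w s σ σ' t) : Exec inp w (.ifl a b s s') σ σ' (t + 1)
  | iflF {a b : ℕ} {s s' : Stm} {σ σ' : MSt} {t : ℕ} (hc : ¬ σ.r a < σ.r b)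
      (h : Exec inp w s' σ σ' t) : Exec inp w (.ifl a b s s') σ σ' (t + 1)
  | ifrT {a b : ℕ} {s s' : Stm} {σ σ' : MSt} {t : ℕ} (hc : σ.x a < σ.x b)
      (h : Exec inp w s σ σ' t) : Exec inp w (.ifr a b s s') σ σ' (t + 1)
  | ifrF {a b : ℕ} {s s' : Stm} {σ σ' : MSt} {t : ℕ} (hc : ¬ σ.x a < σ.x b)
      (h : Exec inp w s' σ σ' t) : Exec inp w (.ifr a b s s') σ σ' (t + 1)
  | whT {a b : ℕ} {s : Stm} {σ σ' σ'' : MSt} {t t' : ℕ} (hc : σ.r a < σ.r b)
      (h : Exec inp w s σ σ' t) (h' : Exec inp w (.wh a b s) σ' σ'' t') :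
      Exec inp w (.wh a b s) σ σ'' (t + t' + 1)
  | whF {a b : ℕ} {s : Stm} {σ : MSt} (hc : ¬ σ.r a < σ.r b) :
      Exec inp w (.wh a b s) σ σ 1

/-- Initial state with `n` in register 0. -/
def MSt.init (n : ℕ) : MSt where
  r := fun i => if i = 0 then n else 0
  x := fun _ => 0
  W := fun _ _ => 0
  R := fun _ => 0
  k := 0
  out := []

end P7m
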