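/-
P7m.Comp: compilation of the working language `Prog` into structured programs `Stm`:
definitions (`compile`, representation of values in the heap, simulation relation) and the
basic lemmas (heap extension, allocation).

Registers: 0 = first free heap cell, 1 = pointer to the current value, 2 = time stamp counter,
3, 4, 5, 6, 7 temporary, registers >= 8 saved values (numbered by the static depth `d`).
Memories: 0 = natural labels, 1 = first children, 2 = second children, R = real labels,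
3 + 2 j and 4 + 2 j = contents and time stamps of the scratch memory of scope level `j`; the
current time stamp of level `j` is in register `e`.
-/
import Pool.Agent.Lib.P7m.Defs
import Pool.Agent.Lib.P7m.Stm

namespace P7m

/-- a list of basic operations -/
def ops : List Op → Stm
  | [] => .op (.mov 7 7)
  | o :: l => .seq (.op o) (ops l)

/-- allocate a new node with labels `r_3`, `x_0` and children `r_4`, `r_5` -/
def allocL : List Op :=
  [.store 0 0 3, .store 1 0 4, .store 2 0 5, .rstore 0 0, .mov 1 0, .set 6 1, .add 0 0 6]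

/-- compilation; `d` = first free saved register, `j` = scope level, `e` = register of the
current time stamp -/
def compile : Prog → ℕ → ℕ → ℕ → Stm
  | .id, _, _, _ => ops []
  | .seq f g, d, j, e => .seq (compile f d j e) (compile g d j e)
  | .mk k f g, d, j, e =>
    .seq (.op (.mov d 1)) (.seq (compile f (d + 1) j e) (.seq (ops [.mov (d + 1) 1, .mov 1 d])
      (.seq (compile g (d + 2) j e)
        (ops ([.set 3 k, .mov 4 (d + 1), .mov 5 1, .rzero 0] ++ allocL)))))
  | .fst, _, _, _ => .op (.load 1 1 1)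
  | .snd, _, _, _ => .op (.load 1 2 1)
  | .nil, _, _, _ => .op (.set 1 0)
  | .const k, _, _, _ => ops ([.set 3 k, .set 4 0, .set 5 0, .rzero 0] ++ allocL)
  | .getn, _, _, _ => ops ([.load 3 0 1, .set 4 0, .set 5 0, .rzero 0] ++ allocL)
  | .nadd, _, _, _ => ops ([.load 4 1 1, .load 3 0 4, .load 4 2 1, .load 5 0 4, .add 3 3 5,
      .set 4 0, .set 5 0, .rzero 0] ++ allocL)
  | .nsub, _, _, _ => ops ([.load 4 1 1, .load 3 0 4, .load 4 2 1, .load 5 0 4, .sub 3 3 5,
      .set 4 0, .set 5 0, .rzero 0] ++ allocL)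
  | .nlt, _, _, _ => .seq (ops [.load 4 1 1, .load 3 0 4, .load 4 2 1, .load 5 0 4])
      (.ifl 3 5 (ops ([.set 3 1, .set 4 0, .set 5 0, .rzero 0] ++ allocL)) (.op (.set 1 0)))
  | .rzero, _, _, _ => ops ([.set 3 0, .set 4 0, .set 5 0, .rzero 0] ++ allocL)
  | .rone, _, _, _ => ops ([.set 3 0, .set 4 0, .set 5 0, .rone 0] ++ allocL)
  | .radd, _, _, _ => ops ([.load 4 1 1, .rload 0 4, .load 4 2 1, .rload 1 4, .radd 0 0 1,
      .set 3 0, .set 4 0, .set 5 0] ++ allocL)
  | .rsub, _, _, _ => ops ([.load 4 1 1, .rload 0 4, .load 4 2 1, .rload 1 4, .rsub 0 0 1,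
      .set 3 0, .set 4 0, .set 5 0] ++ allocL)
  | .rmul, _, _, _ => ops ([.load 4 1 1, .rload 0 4, .load 4 2 1, .rload 1 4, .rmul 0 0 1,
      .set 3 0, .set 4 0, .set 5 0] ++ allocL)
  | .rdiv, _, _, _ =>
    .seq (ops [.load 4 1 1, .rload 0 4, .load 4 2 1, .rload 1 4, .rzero 2])
      (.seq (.ifr 1 2 (.op (.rdiv 0 0 1)) (.ifr 2 1 (.op (.rdiv 0 0 1)) (.op (.rzero 0))))
        (ops ([.set 3 0, .set 4 0, .set 5 0] ++ allocL)))
  | .rlt, _, _, _ => .seq (ops [.load 4 1 1, .rload 0 4, .load 4 2 1, .rload 1 4])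
      (.ifr 0 1 (ops ([.set 3 1, .set 4 0, .set 5 0, .rzero 0] ++ allocL)) (.op (.set 1 0)))
  | .ite c f g, d, j, e =>
    .seq (.op (.mov d 1)) (.seq (compile c (d + 1) j e)
      (.seq (ops [.load 3 0 1, .mov 1 d, .set 4 0])
        (.ifl 4 3 (compile f d j e) (compile g d j e))))
  | .loop f, d, j, e =>
    .seq (ops [.load 3 1 1, .load d 0 3, .load 1 2 1, .set (d + 1) 0])
      (.wh (d + 1) d (.seq (compile f (d + 2) j e) (ops [.set 3 1, .sub d d 3])))
  | .fold f, d, j, e =>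
    .seq (ops [.load d 1 1, .load 1 2 1, .set (d + 1) 0, .load (d + 2) 0 d])
      (.wh (d + 1) (d + 2)
        (.seq (ops ([.set 3 0, .load 4 1 d, .mov 5 1, .rzero 0] ++ allocL))
          (.seq (compile f (d + 3) j e) (ops [.load d 2 d, .load (d + 2) 0 d]))))
  | .scope f, d, j, _ =>
    .seq (ops [.set 3 1, .add 2 2 3, .mov d 2]) (compile f (d + 1) (j + 1) d)
  | .read, _, j, e =>
    .seq (ops [.load 3 0 1, .load 4 (4 + 2 * j) 3, .load 5 (3 + 2 * j) 3])
      (.ifl 4 e (.op (.set 1 0)) (.ifl e 4 (.op (.set 1 0)) (.op (.mov 1 5))))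
  | .write, _, j, e =>
    ops [.load 3 1 1, .load 3 0 3, .load 4 2 1, .store (3 + 2 * j) 3 4, .store (4 + 2 * j) 3 e,
      .set 1 0]
  | .inp, _, _, _ => ops ([.load 3 0 1, .rinp 0 3, .set 3 0, .set 4 0, .set 5 0] ++ allocL)
  | .flip, _, _, _ => .seq (ops [.flip 3, .set 4 0])
      (.ifl 4 3 (ops ([.set 3 1, .set 4 0, .set 5 0, .rzero 0] ++ allocL)) (.op (.set 1 0)))
  | .outn, _, _, _ => ops [.load 3 0 1, .outn 3, .set 1 0]
  | .outr, _, _, _ => ops [.rload 0 1, .outr 0, .set 1 0]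

/-- the pointer `p` represents the value -/
def Rep (σ : MSt) : ℕ → Val → Prop
  | p, .leaf => p = 0
  | p, .node n x a b =>
    p ≠ 0 ∧ p < σ.r 0 ∧ σ.W 0 p = n ∧ σ.R p = x ∧ Rep σ (σ.W 1 p) a ∧ Rep σ (σ.W 2 p) b

/-- the scratch memory of level `j` represents `m` -/
def MemRep (σ : MSt) (j e : ℕ) (m : ℕ → Val) : Prop :=
  ∀ i, if σ.W (4 + 2 * j) i = σ.r e then Rep σ (σ.W (3 + 2 * j) i) (m i) else m i = .leaf

/-- simulation relation -/
structure Sim (j e : ℕ) (σ : MSt) (s : St) : Prop where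
  hp : 1 ≤ σ.r 0
  z0 : σ.W 0 0 = 0
  z1 : σ.W 1 0 = 0
  z2 : σ.W 2 0 = 0
  z3 : σ.R 0 = 0
  stamp : ∀ j' i, σ.W (4 + 2 * j') i ≤ σ.r 2
  ee : σ.r e ≤ σ.r 2
  v : Rep σ (σ.r 1) s.v
  m : MemRep σ j e s.m
  k : σ.k = s.k
  out : σ.out = s.out

/-- what is preserved by compiled code of depth `d` and level `j` -/
structure Frame (d j : ℕ) (σ σ' : MSt) : Prop where
  hp : σ.r 0 ≤ σ'.r 0
  w : ∀ q < 3, ∀ p < σ.r 0, σ'.W q p = σ.W q p
  real : ∀ p < σ.r 0, σ'.R p = σ.R p
  regs : ∀ i, 8 ≤ i → i < d → σ'.r i = σ.r i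
  banks : ∀ j' < j, σ'.W (3 + 2 * j') = σ.W (3 + 2 * j') ∧ σ'.W (4 + 2 * j') = σ.W (4 + 2 * j')
  stamp : σ.r 2 ≤ σ'.r 2

theorem Frame.refl (d j : ℕ) (σ : MSt) : Frame d j σ σ :=
  ⟨le_refl _, fun _ _ _ _ => rfl, fun _ _ => rfl, fun _ _ _ => rfl, fun _ _ => ⟨rfl, rfl⟩,
    le_refl _⟩

theorem Frame.trans {d j : ℕ} {σ σ' σ'' : MSt} (h : Frame d j σ σ') (h' : Frame d j σ' σ'') :
    Frame d j σ σ'' where
  hp := h.hp.trans h'.hp
  w := fun q hq p hp => (h'.w q hq p (lt_of_lt_of_le hp h.hp)).trans (h.w q hq p hp)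
  real := fun p hp => (h'.real p (lt_of_lt_of_le hp h.hp)).trans (h.real p hp)
  regs := fun i h1 h2 => (h'.regs i h1 h2).trans (h.regs i h1 h2)
  banks := fun j' hj => ⟨(h'.banks j' hj).1.trans (h.banks j' hj).1,
    (h'.banks j' hj).2.trans (h.banks j' hj).2⟩
  stamp := h.stamp.trans h'.stamp

theorem Frame.mono {d d' j j' : ℕ} {σ σ' : MSt} (h : Frame d' j' σ σ') (hd : d ≤ d')
    (hj : j ≤ j') : Frame d j σ σ' where
  hp := h.hp
  w := h.w
  real := h.real
  regs := fun i h1 h2 => h.regs i h1 (lt_of_lt_of_le h2 hd)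
  banks := fun i h1 => h.banks i (lt_of_lt_of_le h1 hj)
  stamp := h.stamp

theorem Rep.frame {d j : ℕ} {σ σ' : MSt} (h : Frame d j σ σ') {v : Val} :
    ∀ {p : ℕ}, Rep σ p v → Rep σ' p v := by
  induction v with
  | leaf => exact fun h0 => h0
  | node n x a b iha ihb =>
    rintro p ⟨h1, h2, h3, h4, h5, h6⟩
    refine ⟨h1, lt_of_lt_of_le h2 h.hp, ?_, ?_, ?_, ?_⟩
    · rw [h.w 0 (by norm_num) p h2]; exact h3
    · rw [h.real p h2]; exact h4
    · rw [h.w 1 (by norm_num) p h2]; exact iha h5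
    · rw [h.w 2 (by norm_num) p h2]; exact ihb h6

/-- reading the labels and children through the representation -/
theorem Sim.fst {j e : ℕ} {σ : MSt} {s : St} (h : Sim j e σ s) {p : ℕ} {v : Val}
    (hv : Rep σ p v) : Rep σ (σ.W 1 p) v.fst := by
  cases v with
  | leaf => rw [show p = 0 from hv, h.z1]; rfl
  | node n x a b => exact hv.2.2.2.2.1

theorem Sim.snd {j e : ℕ} {σ : MSt} {s : St} (h : Sim j e σ s) {p : ℕ} {v : Val}
    (hv : Rep σ p v) : Rep σ (σ.W 2 p) v.snd := by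
  cases v with
  | leaf => rw [show p = 0 from hv, h.z2]; rfl
  | node n x a b => exact hv.2.2.2.2.2

theorem Sim.nn {j e : ℕ} {σ : MSt} {s : St} (h : Sim j e σ s) {p : ℕ} {v : Val}
    (hv : Rep σ p v) : σ.W 0 p = v.nn := by
  cases v with
  | leaf => rw [show p = 0 from hv, h.z0]; rfl
  | node n x a b => exact hv.2.2.1

theorem Sim.rr {j e : ℕ} {σ : MSt} {s : St} (h : Sim j e σ s) {p : ℕ} {v : Val}
    (hv : Rep σ p v) : σ.R p = v.rr := by
  cases v with
  | leaf => rw [show p = 0 from hv, h.z3]; rfl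
  | node n x a b => exact hv.2.2.2.1

/-- `σ'` differs from `σ` only in the registers 1, 3, ..., 7, in registers `≥ d` and in the
real registers -/
structure Near (d : ℕ) (σ σ' : MSt) : Prop where
  r0 : σ'.r 0 = σ.r 0
  r2 : σ'.r 2 = σ.r 2
  r : ∀ i, 8 ≤ i → i < d → σ'.r i = σ.r i
  W : σ'.W = σ.W
  R : σ'.R = σ.R
  k : σ'.k = σ.k
  out : σ'.out = σ.out

theorem Near.refl (d : ℕ) (σ : MSt) : Near d σ σ :=
  ⟨rfl, rfl, fun _ _ _ => rfl, rfl, rfl, rfl, rfl⟩

theorem Near.trans {d : ℕ} {σ σ' σ'' : MSt} (h : Near d σ σ') (h' : Near d σ' σ'') :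
    Near d σ σ'' :=
  ⟨h'.r0.trans h.r0, h'.r2.trans h.r2, fun i h1 h2 => (h'.r i h1 h2).trans (h.r i h1 h2),
    h'.W.trans h.W, h'.R.trans h.R, h'.k.trans h.k, h'.out.trans h.out⟩

theorem Near.frame {d : ℕ} {σ σ' : MSt} (h : Near d σ σ') (j : ℕ) : Frame d j σ σ' where
  hp := by rw [h.r0]
  w := fun q _ p _ => by rw [h.W]
  real := fun p _ => by rw [h.R]
  regs := h.r
  banks := fun j' _ => by rw [h.W]; exact ⟨rfl, rfl⟩
  stamp := by rw [h.r2]

theorem Near.symm {d : ℕ} {σ σ' : MSt} (h : Near d σ σ') : Near d σ' σ :=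
  ⟨h.r0.symm, h.r2.symm, fun i h1 h2 => (h.r i h1 h2).symm, h.W.symm, h.R.symm, h.k.symm,
    h.out.symm⟩

theorem Near.rep {d : ℕ} {σ σ' : MSt} (h : Near d σ σ') {p : ℕ} {v : Val} :
    Rep σ' p v ↔ Rep σ p v :=
  ⟨Rep.frame (h.symm.frame 0), Rep.frame (h.frame 0)⟩

theorem Near.sim {d j e : ℕ} {σ σ' : MSt} {s s' : St} (h : Near d σ σ') (he : 8 ≤ e)
    (hed : e < d) (hs : Sim j e σ s) (hv : Rep σ (σ'.r 1) s'.v) (hm : s'.m = s.m)
    (hk : s'.k = s.k) (hout : s'.out = s.out) : Sim j e σ' s' where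
  hp := by rw [h.r0]; exact hs.hp
  z0 := by rw [h.W]; exact hs.z0
  z1 := by rw [h.W]; exact hs.z1
  z2 := by rw [h.W]; exact hs.z2
  z3 := by rw [h.R]; exact hs.z3
  stamp := fun j' i => by rw [h.W, h.r2]; exact hs.stamp j' i
  ee := by rw [h.r e he hed, h.r2]; exact hs.ee
  v := h.rep.2 hv
  m := fun i => by
    have := hs.m i
    rw [h.W, h.r e he hed, hm]
    split_ifs at this ⊢ with hc
    · exact h.rep.2 this
    · exact this
  k := by rw [h.k, hk]; exact hs.k
  out := by rw [h.out, hout]; exact hs.out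

/-! ### execution of lists of operations -/

theorem exec_ops (inp : ℕ → ℝ) (w : ℕ → Bool) (l : List Op) (hl : ∀ o ∈ l, ∀ σ, Op.ok σ o)
    (σ : MSt) : Exec inp w (ops l) σ (l.foldl (fun c o => o.app inp w c) σ) (l.length + 1) := by
  induction l generalizing σ with
  | nil =>
    have h := Exec.op (inp := inp) (w := w) (.mov 7 7) σ trivial
    have e : (Op.mov 7 7).app inp w σ = σ := by
      simp [Op.app]
    rw [e] at h
    exact h
  | cons o l ih =>
    have h1 := Exec.op (inp := inp) (w := w) o σ (hl o (by simp) σ)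
    have h2 := ih (fun o' ho' => hl o' (by simp [ho'])) (o.app inp w σ)
    have h3 := Exec.seq h1 h2
    rw [List.length_cons, List.foldl_cons, add_comm (l.length + 1) 1]
    exact h3

/-- the state after allocation -/
def allocSt (σ : MSt) : MSt :=
  { σ with
    r := Function.update (Function.update (Function.update σ.r 1 (σ.r 0)) 6 1) 0 (σ.r 0 + 1)
    W := Function.update (Function.update (Function.update σ.W 0
      (Function.update (σ.W 0) (σ.r 0) (σ.r 3))) 1
      (Function.update (σ.W 1) (σ.r 0) (σ.r 4))) 2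
      (Function.update (σ.W 2) (σ.r 0) (σ.r 5))
    R := Function.update σ.R (σ.r 0) (σ.x 0) }

theorem foldl_alloc (inp : ℕ → ℝ) (w : ℕ → Bool) (σ : MSt) :
    allocL.foldl (fun c o => Op.app inp w c o) σ = allocSt σ := by
  simp only [allocL, List.foldl_cons, List.foldl_nil, Op.app, allocSt]
  ext1
  · simp [Function.update_of_ne]
  · rfl
  · simp [Function.update_of_ne]
  · simp
  · rfl
  · rfl

@[simp] lemma allocSt_r0 (σ : MSt) : (allocSt σ).r 0 = σ.r 0 + 1 := by simp [allocSt]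
@[simp] lemma allocSt_r1 (σ : MSt) : (allocSt σ).r 1 = σ.r 0 := by
  simp [allocSt, Function.update_of_ne]
@[simp] lemma allocSt_r2 (σ : MSt) : (allocSt σ).r 2 = σ.r 2 := by
  simp [allocSt, Function.update_of_ne]
lemma allocSt_r (σ : MSt) (i : ℕ) (hi : 8 ≤ i) : (allocSt σ).r i = σ.r i := by
  have h0 : i ≠ 0 := by omega
  have h1 : i ≠ 1 := by omega
  have h6 : i ≠ 6 := by omega
  simp [allocSt, Function.update_of_ne, h0, h1, h6]
@[simp] lemma allocSt_k (σ : MSt) : (allocSt σ).k = σ.k := rfl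
@[simp] lemma allocSt_out (σ : MSt) : (allocSt σ).out = σ.out := rfl
lemma allocSt_W0 (σ : MSt) : (allocSt σ).W 0 = Function.update (σ.W 0) (σ.r 0) (σ.r 3) := by
  simp [allocSt, Function.update_of_ne]
lemma allocSt_W1 (σ : MSt) : (allocSt σ).W 1 = Function.update (σ.W 1) (σ.r 0) (σ.r 4) := by
  simp [allocSt, Function.update_of_ne]
lemma allocSt_W2 (σ : MSt) : (allocSt σ).W 2 = Function.update (σ.W 2) (σ.r 0) (σ.r 5) := by
  simp [allocSt]
lemma allocSt_W (σ : MSt) (q : ℕ) (hq : 3 ≤ q) : (allocSt σ).W q = σ.W q := by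
  have h0 : q ≠ 0 := by omega
  have h1 : q ≠ 1 := by omega
  have h2 : q ≠ 2 := by omega
  simp [allocSt, Function.update_of_ne, h0, h1, h2]
lemma allocSt_R (σ : MSt) : (allocSt σ).R = Function.update σ.R (σ.r 0) (σ.x 0) := rfl

theorem alloc_frame (d j : ℕ) (σ : MSt) : Frame d j σ (allocSt σ) where
  hp := by simp
  w := fun q hq p hp => by
    have hp' : p ≠ σ.r 0 := by omega
    interval_cases q
    · rw [allocSt_W0, Function.update_of_ne hp']
    · rw [allocSt_W1, Function.update_of_ne hp']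
    · rw [allocSt_W2, Function.update_of_ne hp']
  real := fun p hp => by
    have hp' : p ≠ σ.r 0 := by omega
    rw [allocSt_R, Function.update_of_ne hp']
  regs := fun i h1 _ => allocSt_r σ i h1
  banks := fun j' _ => ⟨allocSt_W σ _ (by omega), allocSt_W σ _ (by omega)⟩
  stamp := by simp

theorem alloc_sim {j e : ℕ} {σ : MSt} {s : St} (h : Sim j e σ s) (he : 8 ≤ e) {a b : Val}
    (ha : Rep σ (σ.r 4) a) (hb : Rep σ (σ.r 5) b) :
    Sim j e (allocSt σ) { s with v := .node (σ.r 3) (σ.x 0) a b } where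
  hp := by simp
  z0 := by
    have := h.hp
    rw [allocSt_W0, Function.update_of_ne (by omega)]; exact h.z0
  z1 := by
    have := h.hp
    rw [allocSt_W1, Function.update_of_ne (by omega)]; exact h.z1
  z2 := by
    have := h.hp
    rw [allocSt_W2, Function.update_of_ne (by omega)]; exact h.z2
  z3 := by
    have := h.hp
    rw [allocSt_R, Function.update_of_ne (by omega)]; exact h.z3
  stamp := fun j' i => by
    rw [allocSt_W σ _ (by omega), allocSt_r2]; exact h.stamp j' i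
  ee := by rw [allocSt_r σ e he, allocSt_r2]; exact h.ee
  v := by
    have h0 := h.hp
    refine ⟨by simp; omega, by simp, ?_, ?_, ?_, ?_⟩
    · rw [allocSt_r1, allocSt_W0, Function.update_self]
    · rw [allocSt_r1, allocSt_R, Function.update_self]
    · rw [allocSt_r1, allocSt_W1, Function.update_self]
      exact Rep.frame (alloc_frame 0 0 σ) ha
    · rw [allocSt_r1, allocSt_W2, Function.update_self]
      exact Rep.frame (alloc_frame 0 0 σ) hb
  m := fun i => by
    have := h.m i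
    rw [allocSt_W σ _ (by omega), allocSt_W σ _ (by omega), allocSt_r σ e he]
    split_ifs at this ⊢ with hc
    · exact Rep.frame (alloc_frame 0 0 σ) this
    · exact this
  k := h.k
  out := h.out

/-- Correctness of the compilation of one program. -/
def Correct (P : Prog) : Prop :=
  ∃ C : ℕ, ∀ (inp : ℕ → ℝ) (w : ℕ → Bool) (d j e : ℕ) (σ : MSt) (s : St), 8 ≤ e → e < d →
    Sim j e σ s → ∃ (σ' : MSt) (t : ℕ), Exec inp w (compile P d j e) σ σ' t ∧
      Sim j e σ' (eval inp w P s).1 ∧ Frame d j σ σ' ∧ t ≤ C * (eval inp w P s).2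

end P7m
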