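/-
P7m.CompA: correctness of the compilation of the elementary programs.
-/
import Pool.Agent.Lib.P7m.Comp

namespace P7m

/-- registers that may be overwritten at depth `d` -/
def okReg (d t : ℕ) : Prop := t = 1 ∨ (3 ≤ t ∧ t < 8) ∨ (8 ≤ t ∧ d ≤ t)

/-- operations which change only such registers and real registers -/
def nearOp (d : ℕ) : Op → Prop
  | .set t _ => okReg d t
  | .mov t _ => okReg d t
  | .add t _ _ => okReg d t
  | .sub t _ _ => okReg d t
  | .load t _ _ => okReg d t
  | .rzero _ => True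
  | .rone _ => True
  | .radd _ _ _ => True
  | .rsub _ _ _ => True
  | .rmul _ _ _ => True
  | .rload _ _ => True
  | .rinp _ _ => True
  | _ => False

theorem near_reg (d t v : ℕ) (σ : MSt) (h : okReg d t) :
    Near d σ { σ with r := Function.update σ.r t v } := by
  unfold okReg at h
  refine ⟨?_, ?_, ?_, rfl, rfl, rfl, rfl⟩
  · exact Function.update_of_ne (by omega) _ _
  · exact Function.update_of_ne (by omega) _ _
  · intro i h1 h2
    exact Function.update_of_ne (by omega) _ _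

theorem near_op (inp : ℕ → ℝ) (w : ℕ → Bool) (d : ℕ) (o : Op) (h : nearOp d o) (σ : MSt) :
    Near d σ (o.app inp w σ) ∧ o.ok σ := by
  cases o <;> simp only [nearOp] at h
  case set d1 k => exact ⟨near_reg d _ _ σ h, trivial⟩
  case mov => exact ⟨near_reg d _ _ σ h, trivial⟩
  case add => exact ⟨near_reg d _ _ σ h, trivial⟩
  case sub => exact ⟨near_reg d _ _ σ h, trivial⟩
  case load => exact ⟨near_reg d _ _ σ h, trivial⟩
  all_goals exact ⟨⟨rfl, rfl, fun _ _ _ => rfl, rfl, rfl, rfl, rfl⟩, trivial⟩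

theorem near_ops (inp : ℕ → ℝ) (w : ℕ → Bool) (d : ℕ) (l : List Op) (h : ∀ o ∈ l, nearOp d o)
    (σ : MSt) : Near d σ (l.foldl (fun c o => o.app inp w c) σ) := by
  induction l generalizing σ with
  | nil => exact Near.refl d σ
  | cons o l ih =>
    exact (near_op inp w d o (h o (by simp)) σ).1.trans
      (ih (fun o' ho' => h o' (by simp [ho'])) _)

theorem exec_near (inp : ℕ → ℝ) (w : ℕ → Bool) (d : ℕ) (l : List Op)
    (h : ∀ o ∈ l, nearOp d o) (σ : MSt) :
    Exec inp w (ops l) σ (l.foldl (fun c o => o.app inp w c) σ) (l.length + 1) :=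
  exec_ops inp w l (fun o ho σ => (near_op inp w d o (h o ho) σ).2) σ

/-- programs whose code is: preparation of the registers 3, 4, 5, 0 and then allocation -/
theorem exec_alloc (inp : ℕ → ℝ) (w : ℕ → Bool) {d j e : ℕ} (he : 8 ≤ e) (hed : e < d)
    (l : List Op) (h : ∀ o ∈ l, nearOp d o) {σ : MSt} {s : St} (hs : Sim j e σ s)
    {n : ℕ} {x : ℝ} {a b : Val}
    (h3 : (l.foldl (fun c o => o.app inp w c) σ).r 3 = n)
    (hx : (l.foldl (fun c o => o.app inp w c) σ).x 0 = x)
    (h4 : Rep σ ((l.foldl (fun c o => o.app inp w c) σ).r 4) a)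
    (h5 : Rep σ ((l.foldl (fun c o => o.app inp w c) σ).r 5) b) :
    ∃ (σ' : MSt) (t : ℕ), Exec inp w (ops (l ++ allocL)) σ σ' t ∧
      Sim j e σ' { s with v := .node n x a b } ∧ Frame d j σ σ' ∧ t ≤ l.length + 8 := by
  set σ1 := l.foldl (fun c o => o.app inp w c) σ with hσ1
  have hn : Near d σ σ1 := near_ops inp w d l h σ
  have hex := exec_ops inp w (l ++ allocL) (by
    intro o ho σ
    rcases List.mem_append.1 ho with ho | ho
    · exact (near_op inp w d o (h o ho) σ).2
    · simp only [allocL, List.mem_cons, List.not_mem_nil, or_false] at ho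
      rcases ho with rfl | rfl | rfl | rfl | rfl | rfl | rfl <;> trivial) σ
  rw [List.foldl_append, foldl_alloc, ← hσ1] at hex
  refine ⟨_, _, hex, ?_, ?_, ?_⟩
  · -- first the simulation for σ1 with an arbitrary value
    have hs2 : Sim j e { σ1 with r := Function.update σ1.r 1 0 } { s with v := .leaf } := by
      refine Near.sim (hn.trans (near_reg d 1 0 σ1 (Or.inl rfl))) he hed hs ?_ rfl rfl rfl
      simp [Rep]
    have hn2 : Near d { σ1 with r := Function.update σ1.r 1 0 } σ1 := by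
      have := near_reg d 1 (σ1.r 1) { σ1 with r := Function.update σ1.r 1 0 } (Or.inl rfl)
      simpa using this
    have key := alloc_sim (σ := { σ1 with r := Function.update σ1.r 1 0 }) (a := a) (b := b)
      hs2 he
      (by
        rw [hn2.symm.rep]
        simpa [Function.update_of_ne] using hn.rep.2 h4)
      (by
        rw [hn2.symm.rep]
        simpa [Function.update_of_ne] using hn.rep.2 h5)
    have e1 : allocSt { σ1 with r := Function.update σ1.r 1 0 } = allocSt σ1 := by
      simp [allocSt, Function.update_of_ne]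
    rw [e1] at key
    simpa [Function.update_of_ne, h3, hx] using key
  · exact (hn.frame j).trans (alloc_frame d j σ1)
  · simp [allocL]

theorem correct_id : Correct .id := by
  refine ⟨1, fun inp w d j e σ s he hed hs => ?_⟩
  exact ⟨_, _, exec_near inp w d [] (by simp) σ, hs, Frame.refl d j σ, le_refl _⟩

theorem correct_fst : Correct .fst := by
  refine ⟨1, fun inp w d j e σ s he hed hs => ?_⟩
  refine ⟨_, _, Exec.op _ σ trivial, ?_, ?_, le_refl _⟩
  · refine Near.sim (near_op inp w d (.load 1 1 1) (Or.inl rfl) σ).1 he hed hs ?_ rfl rfl rfl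
    simpa [Op.app, eval] using hs.fst hs.v
  · exact (near_op inp w d (.load 1 1 1) (Or.inl rfl) σ).1.frame j

theorem correct_snd : Correct .snd := by
  refine ⟨1, fun inp w d j e σ s he hed hs => ?_⟩
  refine ⟨_, _, Exec.op _ σ trivial, ?_, ?_, le_refl _⟩
  · refine Near.sim (near_op inp w d (.load 1 2 1) (Or.inl rfl) σ).1 he hed hs ?_ rfl rfl rfl
    simpa [Op.app, eval] using hs.snd hs.v
  · exact (near_op inp w d (.load 1 2 1) (Or.inl rfl) σ).1.frame j

theorem correct_nil : Correct .nil := by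
  refine ⟨1, fun inp w d j e σ s he hed hs => ?_⟩
  refine ⟨_, _, Exec.op _ σ trivial, ?_, ?_, le_refl _⟩
  · refine Near.sim (near_op inp w d (.set 1 0) (Or.inl rfl) σ).1 he hed hs ?_ rfl rfl rfl
    simp [Op.app, eval, Rep]
  · exact (near_op inp w d (.set 1 0) (Or.inl rfl) σ).1.frame j

theorem correct_const (k : ℕ) : Correct (.const k) := by
  refine ⟨12, fun inp w d j e σ s he hed hs => ?_⟩
  obtain ⟨σ', t, h1, h2, h3, h4⟩ := exec_alloc inp w (n := k) (x := 0) (a := .leaf) (b := .leaf)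
    he hed [.set 3 k, .set 4 0, .set 5 0, .rzero 0] (by simp [nearOp, okReg]) hs
    (by simp [Op.app, Function.update_of_ne])
    (by simp [Op.app])
    (by simp [Op.app, Function.update_of_ne, Rep])
    (by simp [Op.app, Rep])
  exact ⟨σ', t, h1, h2, h3, by simpa [eval] using h4⟩

theorem correct_getn : Correct .getn := by
  refine ⟨12, fun inp w d j e σ s he hed hs => ?_⟩
  obtain ⟨σ', t, h1, h2, h3, h4⟩ := exec_alloc inp w (n := s.v.nn) (x := 0) (a := .leaf)
    (b := .leaf) he hed [.load 3 0 1, .set 4 0, .set 5 0, .rzero 0] (by simp [nearOp, okReg]) hs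
    (by simpa [Op.app, Function.update_of_ne] using hs.nn hs.v)
    (by simp [Op.app])
    (by simp [Op.app, Function.update_of_ne, Rep])
    (by simp [Op.app, Rep])
  exact ⟨σ', t, h1, h2, h3, by simpa [eval] using h4⟩

theorem correct_nadd : Correct .nadd := by
  refine ⟨16, fun inp w d j e σ s he hed hs => ?_⟩
  have e1 := hs.nn (hs.fst hs.v)
  have e2 := hs.nn (hs.snd hs.v)
  obtain ⟨σ', t, h1, h2, h3, h4⟩ := exec_alloc inp w (n := s.v.fst.nn + s.v.snd.nn) (x := 0)
    (a := .leaf) (b := .leaf) he hed [.load 4 1 1, .load 3 0 4, .load 4 2 1, .load 5 0 4,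
      .add 3 3 5, .set 4 0, .set 5 0, .rzero 0] (by simp [nearOp, okReg]) hs
    (by simp [Op.app, Function.update_of_ne, e1, e2])
    (by simp [Op.app])
    (by simp [Op.app, Function.update_of_ne, Rep])
    (by simp [Op.app, Rep])
  exact ⟨σ', t, h1, h2, h3, by simpa [eval] using h4⟩

theorem correct_nsub : Correct .nsub := by
  refine ⟨16, fun inp w d j e σ s he hed hs => ?_⟩
  have e1 := hs.nn (hs.fst hs.v)
  have e2 := hs.nn (hs.snd hs.v)
  obtain ⟨σ', t, h1, h2, h3, h4⟩ := exec_alloc inp w (n := s.v.fst.nn - s.v.snd.nn) (x := 0)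
    (a := .leaf) (b := .leaf) he hed [.load 4 1 1, .load 3 0 4, .load 4 2 1, .load 5 0 4,
      .sub 3 3 5, .set 4 0, .set 5 0, .rzero 0] (by simp [nearOp, okReg]) hs
    (by simp [Op.app, Function.update_of_ne, e1, e2])
    (by simp [Op.app])
    (by simp [Op.app, Function.update_of_ne, Rep])
    (by simp [Op.app, Rep])
  exact ⟨σ', t, h1, h2, h3, by simpa [eval] using h4⟩

theorem correct_rzero : Correct .rzero := by
  refine ⟨12, fun inp w d j e σ s he hed hs => ?_⟩
  obtain ⟨σ', t, h1, h2, h3, h4⟩ := exec_alloc inp w (n := 0) (x := 0) (a := .leaf) (b := .leaf)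
    he hed [.set 3 0, .set 4 0, .set 5 0, .rzero 0] (by simp [nearOp, okReg]) hs
    (by simp [Op.app, Function.update_of_ne])
    (by simp [Op.app])
    (by simp [Op.app, Function.update_of_ne, Rep])
    (by simp [Op.app, Rep])
  exact ⟨σ', t, h1, h2, h3, by simpa [eval] using h4⟩

theorem correct_rone : Correct .rone := by
  refine ⟨12, fun inp w d j e σ s he hed hs => ?_⟩
  obtain ⟨σ', t, h1, h2, h3, h4⟩ := exec_alloc inp w (n := 0) (x := 1) (a := .leaf) (b := .leaf)
    he hed [.set 3 0, .set 4 0, .set 5 0, .rone 0] (by simp [nearOp, okReg]) hs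
    (by simp [Op.app, Function.update_of_ne])
    (by simp [Op.app])
    (by simp [Op.app, Function.update_of_ne, Rep])
    (by simp [Op.app, Rep])
  exact ⟨σ', t, h1, h2, h3, by simpa [eval] using h4⟩

theorem correct_radd : Correct .radd := by
  refine ⟨16, fun inp w d j e σ s he hed hs => ?_⟩
  have e1 := hs.rr (hs.fst hs.v)
  have e2 := hs.rr (hs.snd hs.v)
  obtain ⟨σ', t, h1, h2, h3, h4⟩ := exec_alloc inp w (n := 0) (x := s.v.fst.rr + s.v.snd.rr)
    (a := .leaf) (b := .leaf) he hed [.load 4 1 1, .rload 0 4, .load 4 2 1, .rload 1 4,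
      .radd 0 0 1, .set 3 0, .set 4 0, .set 5 0] (by simp [nearOp, okReg]) hs
    (by simp [Op.app, Function.update_of_ne])
    (by simp [Op.app, Function.update_of_ne, e1, e2])
    (by simp [Op.app, Function.update_of_ne, Rep])
    (by simp [Op.app, Rep])
  exact ⟨σ', t, h1, h2, h3, by simpa [eval] using h4⟩

theorem correct_rsub : Correct .rsub := by
  refine ⟨16, fun inp w d j e σ s he hed hs => ?_⟩
  have e1 := hs.rr (hs.fst hs.v)
  have e2 := hs.rr (hs.snd hs.v)
  obtain ⟨σ', t, h1, h2, h3, h4⟩ := exec_alloc inp w (n := 0) (x := s.v.fst.rr - s.v.snd.rr)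
    (a := .leaf) (b := .leaf) he hed [.load 4 1 1, .rload 0 4, .load 4 2 1, .rload 1 4,
      .rsub 0 0 1, .set 3 0, .set 4 0, .set 5 0] (by simp [nearOp, okReg]) hs
    (by simp [Op.app, Function.update_of_ne])
    (by simp [Op.app, Function.update_of_ne, e1, e2])
    (by simp [Op.app, Function.update_of_ne, Rep])
    (by simp [Op.app, Rep])
  exact ⟨σ', t, h1, h2, h3, by simpa [eval] using h4⟩

theorem correct_rmul : Correct .rmul := by
  refine ⟨16, fun inp w d j e σ s he hed hs => ?_⟩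
  have e1 := hs.rr (hs.fst hs.v)
  have e2 := hs.rr (hs.snd hs.v)
  obtain ⟨σ', t, h1, h2, h3, h4⟩ := exec_alloc inp w (n := 0) (x := s.v.fst.rr * s.v.snd.rr)
    (a := .leaf) (b := .leaf) he hed [.load 4 1 1, .rload 0 4, .load 4 2 1, .rload 1 4,
      .rmul 0 0 1, .set 3 0, .set 4 0, .set 5 0] (by simp [nearOp, okReg]) hs
    (by simp [Op.app, Function.update_of_ne])
    (by simp [Op.app, Function.update_of_ne, e1, e2])
    (by simp [Op.app, Function.update_of_ne, Rep])
    (by simp [Op.app, Rep])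
  exact ⟨σ', t, h1, h2, h3, by simpa [eval] using h4⟩

theorem correct_inp : Correct .inp := by
  refine ⟨16, fun inp w d j e σ s he hed hs => ?_⟩
  have e1 := hs.nn hs.v
  obtain ⟨σ', t, h1, h2, h3, h4⟩ := exec_alloc inp w (n := 0) (x := inp s.v.nn)
    (a := .leaf) (b := .leaf) he hed [.load 3 0 1, .rinp 0 3, .set 3 0, .set 4 0, .set 5 0]
    (by simp [nearOp, okReg]) hs
    (by simp [Op.app, Function.update_of_ne])
    (by simp [Op.app, e1])
    (by simp [Op.app, Function.update_of_ne, Rep])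
    (by simp [Op.app, Rep])
  refine ⟨σ', t, h1, h2, h3, ?_⟩
  simp only [eval, mul_one]
  exact h4.trans (by simp)

/-- a truth value: allocate a node with label 1 -/
theorem exec_true (inp : ℕ → ℝ) (w : ℕ → Bool) {d j e : ℕ} (he : 8 ≤ e) (hed : e < d)
    {σ : MSt} {s : St} (hs : Sim j e σ s) :
    ∃ (σ' : MSt) (t : ℕ), Exec inp w (ops ([.set 3 1, .set 4 0, .set 5 0, .rzero 0] ++ allocL))
      σ σ' t ∧ Sim j e σ' { s with v := .bool true } ∧ Frame d j σ σ' ∧ t ≤ 12 :=
  exec_alloc inp w (n := 1) (x := 0) (a := .leaf) (b := .leaf)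
    he hed [.set 3 1, .set 4 0, .set 5 0, .rzero 0] (by simp [nearOp, okReg]) hs
    (by simp [Op.app, Function.update_of_ne])
    (by simp [Op.app])
    (by simp [Op.app, Function.update_of_ne, Rep])
    (by simp [Op.app, Rep])

theorem exec_false (inp : ℕ → ℝ) (w : ℕ → Bool) {d j e : ℕ} (he : 8 ≤ e) (hed : e < d)
    {σ : MSt} {s : St} (hs : Sim j e σ s) :
    ∃ (σ' : MSt), Exec inp w (.op (.set 1 0)) σ σ' 1 ∧
      Sim j e σ' { s with v := .leaf } ∧ Frame d j σ σ' := by
  refine ⟨_, Exec.op _ σ trivial, ?_, ?_⟩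
  · refine Near.sim (near_op inp w d (.set 1 0) (Or.inl rfl) σ).1 he hed hs ?_ rfl rfl rfl
    simp [Op.app, Rep]
  · exact (near_op inp w d (.set 1 0) (Or.inl rfl) σ).1.frame j

theorem correct_nlt : Correct .nlt := by
  refine ⟨20, fun inp w d j e σ s he hed hs => ?_⟩
  have e1 := hs.nn (hs.fst hs.v)
  have e2 := hs.nn (hs.snd hs.v)
  have hl : ∀ o ∈ [Op.load 4 1 1, .load 3 0 4, .load 4 2 1, .load 5 0 4], nearOp d o := by
    simp [nearOp, okReg]
  have hn := near_ops inp w d _ hl σ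
  have hx := exec_near inp w d _ hl σ
  set σ1 := [Op.load 4 1 1, .load 3 0 4, .load 4 2 1, .load 5 0 4].foldl
    (fun c o => Op.app inp w c o) σ with hσ1
  have hs1 : Sim j e σ1 s := Near.sim hn he hed hs
    (by simpa [hσ1, Op.app, Function.update_of_ne] using hs.v) rfl rfl rfl
  have h3 : σ1.r 3 = s.v.fst.nn := by simp [hσ1, Op.app, Function.update_of_ne, e1]
  have h5 : σ1.r 5 = s.v.snd.nn := by simp [hσ1, Op.app, Function.update_of_ne, e2]
  by_cases hc : s.v.fst.nn < s.v.snd.nn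
  · obtain ⟨σ', t, a1, a2, a3, a4⟩ := exec_true inp w he hed hs1
    refine ⟨σ', _, Exec.seq hx (Exec.iflT (by rw [h3, h5]; exact hc) a1), ?_,
      (hn.frame j).trans a3, ?_⟩
    · simpa [eval, hc] using a2
    · simp [eval]; omega
  · obtain ⟨σ', a1, a2, a3⟩ := exec_false inp w he hed hs1
    refine ⟨σ', _, Exec.seq hx (Exec.iflF (by rw [h3, h5]; exact hc) a1), ?_,
      (hn.frame j).trans a3, ?_⟩
    · simpa [eval, hc] using a2
    · simp [eval]

theorem correct_rlt : Correct .rlt := by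
  refine ⟨20, fun inp w d j e σ s he hed hs => ?_⟩
  have e1 := hs.rr (hs.fst hs.v)
  have e2 := hs.rr (hs.snd hs.v)
  have hl : ∀ o ∈ [Op.load 4 1 1, .rload 0 4, .load 4 2 1, .rload 1 4], nearOp d o := by
    simp [nearOp, okReg]
  have hn := near_ops inp w d _ hl σ
  have hx := exec_near inp w d _ hl σ
  set σ1 := [Op.load 4 1 1, .rload 0 4, .load 4 2 1, .rload 1 4].foldl
    (fun c o => Op.app inp w c o) σ with hσ1
  have hs1 : Sim j e σ1 s := Near.sim hn he hed hs
    (by simpa [hσ1, Op.app, Function.update_of_ne] using hs.v) rfl rfl rfl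
  have h3 : σ1.x 0 = s.v.fst.rr := by simp [hσ1, Op.app, Function.update_of_ne, e1]
  have h5 : σ1.x 1 = s.v.snd.rr := by simp [hσ1, Op.app, Function.update_of_ne, e2]
  by_cases hc : s.v.fst.rr < s.v.snd.rr
  · obtain ⟨σ', t, a1, a2, a3, a4⟩ := exec_true inp w he hed hs1
    refine ⟨σ', _, Exec.seq hx (Exec.ifrT (by rw [h3, h5]; exact hc) a1), ?_,
      (hn.frame j).trans a3, ?_⟩
    · simpa [eval, hc] using a2
    · simp [eval]; omega
  · obtain ⟨σ', a1, a2, a3⟩ := exec_false inp w he hed hs1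
    refine ⟨σ', _, Exec.seq hx (Exec.ifrF (by rw [h3, h5]; exact hc) a1), ?_,
      (hn.frame j).trans a3, ?_⟩
    · simpa [eval, hc] using a2
    · simp [eval]

theorem correct_rdiv : Correct .rdiv := by
  refine ⟨24, fun inp w d j e σ s he hed hs => ?_⟩
  have e1 := hs.rr (hs.fst hs.v)
  have e2 := hs.rr (hs.snd hs.v)
  have hl : ∀ o ∈ [Op.load 4 1 1, .rload 0 4, .load 4 2 1, .rload 1 4, .rzero 2],
      nearOp d o := by
    simp [nearOp, okReg]
  have hn := near_ops inp w d _ hl σ
  have hx := exec_near inp w d _ hl σ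
  set σ1 := [Op.load 4 1 1, .rload 0 4, .load 4 2 1, .rload 1 4, .rzero 2].foldl
    (fun c o => Op.app inp w c o) σ with hσ1
  have hs1 : Sim j e σ1 s := Near.sim hn he hed hs
    (by simpa [hσ1, Op.app, Function.update_of_ne] using hs.v) rfl rfl rfl
  have h3 : σ1.x 0 = s.v.fst.rr := by simp [hσ1, Op.app, Function.update_of_ne, e1]
  have h5 : σ1.x 1 = s.v.snd.rr := by simp [hσ1, Op.app, Function.update_of_ne, e2]
  have h2 : σ1.x 2 = 0 := by simp [hσ1, Op.app]
  -- the middle part
  have hmid : ∃ (σ2 : MSt) (t : ℕ), Exec inp w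
      (.ifr 1 2 (.op (.rdiv 0 0 1)) (.ifr 2 1 (.op (.rdiv 0 0 1)) (.op (.rzero 0)))) σ1 σ2 t ∧
      Near d σ1 σ2 ∧ σ2.r 1 = σ1.r 1 ∧ σ2.x 0 = s.v.fst.rr / s.v.snd.rr ∧ t ≤ 3 := by
    by_cases hc : s.v.snd.rr = 0
    · refine ⟨_, _, Exec.ifrF (by rw [h5, h2, hc]; simp) (Exec.ifrF (by rw [h5, h2, hc]; simp)
        (Exec.op _ _ trivial)), ⟨rfl, rfl, fun _ _ _ => rfl, rfl, rfl, rfl, rfl⟩, rfl, ?_,
        by norm_num⟩
      simp [Op.app, hc]
    · rcases lt_or_gt_of_ne hc with hc' | hc'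
      · refine ⟨_, _, Exec.ifrT (by rw [h5, h2]; exact hc') (Exec.op _ _
          (by show σ1.x 1 ≠ 0; rw [h5]; exact hc)),
          ⟨rfl, rfl, fun _ _ _ => rfl, rfl, rfl, rfl, rfl⟩, rfl, ?_, by norm_num⟩
        simp [Op.app, h3, h5]
      · refine ⟨_, _, Exec.ifrF (by rw [h5, h2]; exact not_lt.2 hc'.le)
          (Exec.ifrT (by rw [h5, h2]; exact hc') (Exec.op _ _
          (by show σ1.x 1 ≠ 0; rw [h5]; exact hc))),
          ⟨rfl, rfl, fun _ _ _ => rfl, rfl, rfl, rfl, rfl⟩, rfl, ?_, by norm_num⟩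
        simp [Op.app, h3, h5]
  obtain ⟨σ2, t2, m1, m2, m3, m4, m5⟩ := hmid
  have hs2 : Sim j e σ2 s := Near.sim m2 he hed hs1 (by rw [m3]; exact hs1.v) rfl rfl rfl
  obtain ⟨σ', t, h1, h2', h3', h4⟩ := exec_alloc inp w (n := 0)
    (x := s.v.fst.rr / s.v.snd.rr) (a := .leaf) (b := .leaf)
    he hed [.set 3 0, .set 4 0, .set 5 0] (by simp [nearOp, okReg]) hs2
    (by simp [Op.app, Function.update_of_ne])
    (by simp [Op.app, m4])
    (by simp [Op.app, Function.update_of_ne, Rep])
    (by simp [Op.app, Rep])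
  refine ⟨σ', _, Exec.seq hx (Exec.seq m1 h1), h2', (hn.frame j).trans
    ((m2.frame j).trans h3'), ?_⟩
  simp only [List.length_cons, List.length_nil] at h4
  simp [eval]; omega

theorem correct_flip : Correct .flip := by
  refine ⟨24, fun inp w d j e σ s he hed hs => ?_⟩
  have hx := exec_ops inp w [.flip 3, .set 4 0] (by simp [Op.ok]) σ
  set σ1 := [Op.flip 3, .set 4 0].foldl (fun c o => Op.app inp w c o) σ with hσ1
  have h3 : σ1.r 3 = if w s.k then 1 else 0 := by
    simp [hσ1, Op.app, Function.update_of_ne, hs.k]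
  have h4 : σ1.r 4 = 0 := by simp [hσ1, Op.app]
  have hn : Near d σ { σ1 with k := σ.k } := by
    refine ⟨?_, ?_, ?_, ?_, ?_, rfl, ?_⟩
    · simp [hσ1, Op.app, Function.update_of_ne]
    · simp [hσ1, Op.app, Function.update_of_ne]
    · intro i h1 h2
      simp [hσ1, Op.app, Function.update_of_ne (show i ≠ 4 by omega),
        Function.update_of_ne (show i ≠ 3 by omega)]
    · simp [hσ1, Op.app]
    · simp [hσ1, Op.app]
    · simp [hσ1, Op.app]
  have hs0 : Sim j e { σ1 with k := σ.k } s := Near.sim hn he hed hs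
    (by simpa [hσ1, Op.app, Function.update_of_ne] using hs.v) rfl rfl rfl
  have hf0 : Frame d j { σ1 with k := σ.k } σ1 :=
    ⟨le_refl _, fun _ _ _ _ => rfl, fun _ _ => rfl, fun _ _ _ => rfl, fun _ _ => ⟨rfl, rfl⟩,
    le_refl _⟩
  have hs1 : Sim j e σ1 { s with k := s.k + 1 } :=
    ⟨hs0.hp, hs0.z0, hs0.z1, hs0.z2, hs0.z3, hs0.stamp, hs0.ee, Rep.frame hf0 hs0.v,
      fun i => by
        have := hs0.m i
        simp only at this ⊢
        split_ifs at this ⊢ with hc
        · exact Rep.frame hf0 this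
        · exact this, by simp [hσ1, Op.app, hs.k], hs0.out⟩
  have hf1 : Frame d j σ σ1 := (hn.frame j).trans hf0
  by_cases hc : w s.k = true
  · obtain ⟨σ', t, a1, a2, a3, a4⟩ := exec_true inp w he hed hs1
    refine ⟨σ', _, Exec.seq hx (Exec.iflT (by rw [h3, h4]; simp [hc]) a1), ?_,
      hf1.trans a3, ?_⟩
    · simpa [eval, hc] using a2
    · simp [eval]; omega
  · obtain ⟨σ', a1, a2, a3⟩ := exec_false inp w he hed hs1
    refine ⟨σ', _, Exec.seq hx (Exec.iflF (by rw [h3, h4]; simp [hc]) a1), ?_,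
      hf1.trans a3, ?_⟩
    · simpa [eval, hc] using a2
    · simp [eval]

end P7m
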