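/-
P7m.CompB: correctness of the compilation: output, scratch memory, control structures; the
main theorem `correct` for all programs.
-/
import Pool.Agent.Lib.P7m.CompA

namespace P7m

theorem correct_outn : Correct .outn := by
  refine ⟨24, fun inp w d j e σ s he hed hs => ?_⟩
  have hx := exec_ops inp w [.load 3 0 1, .outn 3, .set 1 0] (by simp [Op.ok]) σ
  set σ1 := [Op.load 3 0 1, .outn 3, .set 1 0].foldl (fun c o => Op.app inp w c o) σ with hσ1
  have e1 := hs.nn hs.v
  have hn : Near d σ { σ1 with out := σ.out } := by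
    refine ⟨?_, ?_, ?_, ?_, ?_, ?_, rfl⟩
    · simp [hσ1, Op.app, Function.update_of_ne]
    · simp [hσ1, Op.app, Function.update_of_ne]
    · intro i h1 h2
      simp [hσ1, Op.app, Function.update_of_ne (show i ≠ 1 by omega),
        Function.update_of_ne (show i ≠ 3 by omega)]
    · simp [hσ1, Op.app]
    · simp [hσ1, Op.app]
    · simp [hσ1, Op.app]
  have hs0 : Sim j e { σ1 with out := σ.out } { s with v := .leaf } :=
    Near.sim hn he hed hs (by simp [hσ1, Op.app, Rep]) rfl rfl rfl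
  have hf0 : Frame d j { σ1 with out := σ.out } σ1 :=
    ⟨le_refl _, fun _ _ _ _ => rfl, fun _ _ => rfl, fun _ _ _ => rfl, fun _ _ => ⟨rfl, rfl⟩,
    le_refl _⟩
  refine ⟨σ1, _, hx, ?_, (hn.frame j).trans hf0, by simp [eval]⟩
  refine ⟨hs0.hp, hs0.z0, hs0.z1, hs0.z2, hs0.z3, hs0.stamp, hs0.ee, Rep.frame hf0 hs0.v,
      fun i => ?_, ?_, ?_⟩
  · have := hs0.m i
    simp only [eval] at this ⊢
    split_ifs at this ⊢ with hc
    · exact Rep.frame hf0 this
    · exact this
  · exact hs0.k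
  · simp [hσ1, Op.app, hs.out, eval, e1]

theorem correct_outr : Correct .outr := by
  refine ⟨24, fun inp w d j e σ s he hed hs => ?_⟩
  have hx := exec_ops inp w [.rload 0 1, .outr 0, .set 1 0] (by simp [Op.ok]) σ
  set σ1 := [Op.rload 0 1, .outr 0, .set 1 0].foldl (fun c o => Op.app inp w c o) σ with hσ1
  have e1 := hs.rr hs.v
  have hn : Near d σ { σ1 with out := σ.out } := by
    refine ⟨?_, ?_, ?_, ?_, ?_, ?_, rfl⟩
    · simp [hσ1, Op.app, Function.update_of_ne]
    · simp [hσ1, Op.app, Function.update_of_ne]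
    · intro i h1 h2
      simp [hσ1, Op.app, Function.update_of_ne (show i ≠ 1 by omega)]
    · simp [hσ1, Op.app]
    · simp [hσ1, Op.app]
    · simp [hσ1, Op.app]
  have hs0 : Sim j e { σ1 with out := σ.out } { s with v := .leaf } :=
    Near.sim hn he hed hs (by simp [hσ1, Op.app, Rep]) rfl rfl rfl
  have hf0 : Frame d j { σ1 with out := σ.out } σ1 :=
    ⟨le_refl _, fun _ _ _ _ => rfl, fun _ _ => rfl, fun _ _ _ => rfl, fun _ _ => ⟨rfl, rfl⟩,
    le_refl _⟩
  refine ⟨σ1, _, hx, ?_, (hn.frame j).trans hf0, by simp [eval]⟩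
  refine ⟨hs0.hp, hs0.z0, hs0.z1, hs0.z2, hs0.z3, hs0.stamp, hs0.ee, Rep.frame hf0 hs0.v,
      fun i => ?_, ?_, ?_⟩
  · have := hs0.m i
    simp only [eval] at this ⊢
    split_ifs at this ⊢ with hc
    · exact Rep.frame hf0 this
    · exact this
  · exact hs0.k
  · simp [hσ1, Op.app, hs.out, eval, e1]

theorem correct_read : Correct .read := by
  refine ⟨24, fun inp w d j e σ s he hed hs => ?_⟩
  have e1 := hs.nn hs.v
  have hl : ∀ o ∈ [Op.load 3 0 1, .load 4 (4 + 2 * j) 3, .load 5 (3 + 2 * j) 3],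
      nearOp d o := by
    simp [nearOp, okReg]
  have hn := near_ops inp w d _ hl σ
  have hx := exec_near inp w d _ hl σ
  set σ1 := [Op.load 3 0 1, .load 4 (4 + 2 * j) 3, .load 5 (3 + 2 * j) 3].foldl
    (fun c o => Op.app inp w c o) σ with hσ1
  have h4 : σ1.r 4 = σ.W (4 + 2 * j) s.v.nn := by simp [hσ1, Op.app, Function.update_of_ne, e1]
  have h5 : σ1.r 5 = σ.W (3 + 2 * j) s.v.nn := by simp [hσ1, Op.app, Function.update_of_ne, e1]
  have hre : σ1.r e = σ.r e := hn.r e he hed
  have hs1 : Sim j e σ1 s := Near.sim hn he hed hs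
    (by simpa [hσ1, Op.app, Function.update_of_ne] using hs.v) rfl rfl rfl
  have hm := hs.m s.v.nn
  rcases lt_trichotomy (σ1.r 4) (σ1.r e) with hc | hc | hc
  · obtain ⟨σ', a1, a2, a3⟩ := exec_false inp w he hed hs1
    refine ⟨σ', _, Exec.seq hx (Exec.iflT hc a1), ?_, (hn.frame j).trans a3, by simp [eval]⟩
    have : s.m s.v.nn = .leaf := by
      rw [if_neg (by rw [← h4, ← hre]; exact hc.ne)] at hm
      exact hm
    simpa [eval, this] using a2
  · rw [if_pos (by rw [← h4, ← hre]; exact hc)] at hm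
    refine ⟨_, _, Exec.seq hx (Exec.iflF hc.not_lt (Exec.iflF hc.not_gt (Exec.op _ _ trivial))),
      ?_, (hn.frame j).trans ((near_op inp w d (.mov 1 5) (Or.inl rfl) σ1).1.frame j),
      by simp [eval]⟩
    refine Near.sim (near_op inp w d (.mov 1 5) (Or.inl rfl) σ1).1 he hed hs1 ?_ rfl rfl rfl
    rw [hn.rep]
    simpa [Op.app, eval, h5] using hm
  · obtain ⟨σ', a1, a2, a3⟩ := exec_false inp w he hed hs1
    refine ⟨σ', _, Exec.seq hx (Exec.iflF hc.not_gt (Exec.iflT hc a1)), ?_,
      (hn.frame j).trans a3, by simp [eval]⟩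
    have : s.m s.v.nn = .leaf := by
      rw [if_neg (by rw [← h4, ← hre]; exact hc.ne')] at hm
      exact hm
    simpa [eval, this] using a2

theorem correct_write : Correct .write := by
  refine ⟨24, fun inp w d j e σ s he hed hs => ?_⟩
  have e1 := hs.nn (hs.fst hs.v)
  have e2 := hs.snd hs.v
  have hx := exec_ops inp w [.load 3 1 1, .load 3 0 3, .load 4 2 1, .store (3 + 2 * j) 3 4,
    .store (4 + 2 * j) 3 e, .set 1 0] (by simp [Op.ok]) σ
  set σ1 := [Op.load 3 1 1, .load 3 0 3, .load 4 2 1, .store (3 + 2 * j) 3 4,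
    .store (4 + 2 * j) 3 e, .set 1 0].foldl (fun c o => Op.app inp w c o) σ with hσ1
  have r0 : σ1.r 0 = σ.r 0 := by simp [hσ1, Op.app, Function.update_of_ne]
  have r1 : σ1.r 1 = 0 := by simp [hσ1, Op.app]
  have r2 : σ1.r 2 = σ.r 2 := by simp [hσ1, Op.app, Function.update_of_ne]
  have ri : ∀ i, 8 ≤ i → σ1.r i = σ.r i := by
    intro i h1
    simp [hσ1, Op.app, Function.update_of_ne (show i ≠ 1 by omega),
        Function.update_of_ne (show i ≠ 3 by omega), Function.update_of_ne (show i ≠ 4 by omega)]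
  have hR : σ1.R = σ.R := by simp [hσ1, Op.app]
  have hk : σ1.k = σ.k := by simp [hσ1, Op.app]
  have ho : σ1.out = σ.out := by simp [hσ1, Op.app]
  have hWq : ∀ q, q ≠ 3 + 2 * j → q ≠ 4 + 2 * j → σ1.W q = σ.W q := by
    intro q h1 h2
    simp [hσ1, Op.app, Function.update_of_ne h1, Function.update_of_ne h2]
  have hee : e ≠ 3 ∧ e ≠ 4 ∧ e ≠ 1 := by omega
  have hW3 : σ1.W (3 + 2 * j) =
      Function.update (σ.W (3 + 2 * j)) s.v.fst.nn (σ.W 2 (σ.r 1)) := by
    simp [hσ1, Op.app, Function.update_of_ne, e1]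
  have hW4 : σ1.W (4 + 2 * j) =
      Function.update (σ.W (4 + 2 * j)) s.v.fst.nn (σ.r e) := by
    simp [hσ1, Op.app, Function.update_of_ne, e1, hee.1, hee.2.1]
  have hf : Frame d j σ σ1 := by
    refine ⟨r0.ge, fun q hq p hp => ?_, fun p hp => ?_, fun i h1 _ => ri i h1,
      fun j' hj' => ⟨?_, ?_⟩, r2.ge⟩
    · rw [hWq q (by omega) (by omega)]
    · rw [hR]
    · rw [hWq _ (by omega) (by omega)]
    · rw [hWq _ (by omega) (by omega)]
  refine ⟨σ1, _, hx, ?_, hf, by simp [eval]⟩
  refine ⟨by rw [r0]; exact hs.hp, ?_, ?_, ?_, by rw [hR]; exact hs.z3, ?_, ?_, ?_, ?_, ?_, ?_⟩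
  · rw [hWq _ (by omega) (by omega)]; exact hs.z0
  · rw [hWq _ (by omega) (by omega)]; exact hs.z1
  · rw [hWq _ (by omega) (by omega)]; exact hs.z2
  · intro j' i
    rw [r2]
    by_cases hj : j' = j
    · subst hj
      rw [hW4]
      by_cases hi : i = s.v.fst.nn
      · subst hi; rw [Function.update_self]; exact hs.ee
      · rw [Function.update_of_ne hi]; exact hs.stamp _ _
    · rw [hWq _ (by omega) (by omega)]; exact hs.stamp _ _
  · rw [r2, ri e he]; exact hs.ee
  · simp [eval, Rep, r1]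
  · intro i
    rw [hW3, hW4, ri e he]
    simp only [eval]
    by_cases hi : i = s.v.fst.nn
    · subst hi
      rw [Function.update_self, Function.update_self, Function.update_self, if_pos rfl]
      exact Rep.frame hf e2
    · rw [Function.update_of_ne hi, Function.update_of_ne hi, Function.update_of_ne hi]
      have := hs.m i
      split_ifs at this ⊢ with hc
      · exact Rep.frame hf this
      · exact this
  · simpa [eval, hk] using hs.k
  · simpa [eval, ho] using hs.out

theorem correct_seq {f g : Prog} (hf : Correct f) (hg : Correct g) : Correct (.seq f g) := by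
  obtain ⟨C, hC⟩ := hf
  obtain ⟨D, hD⟩ := hg
  refine ⟨C + D, fun inp w d j e σ s he hed hs => ?_⟩
  obtain ⟨σ1, t1, a1, a2, a3, a4⟩ := hC inp w d j e σ s he hed hs
  obtain ⟨σ2, t2, b1, b2, b3, b4⟩ := hD inp w d j e σ1 _ he hed a2
  refine ⟨σ2, _, Exec.seq a1 b1, b2, a3.trans b3, ?_⟩
  simp only [eval]
  nlinarith [Nat.zero_le (C * (eval inp w g (eval inp w f s).1).2),
    Nat.zero_le (D * (eval inp w f s).2)]

theorem correct_mk (k : ℕ) {f g : Prog} (hf : Correct f) (hg : Correct g) :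
    Correct (.mk k f g) := by
  obtain ⟨C, hC⟩ := hf
  obtain ⟨D, hD⟩ := hg
  refine ⟨C + D + 20, fun inp w d j e σ s he hed hs => ?_⟩
  have hd : 8 ≤ d := by omega
  -- save v
  have n0 := (near_op inp w d (.mov d 1) (Or.inr (Or.inr ⟨hd, le_refl _⟩)) σ).1
  have x0 := Exec.op (inp := inp) (w := w) (.mov d 1) σ trivial
  set σ0 := Op.app inp w σ (.mov d 1) with hσ0
  have r0 : σ0.r d = σ.r 1 := by simp [hσ0, Op.app]
  have s0 : Sim j e σ0 s := Near.sim n0 he hed hs
    (by simpa [hσ0, Op.app, Function.update_of_ne (show (1 : ℕ) ≠ d by omega)] using hs.v)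
    rfl rfl rfl
  obtain ⟨σ1, t1, a1, a2, a3, a4⟩ := hC inp w (d + 1) j e σ0 s he (by omega) s0
  have r1 : σ1.r d = σ.r 1 := (a3.regs d hd (by omega)).trans r0
  -- exchange
  have hl : ∀ o ∈ [Op.mov (d + 1) 1, .mov 1 d], nearOp (d + 1) o := by
    intro o ho
    simp only [List.mem_cons, List.not_mem_nil, or_false] at ho
    rcases ho with rfl | rfl
    · exact Or.inr (Or.inr ⟨by omega, le_refl _⟩)
    · exact Or.inl rfl
  have n2 := near_ops inp w (d + 1) _ hl σ1
  have x2 := exec_near inp w (d + 1) _ hl σ1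
  set σ2 := [Op.mov (d + 1) 1, .mov 1 d].foldl (fun c o => Op.app inp w c o) σ1 with hσ2
  have q1 : σ2.r 1 = σ1.r d := by
    simp [hσ2, Op.app]
  have q2 : σ2.r (d + 1) = σ1.r 1 := by
    simp [hσ2, Op.app, Function.update_of_ne (show d + 1 ≠ 1 by omega)]
  have vv : Rep σ1 (σ.r 1) s.v := Rep.frame ((n0.frame j).trans (a3.mono (by omega) le_rfl)) hs.v
  have s2 : Sim j e σ2 { (eval inp w f s).1 with v := s.v } := Near.sim n2 he (by omega) a2
    (by rw [q1, r1]; exact vv) rfl rfl rfl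
  obtain ⟨σ3, t3, b1, b2, b3, b4⟩ := hD inp w (d + 2) j e σ2 _ he (by omega) s2
  have r3 : σ3.r (d + 1) = σ1.r 1 := (b3.regs (d + 1) (by omega) (by omega)).trans q2
  have vf : Rep σ3 (σ1.r 1) (eval inp w f s).1.v :=
    Rep.frame ((n2.frame j).trans (b3.mono (by omega) le_rfl)) a2.v
  obtain ⟨σ4, t4, c1, c2, c3, c4⟩ := exec_alloc inp w (d := d) (n := k) (x := 0)
    (a := (eval inp w f s).1.v)
    (b := (eval inp w g { (eval inp w f s).1 with v := s.v }).1.v)
    he hed [.set 3 k, .mov 4 (d + 1), .mov 5 1, .rzero 0] (by simp [nearOp, okReg]) b2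
    (by simp [Op.app, Function.update_of_ne])
    (by simp [Op.app])
    (by
      have : d + 1 ≠ 3 := by omega
      simpa [Op.app, Function.update_of_ne, this, r3] using vf)
    (by simpa [Op.app, Function.update_of_ne] using b2.v)
  refine ⟨σ4, _, Exec.seq x0 (Exec.seq a1 (Exec.seq x2 (Exec.seq b1 c1))), ?_, ?_, ?_⟩
  · simpa only [eval] using c2
  · exact (n0.frame j).trans ((a3.mono (by omega) le_rfl).trans
      (((n2.frame j).mono (by omega) le_rfl).trans ((b3.mono (by omega) le_rfl).trans c3)))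
  · simp only [eval]
    simp only [List.length_cons, List.length_nil] at c4 ⊢
    nlinarith [Nat.zero_le (C * (eval inp w g { (eval inp w f s).1 with v := s.v }).2),
      Nat.zero_le (D * (eval inp w f s).2)]

theorem correct_ite {c f g : Prog} (hc : Correct c) (hf : Correct f) (hg : Correct g) :
    Correct (.ite c f g) := by
  obtain ⟨B, hB⟩ := hc
  obtain ⟨C, hC⟩ := hf
  obtain ⟨D, hD⟩ := hg
  refine ⟨B + C + D + 20, fun inp w d j e σ s he hed hs => ?_⟩
  have hd : 8 ≤ d := by omega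
  have n0 := (near_op inp w d (.mov d 1) (Or.inr (Or.inr ⟨hd, le_refl _⟩)) σ).1
  have x0 := Exec.op (inp := inp) (w := w) (.mov d 1) σ trivial
  set σ0 := Op.app inp w σ (.mov d 1) with hσ0
  have r0 : σ0.r d = σ.r 1 := by simp [hσ0, Op.app]
  have s0 : Sim j e σ0 s := Near.sim n0 he hed hs
    (by simpa [hσ0, Op.app, Function.update_of_ne (show (1 : ℕ) ≠ d by omega)] using hs.v)
    rfl rfl rfl
  obtain ⟨σ1, t1, a1, a2, a3, a4⟩ := hB inp w (d + 1) j e σ0 s he (by omega) s0
  have r1 : σ1.r d = σ.r 1 := (a3.regs d hd (by omega)).trans r0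
  have hl : ∀ o ∈ [Op.load 3 0 1, .mov 1 d, .set 4 0], nearOp d o := by
    simp [nearOp, okReg]
  have n2 := near_ops inp w d _ hl σ1
  have x2 := exec_near inp w d _ hl σ1
  set σ2 := [Op.load 3 0 1, .mov 1 d, .set 4 0].foldl (fun c o => Op.app inp w c o) σ1 with hσ2
  have q1 : σ2.r 1 = σ1.r d := by
    simp [hσ2, Op.app, Function.update_of_ne, Function.update_of_ne (show d ≠ 3 by omega)]
  have q3 : σ2.r 3 = (eval inp w c s).1.v.nn := by
    simp [hσ2, Op.app, Function.update_of_ne, a2.nn a2.v]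
  have q4 : σ2.r 4 = 0 := by simp [hσ2, Op.app]
  have vv : Rep σ1 (σ.r 1) s.v := Rep.frame ((n0.frame j).trans (a3.mono (by omega) le_rfl)) hs.v
  have s2 : Sim j e σ2 { (eval inp w c s).1 with v := s.v } := Near.sim n2 he (by omega) a2
    (by rw [q1, r1]; exact vv) rfl rfl rfl
  have hfr : Frame d j σ σ2 :=
    (n0.frame j).trans ((a3.mono (by omega) le_rfl).trans (n2.frame j))
  by_cases h : (eval inp w c s).1.v.nn ≠ 0
  · obtain ⟨σ3, t3, b1, b2, b3, b4⟩ := hC inp w d j e σ2 _ he hed s2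
    refine ⟨σ3, _, Exec.seq x0 (Exec.seq a1 (Exec.seq x2
      (Exec.iflT (by rw [q3, q4]; omega) b1))), ?_, hfr.trans b3, ?_⟩
    · simp only [eval]; rw [if_pos h]; exact b2
    · simp only [eval]; rw [if_pos h]
      simp only [List.length_cons, List.length_nil]
      nlinarith [Nat.zero_le (B * (eval inp w f { (eval inp w c s).1 with v := s.v }).2),
        Nat.zero_le (C * (eval inp w c s).2), Nat.zero_le (D * (eval inp w c s).2),
        Nat.zero_le (D * (eval inp w f { (eval inp w c s).1 with v := s.v }).2)]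
  · obtain ⟨σ3, t3, b1, b2, b3, b4⟩ := hD inp w d j e σ2 _ he hed s2
    refine ⟨σ3, _, Exec.seq x0 (Exec.seq a1 (Exec.seq x2
      (Exec.iflF (by rw [q3, q4]; omega) b1))), ?_, hfr.trans b3, ?_⟩
    · simp only [eval]; rw [if_neg h]; exact b2
    · simp only [eval]; rw [if_neg h]
      simp only [List.length_cons, List.length_nil]
      nlinarith [Nat.zero_le (B * (eval inp w g { (eval inp w c s).1 with v := s.v }).2),
        Nat.zero_le (C * (eval inp w c s).2), Nat.zero_le (D * (eval inp w c s).2),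
        Nat.zero_le (C * (eval inp w g { (eval inp w c s).1 with v := s.v }).2)]

end P7m
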