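/-
P7m.CompC: correctness of the compilation: loops, scopes; the theorem for all programs.
-/
import Pool.Agent.Lib.P7m.CompB

namespace P7m

theorem correct_loop {f : Prog} (hf : Correct f) : Correct (.loop f) := by
  obtain ⟨C, hC⟩ := hf
  refine ⟨C + 20, fun inp w d j e σ s he hed hs => ?_⟩
  have hd : 8 ≤ d := by omega
  -- the while loop
  have key : ∀ (k : ℕ) (σ : MSt) (s : St), Sim j e σ s → σ.r d = k → σ.r (d + 1) = 0 →
      ∃ (σ' : MSt) (t : ℕ), Exec inp w (.wh (d + 1) d (.seq (compile f (d + 2) j e)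
        (ops [.set 3 1, .sub d d 3]))) σ σ' t ∧ Sim j e σ' (loopE (eval inp w f) k s).1 ∧
        Frame d j σ σ' ∧ t ≤ (C + 4) * (loopE (eval inp w f) k s).2 := by
    intro k
    induction k with
    | zero =>
      intro σ s hs h1 h2
      refine ⟨σ, 1, Exec.whF (by rw [h1, h2]; exact lt_irrefl _), hs, Frame.refl _ _ _, ?_⟩
      simp [loopE]
    | succ k ih =>
      intro σ s hs h1 h2
      obtain ⟨σ1, t1, a1, a2, a3, a4⟩ := hC inp w (d + 2) j e σ s he (by omega) hs
      have hl : ∀ o ∈ [Op.set 3 1, .sub d d 3], nearOp d o := by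
        intro o ho
        simp only [List.mem_cons, List.not_mem_nil, or_false] at ho
        rcases ho with rfl | rfl
        · exact Or.inr (Or.inl ⟨by omega, by omega⟩)
        · exact Or.inr (Or.inr ⟨by omega, le_refl _⟩)
      have n2 := near_ops inp w d _ hl σ1
      have x2 := exec_near inp w d _ hl σ1
      set σ2 := [Op.set 3 1, .sub d d 3].foldl (fun c o => Op.app inp w c o) σ1 with hσ2
      have q1 : σ2.r d = k := by
        have : σ1.r d = k + 1 := (a3.regs d hd (by omega)).trans h1
        simp [hσ2, Op.app, Function.update_of_ne (show d ≠ 3 by omega), this]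
      have q2 : σ2.r (d + 1) = 0 := by
        have : σ1.r (d + 1) = 0 := (a3.regs (d + 1) (by omega) (by omega)).trans h2
        simp [hσ2, Op.app, Function.update_of_ne (show d + 1 ≠ 3 by omega), this]
      have s2 : Sim j e σ2 (eval inp w f s).1 := Near.sim n2 he hed a2
        (by simpa [hσ2, Op.app, Function.update_of_ne (show (1 : ℕ) ≠ d by omega),
          Function.update_of_ne] using a2.v) rfl rfl rfl
      obtain ⟨σ3, t3, b1, b2, b3, b4⟩ := ih σ2 _ s2 q1 q2
      refine ⟨σ3, _, Exec.whT (by rw [h1, h2]; omega) (Exec.seq a1 x2) b1, ?_, ?_, ?_⟩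
      · simpa only [loopE] using b2
      · exact (a3.mono (by omega) le_rfl).trans ((n2.frame j).trans b3)
      · simp only [loopE, List.length_cons, List.length_nil]
        nlinarith
  have hl : ∀ o ∈ [Op.load 3 1 1, .load d 0 3, .load 1 2 1, .set (d + 1) 0], nearOp d o := by
    intro o ho
    simp only [List.mem_cons, List.not_mem_nil, or_false] at ho
    rcases ho with rfl | rfl | rfl | rfl
    · exact Or.inr (Or.inl ⟨by omega, by omega⟩)
    · exact Or.inr (Or.inr ⟨by omega, le_refl _⟩)
    · exact Or.inl rfl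
    · exact Or.inr (Or.inr ⟨by omega, by omega⟩)
  have n0 := near_ops inp w d _ hl σ
  have x0 := exec_near inp w d _ hl σ
  set σ0 := [Op.load 3 1 1, .load d 0 3, .load 1 2 1, .set (d + 1) 0].foldl
    (fun c o => Op.app inp w c o) σ with hσ0
  have q1 : σ0.r d = s.v.fst.nn := by
    simp [hσ0, Op.app,
      Function.update_of_ne (show d ≠ 1 by omega), hs.nn (hs.fst hs.v)]
  have q2 : σ0.r (d + 1) = 0 := by simp [hσ0, Op.app]
  have s0 : Sim j e σ0 { s with v := s.v.snd } := Near.sim n0 he hed hs
    (by
      have := hs.snd hs.v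
      simpa [hσ0, Op.app, Function.update_of_ne (show (1 : ℕ) ≠ d + 1 by omega),
        Function.update_of_ne (show (1 : ℕ) ≠ d by omega), Function.update_of_ne] using this)
    rfl rfl rfl
  obtain ⟨σ', t, b1, b2, b3, b4⟩ := key _ σ0 _ s0 q1 q2
  refine ⟨σ', _, Exec.seq x0 b1, ?_, (n0.frame j).trans b3, ?_⟩
  · simpa only [eval] using b2
  · have h1 : 1 ≤ (loopE (eval inp w f) s.v.fst.nn { s with v := s.v.snd }).2 := by
      cases s.v.fst.nn <;> simp [loopE]
    simp only [eval, List.length_cons, List.length_nil]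
    nlinarith

theorem correct_fold {f : Prog} (hf : Correct f) : Correct (.fold f) := by
  obtain ⟨C, hC⟩ := hf
  refine ⟨C + 50, fun inp w d j e σ s he hed hs => ?_⟩
  have hd : 8 ≤ d := by omega
  -- the while loop
  have key : ∀ (l : Val) (σ : MSt) (s : St), Sim j e σ s → Rep σ (σ.r d) l →
      σ.r (d + 1) = 0 → σ.r (d + 2) = l.nn →
      ∃ (σ' : MSt) (t : ℕ), Exec inp w (.wh (d + 1) (d + 2)
        (.seq (ops ([.set 3 0, .load 4 1 d, .mov 5 1, .rzero 0] ++ allocL))
          (.seq (compile f (d + 3) j e) (ops [.load d 2 d, .load (d + 2) 0 d])))) σ σ' t ∧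
        Sim j e σ' (foldE (eval inp w f) l s).1 ∧
        Frame d j σ σ' ∧ t ≤ (C + 20) * (foldE (eval inp w f) l s).2 := by
    intro l
    induction l with
    | leaf =>
      intro σ s hs hr h1 h2
      refine ⟨σ, 1, Exec.whF (by rw [h1, h2]; exact lt_irrefl _), hs, Frame.refl _ _ _, ?_⟩
      simp [foldE]
    | node n x a b _ ih =>
      intro σ s hs hr h1 h2
      by_cases hn : n = 0
      · refine ⟨σ, 1, Exec.whF (by rw [h1, h2, Val.nn_node, hn]; exact lt_irrefl _), ?_,
          Frame.refl _ _ _, ?_⟩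
        · simpa [foldE, hn] using hs
        · simp [foldE, hn]
      · have hfst : Rep σ (σ.W 1 (σ.r d)) a := hs.fst hr
        have hl : ∀ o ∈ [Op.set 3 0, .load 4 1 d, .mov 5 1, .rzero 0], nearOp (d + 3) o := by
          simp [nearOp, okReg]
        obtain ⟨σ1, t1, a1, a2, a3, a4⟩ := exec_alloc inp w (d := d + 3) (n := 0) (x := 0)
          (a := a) (b := s.v) he (by omega) _ hl hs
          (by simp [Op.app, Function.update_of_ne])
          (by simp [Op.app])
          (by
            have : d ≠ 3 := by omega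
            simpa [Op.app, Function.update_of_ne, this] using hfst)
          (by simpa [Op.app, Function.update_of_ne] using hs.v)
        obtain ⟨σ2, t2, b1, b2, b3, b4⟩ := hC inp w (d + 3) j e σ1 _ he (by omega) a2
        have rd : σ2.r d = σ.r d := (b3.regs d hd (by omega)).trans (a3.regs d hd (by omega))
        have rd1 : σ2.r (d + 1) = 0 := (b3.regs (d + 1) (by omega) (by omega)).trans
          ((a3.regs (d + 1) (by omega) (by omega)).trans h1)
        have hr2 : Rep σ2 (σ2.r d) (.node n x a b) := by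
          rw [rd]; exact Rep.frame (a3.trans b3) hr
        have hrb : Rep σ2 (σ2.W 2 (σ2.r d)) b := b2.snd hr2
        have hl3 : ∀ o ∈ [Op.load d 2 d, .load (d + 2) 0 d], nearOp d o := by
          intro o ho
          simp only [List.mem_cons, List.not_mem_nil, or_false] at ho
          rcases ho with rfl | rfl
          · exact Or.inr (Or.inr ⟨by omega, le_refl _⟩)
          · exact Or.inr (Or.inr ⟨by omega, by omega⟩)
        have n3 := near_ops inp w d _ hl3 σ2
        have x3 := exec_near inp w d _ hl3 σ2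
        set σ3 := [Op.load d 2 d, .load (d + 2) 0 d].foldl
          (fun c o => Op.app inp w c o) σ2 with hσ3
        have q0 : σ3.r d = σ2.W 2 (σ2.r d) := by
          simp [hσ3, Op.app]
        have q1 : σ3.r (d + 1) = 0 := by
          simp [hσ3, Op.app, rd1]
        have q2 : σ3.r (d + 2) = b.nn := by
          simp [hσ3, Op.app, b2.nn hrb]
        have s3 : Sim j e σ3 (eval inp w f { s with v := .node 0 0 a s.v }).1 :=
          Near.sim n3 he hed b2
          (by simpa [hσ3, Op.app, Function.update_of_ne (show (1 : ℕ) ≠ d by omega),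
            Function.update_of_ne (show (1 : ℕ) ≠ d + 2 by omega)] using b2.v) rfl rfl rfl
        obtain ⟨σ4, t4, c1, c2, c3, c4⟩ := ih σ3 _ s3 (by rw [q0, n3.rep]; exact hrb) q1 q2
        refine ⟨σ4, _, Exec.whT (by rw [h1, h2, Val.nn_node]; omega)
          (Exec.seq a1 (Exec.seq b1 x3)) c1, ?_, ?_, ?_⟩
        · simpa only [foldE, if_neg hn] using c2
        · exact (a3.mono (by omega) le_rfl).trans ((b3.mono (by omega) le_rfl).trans
            ((n3.frame j).trans c3))
        · simp only [foldE, if_neg hn, List.length_cons, List.length_nil] at a4 ⊢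
          nlinarith
  have hl : ∀ o ∈ [Op.load d 1 1, .load 1 2 1, .set (d + 1) 0, .load (d + 2) 0 d],
      nearOp d o := by
    intro o ho
    simp only [List.mem_cons, List.not_mem_nil, or_false] at ho
    rcases ho with rfl | rfl | rfl | rfl
    · exact Or.inr (Or.inr ⟨by omega, le_refl _⟩)
    · exact Or.inl rfl
    · exact Or.inr (Or.inr ⟨by omega, by omega⟩)
    · exact Or.inr (Or.inr ⟨by omega, by omega⟩)
  have n0 := near_ops inp w d _ hl σ
  have x0 := exec_near inp w d _ hl σ
  set σ0 := [Op.load d 1 1, .load 1 2 1, .set (d + 1) 0, .load (d + 2) 0 d].foldl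
    (fun c o => Op.app inp w c o) σ with hσ0
  have hfst := hs.fst hs.v
  have q0 : σ0.r d = σ.W 1 (σ.r 1) := by
    simp [hσ0, Op.app, Function.update_of_ne (show d ≠ 1 by omega)]
  have q1 : σ0.r (d + 1) = 0 := by
    simp [hσ0, Op.app]
  have q2 : σ0.r (d + 2) = s.v.fst.nn := by
    simp [hσ0, Op.app, Function.update_of_ne (show d ≠ 1 by omega), hs.nn hfst]
  have s0 : Sim j e σ0 { s with v := s.v.snd } := Near.sim n0 he hed hs
    (by
      have := hs.snd hs.v
      simpa [hσ0, Op.app, Function.update_of_ne (show (1 : ℕ) ≠ d + 1 by omega),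
        Function.update_of_ne (show (1 : ℕ) ≠ d + 2 by omega),
        Function.update_of_ne (show (1 : ℕ) ≠ d by omega), Function.update_of_ne] using this)
    rfl rfl rfl
  obtain ⟨σ', t, b1, b2, b3, b4⟩ := key _ σ0 _ s0 (by rw [q0, n0.rep]; exact hfst) q1 q2
  refine ⟨σ', _, Exec.seq x0 b1, ?_, (n0.frame j).trans b3, ?_⟩
  · simpa only [eval] using b2
  · have h1 : 1 ≤ (foldE (eval inp w f) s.v.fst { s with v := s.v.snd }).2 := by
      cases s.v.fst with
      | leaf => simp [foldE]
      | node n x a b => simp only [foldE]; split_ifs <;> simp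
    simp only [eval, List.length_cons, List.length_nil]
    nlinarith

theorem correct_scope {f : Prog} (hf : Correct f) : Correct (.scope f) := by
  obtain ⟨C, hC⟩ := hf
  refine ⟨C + 20, fun inp w d j e σ s he hed hs => ?_⟩
  have hd : 8 ≤ d := by omega
  have x0 := exec_ops inp w [.set 3 1, .add 2 2 3, .mov d 2] (by simp [Op.ok]) σ
  set σ1 := [Op.set 3 1, .add 2 2 3, .mov d 2].foldl (fun c o => Op.app inp w c o) σ with hσ1
  have d3 : d ≠ 3 := by omega
  have d2 : d ≠ 2 := by omega
  have r0 : σ1.r 0 = σ.r 0 := by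
    simp [hσ1, Op.app, Function.update_of_ne (show (0 : ℕ) ≠ d by omega), Function.update_of_ne]
  have r1 : σ1.r 1 = σ.r 1 := by
    simp [hσ1, Op.app, Function.update_of_ne (show (1 : ℕ) ≠ d by omega), Function.update_of_ne]
  have r2 : σ1.r 2 = σ.r 2 + 1 := by
    simp [hσ1, Op.app, Function.update_of_ne (show (2 : ℕ) ≠ d by omega), Function.update_of_ne]
  have rd : σ1.r d = σ.r 2 + 1 := by simp [hσ1, Op.app, Function.update_of_ne]
  have ri : ∀ i, 8 ≤ i → i < d → σ1.r i = σ.r i := by
    intro i h1 h2
    simp [hσ1, Op.app, Function.update_of_ne (show i ≠ d by omega),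
      Function.update_of_ne (show i ≠ 2 by omega), Function.update_of_ne (show i ≠ 3 by omega)]
  have hW : σ1.W = σ.W := by simp [hσ1, Op.app]
  have hR : σ1.R = σ.R := by simp [hσ1, Op.app]
  have hk : σ1.k = σ.k := by simp [hσ1, Op.app]
  have ho : σ1.out = σ.out := by simp [hσ1, Op.app]
  have f1 : Frame d j σ σ1 := ⟨r0.ge, fun q _ p _ => by rw [hW], fun p _ => by rw [hR], ri,
    fun j' _ => by rw [hW]; exact ⟨rfl, rfl⟩, by rw [r2]; omega⟩
  have s1 : Sim (j + 1) d σ1 { s with m := fun _ => .leaf } := by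
    refine ⟨by rw [r0]; exact hs.hp, by rw [hW]; exact hs.z0, by rw [hW]; exact hs.z1,
      by rw [hW]; exact hs.z2, by rw [hR]; exact hs.z3, ?_, by rw [rd, r2], ?_, ?_,
      by rw [hk]; exact hs.k, by rw [ho]; exact hs.out⟩
    · intro j' i
      rw [hW, r2]
      exact (hs.stamp j' i).trans (by omega)
    · rw [r1]; exact Rep.frame f1 hs.v
    · intro i
      have := hs.stamp (j + 1) i
      rw [hW, rd, if_neg (by omega)]
  obtain ⟨σ2, t2, a1, a2, a3, a4⟩ := hC inp w (d + 1) (j + 1) d σ1 _ hd (by omega) s1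
  have hre : σ2.r e = σ.r e := (a3.regs e he (by omega)).trans (ri e he hed)
  have f2 : Frame d j σ σ2 := f1.trans (a3.mono (by omega) (by omega))
  refine ⟨σ2, _, Exec.seq x0 a1, ?_, f2, ?_⟩
  · refine ⟨a2.hp, a2.z0, a2.z1, a2.z2, a2.z3, a2.stamp, ?_, a2.v, ?_, a2.k, a2.out⟩
    · rw [hre]; exact hs.ee.trans f2.stamp
    · intro i
      have h1 := hs.m i
      have hb := a3.banks j (by omega)
      rw [hb.1, hb.2, hW, hre]
      simp only [eval]
      split_ifs at h1 ⊢ with hc
      · exact Rep.frame f2 h1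
      · exact h1
  · simp only [eval, List.length_cons, List.length_nil]
    nlinarith

/-- Every program is compiled correctly. -/
theorem correct (P : Prog) : Correct P := by
  induction P with
  | id => exact correct_id
  | seq f g hf hg => exact correct_seq hf hg
  | mk k f g hf hg => exact correct_mk k hf hg
  | fst => exact correct_fst
  | snd => exact correct_snd
  | nil => exact correct_nil
  | const k => exact correct_const k
  | getn => exact correct_getn
  | nadd => exact correct_nadd
  | nsub => exact correct_nsub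
  | nlt => exact correct_nlt
  | rzero => exact correct_rzero
  | rone => exact correct_rone
  | radd => exact correct_radd
  | rsub => exact correct_rsub
  | rmul => exact correct_rmul
  | rdiv => exact correct_rdiv
  | rlt => exact correct_rlt
  | ite c f g hc hf hg => exact correct_ite hc hf hg
  | loop f hf => exact correct_loop hf
  | fold f hf => exact correct_fold hf
  | scope f hf => exact correct_scope hf
  | read => exact correct_read
  | write => exact correct_write
  | inp => exact correct_inp
  | flip => exact correct_flip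
  | outn => exact correct_outn
  | outr => exact correct_outr

/-- Compilation of a complete program, started with the natural number `n`. -/
theorem compile_main (P : Prog) : ∃ (S : Stm) (C : ℕ), ∀ (inp : ℕ → ℝ) (w : ℕ → Bool) (n : ℕ),
    ∃ (σ' : MSt) (t : ℕ), Exec inp w S (MSt.init n) σ' t ∧
      σ'.k = (eval inp w P ⟨.nat n, fun _ => .leaf, 0, []⟩).1.k ∧
      σ'.out = (eval inp w P ⟨.nat n, fun _ => .leaf, 0, []⟩).1.out ∧
      t ≤ C * ((eval inp w P ⟨.nat n, fun _ => .leaf, 0, []⟩).2 + 1) := by
  obtain ⟨C, hC⟩ := correct P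
  refine ⟨.seq (ops [.set 1 1, .store 0 1 0, .set 0 2]) (compile P 9 0 8), C + 4,
    fun inp w n => ?_⟩
  have x0 := exec_ops inp w [.set 1 1, .store 0 1 0, .set 0 2] (by simp [Op.ok]) (MSt.init n)
  set σ1 := [Op.set 1 1, .store 0 1 0, .set 0 2].foldl (fun c o => Op.app inp w c o)
    (MSt.init n) with hσ1
  have s1 : Sim 0 8 σ1 ⟨.nat n, fun _ => .leaf, 0, []⟩ := by
    refine ⟨?_, ?_, ?_, ?_, ?_, ?_, ?_, ?_, ?_, ?_, ?_⟩
    · simp [hσ1, Op.app]
    · simp [hσ1, Op.app, MSt.init, Function.update_of_ne]
    · simp [hσ1, Op.app, MSt.init, Function.update_of_ne]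
    · simp [hσ1, Op.app, MSt.init, Function.update_of_ne]
    · simp [hσ1, Op.app, MSt.init]
    · intro j' i
      simp [hσ1, Op.app, MSt.init]
    · simp [hσ1, Op.app, MSt.init, Function.update_of_ne]
    · simp [hσ1, Op.app, MSt.init, Function.update_of_ne, Rep, Val.nat]
    · intro i
      simp [hσ1, Op.app, MSt.init, Function.update_of_ne, Rep]
    · simp [hσ1, Op.app, MSt.init]
    · simp [hσ1, Op.app, MSt.init]
  obtain ⟨σ2, t2, a1, a2, a3, a4⟩ := hC inp w 9 0 8 σ1 _ (by norm_num) (by norm_num) s1
  refine ⟨σ2, _, Exec.seq x0 a1, a2.k, a2.out, ?_⟩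
  simp only [List.length_cons, List.length_nil]
  nlinarith

end P7m
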