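/-
P7m.Flat: compilation of structured programs (`Stm`, several integer memories) into flat code
of the real RAM (one integer memory, program counter).

Register `a` of the structured machine is register `2 * a` of the RAM; registers 1 and 3 are
temporary.  The cell `W_j[i]` is the memory cell `M[2 ^ j * (2 * i + 1)]` (injective in (j, i)).

Plan.  Helper lemmas: `run (t + t') c = run t' (run t c)` (Function.iterate_add_apply, mind the
order), `CodeAt Q p (l ++ l') -> CodeAt Q p l` and `CodeAt Q (p + l.length) l'`, one step lemma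
`Q[c.pc]? = some i -> run 1 c = i.exec c`.  `addrCode`: by induction on `j` (replicate): after
the code register 1 holds `2 ^ j * (2 * r_a + 1)`, even registers and all else unchanged.
`flat_op`: case distinction on `o`; even registers: `2 * a = 2 * d iff a = d`; a store changes
only the cell with the same (j, i) by `addr_inj`.  `flat_sim`: induction on `Exec` (generalise p
and c; K fixed).  Costs: op: length <= K; if: 2 extra steps; while: 2 extra steps.
-/
import Pool.Agent.Lib.P7m.Stm

namespace P7m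

/-- code computing the address `2 ^ j * (2 * r_a + 1)` into register 1 (`a` is the register of
the structured machine) -/
def addrCode (j a : ℕ) : List Instr :=
  [.add 1 (2 * a) (2 * a), .set 3 1, .add 1 1 3] ++ List.replicate j (.add 1 1 1)

/-- code of a basic operation -/
def opCode : Op → List Instr
  | .set d k => [.set (2 * d) k]
  | .mov d a => [.mov (2 * d) (2 * a)]
  | .add d a b => [.add (2 * d) (2 * a) (2 * b)]
  | .sub d a b => [.sub (2 * d) (2 * a) (2 * b)]
  | .load d j a => addrCode j a ++ [.load (2 * d) 1]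
  | .store j a b => addrCode j a ++ [.store 1 (2 * b)]
  | .rzero d => [.rzero d]
  | .rone d => [.rone d]
  | .radd d a b => [.radd d a b]
  | .rsub d a b => [.rsub d a b]
  | .rmul d a b => [.rmul d a b]
  | .rdiv d a b => [.rdiv d a b]
  | .rload d a => [.rload d (2 * a)]
  | .rstore a b => [.rstore (2 * a) b]
  | .rinp d a => [.rinp d (2 * a)]
  | .flip d => [.flip (2 * d)]
  | .outn a => [.outn (2 * a)]
  | .outr a => [.outr a]

/-- length of the code -/
def len : Stm → ℕ
  | .op o => (opCode o).length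
  | .seq s t => len s + len t
  | .ifl _ _ s t => len s + len t + 2
  | .ifr _ _ s t => len s + len t + 2
  | .wh _ _ s => len s + 3

/-- code of a structured program, placed at address `p` -/
def flat : Stm → ℕ → List Instr
  | .op o, _ => opCode o
  | .seq s t, p => flat s p ++ flat t (p + len s)
  | .ifl a b s t, p =>
    [.jlt (2 * a) (2 * b) (p + len t + 2)] ++ flat t (p + 1) ++
      [.jmp (p + len s + len t + 2)] ++ flat s (p + len t + 2)
  | .ifr a b s t, p =>
    [.rjlt a b (p + len t + 2)] ++ flat t (p + 1) ++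
      [.jmp (p + len s + len t + 2)] ++ flat s (p + len t + 2)
  | .wh a b s, p =>
    [.jlt (2 * a) (2 * b) (p + 2), .jmp (p + len s + 3)] ++ flat s (p + 2) ++ [.jmp p]

theorem length_flat (s : Stm) (p : ℕ) : (flat s p).length = len s := by
  induction s generalizing p with
  | op o => rfl
  | seq s t ih1 ih2 => simp [flat, len, ih1, ih2]
  | ifl a b s t ih1 ih2 => simp [flat, len, ih1, ih2]; omega
  | ifr a b s t ih1 ih2 => simp [flat, len, ih1, ih2]; omega
  | wh a b s ih => simp [flat, len, ih]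

/-- the code `q` stands at address `p` in `Q` -/
def CodeAt (Q : List Instr) (p : ℕ) (q : List Instr) : Prop :=
  ∀ i < q.length, Q[p + i]? = q[i]?

/-- a configuration of the RAM represents a state of the structured machine -/
structure Rel (c : Cfg) (σ : MSt) : Prop where
  r : ∀ a, c.r (2 * a) = σ.r a
  x : c.x = σ.x
  M : ∀ j i, c.M (2 ^ j * (2 * i + 1)) = σ.W j i
  R : c.R = σ.R
  k : c.k = σ.k
  out : c.out = σ.out

theorem addr_inj {i j i' j' : ℕ} (h : 2 ^ j * (2 * i + 1) = 2 ^ j' * (2 * i' + 1)) :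
    j = j' ∧ i = i' := by
  induction j generalizing j' with
  | zero =>
    cases j' with
    | zero => simp at h; exact ⟨rfl, h⟩
    | succ k =>
      exfalso
      rw [pow_succ', mul_assoc] at h
      generalize 2 ^ k * (2 * i' + 1) = m at h
      omega
  | succ n ih =>
    cases j' with
    | zero =>
      exfalso
      rw [pow_succ', mul_assoc] at h
      generalize 2 ^ n * (2 * i + 1) = m at h
      omega
    | succ k =>
      rw [pow_succ', mul_assoc, pow_succ', mul_assoc] at h
      have h' : 2 ^ n * (2 * i + 1) = 2 ^ k * (2 * i' + 1) := by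
        generalize 2 ^ n * (2 * i + 1) = m at h ⊢
        generalize 2 ^ k * (2 * i' + 1) = m' at h ⊢
        omega
      obtain ⟨h1, h2⟩ := ih h'
      exact ⟨by rw [h1], h2⟩

theorem run_add' (Q : List Instr) (inp : ℕ → ℝ) (w : ℕ → Bool) (t t' : ℕ) (c : Cfg) :
    run Q inp w (t + t') c = run Q inp w t' (run Q inp w t c) := by
  unfold run
  rw [Nat.add_comm, Function.iterate_add_apply]

theorem run_one {Q : List Instr} {inp : ℕ → ℝ} {w : ℕ → Bool} {c : Cfg} {i : Instr}
    (h : Q[c.pc]? = some i) : run Q inp w 1 c = i.exec inp w c := by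
  unfold run
  rw [Function.iterate_one]
  unfold step
  rw [h]

theorem CodeAt.left {Q : List Instr} {p : ℕ} {l l' : List Instr} (h : CodeAt Q p (l ++ l')) :
    CodeAt Q p l := by
  intro i hi
  rw [h i (by rw [List.length_append]; omega), List.getElem?_append_left hi]

theorem CodeAt.right {Q : List Instr} {p : ℕ} {l l' : List Instr} (h : CodeAt Q p (l ++ l')) :
    CodeAt Q (p + l.length) l' := by
  intro i hi
  rw [Nat.add_assoc, h (l.length + i) (by rw [List.length_append]; omega),
    List.getElem?_append_right (by omega), Nat.add_sub_cancel_left]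

theorem CodeAt.head {Q : List Instr} {p : ℕ} {a : Instr} {l : List Instr}
    (h : CodeAt Q p (a :: l)) : Q[p]? = some a := by
  have := h 0 (by simp)
  simpa using this

theorem CodeAt.tail {Q : List Instr} {p : ℕ} {a : Instr} {l : List Instr}
    (h : CodeAt Q p (a :: l)) : CodeAt Q (p + 1) l := by
  have h' : CodeAt Q p ([a] ++ l) := h
  exact h'.right

/-- `c'` agrees with `c` on the even registers and on everything else but `pc` -/
structure Same (c c' : Cfg) : Prop where
  r : ∀ a, c'.r (2 * a) = c.r (2 * a)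
  x : c'.x = c.x
  M : c'.M = c.M
  R : c'.R = c.R
  k : c'.k = c.k
  out : c'.out = c.out

theorem Same.trans {c c' c'' : Cfg} (h : Same c c') (h' : Same c' c'') : Same c c'' :=
  ⟨fun a => (h'.r a).trans (h.r a), h'.x.trans h.x, h'.M.trans h.M, h'.R.trans h.R,
    h'.k.trans h.k, h'.out.trans h.out⟩

theorem Same.rel {c c' : Cfg} {σ : MSt} (h : Same c c') (hc : Rel c σ) : Rel c' σ :=
  ⟨fun a => (h.r a).trans (hc.r a), h.x.trans hc.x, fun j i => by rw [h.M, hc.M],
    h.R.trans hc.R, h.k.trans hc.k, h.out.trans hc.out⟩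

theorem upd_odd (f : ℕ → ℕ) (d v a : ℕ) : Function.update f (2 * d + 1) v (2 * a) = f (2 * a) := by
  rw [Function.update_of_ne]
  omega

theorem run_rep (inp : ℕ → ℝ) (w : ℕ → Bool) (Q : List Instr) (j : ℕ) : ∀ (p : ℕ) (c : Cfg),
    CodeAt Q p (List.replicate j (.add 1 1 1)) → c.pc = p →
    Same c (run Q inp w j c) ∧ (run Q inp w j c).pc = p + j ∧
      (run Q inp w j c).r 1 = 2 ^ j * c.r 1 := by
  induction j with
  | zero =>
    intro p c _ hp
    refine ⟨⟨fun _ => rfl, rfl, rfl, rfl, rfl, rfl⟩, hp, ?_⟩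
    change c.r 1 = _
    simp
  | succ j ih =>
    intro p c hQ hp
    rw [List.replicate_succ] at hQ
    have h1 := hQ.head
    have h2 := hQ.tail
    rw [← hp] at h1
    have h3 : run Q inp w 1 c = _ := run_one (inp := inp) (w := w) h1
    have h4 := ih (p + 1) (run Q inp w 1 c) h2 (by rw [h3]; change c.pc + 1 = _; rw [hp])
    rw [Nat.add_comm j 1, run_add']
    obtain ⟨h5, h6, h7⟩ := h4
    refine ⟨Same.trans ?_ h5, by rw [h6]; omega, ?_⟩
    · rw [h3]
      exact ⟨fun a => upd_odd c.r 0 _ a, rfl, rfl, rfl, rfl, rfl⟩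
    · rw [h7, h3]
      change 2 ^ j * (Function.update c.r 1 (c.r 1 + c.r 1) 1) = _
      rw [Function.update_self, Nat.add_comm 1 j, pow_succ]
      ring

theorem run_addr (inp : ℕ → ℝ) (w : ℕ → Bool) (Q : List Instr) (j a : ℕ) (p : ℕ) (c : Cfg)
    (hQ : CodeAt Q p (addrCode j a)) (hp : c.pc = p) :
    Same c (run Q inp w (addrCode j a).length c) ∧
      (run Q inp w (addrCode j a).length c).pc = p + (addrCode j a).length ∧
      (run Q inp w (addrCode j a).length c).r 1 = 2 ^ j * (2 * c.r (2 * a) + 1) := by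
  have hlen : (addrCode j a).length = 1 + (1 + (1 + j)) := by
    simp [addrCode]; omega
  have hQ' : CodeAt Q p (.add 1 (2 * a) (2 * a) :: .set 3 1 :: .add 1 1 3 ::
      List.replicate j (.add 1 1 1)) := hQ
  have q1 := hQ'.head
  have q2 := hQ'.tail.head
  have q3 := hQ'.tail.tail.head
  have q4 := hQ'.tail.tail.tail
  rw [hlen, run_add', run_add', run_add']
  rw [← hp] at q1
  have e1 : run Q inp w 1 c = _ := run_one (inp := inp) (w := w) q1
  have p1 : (run Q inp w 1 c).pc = p + 1 := by rw [e1]; change c.pc + 1 = _; rw [hp]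
  rw [← p1] at q2
  have e2 : run Q inp w 1 (run Q inp w 1 c) = _ := run_one (inp := inp) (w := w) q2
  have p2 : (run Q inp w 1 (run Q inp w 1 c)).pc = p + 1 + 1 := by
    rw [e2]; change (run Q inp w 1 c).pc + 1 = _; rw [p1]
  rw [← p2] at q3
  have e3 : run Q inp w 1 (run Q inp w 1 (run Q inp w 1 c)) = _ :=
    run_one (inp := inp) (w := w) q3
  have p3 : (run Q inp w 1 (run Q inp w 1 (run Q inp w 1 c))).pc = p + 1 + 1 + 1 := by
    rw [e3]; change (run Q inp w 1 (run Q inp w 1 c)).pc + 1 = _; rw [p2]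
  obtain ⟨h5, h6, h7⟩ := run_rep inp w Q j _ _ q4 p3
  have s1 : Same c (run Q inp w 1 c) := by
    rw [e1]; exact ⟨fun b => upd_odd c.r 0 _ b, rfl, rfl, rfl, rfl, rfl⟩
  have s2 : Same (run Q inp w 1 c) (run Q inp w 1 (run Q inp w 1 c)) := by
    rw [e2]; exact ⟨fun b => upd_odd _ 1 _ b, rfl, rfl, rfl, rfl, rfl⟩
  have s3 : Same (run Q inp w 1 (run Q inp w 1 c))
      (run Q inp w 1 (run Q inp w 1 (run Q inp w 1 c))) := by
    rw [e3]; exact ⟨fun b => upd_odd _ 0 _ b, rfl, rfl, rfl, rfl, rfl⟩
  refine ⟨((s1.trans s2).trans s3).trans h5, by rw [h6]; omega, ?_⟩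
  rw [h7]
  congr 1
  rw [e3]
  change Function.update (run Q inp w 1 (run Q inp w 1 c)).r 1
    ((run Q inp w 1 (run Q inp w 1 c)).r 1 + (run Q inp w 1 (run Q inp w 1 c)).r 3) 1 = _
  rw [Function.update_self, e2]
  change Function.update (run Q inp w 1 c).r 3 1 1 + Function.update (run Q inp w 1 c).r 3 1 3 = _
  rw [Function.update_self, Function.update_of_ne (by omega), e1]
  change Function.update c.r 1 (c.r (2 * a) + c.r (2 * a)) 1 + 1 = _
  rw [Function.update_self]
  ring

theorem upd_even {f g : ℕ → ℕ} (h : ∀ a, f (2 * a) = g a) {v v' : ℕ} (hv : v = v') (d a : ℕ) :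
    Function.update f (2 * d) v (2 * a) = Function.update g d v' a := by
  by_cases had : a = d
  · rw [had, Function.update_self, Function.update_self, hv]
  · rw [Function.update_of_ne had, Function.update_of_ne (by omega), h]

theorem upd_mem {f : ℕ → ℕ} {g : ℕ → ℕ → ℕ} (h : ∀ j i, f (2 ^ j * (2 * i + 1)) = g j i)
    {v v' : ℕ} (hv : v = v') (j a j' i' : ℕ) :
    Function.update f (2 ^ j * (2 * a + 1)) v (2 ^ j' * (2 * i' + 1)) =
      Function.update g j (Function.update (g j) a v') j' i' := by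
  by_cases hj : j' = j
  · subst hj
    rw [Function.update_self]
    by_cases hi : i' = a
    · subst hi
      rw [Function.update_self, Function.update_self, hv]
    · rw [Function.update_of_ne hi, Function.update_of_ne, h]
      intro hh
      exact hi (addr_inj hh).2
  · rw [Function.update_of_ne hj, Function.update_of_ne, h]
    intro hh
    exact hj (addr_inj hh).1

theorem flat_op (inp : ℕ → ℝ) (w : ℕ → Bool) (Q : List Instr) (o : Op) (σ : MSt)
    (hok : o.ok σ) (p : ℕ) (hQ : CodeAt Q p (opCode o)) (c : Cfg) (hc : Rel c σ)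
    (hp : c.pc = p) :
    Rel (run Q inp w (opCode o).length c) (o.app inp w σ) ∧
      (run Q inp w (opCode o).length c).pc = p + (opCode o).length := by
  cases o with
  | set d k =>
    have h1 : run Q inp w 1 c = _ := run_one (inp := inp) (w := w) (hp ▸ hQ.head)
    change Rel (run Q inp w 1 c) _ ∧ (run Q inp w 1 c).pc = p + 1
    rw [h1, ← hp]
    exact ⟨⟨upd_even hc.r rfl d, hc.x, hc.M, hc.R, hc.k, hc.out⟩, rfl⟩
  | mov d a =>
    have h1 : run Q inp w 1 c = _ := run_one (inp := inp) (w := w) (hp ▸ hQ.head)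
    change Rel (run Q inp w 1 c) _ ∧ (run Q inp w 1 c).pc = p + 1
    rw [h1, ← hp]
    exact ⟨⟨upd_even hc.r (hc.r a) d, hc.x, hc.M, hc.R, hc.k, hc.out⟩, rfl⟩
  | add d a b =>
    have h1 : run Q inp w 1 c = _ := run_one (inp := inp) (w := w) (hp ▸ hQ.head)
    change Rel (run Q inp w 1 c) _ ∧ (run Q inp w 1 c).pc = p + 1
    rw [h1, ← hp]
    exact ⟨⟨upd_even hc.r (by rw [hc.r, hc.r]) d, hc.x, hc.M, hc.R, hc.k, hc.out⟩, rfl⟩
  | sub d a b =>
    have h1 : run Q inp w 1 c = _ := run_one (inp := inp) (w := w) (hp ▸ hQ.head)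
    change Rel (run Q inp w 1 c) _ ∧ (run Q inp w 1 c).pc = p + 1
    rw [h1, ← hp]
    exact ⟨⟨upd_even hc.r (by rw [hc.r, hc.r]) d, hc.x, hc.M, hc.R, hc.k, hc.out⟩, rfl⟩
  | load d j a =>
    have hQ' : CodeAt Q p (addrCode j a ++ [.load (2 * d) 1]) := hQ
    obtain ⟨h1, h2, h3⟩ := run_addr inp w Q j a p c hQ'.left hp
    have hr := hQ'.right.head
    rw [← h2] at hr
    have h4 : run Q inp w 1 (run Q inp w (addrCode j a).length c) = _ :=
      run_one (inp := inp) (w := w) hr
    have hl : (opCode (.load d j a)).length = (addrCode j a).length + 1 := by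
      simp [opCode]
    have hc' := h1.rel hc
    rw [hl, run_add', h4]
    refine ⟨⟨upd_even hc'.r ?_ d, hc'.x, hc'.M, hc'.R, hc'.k, hc'.out⟩, ?_⟩
    · rw [h3, hc'.M, hc.r]
    · change (run Q inp w (addrCode j a).length c).pc + 1 = _
      rw [h2]; omega
  | store j a b =>
    have hQ' : CodeAt Q p (addrCode j a ++ [.store 1 (2 * b)]) := hQ
    obtain ⟨h1, h2, h3⟩ := run_addr inp w Q j a p c hQ'.left hp
    have hr := hQ'.right.head
    rw [← h2] at hr
    have h4 : run Q inp w 1 (run Q inp w (addrCode j a).length c) = _ :=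
      run_one (inp := inp) (w := w) hr
    have hl : (opCode (.store j a b)).length = (addrCode j a).length + 1 := by
      simp [opCode]
    have hc' := h1.rel hc
    rw [hl, run_add', h4]
    refine ⟨⟨hc'.r, hc'.x, ?_, hc'.R, hc'.k, hc'.out⟩, ?_⟩
    · intro j' i'
      change Function.update (run Q inp w (addrCode j a).length c).M
        ((run Q inp w (addrCode j a).length c).r 1)
        ((run Q inp w (addrCode j a).length c).r (2 * b)) (2 ^ j' * (2 * i' + 1)) = _
      rw [h3, hc.r]
      exact upd_mem hc'.M (hc'.r b) j (σ.r a) j' i'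
    · change (run Q inp w (addrCode j a).length c).pc + 1 = _
      rw [h2]; omega
  | rzero d =>
    have h1 : run Q inp w 1 c = _ := run_one (inp := inp) (w := w) (hp ▸ hQ.head)
    change Rel (run Q inp w 1 c) _ ∧ (run Q inp w 1 c).pc = p + 1
    rw [h1, ← hp]
    refine ⟨⟨hc.r, ?_, hc.M, hc.R, hc.k, hc.out⟩, rfl⟩
    change Function.update c.x d 0 = Function.update σ.x d 0
    rw [hc.x]
  | rone d =>
    have h1 : run Q inp w 1 c = _ := run_one (inp := inp) (w := w) (hp ▸ hQ.head)
    change Rel (run Q inp w 1 c) _ ∧ (run Q inp w 1 c).pc = p + 1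
    rw [h1, ← hp]
    refine ⟨⟨hc.r, ?_, hc.M, hc.R, hc.k, hc.out⟩, rfl⟩
    change Function.update c.x d 1 = Function.update σ.x d 1
    rw [hc.x]
  | radd d a b =>
    have h1 : run Q inp w 1 c = _ := run_one (inp := inp) (w := w) (hp ▸ hQ.head)
    change Rel (run Q inp w 1 c) _ ∧ (run Q inp w 1 c).pc = p + 1
    rw [h1, ← hp]
    refine ⟨⟨hc.r, ?_, hc.M, hc.R, hc.k, hc.out⟩, rfl⟩
    change Function.update c.x d (c.x a + c.x b) = Function.update σ.x d (σ.x a + σ.x b)
    rw [hc.x]
  | rsub d a b =>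
    have h1 : run Q inp w 1 c = _ := run_one (inp := inp) (w := w) (hp ▸ hQ.head)
    change Rel (run Q inp w 1 c) _ ∧ (run Q inp w 1 c).pc = p + 1
    rw [h1, ← hp]
    refine ⟨⟨hc.r, ?_, hc.M, hc.R, hc.k, hc.out⟩, rfl⟩
    change Function.update c.x d (c.x a - c.x b) = Function.update σ.x d (σ.x a - σ.x b)
    rw [hc.x]
  | rmul d a b =>
    have h1 : run Q inp w 1 c = _ := run_one (inp := inp) (w := w) (hp ▸ hQ.head)
    change Rel (run Q inp w 1 c) _ ∧ (run Q inp w 1 c).pc = p + 1
    rw [h1, ← hp]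
    refine ⟨⟨hc.r, ?_, hc.M, hc.R, hc.k, hc.out⟩, rfl⟩
    change Function.update c.x d (c.x a * c.x b) = Function.update σ.x d (σ.x a * σ.x b)
    rw [hc.x]
  | rdiv d a b =>
    have h1 : run Q inp w 1 c = _ := run_one (inp := inp) (w := w) (hp ▸ hQ.head)
    change Rel (run Q inp w 1 c) _ ∧ (run Q inp w 1 c).pc = p + 1
    have hb : c.x b ≠ 0 := by
      have hok' : σ.x b ≠ 0 := hok
      rwa [hc.x]
    have h2 : (Instr.rdiv d a b).exec inp w c =
        { c with pc := c.pc + 1, x := Function.update c.x d (c.x a / c.x b) } := if_neg hb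
    rw [h1, h2, ← hp]
    refine ⟨⟨hc.r, ?_, hc.M, hc.R, hc.k, hc.out⟩, rfl⟩
    change Function.update c.x d (c.x a / c.x b) = Function.update σ.x d (σ.x a / σ.x b)
    rw [hc.x]
  | rload d a =>
    have h1 : run Q inp w 1 c = _ := run_one (inp := inp) (w := w) (hp ▸ hQ.head)
    change Rel (run Q inp w 1 c) _ ∧ (run Q inp w 1 c).pc = p + 1
    rw [h1, ← hp]
    refine ⟨⟨hc.r, ?_, hc.M, hc.R, hc.k, hc.out⟩, rfl⟩
    change Function.update c.x d (c.R (c.r (2 * a))) = Function.update σ.x d (σ.R (σ.r a))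
    rw [hc.x, hc.R, hc.r]
  | rstore a b =>
    have h1 : run Q inp w 1 c = _ := run_one (inp := inp) (w := w) (hp ▸ hQ.head)
    change Rel (run Q inp w 1 c) _ ∧ (run Q inp w 1 c).pc = p + 1
    rw [h1, ← hp]
    refine ⟨⟨hc.r, hc.x, hc.M, ?_, hc.k, hc.out⟩, rfl⟩
    change Function.update c.R (c.r (2 * a)) (c.x b) = Function.update σ.R (σ.r a) (σ.x b)
    rw [hc.x, hc.R, hc.r]
  | rinp d a =>
    have h1 : run Q inp w 1 c = _ := run_one (inp := inp) (w := w) (hp ▸ hQ.head)
    change Rel (run Q inp w 1 c) _ ∧ (run Q inp w 1 c).pc = p + 1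
    rw [h1, ← hp]
    refine ⟨⟨hc.r, ?_, hc.M, hc.R, hc.k, hc.out⟩, rfl⟩
    change Function.update c.x d (inp (c.r (2 * a))) = Function.update σ.x d (inp (σ.r a))
    rw [hc.x, hc.r]
  | flip d =>
    have h1 : run Q inp w 1 c = _ := run_one (inp := inp) (w := w) (hp ▸ hQ.head)
    change Rel (run Q inp w 1 c) _ ∧ (run Q inp w 1 c).pc = p + 1
    rw [h1, ← hp]
    refine ⟨⟨upd_even hc.r (by rw [hc.k]) d, hc.x, hc.M, hc.R, ?_, hc.out⟩, rfl⟩
    change c.k + 1 = σ.k + 1
    rw [hc.k]
  | outn a =>
    have h1 : run Q inp w 1 c = _ := run_one (inp := inp) (w := w) (hp ▸ hQ.head)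
    change Rel (run Q inp w 1 c) _ ∧ (run Q inp w 1 c).pc = p + 1
    rw [h1, ← hp]
    refine ⟨⟨hc.r, hc.x, hc.M, hc.R, hc.k, ?_⟩, rfl⟩
    change c.out ++ [Sum.inl (c.r (2 * a))] = σ.out ++ [Sum.inl (σ.r a)]
    rw [hc.out, hc.r]
  | outr a =>
    have h1 : run Q inp w 1 c = _ := run_one (inp := inp) (w := w) (hp ▸ hQ.head)
    change Rel (run Q inp w 1 c) _ ∧ (run Q inp w 1 c).pc = p + 1
    rw [h1, ← hp]
    refine ⟨⟨hc.r, hc.x, hc.M, hc.R, hc.k, ?_⟩, rfl⟩
    change c.out ++ [Sum.inr (c.x a)] = σ.out ++ [Sum.inr (σ.x a)]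
    rw [hc.out, hc.x]

theorem Rel.pc {c : Cfg} {σ : MSt} (h : Rel c σ) (q : ℕ) : Rel { c with pc := q } σ :=
  ⟨h.r, h.x, h.M, h.R, h.k, h.out⟩

/-- Simulation: every execution of a structured program is simulated by its flat code. -/
theorem flat_sim (inp : ℕ → ℝ) (w : ℕ → Bool) (Q : List Instr) (s : Stm) (σ σ' : MSt) (t : ℕ)
    (h : Exec inp w s σ σ' t) (K : ℕ) (hK : len s + 3 ≤ K) (p : ℕ)
    (hQ : CodeAt Q p (flat s p)) (c : Cfg) (hc : Rel c σ) (hp : c.pc = p) :
    ∃ t', t' ≤ K * t ∧ Rel (run Q inp w t' c) σ' ∧ (run Q inp w t' c).pc = p + len s := by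
  induction h generalizing p c with
  | op o σ h =>
    obtain ⟨h1, h2⟩ := flat_op inp w Q o σ h p hQ c hc hp
    have h3 : len (.op o) = (opCode o).length := rfl
    exact ⟨(opCode o).length, by omega, h1, h2⟩
  | @seq s s' σ σ' σ'' t t' h h' ih1 ih2 =>
    have h3 : len (.seq s s') = len s + len s' := rfl
    have hQ' : CodeAt Q p (flat s p ++ flat s' (p + len s)) := hQ
    have hR := hQ'.right
    rw [length_flat] at hR
    obtain ⟨t1, ht1, r1, p1⟩ := ih1 (by omega) p hQ'.left c hc hp
    obtain ⟨t2, ht2, r2, p2⟩ := ih2 (by omega) (p + len s) hR _ r1 p1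
    refine ⟨t1 + t2, by rw [Nat.mul_add]; omega, ?_, ?_⟩
    · rw [run_add']; exact r2
    · rw [run_add', p2]; omega
  | @iflT a b s s' σ σ' t hcond h ih =>
    have h3 : len (.ifl a b s s') = len s + len s' + 2 := rfl
    have hQ' : CodeAt Q p ([.jlt (2 * a) (2 * b) (p + len s' + 2)] ++ flat s' (p + 1) ++
      [.jmp (p + len s + len s' + 2)] ++ flat s (p + len s' + 2)) := hQ
    have q1 := hQ'.left.left.left.head
    have q2 := hQ'.right
    have hl : p + ([Instr.jlt (2 * a) (2 * b) (p + len s' + 2)] ++ flat s' (p + 1) ++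
      [Instr.jmp (p + len s + len s' + 2)]).length = p + len s' + 2 := by
      simp only [List.length_append, length_flat, List.length_cons, List.length_nil]; omega
    rw [hl] at q2
    rw [← hp] at q1
    have e1 : run Q inp w 1 c = _ := run_one (inp := inp) (w := w) q1
    have e2 : (Instr.jlt (2 * a) (2 * b) (c.pc + len s' + 2)).exec inp w c =
        { c with pc := c.pc + len s' + 2 } := if_pos (by rw [hc.r, hc.r]; exact hcond)
    rw [e2] at e1
    obtain ⟨t1, ht1, r1, p1⟩ := ih (by omega) (p + len s' + 2) q2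
      { c with pc := c.pc + len s' + 2 } (hc.pc _) (by change c.pc + len s' + 2 = _; rw [hp])
    refine ⟨1 + t1, by rw [Nat.mul_add]; omega, ?_, ?_⟩
    · rw [run_add', e1]; exact r1
    · rw [run_add', e1, p1]; omega
  | @iflF a b s s' σ σ' t hcond h ih =>
    have h3 : len (.ifl a b s s') = len s + len s' + 2 := rfl
    have hQ' : CodeAt Q p ([.jlt (2 * a) (2 * b) (p + len s' + 2)] ++ flat s' (p + 1) ++
      [.jmp (p + len s + len s' + 2)] ++ flat s (p + len s' + 2)) := hQ
    have q1 := hQ'.left.left.left.head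
    have q2 := hQ'.left.left.right
    have q3 := hQ'.left.right.head
    have hl : p + ([Instr.jlt (2 * a) (2 * b) (p + len s' + 2)] ++ flat s' (p + 1)).length
        = p + 1 + len s' := by
      simp only [List.length_append, length_flat, List.length_cons, List.length_nil]; omega
    rw [hl] at q3
    rw [← hp] at q1
    have e1 : run Q inp w 1 c = _ := run_one (inp := inp) (w := w) q1
    have e2 : (Instr.jlt (2 * a) (2 * b) (c.pc + len s' + 2)).exec inp w c =
        { c with pc := c.pc + 1 } := if_neg (by rw [hc.r, hc.r]; exact hcond)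
    rw [e2] at e1
    obtain ⟨t1, ht1, r1, p1⟩ := ih (by omega) (p + 1) q2
      { c with pc := c.pc + 1 } (hc.pc _) (by change c.pc + 1 = _; rw [hp])
    rw [← p1] at q3
    have e3 : run Q inp w 1 (run Q inp w t1 { c with pc := c.pc + 1 }) = _ :=
      run_one (inp := inp) (w := w) q3
    refine ⟨1 + t1 + 1, by rw [Nat.mul_add]; omega, ?_, ?_⟩
    · rw [run_add', run_add', e1, e3]; exact r1.pc _
    · rw [run_add', run_add', e1, e3]
      change p + len s + len s' + 2 = _
      omega
  | @ifrT a b s s' σ σ' t hcond h ih =>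
    have h3 : len (.ifr a b s s') = len s + len s' + 2 := rfl
    have hQ' : CodeAt Q p ([.rjlt a b (p + len s' + 2)] ++ flat s' (p + 1) ++
      [.jmp (p + len s + len s' + 2)] ++ flat s (p + len s' + 2)) := hQ
    have q1 := hQ'.left.left.left.head
    have q2 := hQ'.right
    have hl : p + ([Instr.rjlt a b (p + len s' + 2)] ++ flat s' (p + 1) ++
      [Instr.jmp (p + len s + len s' + 2)]).length = p + len s' + 2 := by
      simp only [List.length_append, length_flat, List.length_cons, List.length_nil]; omega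
    rw [hl] at q2
    rw [← hp] at q1
    have e1 : run Q inp w 1 c = _ := run_one (inp := inp) (w := w) q1
    have e2 : (Instr.rjlt a b (c.pc + len s' + 2)).exec inp w c =
        { c with pc := c.pc + len s' + 2 } := if_pos (by rw [hc.x]; exact hcond)
    rw [e2] at e1
    obtain ⟨t1, ht1, r1, p1⟩ := ih (by omega) (p + len s' + 2) q2
      { c with pc := c.pc + len s' + 2 } (hc.pc _) (by change c.pc + len s' + 2 = _; rw [hp])
    refine ⟨1 + t1, by rw [Nat.mul_add]; omega, ?_, ?_⟩
    · rw [run_add', e1]; exact r1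
    · rw [run_add', e1, p1]; omega
  | @ifrF a b s s' σ σ' t hcond h ih =>
    have h3 : len (.ifr a b s s') = len s + len s' + 2 := rfl
    have hQ' : CodeAt Q p ([.rjlt a b (p + len s' + 2)] ++ flat s' (p + 1) ++
      [.jmp (p + len s + len s' + 2)] ++ flat s (p + len s' + 2)) := hQ
    have q1 := hQ'.left.left.left.head
    have q2 := hQ'.left.left.right
    have q3 := hQ'.left.right.head
    have hl : p + ([Instr.rjlt a b (p + len s' + 2)] ++ flat s' (p + 1)).length
        = p + 1 + len s' := by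
      simp only [List.length_append, length_flat, List.length_cons, List.length_nil]; omega
    rw [hl] at q3
    rw [← hp] at q1
    have e1 : run Q inp w 1 c = _ := run_one (inp := inp) (w := w) q1
    have e2 : (Instr.rjlt a b (c.pc + len s' + 2)).exec inp w c =
        { c with pc := c.pc + 1 } := if_neg (by rw [hc.x]; exact hcond)
    rw [e2] at e1
    obtain ⟨t1, ht1, r1, p1⟩ := ih (by omega) (p + 1) q2
      { c with pc := c.pc + 1 } (hc.pc _) (by change c.pc + 1 = _; rw [hp])
    rw [← p1] at q3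
    have e3 : run Q inp w 1 (run Q inp w t1 { c with pc := c.pc + 1 }) = _ :=
      run_one (inp := inp) (w := w) q3
    refine ⟨1 + t1 + 1, by rw [Nat.mul_add]; omega, ?_, ?_⟩
    · rw [run_add', run_add', e1, e3]; exact r1.pc _
    · rw [run_add', run_add', e1, e3]
      change p + len s + len s' + 2 = _
      omega
  | @whT a b s σ σ' σ'' t t' hcond h h' ih1 ih2 =>
    have h3 : len (.wh a b s) = len s + 3 := rfl
    have hQ' : CodeAt Q p ([.jlt (2 * a) (2 * b) (p + 2), .jmp (p + len s + 3)] ++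
      flat s (p + 2) ++ [.jmp p]) := hQ
    have q1 := hQ'.left.left.head
    have q2 := hQ'.left.right
    have q3 := hQ'.right.head
    have hl : p + ([Instr.jlt (2 * a) (2 * b) (p + 2), Instr.jmp (p + len s + 3)] ++
        flat s (p + 2)).length = p + 2 + len s := by
      simp only [List.length_append, length_flat, List.length_cons, List.length_nil]; omega
    rw [hl] at q3
    rw [← hp] at q1
    have e1 : run Q inp w 1 c = _ := run_one (inp := inp) (w := w) q1
    have e2 : (Instr.jlt (2 * a) (2 * b) (c.pc + 2)).exec inp w c =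
        { c with pc := c.pc + 2 } := if_pos (by rw [hc.r, hc.r]; exact hcond)
    rw [e2] at e1
    obtain ⟨t1, ht1, r1, p1⟩ := ih1 (by omega) (p + 2) q2
      { c with pc := c.pc + 2 } (hc.pc _) (by change c.pc + 2 = _; rw [hp])
    rw [← p1] at q3
    have e3 : run Q inp w 1 (run Q inp w t1 { c with pc := c.pc + 2 }) = _ :=
      run_one (inp := inp) (w := w) q3
    obtain ⟨t2, ht2, r2, p2⟩ := ih2 hK p hQ
      (run Q inp w 1 (run Q inp w t1 { c with pc := c.pc + 2 }))
      (by rw [e3]; exact r1.pc _) (by rw [e3]; rfl)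
    refine ⟨1 + t1 + 1 + t2, by rw [Nat.mul_add, Nat.mul_add]; omega, ?_, ?_⟩
    · rw [run_add', run_add', run_add', e1]; exact r2
    · rw [run_add', run_add', run_add', e1, p2]
  | @whF a b s σ hcond =>
    have h3 : len (.wh a b s) = len s + 3 := rfl
    have hQ' : CodeAt Q p ([.jlt (2 * a) (2 * b) (p + 2), .jmp (p + len s + 3)] ++
      flat s (p + 2) ++ [.jmp p]) := hQ
    have q1 := hQ'.left.left.head
    have q2 := hQ'.left.left.tail.head
    rw [← hp] at q1
    have e1 : run Q inp w 1 c = _ := run_one (inp := inp) (w := w) q1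
    have e2 : (Instr.jlt (2 * a) (2 * b) (c.pc + 2)).exec inp w c =
        { c with pc := c.pc + 1 } := if_neg (by rw [hc.r, hc.r]; exact hcond)
    rw [e2] at e1
    have p1 : ({ c with pc := c.pc + 1 } : Cfg).pc = p + 1 := by
      change c.pc + 1 = _; rw [hp]
    rw [← p1] at q2
    have e3 : run Q inp w 1 { c with pc := c.pc + 1 } = _ :=
      run_one (inp := inp) (w := w) q2
    refine ⟨1 + 1, by omega, ?_, ?_⟩
    · rw [run_add', e1, e3]; exact (hc.pc _).pc _
    · rw [run_add', e1, e3]
      change p + len s + 3 = _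
      omega

/-- The complete program. -/
theorem flat_main (s : Stm) : ∃ (Q : List Instr) (K : ℕ), ∀ (inp : ℕ → ℝ) (w : ℕ → Bool)
    (n : ℕ) (σ' : MSt) (t : ℕ), Exec inp w s (MSt.init n) σ' t →
    ∃ t', t' ≤ K * t ∧ Halted Q (run Q inp w t' (Cfg.init n)) ∧
      (run Q inp w t' (Cfg.init n)).out = σ'.out ∧ (run Q inp w t' (Cfg.init n)).k = σ'.k := by
  refine ⟨flat s 0, len s + 3, fun inp w n σ' t h => ?_⟩
  have hQ : CodeAt (flat s 0) 0 (flat s 0) := by
    intro i _
    rw [Nat.zero_add]
  have hc : Rel (Cfg.init n) (MSt.init n) := by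
    refine ⟨fun a => ?_, rfl, fun _ _ => rfl, rfl, rfl, rfl⟩
    change (if 2 * a = 0 then n else 0) = (if a = 0 then n else 0)
    by_cases ha : a = 0
    · rw [if_pos ha, if_pos (by omega)]
    · rw [if_neg ha, if_neg (by omega)]
  obtain ⟨t', h1, h2, h3⟩ := flat_sim inp w (flat s 0) s (MSt.init n) σ' t h (len s + 3) le_rfl 0 hQ
    (Cfg.init n) hc rfl
  refine ⟨t', h1, ?_, h2.out, h2.k⟩
  unfold Halted
  rw [length_flat, h3]
  omega

end P7m
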