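/-
P7m.Fold: folds and repetitions for `RC`, with explicit costs.
-/
import Pool.Agent.Lib.P7m.Arith

namespace P7m

variable {A B C D : Type} [Enc A] [Enc B] [Enc C] [Enc D]

/-- cost of a fold: the costs `c s x` of the single steps along the fold, plus 1 for each -/
def foldCost {S X : Type} (step : S → X → S) (c : S → X → ℕ) : List X → S → ℕ
  | [], _ => 0
  | x :: t, s => c s x + 1 + foldCost step c t (step s x)

/-- cost of a repetition -/
def iterCost {S : Type} (step : S → S) (c : S → ℕ) : ℕ → S → ℕ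
  | 0, _ => 0
  | k + 1, s => c s + 1 + iterCost step c k (step s)

section bounds
variable {S X : Type}

@[simp] lemma foldCost_nil (step : S → X → S) (c : S → X → ℕ) (s : S) :
    foldCost step c [] s = 0 := rfl
@[simp] lemma foldCost_cons (step : S → X → S) (c : S → X → ℕ) (x : X) (t : List X) (s : S) :
    foldCost step c (x :: t) s = c s x + 1 + foldCost step c t (step s x) := rfl

/-- bound of the cost of a fold by means of an invariant -/
theorem foldCost_le_inv (step : S → X → S) (c : S → X → ℕ) (g : X → ℕ) (I : S → Prop)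
    (l : List X) (s : S) (hI : I s) (hstep : ∀ s, I s → ∀ x ∈ l, I (step s x))
    (hc : ∀ s, I s → ∀ x ∈ l, c s x ≤ g x) :
    foldCost step c l s ≤ (l.map (fun x => g x + 1)).sum := by
  induction l generalizing s with
  | nil => simp
  | cons x t ih =>
    simp only [foldCost_cons, List.map_cons, List.sum_cons]
    have h1 := hc s hI x (by simp)
    have h2 := ih (step s x) (hstep s hI x (by simp))
      (fun s hs y hy => hstep s hs y (by simp [hy])) (fun s hs y hy => hc s hs y (by simp [hy]))
    omega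

theorem foldCost_le_sum (step : S → X → S) (c : S → X → ℕ) (g : X → ℕ)
    (l : List X) (s : S) (hc : ∀ s, ∀ x ∈ l, c s x ≤ g x) :
    foldCost step c l s ≤ (l.map (fun x => g x + 1)).sum :=
  foldCost_le_inv step c g (fun _ => True) l s trivial (fun _ _ _ _ => trivial)
    (fun s _ x hx => hc s x hx)

theorem foldCost_le_const (step : S → X → S) (c : S → X → ℕ) (K : ℕ)
    (l : List X) (s : S) (hc : ∀ s, ∀ x ∈ l, c s x ≤ K) :
    foldCost step c l s ≤ (K + 1) * l.length := by
  refine (foldCost_le_sum step c (fun _ => K) l s hc).trans ?_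
  simp [List.sum_replicate, mul_comm]

/-- amortised bound: `c s x + Φ (step s x) ≤ Φ s + g x` -/
theorem foldCost_le_potential (step : S → X → S) (c : S → X → ℕ) (g : X → ℕ) (Φ : S → ℕ)
    (I : S → Prop) (l : List X) (s : S) (hI : I s)
    (hstep : ∀ s, I s → ∀ x ∈ l, I (step s x))
    (hc : ∀ s, I s → ∀ x ∈ l, c s x + Φ (step s x) ≤ Φ s + g x) :
    foldCost step c l s + Φ (l.foldl step s) ≤ Φ s + (l.map (fun x => g x + 1)).sum := by
  induction l generalizing s with
  | nil => simp
  | cons x t ih =>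
    simp only [foldCost_cons, List.map_cons, List.sum_cons, List.foldl_cons]
    have h1 := hc s hI x (by simp)
    have h2 := ih (step s x) (hstep s hI x (by simp))
      (fun s hs y hy => hstep s hs y (by simp [hy])) (fun s hs y hy => hc s hs y (by simp [hy]))
    omega

@[simp] lemma iterCost_zero (step : S → S) (c : S → ℕ) (s : S) :
    iterCost step c 0 s = 0 := rfl
@[simp] lemma iterCost_succ (step : S → S) (c : S → ℕ) (k : ℕ) (s : S) :
    iterCost step c (k + 1) s = c s + 1 + iterCost step c k (step s) := rfl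

theorem iterCost_le_inv (step : S → S) (c : S → ℕ) (K : ℕ) (I : S → Prop)
    (k : ℕ) (s : S) (hI : I s) (hstep : ∀ s, I s → I (step s))
    (hc : ∀ s, I s → c s ≤ K) : iterCost step c k s ≤ (K + 1) * k := by
  induction k generalizing s with
  | zero => simp
  | succ k ih =>
    simp only [iterCost_succ]
    have h1 := hc s hI
    have h2 := ih (step s) (hstep s hI)
    nlinarith

theorem iterCost_le_const (step : S → S) (c : S → ℕ) (K : ℕ)
    (k : ℕ) (s : S) (hc : ∀ s, c s ≤ K) : iterCost step c k s ≤ (K + 1) * k :=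
  iterCost_le_inv step c K (fun _ => True) k s trivial (fun _ _ => trivial) (fun s _ => hc s)

theorem iterCost_le_potential (step : S → S) (c : S → ℕ) (K : ℕ) (Φ : S → ℕ) (I : S → Prop)
    (k : ℕ) (s : S) (hI : I s) (hstep : ∀ s, I s → I (step s))
    (hc : ∀ s, I s → c s + Φ (step s) ≤ Φ s + K) :
    iterCost step c k s + Φ (step^[k] s) ≤ Φ s + (K + 1) * k := by
  induction k generalizing s with
  | zero => simp
  | succ k ih =>
    simp only [iterCost_succ, Function.iterate_succ, Function.comp]
    have h1 := hc s hI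
    have h2 := ih (step s) (hstep s hI)
    nlinarith

end bounds

/-- the general fold lemma at the level of the semantics -/
theorem foldE_spec {S : Type} (F : St → St × ℕ) (E : S → Val) (M : S → ℕ → Val) (k : ℕ)
    (out : List (ℕ ⊕ ℝ)) (step : S → B → S) (c : S → B → ℕ) (K : ℕ)
    (h1 : ∀ s x, (F ⟨.node 0 0 (enc x) (E s), M s, k, out⟩).1 =
      ⟨E (step s x), M (step s x), k, out⟩)
    (h2 : ∀ s x, (F ⟨.node 0 0 (enc x) (E s), M s, k, out⟩).2 ≤ K * (c s x + 1))
    (l : List B) (s : S) :
    (foldE F (enc l) ⟨E s, M s, k, out⟩).1 =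
      ⟨E (l.foldl step s), M (l.foldl step s), k, out⟩ ∧
    (foldE F (enc l) ⟨E s, M s, k, out⟩).2 ≤ (K + 1) * foldCost step c l s + 1 := by
  induction l generalizing s with
  | nil => exact ⟨rfl, le_refl _⟩
  | cons x t ih =>
    have a1 := h1 s x
    have a2 := h2 s x
    have a3 := ih (step s x)
    rw [enc_cons, foldE]
    simp only [one_ne_zero, if_false, a1]
    refine ⟨a3.1, ?_⟩
    have a4 := a3.2
    simp only [foldCost_cons]
    nlinarith

/-- the general repetition lemma at the level of the semantics -/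
theorem loopE_spec {S : Type} (F : St → St × ℕ) (E : S → Val) (M : S → ℕ → Val) (k : ℕ)
    (out : List (ℕ ⊕ ℝ)) (step : S → S) (c : S → ℕ) (K : ℕ)
    (h1 : ∀ s, (F ⟨E s, M s, k, out⟩).1 = ⟨E (step s), M (step s), k, out⟩)
    (h2 : ∀ s, (F ⟨E s, M s, k, out⟩).2 ≤ K * (c s + 1))
    (n : ℕ) (s : S) :
    (loopE F n ⟨E s, M s, k, out⟩).1 =
      ⟨E (step^[n] s), M (step^[n] s), k, out⟩ ∧
    (loopE F n ⟨E s, M s, k, out⟩).2 ≤ (K + 1) * iterCost step c n s + 1 := by
  induction n generalizing s with
  | zero => exact ⟨rfl, le_refl _⟩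
  | succ n ih =>
    have a1 := h1 s
    have a2 := h2 s
    have a3 := ih (step s)
    rw [loopE]
    simp only [a1]
    refine ⟨a3.1, ?_⟩
    have a4 := a3.2
    simp only [iterCost_succ]
    nlinarith

/-- folds -/
theorem RC.foldl {l : A → List B} {b : A → C} {f : A → C → B → C} {cl cb : A → ℕ}
    {cf : A × C × B → ℕ} (hl : RC l cl) (hb : RC b cb)
    (hf : RC (fun p : A × C × B => f p.1 p.2.1 p.2.2) cf) :
    RC (fun a => (l a).foldl (f a) (b a))
      (fun a => cl a + cb a + foldCost (f a) (fun s x => cf (a, s, x)) (l a) (b a)) := by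
  obtain ⟨P, K, hP⟩ := hl
  obtain ⟨Q, L, hQ⟩ := hb
  obtain ⟨R, M, hR⟩ := hf
  refine ⟨.seq (.mk 0 P (.mk 0 .id Q)) (.seq (.fold
    (.mk 0 (.seq .snd .fst) (.seq (.mk 0 (.seq .snd .fst) (.mk 0 (.seq .snd .snd) .fst)) R)))
    .snd), K + L + M + 50, fun inp w a m k out => ?_⟩
  have h1 := hP inp w a m k out
  have h2 := hQ inp w a m k out
  set body : Prog :=
    (.mk 0 (.seq .snd .fst) (.seq (.mk 0 (.seq .snd .fst) (.mk 0 (.seq .snd .snd) .fst)) R))
    with hbody
  have key := foldE_spec (B := B) (eval inp w body) (fun s : C => .node 0 0 (enc a) (enc s))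
    (fun _ => m) k out (f a) (fun s x => cf (a, s, x)) (M + 14) (fun s x => by
      have h3 := hR inp w (a, s, x) m k out
      rw [enc_prod, enc_prod] at h3
      simp only [hbody, eval, Val.fst_node, Val.snd_node]
      rw [h3.1]) (fun s x => by
      have h3 := hR inp w (a, s, x) m k out
      rw [enc_prod, enc_prod] at h3
      simp only [hbody, eval, Val.fst_node, Val.snd_node]
      have := h3.2
      nlinarith) (l a) (b a)
  simp only [eval]
  rw [h1.1]
  simp only
  rw [h2.1]
  simp only [Val.fst_node, Val.snd_node]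
  rw [key.1]
  refine ⟨rfl, ?_⟩
  have e1 := h1.2
  have e2 := h2.2
  have e3 := key.2
  have z1 := Nat.zero_le (K * cb a)
  have z2 := Nat.zero_le (L * cl a)
  have z3 := Nat.zero_le (M * cl a)
  have z4 := Nat.zero_le (M * cb a)
  set T := foldCost (f a) (fun s x => cf (a, s, x)) (l a) (b a)
  have z5 := Nat.zero_le (K * T)
  have z6 := Nat.zero_le (L * T)
  nlinarith

/-- repetitions -/
theorem RC.iterate {n : A → ℕ} {b : A → C} {f : A → C → C} {cn cb : A → ℕ}
    {cf : A × C → ℕ} (hn : RC n cn) (hb : RC b cb)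
    (hf : RC (fun p : A × C => f p.1 p.2) cf) :
    RC (fun a => (f a)^[n a] (b a))
      (fun a => cn a + cb a + iterCost (f a) (fun s => cf (a, s)) (n a) (b a)) := by
  obtain ⟨P, K, hP⟩ := hn
  obtain ⟨Q, L, hQ⟩ := hb
  obtain ⟨R, M, hR⟩ := hf
  refine ⟨.seq (.mk 0 P (.mk 0 .id Q)) (.seq (.loop (.mk 0 .fst R)) .snd),
    K + L + M + 50, fun inp w a m k out => ?_⟩
  have h1 := hP inp w a m k out
  have h2 := hQ inp w a m k out
  set body : Prog := (.mk 0 .fst R) with hbody
  have key := loopE_spec (eval inp w body) (fun s : C => .node 0 0 (enc a) (enc s))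
    (fun _ => m) k out (f a) (fun s => cf (a, s)) (M + 4) (fun s => by
      have h3 := hR inp w (a, s) m k out
      rw [enc_prod] at h3
      simp only [hbody, eval, Val.fst_node]
      rw [h3.1]) (fun s => by
      have h3 := hR inp w (a, s) m k out
      rw [enc_prod] at h3
      simp only [hbody, eval, Val.fst_node]
      have := h3.2
      nlinarith) (n a) (b a)
  simp only [eval]
  rw [h1.1]
  simp only
  rw [h2.1]
  simp only [Val.fst_node, Val.snd_node, nn_enc_nat]
  rw [key.1]
  refine ⟨rfl, ?_⟩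
  have e1 := h1.2
  have e2 := h2.2
  have e3 := key.2
  have z1 := Nat.zero_le (K * cb a)
  have z2 := Nat.zero_le (L * cn a)
  have z3 := Nat.zero_le (M * cn a)
  have z4 := Nat.zero_le (M * cb a)
  set T := iterCost (f a) (fun s => cf (a, s)) (n a) (b a)
  have z5 := Nat.zero_le (K * T)
  have z6 := Nat.zero_le (L * T)
  nlinarith

end P7m
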