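/-
P7m.Lists: list functions for `RC`, with explicit costs.  Context style: `l : A → List B`,
`f : A → B → C`, the hypothesis on `f` is `RC (fun p : A × B => f p.1 p.2) cf`.
-/
import Pool.Agent.Lib.P7m.Fold

namespace P7m

variable {A B C D : Type} [Enc A] [Enc B] [Enc C] [Enc D]

/-- length -/
theorem RC.length {l : A → List B} {cl : A → ℕ} (hl : RC l cl) :
    RC (fun a => (l a).length) (fun a => cl a + (l a).length) := by
  have h := RC.foldl (f := fun _ (s : ℕ) (_ : B) => s + 1) hl (RC.const_nat 0)
    (RC.succ (RC.fst (RC.snd RC.id)))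
  refine (h.of_le (fun a => ?_)).congr (fun a => ?_)
  · have := foldCost_le_const (fun (s : ℕ) (_ : B) => s + 1) (fun _ _ => 0) 0 (l a) 0
      (fun _ _ _ => le_refl _)
    try simp only at this ⊢
    omega
  · rw [List.foldl_const]; simp

/-- reverse onto -/
theorem RC.reverseAux {l r : A → List B} {cl cr : A → ℕ} (hl : RC l cl) (hr : RC r cr) :
    RC (fun a => (l a).reverse ++ r a) (fun a => cl a + cr a + (l a).length) := by
  have h := RC.foldl (f := fun _ (s : List B) (x : B) => x :: s) hl hr
    (RC.cons (RC.snd (RC.snd RC.id)) (RC.fst (RC.snd RC.id)))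
  refine (h.of_le (fun a => ?_)).congr (fun a => ?_)
  · have := foldCost_le_const (fun (s : List B) (x : B) => x :: s) (fun _ _ => 0 + 0) 0 (l a)
      (r a) (fun _ _ _ => le_refl _)
    try simp only at this ⊢
    omega
  · simp

theorem RC.reverse {l : A → List B} {cl : A → ℕ} (hl : RC l cl) :
    RC (fun a => (l a).reverse) (fun a => cl a + (l a).length) :=
  ((RC.reverseAux hl RC.nil).of_le (fun _ => le_refl _)).congr (fun a => by simp)

theorem RC.append {l r : A → List B} {cl cr : A → ℕ} (hl : RC l cl) (hr : RC r cr) :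
    RC (fun a => l a ++ r a) (fun a => cl a + cr a + (l a).length) :=
  ((RC.reverseAux (RC.reverse hl) hr).mono 2 (fun a => by simp; omega)).congr
    (fun a => by simp)

/-- map in a context -/
theorem RC.map {l : A → List B} {f : A → B → C} {cl : A → ℕ} {cf : A × B → ℕ} (hl : RC l cl)
    (hf : RC (fun p : A × B => f p.1 p.2) cf) :
    RC (fun a => (l a).map (f a))
      (fun a => cl a + ((l a).map (fun x => cf (a, x) + 1)).sum) := by
  have h := RC.reverse (RC.foldl (f := fun a (s : List C) (x : B) => f a x :: s)
    hl RC.nil (RC.cons (RC.comp (g := fun p : A × B => f p.1 p.2) hf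
      (RC.pair (RC.fst RC.id) (RC.snd (RC.snd RC.id)))) (RC.fst (RC.snd RC.id))))
  have e : ∀ (a : A) (l : List B) (s : List C),
      l.foldl (fun (s : List C) (x : B) => f a x :: s) s = (l.map (f a)).reverse ++ s := by
    intro a l
    induction l with
    | nil => intro s; rfl
    | cons x t ih => intro s; simp [ih]
  refine (h.mono 2 (fun a => ?_)).congr (fun a => ?_)
  · have h1 := foldCost_le_sum (fun (s : List C) (x : B) => f a x :: s)
      (fun _ x => 0 + 0 + cf (a, x) + 0) (fun x => cf (a, x)) (l a) [] (fun s x _ => by simp)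
    have h2 : (l a).length ≤ ((l a).map (fun x => cf (a, x) + 1)).sum := by
      generalize l a = t
      induction t with
      | nil => simp
      | cons x t ih => simp; omega
    rw [e]
    simp only [List.append_nil, List.length_reverse, List.length_map] at h1 ⊢
    omega
  · rw [e]; simp

/-- filterMap in a context -/
theorem RC.filterMap {l : A → List B} {f : A → B → Option C} {cl : A → ℕ} {cf : A × B → ℕ}
    (hl : RC l cl) (hf : RC (fun p : A × B => f p.1 p.2) cf) :
    RC (fun a => (l a).filterMap (f a))
      (fun a => cl a + ((l a).map (fun x => cf (a, x) + 1)).sum) := by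
  have h := RC.reverse (RC.foldl
    (f := fun a (s : List C) (x : B) => (f a x).elim s (fun y => y :: s))
    hl RC.nil (RC.optionElim (RC.comp (g := fun p : A × B => f p.1 p.2) hf
      (RC.pair (RC.fst RC.id) (RC.snd (RC.snd RC.id)))) (RC.fst (RC.snd RC.id))
      (RC.cons (RC.snd RC.id) (RC.fst (RC.snd (RC.fst RC.id))))))
  have e : ∀ (a : A) (l : List B) (s : List C),
      l.foldl (fun (s : List C) (x : B) => (f a x).elim s (fun y => y :: s)) s =
        (l.filterMap (f a)).reverse ++ s := by
    intro a l
    induction l with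
    | nil => intro s; rfl
    | cons x t ih => intro s; cases hx : f a x <;> simp [ih, hx]
  refine (h.mono 2 (fun a => ?_)).congr (fun a => ?_)
  · have h1 := foldCost_le_sum
      (fun (s : List C) (x : B) => (f a x).elim s (fun y => y :: s))
      (fun s x => 0 + 0 + cf (a, x) + (f a x).elim 0 (fun _ => 0 + 0)) (fun x => cf (a, x))
      (l a) [] (fun s x _ => by cases f a x <;> simp)
    have h2 : ((l a).filterMap (f a)).length ≤ ((l a).map (fun x => cf (a, x) + 1)).sum := by
      generalize l a = t
      induction t with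
      | nil => simp
      | cons x t ih =>
        simp only [List.map_cons, List.sum_cons]
        cases hx : f a x
        · rw [List.filterMap_cons_none hx]; omega
        · rw [List.filterMap_cons_some hx, List.length_cons]; omega
    rw [e]
    simp only [List.append_nil, List.length_reverse] at h1 ⊢
    omega
  · rw [e]; simp

/-- filter in a context -/
theorem RC.filter {l : A → List B} {p : A → B → Bool} {cl : A → ℕ} {cp : A × B → ℕ}
    (hl : RC l cl) (hp : RC (fun q : A × B => p q.1 q.2) cp) :
    RC (fun a => (l a).filter (p a))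
      (fun a => cl a + ((l a).map (fun x => cp (a, x) + 1)).sum) := by
  have h := RC.filterMap (f := fun a (x : B) => if p a x then Option.some x else Option.none) hl
    (RC.cond hp (RC.some (RC.snd RC.id)) RC.none)
  refine (h.of_le (fun a => ?_)).congr (fun a => ?_)
  · simp
  · induction l a with
    | nil => rfl
    | cons x t ih => cases hx : p a x <;> simp [hx, ih]

/-- flatMap in a context -/
theorem RC.flatMap {l : A → List B} {f : A → B → List C} {cl : A → ℕ} {cf : A × B → ℕ}
    (hl : RC l cl) (hf : RC (fun p : A × B => f p.1 p.2) cf) :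
    RC (fun a => (l a).flatMap (f a))
      (fun a => cl a + ((l a).map (fun x => cf (a, x) + (f a x).length + 1)).sum) := by
  have h := RC.reverse (RC.foldl
    (f := fun a (s : List C) (x : B) => (f a x).reverse ++ s)
    hl RC.nil (RC.reverseAux (RC.comp (g := fun p : A × B => f p.1 p.2) hf
      (RC.pair (RC.fst RC.id) (RC.snd (RC.snd RC.id)))) (RC.fst (RC.snd RC.id))))
  have e : ∀ (a : A) (l : List B) (s : List C),
      l.foldl (fun (s : List C) (x : B) => (f a x).reverse ++ s) s =
        (l.flatMap (f a)).reverse ++ s := by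
    intro a l
    induction l with
    | nil => intro s; rfl
    | cons x t ih => intro s; simp [ih]
  refine (h.mono 2 (fun a => ?_)).congr (fun a => ?_)
  · have h1 := foldCost_le_sum
      (fun (s : List C) (x : B) => (f a x).reverse ++ s)
      (fun s x => 0 + 0 + cf (a, x) + 0 + (f a x).length)
      (fun x => cf (a, x) + (f a x).length)
      (l a) [] (fun s x _ => by simp)
    have h2 : ((l a).flatMap (f a)).length ≤
        ((l a).map (fun x => cf (a, x) + (f a x).length + 1)).sum := by
      generalize l a = t
      induction t with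
      | nil => simp
      | cons x t ih => simp at ih ⊢; omega
    rw [e]
    simp only [List.append_nil, List.length_reverse] at h1 ⊢
    omega
  · rw [e]; simp

/-- flatten -/
theorem RC.flatten {l : A → List (List B)} {cl : A → ℕ} (hl : RC l cl) :
    RC (fun a => (l a).flatten)
      (fun a => cl a + ((l a).map (fun x => x.length + 1)).sum) :=
  ((RC.flatMap (f := fun _ (x : List B) => x) hl (RC.snd RC.id)).of_le
    (fun a => by simp)).congr (fun a => by simp [List.flatMap_def])

/-- any in a context (no early exit) -/
theorem RC.any {l : A → List B} {p : A → B → Bool} {cl : A → ℕ} {cp : A × B → ℕ}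
    (hl : RC l cl) (hp : RC (fun q : A × B => p q.1 q.2) cp) :
    RC (fun a => (l a).any (p a))
      (fun a => cl a + ((l a).map (fun x => cp (a, x) + 1)).sum) := by
  have h := RC.foldl (f := fun a (s : Bool) (x : B) => s || p a x) hl RC.const_false
    (RC.or (RC.fst (RC.snd RC.id)) (RC.comp (g := fun p' : A × B => p p'.1 p'.2) hp
      (RC.pair (RC.fst RC.id) (RC.snd (RC.snd RC.id)))))
  have e : ∀ (a : A) (l : List B) (s : Bool),
      l.foldl (fun (s : Bool) (x : B) => s || p a x) s = (s || l.any (p a)) := by
    intro a l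
    induction l with
    | nil => intro s; simp
    | cons x t ih => intro s; simp [ih, Bool.or_assoc]
  refine (h.of_le (fun a => ?_)).congr (fun a => ?_)
  · have h1 := foldCost_le_sum
      (fun (s : Bool) (x : B) => s || p a x)
      (fun s x => 0 + (0 + 0 + cp (a, x))) (fun x => cp (a, x))
      (l a) false (fun s x _ => by simp)
    try simp only at h1 ⊢
    omega
  · rw [e]; simp

/-- all in a context (no early exit) -/
theorem RC.all {l : A → List B} {p : A → B → Bool} {cl : A → ℕ} {cp : A × B → ℕ}
    (hl : RC l cl) (hp : RC (fun q : A × B => p q.1 q.2) cp) :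
    RC (fun a => (l a).all (p a))
      (fun a => cl a + ((l a).map (fun x => cp (a, x) + 1)).sum) :=
  (RC.not (RC.any (p := fun a x => !(p a x)) hl (RC.not hp))).congr (fun a => by simp [List.all_eq_not_any_not])

/-- find? in a context (no early exit) -/
theorem RC.find? {l : A → List B} {p : A → B → Bool} {cl : A → ℕ} {cp : A × B → ℕ}
    (hl : RC l cl) (hp : RC (fun q : A × B => p q.1 q.2) cp) :
    RC (fun a => (l a).find? (p a))
      (fun a => cl a + ((l a).map (fun x => cp (a, x) + 1)).sum) :=
  (RC.comp0 RC.head?0 (RC.filter hl hp)).congr (fun a => by simp)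

theorem RC.head? {l : A → List B} {cl : A → ℕ} (hl : RC l cl) :
    RC (fun a => (l a).head?) cl := RC.comp0 RC.head?0 hl

theorem RC.tail {l : A → List B} {cl : A → ℕ} (hl : RC l cl) :
    RC (fun a => (l a).tail) cl := RC.comp0 RC.tail0 hl

theorem RC.isEmpty {l : A → List B} {cl : A → ℕ} (hl : RC l cl) :
    RC (fun a => (l a).isEmpty) cl := RC.comp0 RC.isEmpty0 hl

theorem RC.isSome {o : A → Option B} {co : A → ℕ} (ho : RC o co) :
    RC (fun a => (o a).isSome) co := RC.comp0 RC.isSome0 ho

theorem RC.getD {o : A → Option B} {d : A → B} {co cd : A → ℕ} (ho : RC o co) (hd : RC d cd) :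
    RC (fun a => (o a).getD (d a)) (fun a => co a + cd a) :=
  RC.comp20 (h := fun (x : Option B) (y : B) => x.getD y) RC.getD0 ho hd

theorem RC.singleton {f : A → B} {cf : A → ℕ} (hf : RC f cf) : RC (fun a => [f a]) cf :=
  (RC.cons hf RC.nil).of_le (fun _ => le_refl _)

/-- head with default -/
theorem RC.headD {l : A → List B} {d : A → B} {cl cd : A → ℕ} (hl : RC l cl) (hd : RC d cd) :
    RC (fun a => (l a).headD (d a)) (fun a => cl a + cd a) :=
  (RC.getD (RC.head? hl) hd).congr (fun a => by cases l a <;> rfl)

/-- Option.map in a context -/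
theorem RC.optionMap {o : A → Option B} {f : A → B → C} {co : A → ℕ} {cf : A × B → ℕ}
    (ho : RC o co) (hf : RC (fun p : A × B => f p.1 p.2) cf) :
    RC (fun a => (o a).map (f a)) (fun a => co a + (o a).elim 0 (fun b => cf (a, b))) :=
  ((RC.optionElim (s := fun a b => Option.some (f a b)) ho (RC.none (B := C)) (RC.some hf)).of_le
    (fun _ => le_refl _)).congr (fun a => by cases o a <;> rfl)

/-- Option.bind in a context -/
theorem RC.optionBind {o : A → Option B} {f : A → B → Option C} {co : A → ℕ} {cf : A × B → ℕ}
    (ho : RC o co) (hf : RC (fun p : A × B => f p.1 p.2) cf) :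
    RC (fun a => (o a).bind (f a)) (fun a => co a + (o a).elim 0 (fun b => cf (a, b))) :=
  ((RC.optionElim (s := fun a b => f a b) ho (RC.none (B := C)) hf).of_le
    (fun _ => le_refl _)).congr (fun a => by cases o a <;> rfl)

/-- range -/
theorem RC.range {n : A → ℕ} {cn : A → ℕ} (hn : RC n cn) :
    RC (fun a => List.range (n a)) (fun a => cn a + n a) := by
  have h := RC.reverse (RC.snd (RC.iterate
    (f := fun _ (s : ℕ × List ℕ) => (s.1 + 1, s.1 :: s.2)) (b := fun _ => (0, ([] : List ℕ))) hn
    ((RC.pair (RC.const_nat 0) RC.nil))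
    (RC.pair (RC.succ (RC.fst (RC.snd RC.id)))
      (RC.cons (RC.fst (RC.snd RC.id)) (RC.snd (RC.snd RC.id))))))
  have e : ∀ n : ℕ, (fun (s : ℕ × List ℕ) => (s.1 + 1, s.1 :: s.2))^[n] (0, []) =
      (n, (List.range n).reverse) := by
    intro n
    induction n with
    | zero => rfl
    | succ n ih => rw [Function.iterate_succ_apply', ih, List.range_succ]; simp
  refine (h.mono 2 (fun a => ?_)).congr (fun a => ?_)
  · have h1 := iterCost_le_const (fun (s : ℕ × List ℕ) => (s.1 + 1, s.1 :: s.2))
      (fun _ => 0 + (0 + 0)) 0 (n a) (0, []) (fun s => by simp)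
    simp only [e, List.length_reverse, List.length_range] at h1 ⊢
    omega
  · rw [e]; simp

/-- replicate -/
theorem RC.replicate {n : A → ℕ} {b : A → B} {cn cb : A → ℕ} (hn : RC n cn) (hb : RC b cb) :
    RC (fun a => List.replicate (n a) (b a)) (fun a => cn a + cb a + n a) := by
  have h := RC.snd (RC.iterate
    (f := fun _ (s : B × List B) => (s.1, s.1 :: s.2)) (b := fun a => (b a, ([] : List B))) hn
    ((RC.pair hb RC.nil))
    (RC.pair (RC.fst (RC.snd RC.id))
      (RC.cons (RC.fst (RC.snd RC.id)) (RC.snd (RC.snd RC.id)))))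
  have e : ∀ (n : ℕ) (b : B), (fun (s : B × List B) => (s.1, s.1 :: s.2))^[n] (b, []) =
      (b, (List.replicate n b)) := by
    intro n b
    induction n with
    | zero => rfl
    | succ n ih => rw [Function.iterate_succ_apply', ih, List.replicate_succ]
  refine (h.mono 2 (fun a => ?_)).congr (fun a => ?_)
  · have h1 := iterCost_le_const (fun (s : B × List B) => (s.1, s.1 :: s.2))
      (fun _ => 0 + (0 + 0)) 0 (n a) (b a, []) (fun s => by simp)
    try simp only at h1 ⊢
    omega
  · rw [e]

/-- drop -/
theorem RC.drop {n : A → ℕ} {l : A → List B} {cn cl : A → ℕ} (hn : RC n cn) (hl : RC l cl) :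
    RC (fun a => (l a).drop (n a)) (fun a => cn a + cl a + n a) := by
  have h := RC.iterate (f := fun _ (s : List B) => s.tail) hn hl (RC.tail (RC.snd RC.id))
  have e : ∀ (n : ℕ) (l : List B), (fun (s : List B) => s.tail)^[n] l = l.drop n := by
    intro n
    induction n with
    | zero => intro l; rfl
    | succ n ih => intro l; rw [Function.iterate_succ_apply, ih]; simp
  refine (h.of_le (fun a => ?_)).congr (fun a => ?_)
  · have h1 := iterCost_le_const (fun (s : List B) => s.tail)
      (fun _ => 0) 0 (n a) (l a) (fun s => le_refl _)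
    try simp only at h1 ⊢
    omega
  · rw [e]

/-- zipIdx -/
theorem RC.zipIdx {l : A → List B} {n : A → ℕ} {cl cn : A → ℕ} (hl : RC l cl) (hn : RC n cn) :
    RC (fun a => (l a).zipIdx (n a)) (fun a => cl a + cn a + (l a).length) := by
  have h := RC.reverse (RC.snd (RC.foldl
    (f := fun _ (s : ℕ × List (B × ℕ)) (x : B) => (s.1 + 1, (x, s.1) :: s.2)) hl
    (RC.pair hn RC.nil)
    (RC.pair (RC.succ (RC.fst (RC.fst (RC.snd RC.id))))
      (RC.cons (RC.pair (RC.snd (RC.snd RC.id)) (RC.fst (RC.fst (RC.snd RC.id))))
        (RC.snd (RC.fst (RC.snd RC.id)))))))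
  have e : ∀ (l : List B) (n : ℕ) (r : List (B × ℕ)),
      l.foldl (fun (s : ℕ × List (B × ℕ)) (x : B) => (s.1 + 1, (x, s.1) :: s.2)) (n, r) =
      (n + l.length, (l.zipIdx n).reverse ++ r) := by
    intro l
    induction l with
    | nil => intro n r; rfl
    | cons x t ih => intro n r; simp [ih, List.zipIdx_cons]; omega
  refine (h.mono 2 (fun a => ?_)).congr (fun a => ?_)
  · have h1 := foldCost_le_const
      (fun (s : ℕ × List (B × ℕ)) (x : B) => (s.1 + 1, (x, s.1) :: s.2))
      (fun _ _ => 0 + ((0 + 0) + 0)) 0 (l a) (n a, []) (fun s _ _ => by simp)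
    simp only [e] at h1 ⊢
    simp
    simp at h1
    omega
  · rw [e]; simp

/-- zip -/
theorem RC.zip {l : A → List B} {r : A → List C} {cl cr : A → ℕ} (hl : RC l cl)
    (hr : RC r cr) :
    RC (fun a => (l a).zip (r a)) (fun a => cl a + cr a + (l a).length) := by
  have h := RC.reverse (RC.snd (RC.foldl
    (f := fun _ (s : List C × List (B × C)) (x : B) =>
      (s.1.head?).elim s (fun y => (s.1.tail, (x, y) :: s.2))) hl
    (RC.pair hr RC.nil)
    (RC.optionElim (RC.head? (RC.fst (RC.fst (RC.snd RC.id)))) (RC.fst (RC.snd RC.id))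
      (RC.pair (RC.tail (RC.fst (RC.fst (RC.snd (RC.fst RC.id)))))
        (RC.cons (RC.pair (RC.snd (RC.snd (RC.fst RC.id))) (RC.snd RC.id))
          (RC.snd (RC.fst (RC.snd (RC.fst RC.id)))))))))
  have e : ∀ (l : List B) (r : List C) (q : List (B × C)),
      (l.foldl (fun (s : List C × List (B × C)) (x : B) =>
      (s.1.head?).elim s (fun y => (s.1.tail, (x, y) :: s.2))) (r, q)).2 =
      (l.zip r).reverse ++ q := by
    intro l
    induction l with
    | nil => intro r q; simp
    | cons x t ih =>
      intro r q
      cases r with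
      | nil =>
        have h0 : ∀ (t : List B) (q : List (B × C)),
            (t.foldl (fun (s : List C × List (B × C)) (x : B) =>
            (s.1.head?).elim s (fun y => (s.1.tail, (x, y) :: s.2))) ([], q)) = ([], q) := by
          intro t
          induction t with
          | nil => intro q; rfl
          | cons x t ih => intro q; simpa using ih q
        rw [h0]; simp
      | cons y r => simp [ih]
  refine (h.mono 2 (fun a => ?_)).congr (fun a => ?_)
  · have h1 := foldCost_le_const
      (fun (s : List C × List (B × C)) (x : B) =>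
        (s.1.head?).elim s (fun y => (s.1.tail, (x, y) :: s.2)))
      (fun s _ => 0 + (s.1.head?).elim 0 (fun _ => 0 + (0 + 0 + 0))) 0 (l a) (r a, [])
      (fun s _ _ => by cases s.1.head? <;> simp)
    simp only [e] at h1 ⊢
    simp
    simp at h1
    omega
  · rw [e]; simp

/-- sum of a list of natural numbers -/
theorem RC.nsum {l : A → List ℕ} {cl : A → ℕ} (hl : RC l cl) :
    RC (fun a => (l a).sum) (fun a => cl a + (l a).length) := by
  have h := RC.foldl (f := fun _ (s : ℕ) (x : ℕ) => s + x) hl (RC.const_nat 0)
    (RC.nadd (RC.fst (RC.snd RC.id)) (RC.snd (RC.snd RC.id)))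
  refine (h.of_le (fun a => ?_)).congr (fun a => ?_)
  · have := foldCost_le_const (fun (s : ℕ) (x : ℕ) => s + x) (fun _ _ => 0 + 0) 0 (l a) 0
      (fun _ _ _ => le_refl _)
    try simp only at this ⊢
    omega
  · rw [List.sum_eq_foldl]

end P7m
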