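/-
P7m.Main: every program of the working language runs on the real RAM with the same output, the
same number of random bits and cost larger by a constant factor only.
-/
import Pool.Agent.Lib.P7m.CompC
import Pool.Agent.Lib.P7m.Flat

namespace P7m

/-- COMPILE theorem. -/
theorem ram_main (P : Prog) : ∃ (Q : List Instr) (C : ℕ), ∀ (inp : ℕ → ℝ) (w : ℕ → Bool)
    (n : ℕ), ∃ t : ℕ, t ≤ C * ((eval inp w P ⟨.nat n, fun _ => .leaf, 0, []⟩).2 + 1) ∧
      Halted Q (run Q inp w t (Cfg.init n)) ∧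
      (run Q inp w t (Cfg.init n)).out =
        (eval inp w P ⟨.nat n, fun _ => .leaf, 0, []⟩).1.out ∧
      (run Q inp w t (Cfg.init n)).k =
        (eval inp w P ⟨.nat n, fun _ => .leaf, 0, []⟩).1.k := by
  obtain ⟨S, C, hS⟩ := compile_main P
  obtain ⟨Q, K, hQ⟩ := flat_main S
  refine ⟨Q, K * C, fun inp w n => ?_⟩
  obtain ⟨σ', t, h1, h2, h3, h4⟩ := hS inp w n
  obtain ⟨t', a1, a2, a3, a4⟩ := hQ inp w n σ' t h1
  refine ⟨t', ?_, a2, a3.trans h3, a4.trans h2⟩
  calc t' ≤ K * t := a1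
    _ ≤ K * (C * ((eval inp w P ⟨.nat n, fun _ => .leaf, 0, []⟩).2 + 1)) :=
        Nat.mul_le_mul_left _ h4
    _ = _ := by ring

end P7m
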