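/-
P7m.Meas: the halting time of the real RAM is a measurable function of the random bits.
-/
import Pool.Agent.Lib.P7m.Coin

open MeasureTheory ENNReal

namespace P7m

/-- One step only depends on the next random bit. -/
theorem step_congr (Q : List Instr) (inp : ℕ → ℝ) {w w' : ℕ → Bool} {c : Cfg}
    (h : w c.k = w' c.k) : step Q inp w c = step Q inp w' c := by
  unfold step
  cases Q[c.pc]? with
  | none => rfl
  | some i =>
    cases i <;> first | rfl | (simp only [Instr.exec, h])

/-- One step reads at most one random bit. -/
theorem step_k_le (Q : List Instr) (inp : ℕ → ℝ) (w : ℕ → Bool) (c : Cfg) :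
    (step Q inp w c).k ≤ c.k + 1 := by
  unfold step
  cases Q[c.pc]? with
  | none => exact Nat.le_succ _
  | some i =>
    cases i <;> simp only [Instr.exec] <;> (try split_ifs) <;> simp

/-- `t` steps starting with `k` bits read only depend on the bits with index less than `k + t`, and read at most `t` bits. -/
theorem run_congr (Q : List Instr) (inp : ℕ → ℝ) {w w' : ℕ → Bool} (t : ℕ) (c : Cfg)
    (h : ∀ i < c.k + t, w i = w' i) :
    run Q inp w t c = run Q inp w' t c ∧ (run Q inp w t c).k ≤ c.k + t := by
  induction t with
  | zero => exact ⟨rfl, le_rfl⟩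
  | succ t ih =>
    obtain ⟨h1, h2⟩ := ih (fun i hi => h i (by omega))
    have e : ∀ v : ℕ → Bool, run Q inp v (t + 1) c = step Q inp v (run Q inp v t c) := by
      intro v
      simp only [run, Function.iterate_succ_apply']
    rw [e w, e w', ← h1]
    refine ⟨step_congr Q inp (h _ (by omega)), ?_⟩
    have := step_k_le Q inp w (run Q inp w t c)
    omega

theorem measurableSet_halted (Q : List Instr) (inp : ℕ → ℝ) (n t : ℕ) :
    MeasurableSet {w : ℕ → Bool | Halted Q (run Q inp w t (Cfg.init n))} := by
  have hφ : Measurable (fun (w : ℕ → Bool) (i : Fin t) => w i) :=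
    measurable_pi_lambda _ (fun i => measurable_pi_apply _)
  have h1 : {w : ℕ → Bool | Halted Q (run Q inp w t (Cfg.init n))} =
      (fun (w : ℕ → Bool) (i : Fin t) => w i) ⁻¹'
        {b | Halted Q (run Q inp (fun i => if h : i < t then b ⟨i, h⟩ else false) t
          (Cfg.init n))} := by
    ext w
    simp only [Set.mem_ofPred_eq, Set.mem_preimage]
    have h2 := (run_congr Q inp (w := w)
      (w' := fun i => if h : i < t then w ((⟨i, h⟩ : Fin t) : ℕ) else false) t (Cfg.init n)
      (fun i hi => by
        have hi' : i < t := by simpa [Cfg.init] using hi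
        simp [hi'])).1
    rw [h2]
  rw [h1]
  exact hφ (Set.toFinite _).measurableSet

/-- The halting time is a measurable function of the random bits. -/
theorem measurable_haltTime_nat (Q : List Instr) (inp : ℕ → ℝ) (n : ℕ) :
    Measurable (fun w : ℕ → Bool => haltTime Q inp w n) := by
  have hm := measurableSet_halted Q inp n
  refine measurable_to_countable' (fun k => ?_)
  by_cases hk : k = 0
  · subst hk
    have : (fun w : ℕ → Bool => haltTime Q inp w n) ⁻¹' {0} =
        {w | Halted Q (run Q inp w 0 (Cfg.init n))} ∪
          ⋂ t : ℕ, {w | Halted Q (run Q inp w t (Cfg.init n))}ᶜ := by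
      ext w
      simp only [Set.mem_preimage, Set.mem_singleton_iff, haltTime, Nat.sInf_eq_zero,
        Set.mem_union, Set.mem_iInter, Set.mem_compl_iff, Set.mem_ofPred_eq,
        Set.eq_empty_iff_forall_notMem]
    rw [this]
    exact (hm 0).union (MeasurableSet.iInter (fun t => (hm t).compl))
  · have : (fun w : ℕ → Bool => haltTime Q inp w n) ⁻¹' {k} =
        {w | Halted Q (run Q inp w k (Cfg.init n))} ∩
          ⋂ t : Fin k, {w | Halted Q (run Q inp w t (Cfg.init n))}ᶜ := by
      ext w
      simp only [Set.mem_preimage, Set.mem_singleton_iff, Set.mem_inter_iff, Set.mem_iInter,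
        Set.mem_compl_iff, Set.mem_ofPred_eq]
      constructor
      · rintro rfl
        refine ⟨?_, fun t h => ?_⟩
        · have hne : {t | Halted Q (run Q inp w t (Cfg.init n))}.Nonempty :=
            Nat.nonempty_of_pos_sInf (Nat.pos_of_ne_zero hk)
          exact Nat.sInf_mem hne
        · exact absurd (haltTime_le h) (not_le.2 t.2)
      · rintro ⟨h1, h2⟩
        refine le_antisymm (haltTime_le h1) ?_
        by_contra hlt
        exact h2 ⟨_, not_le.1 hlt⟩ (haltTime_halted h1)
    rw [this]
    exact (hm k).inter (MeasurableSet.iInter (fun t => (hm t).compl))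

/-- The halting time is a measurable function of the random bits. -/
theorem measurable_haltTime (Q : List Instr) (inp : ℕ → ℝ) (n : ℕ) :
    Measurable (fun w : ℕ → Bool => (haltTime Q inp w n : ℝ≥0∞)) :=
  (measurable_of_countable (fun k : ℕ => (k : ℝ≥0∞))).comp (measurable_haltTime_nat Q inp n)

end P7m
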