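/-
P7m.State: closure lemmas for `RS` (computations with a memory ℕ → M) and `RC.run`.
A stateful function is `f : A → (ℕ → M) → B × (ℕ → M)`.
-/
import Pool.Agent.Lib.P7m.Lists

namespace P7m

variable {A B C D M : Type} [Enc A] [Enc B] [Enc C] [Enc D] [Enc M]

theorem RS.mono {f : A → (ℕ → M) → B × (ℕ → M)} {c c' : A → (ℕ → M) → ℕ} (h : RS f c) (K : ℕ)
    (hc : ∀ a m, c a m ≤ K * (c' a m + 1)) : RS f c' := by
  obtain ⟨P, C, h⟩ := h
  refine ⟨P, C * (K + 1), fun inp w a m k out => ⟨(h inp w a m k out).1, ?_⟩⟩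
  refine (h inp w a m k out).2.trans ?_
  rw [mul_assoc]
  refine Nat.mul_le_mul_left _ ?_
  have := hc a m
  nlinarith

theorem RS.of_le {f : A → (ℕ → M) → B × (ℕ → M)} {c c' : A → (ℕ → M) → ℕ} (h : RS f c)
    (hc : ∀ a m, c a m ≤ c' a m) : RS f c' :=
  h.mono 1 (fun a m => by have := hc a m; omega)

theorem RS.congr {f g : A → (ℕ → M) → B × (ℕ → M)} {c : A → (ℕ → M) → ℕ} (h : RS f c)
    (h2 : ∀ a m, g a m = f a m) : RS g c := by
  have : g = f := funext fun a => funext fun m => h2 a m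
  rw [this]; exact h

/-- pure computations -/
theorem RS.pure {f : A → B} {cf : A → ℕ} (hf : RC f cf) :
    RS (fun a (m : ℕ → M) => (f a, m)) (fun a _ => cf a) := by
  obtain ⟨P, K, hP⟩ := hf
  exact ⟨P, K, fun inp w a m k out => hP inp w a (fun i => enc (m i)) k out⟩

/-- sequential composition -/
theorem RS.bind {f : A → (ℕ → M) → B × (ℕ → M)} {g : A → B → (ℕ → M) → C × (ℕ → M)}
    {cf : A → (ℕ → M) → ℕ} {cg : A × B → (ℕ → M) → ℕ} (hf : RS f cf)
    (hg : RS (fun (p : A × B) m => g p.1 p.2 m) cg) :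
    RS (fun a m => g a (f a m).1 (f a m).2)
      (fun a m => cf a m + cg (a, (f a m).1) (f a m).2) := by
  obtain ⟨P, K, hP⟩ := hf
  obtain ⟨Q, L, hQ⟩ := hg
  refine ⟨.seq (.mk 0 .id P) Q, K + L + 10, fun inp w a m k out => ?_⟩
  have h1 := hP inp w a m k out
  have h2 := hQ inp w (a, (f a m).1) (f a m).2 k out
  rw [enc_prod] at h2
  simp only [eval]
  rw [h1.1]
  simp only
  refine ⟨h2.1, ?_⟩
  have e1 := h1.2
  have e2 := h2.2
  have z1 := Nat.zero_le (K * cg (a, (f a m).1) (f a m).2)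
  have z2 := Nat.zero_le (L * cf a m)
  nlinarith

/-- reading a cell -/
theorem RS.read {i : A → ℕ} {ci : A → ℕ} (hi : RC i ci) :
    RS (fun a (m : ℕ → M) => (m (i a), m)) (fun a _ => ci a) := by
  obtain ⟨P, K, hP⟩ := hi
  refine ⟨.seq P .read, K + 2, fun inp w a m k out => ?_⟩
  have h1 := hP inp w a (fun j => enc (m j)) k out
  simp only [eval]
  rw [h1.1]
  refine ⟨rfl, ?_⟩
  have e1 := h1.2
  nlinarith

/-- writing into a cell -/
theorem RS.write {i : A → ℕ} {v : A → M} {ci cv : A → ℕ} (hi : RC i ci) (hv : RC v cv) :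
    RS (fun a (m : ℕ → M) => ((), Function.update m (i a) (v a))) (fun a _ => ci a + cv a) := by
  obtain ⟨P, K, hP⟩ := hi
  obtain ⟨Q, L, hQ⟩ := hv
  refine ⟨.seq (.mk 0 P Q) .write, K + L + 5, fun inp w a m k out => ?_⟩
  have h1 := hP inp w a (fun j => enc (m j)) k out
  have h2 := hQ inp w a (fun j => enc (m j)) k out
  simp only [eval]
  rw [h1.1]
  simp only
  rw [h2.1]
  constructor
  · simp only [Val.fst_node, nn_enc_nat, Val.snd_node, enc_unit, St.mk.injEq, true_and, and_true]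
    funext j
    by_cases hj : j = i a
    · subst hj; simp
    · simp [Function.update_of_ne hj]
  · have e1 := h1.2
    have e2 := h2.2
    have z1 := Nat.zero_le (K * cv a)
    have z2 := Nat.zero_le (L * ci a)
    nlinarith

/-- pure post processing -/
theorem RS.map {f : A → (ℕ → M) → B × (ℕ → M)} {g : A → B → C}
    {cf : A → (ℕ → M) → ℕ} {cg : A × B → ℕ} (hf : RS f cf)
    (hg : RC (fun (p : A × B) => g p.1 p.2) cg) :
    RS (fun a m => (g a (f a m).1, (f a m).2))
      (fun a m => cf a m + cg (a, (f a m).1)) :=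
  RS.bind (g := fun a b m => (g a b, m)) hf (RS.pure hg)

/-- `f`, then `g` (the result of `f` is ignored) -/
theorem RS.andThen {f : A → (ℕ → M) → B × (ℕ → M)} {g : A → (ℕ → M) → C × (ℕ → M)}
    {cf : A → (ℕ → M) → ℕ} {cg : A → (ℕ → M) → ℕ} (hf : RS f cf)
    (hg : RS g cg) :
    RS (fun a m => g a (f a m).2) (fun a m => cf a m + cg a (f a m).2) := by
  refine RS.bind (g := fun a _ m => g a m) (cg := fun p m => cg p.1 m) hf ?_
  obtain ⟨Q, L, hQ⟩ := hg
  refine ⟨.seq .fst Q, L + 2, fun inp w p m k out => ?_⟩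
  obtain ⟨a, b⟩ := p
  have h2 := hQ inp w a m k out
  simp only [eval, enc_prod, Val.fst_node]
  refine ⟨h2.1, ?_⟩
  have e2 := h2.2
  nlinarith

/-- pre-composition with a pure function -/
theorem RS.comp {f : A → B} {g : B → (ℕ → M) → C × (ℕ → M)}
    {cf : A → ℕ} {cg : B → (ℕ → M) → ℕ} (hg : RS g cg) (hf : RC f cf) :
    RS (fun a m => g (f a) m) (fun a m => cf a + cg (f a) m) := by
  obtain ⟨P, K, hP⟩ := hf
  obtain ⟨Q, L, hQ⟩ := hg
  refine ⟨.seq P Q, K + L + 1, fun inp w a m k out => ?_⟩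
  have h1 := hP inp w a (fun j => enc (m j)) k out
  have h2 := hQ inp w (f a) m k out
  simp only [eval]
  rw [h1.1]
  refine ⟨h2.1, ?_⟩
  have e1 := h1.2
  have e2 := h2.2
  have z1 := Nat.zero_le (K * cg (f a) m)
  have z2 := Nat.zero_le (L * cf a)
  nlinarith

/-- case distinction by a pure test -/
theorem RS.cond {p : A → Bool} {f g : A → (ℕ → M) → B × (ℕ → M)} {cp : A → ℕ}
    {cf cg : A → (ℕ → M) → ℕ} (hp : RC p cp)
    (hf : RS f cf) (hg : RS g cg) :
    RS (fun a m => if p a then f a m else g a m)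
      (fun a m => cp a + if p a then cf a m else cg a m) := by
  obtain ⟨P, K, hP⟩ := hp
  obtain ⟨Q, L, hQ⟩ := hf
  obtain ⟨R, N, hR⟩ := hg
  refine ⟨.ite P Q R, K + L + N + 1, fun inp w a m k out => ?_⟩
  have h1 := hP inp w a (fun j => enc (m j)) k out
  have h2 := hQ inp w a m k out
  have h3 := hR inp w a m k out
  simp only [eval]
  rw [h1.1]
  cases hpa : p a
  · simp only [enc_bool, Val.bool_false, Val.nn_leaf, ne_eq, not_true_eq_false, if_false]
    refine ⟨h3.1, ?_⟩
    have e1 := h1.2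
    have e3 := h3.2
    simp only [Bool.false_eq_true, if_false]
    have z1 := Nat.zero_le (K * cg a m)
    have z2 := Nat.zero_le (N * cp a)
    have z3 := Nat.zero_le (L * cp a)
    have z4 := Nat.zero_le (L * cg a m)
    nlinarith
  · simp only [enc_bool, Val.bool_true, Val.nn_node, ne_eq, one_ne_zero,
      not_false_eq_true, if_true]
    refine ⟨h2.1, ?_⟩
    have e1 := h1.2
    have e2 := h2.2
    have z1 := Nat.zero_le (K * cf a m)
    have z2 := Nat.zero_le (N * cp a)
    have z3 := Nat.zero_le (L * cp a)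
    have z4 := Nat.zero_le (N * cf a m)
    nlinarith

theorem RS.ite {p : A → Prop} [∀ a, Decidable (p a)] {f g : A → (ℕ → M) → B × (ℕ → M)}
    {cp : A → ℕ} {cf cg : A → (ℕ → M) → ℕ} (hp : RC (fun a => decide (p a)) cp)
    (hf : RS f cf) (hg : RS g cg) :
    RS (fun a m => if p a then f a m else g a m)
      (fun a m => cp a + if p a then cf a m else cg a m) := by
  have h := RS.cond hp hf hg
  simpa only [decide_eq_true_eq] using h

/-- case distinction on an option -/
theorem RS.optionElim {o : A → Option B} {n : A → (ℕ → M) → C × (ℕ → M)}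
    {s : A → B → (ℕ → M) → C × (ℕ → M)} {co : A → ℕ} {cn : A → (ℕ → M) → ℕ}
    {cs : A × B → (ℕ → M) → ℕ} (ho : RC o co) (hn : RS n cn)
    (hs : RS (fun (p : A × B) m => s p.1 p.2 m) cs) :
    RS (fun a m => (o a).elim (n a m) (fun b => s a b m))
      (fun a m => co a + (o a).elim (cn a m) (fun b => cs (a, b) m)) := by
  obtain ⟨P, K, hP⟩ := ho
  obtain ⟨Q, L, hQ⟩ := hn
  obtain ⟨R, N, hR⟩ := hs
  refine ⟨.seq (.mk 0 .id P) (.ite .snd (.seq (.mk 0 .fst (.seq .snd .fst)) R)
    (.seq .fst Q)), K + L + N + 20, fun inp w a m k out => ?_⟩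
  have h1 := hP inp w a (fun j => enc (m j)) k out
  have h2 := hQ inp w a m k out
  simp only [eval]
  rw [h1.1]
  cases hoa : o a with
  | none =>
    simp only [enc_none, Val.snd_node, Val.nn_leaf, ne_eq, not_true_eq_false, if_false,
      Val.fst_node, Option.elim_none]
    refine ⟨h2.1, ?_⟩
    have e1 := h1.2
    have e2 := h2.2
    have z1 := Nat.zero_le (K * cn a m)
    have z2 := Nat.zero_le (L * co a)
    have z3 := Nat.zero_le (N * co a)
    have z4 := Nat.zero_le (N * cn a m)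
    nlinarith
  | some b =>
    simp only [enc_some, Val.snd_node, Val.nn_node, ne_eq, one_ne_zero,
      not_false_eq_true, if_true, Val.fst_node, Option.elim_some]
    have h3 := hR inp w (a, b) m k out
    rw [enc_prod] at h3
    refine ⟨h3.1, ?_⟩
    have e1 := h1.2
    have e3 := h3.2
    have z1 := Nat.zero_le (K * cs (a, b) m)
    have z2 := Nat.zero_le (L * co a)
    have z3 := Nat.zero_le (N * co a)
    have z4 := Nat.zero_le (L * cs (a, b) m)
    nlinarith

/-- case distinction on a list -/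
theorem RS.listElim {l : A → List B} {n : A → (ℕ → M) → C × (ℕ → M)}
    {s : A → B → List B → (ℕ → M) → C × (ℕ → M)} {cl : A → ℕ} {cn : A → (ℕ → M) → ℕ}
    {cs : A × B × List B → (ℕ → M) → ℕ} (hl : RC l cl) (hn : RS n cn)
    (hs : RS (fun (p : A × B × List B) m => s p.1 p.2.1 p.2.2 m) cs) :
    RS (fun a m => P7m.listElim (l a) (n a m) (fun b t => s a b t m))
      (fun a m => cl a + P7m.listElim (l a) (cn a m) (fun b t => cs (a, b, t) m)) := by
  obtain ⟨P, K, hP⟩ := hl
  obtain ⟨Q, L, hQ⟩ := hn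
  obtain ⟨R, N, hR⟩ := hs
  refine ⟨.seq (.mk 0 .id P) (.ite .snd (.seq (.mk 0 .fst (.seq .snd (.mk 0 .fst .snd))) R)
    (.seq .fst Q)), K + L + N + 20, fun inp w a m k out => ?_⟩
  have h1 := hP inp w a (fun j => enc (m j)) k out
  have h2 := hQ inp w a m k out
  simp only [eval]
  rw [h1.1]
  cases hoa : l a with
  | nil =>
    simp only [enc_nil, Val.snd_node, Val.nn_leaf, ne_eq, not_true_eq_false, if_false,
      Val.fst_node, listElim_nil]
    refine ⟨h2.1, ?_⟩
    have e1 := h1.2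
    have e2 := h2.2
    have z1 := Nat.zero_le (K * cn a m)
    have z2 := Nat.zero_le (L * cl a)
    have z3 := Nat.zero_le (N * cl a)
    have z4 := Nat.zero_le (N * cn a m)
    nlinarith
  | cons b t =>
    simp only [enc_cons, Val.snd_node, Val.nn_node, ne_eq, one_ne_zero,
      not_false_eq_true, if_true, Val.fst_node, listElim_cons]
    have h3 := hR inp w (a, b, t) m k out
    rw [enc_prod, enc_prod] at h3
    refine ⟨h3.1, ?_⟩
    have e1 := h1.2
    have e3 := h3.2
    have z1 := Nat.zero_le (K * cs (a, b, t) m)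
    have z2 := Nat.zero_le (L * cl a)
    have z3 := Nat.zero_le (N * cl a)
    have z4 := Nat.zero_le (L * cs (a, b, t) m)
    nlinarith

/-- folds with memory -/
theorem RS.foldl {l : A → List B} {b : A → C} {f : A → C → B → (ℕ → M) → C × (ℕ → M)}
    {cl cb : A → ℕ} {cf : A × C × B → (ℕ → M) → ℕ} (hl : RC l cl) (hb : RC b cb)
    (hf : RS (fun (p : A × C × B) m => f p.1 p.2.1 p.2.2 m) cf) :
    RS (fun a m => (l a).foldl (fun (s : C × (ℕ → M)) x => f a s.1 x s.2) (b a, m))
      (fun a m => cl a + cb a + foldCost (fun (s : C × (ℕ → M)) x => f a s.1 x s.2)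
        (fun s x => cf (a, s.1, x) s.2) (l a) (b a, m)) := by
  obtain ⟨P, K, hP⟩ := hl
  obtain ⟨Q, L, hQ⟩ := hb
  obtain ⟨R, N, hR⟩ := hf
  refine ⟨.seq (.mk 0 P (.mk 0 .id Q)) (.seq (.fold
    (.mk 0 (.seq .snd .fst) (.seq (.mk 0 (.seq .snd .fst) (.mk 0 (.seq .snd .snd) .fst)) R)))
    .snd), K + L + N + 50, fun inp w a m k out => ?_⟩
  have h1 := hP inp w a (fun j => enc (m j)) k out
  have h2 := hQ inp w a (fun j => enc (m j)) k out
  set body : Prog :=
    (.mk 0 (.seq .snd .fst) (.seq (.mk 0 (.seq .snd .fst) (.mk 0 (.seq .snd .snd) .fst)) R))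
    with hbody
  have key := foldE_spec (B := B) (eval inp w body)
    (fun s : C × (ℕ → M) => .node 0 0 (enc a) (enc s.1))
    (fun s j => enc (s.2 j)) k out (fun (s : C × (ℕ → M)) x => f a s.1 x s.2)
    (fun s x => cf (a, s.1, x) s.2) (N + 14) (fun s x => by
      have h3 := hR inp w (a, s.1, x) s.2 k out
      rw [enc_prod, enc_prod] at h3
      simp only [hbody, eval, Val.fst_node, Val.snd_node]
      rw [h3.1]) (fun s x => by
      have h3 := hR inp w (a, s.1, x) s.2 k out
      rw [enc_prod, enc_prod] at h3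
      simp only [hbody, eval, Val.fst_node, Val.snd_node]
      have := h3.2
      nlinarith) (l a) (b a, m)
  simp only [eval]
  rw [h1.1]
  simp only
  rw [h2.1]
  simp only [Val.fst_node, Val.snd_node]
  rw [key.1]
  refine ⟨rfl, ?_⟩
  have e1 := h1.2
  have e2 := h2.2
  have e3 := key.2
  have z1 := Nat.zero_le (K * cb a)
  have z2 := Nat.zero_le (L * cl a)
  have z3 := Nat.zero_le (N * cl a)
  have z4 := Nat.zero_le (N * cb a)
  set T := foldCost (fun (s : C × (ℕ → M)) x => f a s.1 x s.2)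
    (fun s x => cf (a, s.1, x) s.2) (l a) (b a, m)
  have z5 := Nat.zero_le (K * T)
  have z6 := Nat.zero_le (L * T)
  nlinarith

/-- repetitions with memory -/
theorem RS.iterate {n : A → ℕ} {b : A → C} {f : A → C → (ℕ → M) → C × (ℕ → M)}
    {cn cb : A → ℕ} {cf : A × C → (ℕ → M) → ℕ} (hn : RC n cn) (hb : RC b cb)
    (hf : RS (fun (p : A × C) m => f p.1 p.2 m) cf) :
    RS (fun a m => (fun s : C × (ℕ → M) => f a s.1 s.2)^[n a] (b a, m))
      (fun a m => cn a + cb a + iterCost (fun s : C × (ℕ → M) => f a s.1 s.2)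
        (fun s => cf (a, s.1) s.2) (n a) (b a, m)) := by
  obtain ⟨P, K, hP⟩ := hn
  obtain ⟨Q, L, hQ⟩ := hb
  obtain ⟨R, N, hR⟩ := hf
  refine ⟨.seq (.mk 0 P (.mk 0 .id Q)) (.seq (.loop (.mk 0 .fst R)) .snd),
    K + L + N + 50, fun inp w a m k out => ?_⟩
  have h1 := hP inp w a (fun j => enc (m j)) k out
  have h2 := hQ inp w a (fun j => enc (m j)) k out
  set body : Prog := (.mk 0 .fst R) with hbody
  have key := loopE_spec (eval inp w body)
    (fun s : C × (ℕ → M) => .node 0 0 (enc a) (enc s.1))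
    (fun s j => enc (s.2 j)) k out (fun s : C × (ℕ → M) => f a s.1 s.2)
    (fun s => cf (a, s.1) s.2) (N + 4) (fun s => by
      have h3 := hR inp w (a, s.1) s.2 k out
      rw [enc_prod] at h3
      simp only [hbody, eval, Val.fst_node]
      rw [h3.1]) (fun s => by
      have h3 := hR inp w (a, s.1) s.2 k out
      rw [enc_prod] at h3
      simp only [hbody, eval, Val.fst_node]
      have := h3.2
      nlinarith) (n a) (b a, m)
  simp only [eval]
  rw [h1.1]
  simp only
  rw [h2.1]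
  simp only [Val.fst_node, Val.snd_node, nn_enc_nat]
  rw [key.1]
  refine ⟨rfl, ?_⟩
  have e1 := h1.2
  have e2 := h2.2
  have e3 := key.2
  have z1 := Nat.zero_le (K * cb a)
  have z2 := Nat.zero_le (L * cn a)
  have z3 := Nat.zero_le (N * cn a)
  have z4 := Nat.zero_le (N * cb a)
  set T := iterCost (fun s : C × (ℕ → M) => f a s.1 s.2) (fun s => cf (a, s.1) s.2) (n a)
    (b a, m)
  have z5 := Nat.zero_le (K * T)
  have z6 := Nat.zero_le (L * T)
  nlinarith

/-- Running a computation with memory, started with the default memory, is a pure function. -/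
theorem RC.run [EncD M] {f : A → (ℕ → M) → B × (ℕ → M)} {cf : A → (ℕ → M) → ℕ}
    (hf : RS f cf) :
    RC (fun a => (f a (fun _ => EncD.dflt)).1) (fun a => cf a (fun _ => EncD.dflt)) := by
  obtain ⟨P, K, hP⟩ := hf
  refine ⟨.scope P, K + 1, fun inp w a m k out => ?_⟩
  have h1 := hP inp w a (fun _ => EncD.dflt) k out
  have e : (fun _ : ℕ => enc (EncD.dflt : M)) = (fun _ : ℕ => Val.leaf) :=
    funext fun _ => EncD.enc_dflt
  rw [e] at h1
  simp only [eval]
  rw [h1.1]
  refine ⟨rfl, ?_⟩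
  have e1 := h1.2
  nlinarith

end P7m
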