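/-
P7m.Mem: batch access to arrays by index, as pure `RC` functions (memory used inside).
-/
import Pool.Agent.Lib.P7m.State

namespace P7m

variable {A B C D M : Type} [Enc A] [Enc B] [Enc C] [Enc D] [Enc M]

-- effect of writing a list into consecutive cells
omit [Enc B] in
private theorem load_fold (l : List B) (n : ℕ) (m : ℕ → Option B) :
    l.foldl (fun (s : ℕ × (ℕ → Option B)) (x : B) =>
      (s.1 + 1, Function.update s.2 s.1 (some x))) (n, m) =
      (n + l.length, fun i => if n ≤ i ∧ i < n + l.length then l[i - n]? else m i) := by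
  induction l generalizing n m with
  | nil =>
    simp only [List.foldl_nil, List.length_nil, add_zero]
    congr 1
    funext i
    rw [if_neg (by omega)]
  | cons x t ih =>
    simp only [List.foldl_cons, List.length_cons]
    rw [ih]
    congr 1
    · omega
    · funext i
      by_cases h1 : n + 1 ≤ i ∧ i < n + 1 + t.length
      · rw [if_pos h1, if_pos (by omega)]
        have : i - n = (i - (n + 1)) + 1 := by omega
        rw [this, List.getElem?_cons_succ]
      · rw [if_neg h1]
        by_cases h2 : i = n
        · subst h2
          rw [if_pos (by omega)]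
          simp
        · rw [Function.update_of_ne h2, if_neg (by omega)]

/-- loading a list into the memory cells 0, 1, ... -/
theorem RS.load {l : A → List B} {cl : A → ℕ} (hl : RC l cl) :
    RS (fun a (m : ℕ → Option B) => ((), fun i => if i < (l a).length then (l a)[i]? else m i))
      (fun a _ => cl a + (l a).length) := by
  have hstep : RS (fun (p : A × ℕ × B) (m : ℕ → Option B) =>
      (p.2.1 + 1, Function.update m p.2.1 (some p.2.2))) (fun _ _ => 0) :=
    (RS.map (f := fun (p : A × ℕ × B) (m : ℕ → Option B) =>
        ((), Function.update m p.2.1 (some p.2.2)))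
      (g := fun (p : A × ℕ × B) (_ : Unit) => p.2.1 + 1)
      (RS.write (RC.fst (RC.snd RC.id)) (RC.some (RC.snd (RC.snd RC.id))))
      (RC.succ (RC.fst (RC.snd (RC.fst RC.id))))).of_le (fun _ _ => le_refl _)
  have h := RS.map (g := fun (_ : A) (_ : ℕ) => ())
    (RS.foldl (f := fun (_ : A) (n : ℕ) (x : B) (m : ℕ → Option B) =>
      (n + 1, Function.update m n (some x))) hl (RC.const_nat 0) hstep)
    (RC.const_unit)
  refine (h.of_le (fun a m => ?_)).congr (fun a m => ?_)
  · have h1 := foldCost_le_const
      (fun (s : ℕ × (ℕ → Option B)) (x : B) => (s.1 + 1, Function.update s.2 s.1 (some x)))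
      (fun _ _ => 0) 0 (l a) (0, m) (fun _ _ _ => le_refl _)
    try simp only at h1 ⊢
    omega
  · simp only [load_fold]
    congr 1
    funext i
    by_cases h1 : i < (l a).length
    · simp [h1]
    · rw [if_neg h1, if_neg (by omega)]

/-- Running a computation with memory, started with the array `l a`. -/
theorem RC.runWith {l : A → List B} {f : A → (ℕ → Option B) → C × (ℕ → Option B)}
    {cl : A → ℕ} {cf : A → (ℕ → Option B) → ℕ} (hl : RC l cl)
    (hf : RS f cf) :
    RC (fun a => (f a (fun i => (l a)[i]?)).1)
      (fun a => cl a + (l a).length + cf a (fun i => (l a)[i]?)) := by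
  have h := RC.run (RS.andThen (RS.load hl) hf)
  have e : ∀ a, (fun i => if i < (l a).length then (l a)[i]? else (EncD.dflt : Option B)) =
      (fun i => (l a)[i]?) := by
    intro a
    funext i
    by_cases h1 : i < (l a).length
    · rw [if_pos h1]
    · rw [if_neg h1, List.getElem?_eq_none (by omega)]
      rfl
  simp only [e] at h
  exact h

/-- reading a list of cells -/
private theorem mapRead {q : A → List ℕ} {cq : A → ℕ} (hq : RC q cq) :
    RS (fun a (m : ℕ → M) => ((q a).map m, m)) (fun a _ => cq a + (q a).length) := by
  have hstep : RS (fun (p : A × List M × ℕ) (m : ℕ → M) => (m p.2.2 :: p.2.1, m))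
      (fun _ _ => 0) :=
    (RS.map (f := fun (p : A × List M × ℕ) (m : ℕ → M) => (m p.2.2, m))
      (g := fun (p : A × List M × ℕ) (x : M) => x :: p.2.1)
      (RS.read (RC.snd (RC.snd RC.id)))
      (RC.cons (RC.snd RC.id) (RC.fst (RC.snd (RC.fst RC.id))))).of_le (fun _ _ => le_refl _)
  have h := RS.map (g := fun (_ : A) (s : List M) => s.reverse)
    (RS.foldl (f := fun (_ : A) (s : List M) (x : ℕ) (m : ℕ → M) => (m x :: s, m))
      hq (RC.nil) hstep)
    (RC.reverse (RC.snd RC.id))
  have e : ∀ (l : List ℕ) (s : List M) (m : ℕ → M),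
      l.foldl (fun (s : List M × (ℕ → M)) (x : ℕ) => (s.2 x :: s.1, s.2)) (s, m) =
        ((l.map m).reverse ++ s, m) := by
    intro l
    induction l with
    | nil => intro s m; rfl
    | cons x t ih => intro s m; simp [ih]
  refine (h.mono 2 (fun a m => ?_)).congr (fun a m => ?_)
  · have h1 := foldCost_le_const
      (fun (s : List M × (ℕ → M)) (x : ℕ) => (s.2 x :: s.1, s.2))
      (fun _ _ => 0) 0 (q a) ([], m) (fun _ _ _ => le_refl _)
    simp only [e, List.append_nil, List.length_reverse, List.length_map] at h1 ⊢
    omega
  · simp only [e]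
    simp

/-- batch access `l[i]?` for all `i` in a list `q` of indices -/
theorem RC.gather {l : A → List B} {q : A → List ℕ} {cl cq : A → ℕ} (hl : RC l cl)
    (hq : RC q cq) :
    RC (fun a => (q a).map (fun i => (l a)[i]?))
      (fun a => cl a + cq a + (l a).length + (q a).length) := by
  have h := RC.runWith (f := fun a (m : ℕ → Option B) => ((q a).map m, m)) hl (mapRead hq)
  exact h.of_le (fun a => by omega)

/-- storing pairs (cell, contents) in order, with a constant time modification `g` of the old
content of the cell -/
private theorem storeWith {l : A → List (ℕ × B)} {cl : A → ℕ} {g : B → M → M} (hl : RC l cl)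
    (hg : RC (fun p : B × M => g p.1 p.2) (fun _ => 0)) :
    RS (fun a (m : ℕ → M) => ((), (l a).foldl
        (fun (m : ℕ → M) (p : ℕ × B) => Function.update m p.1 (g p.2 (m p.1))) m))
      (fun a _ => cl a + (l a).length) := by
  have hstep : RS (fun (p : A × Unit × (ℕ × B)) (m : ℕ → M) =>
      ((), Function.update m p.2.2.1 (g p.2.2.2 (m p.2.2.1))))
      (fun _ _ => 0) :=
    (RS.bind (f := fun (p : A × Unit × (ℕ × B)) (m : ℕ → M) => (m p.2.2.1, m))
      (g := fun (p : A × Unit × (ℕ × B)) (x : M) (m : ℕ → M) =>
        ((), Function.update m p.2.2.1 (g p.2.2.2 x)))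
      (RS.read (RC.fst (RC.snd (RC.snd RC.id))))
      (RS.write (i := fun p : (A × Unit × (ℕ × B)) × M => p.1.2.2.1)
        (v := fun p : (A × Unit × (ℕ × B)) × M => g p.1.2.2.2 p.2)
        (RC.fst (RC.snd (RC.snd (RC.fst RC.id))))
        (RC.comp20 (h := g) hg (RC.snd (RC.snd (RC.snd (RC.fst RC.id))))
          (RC.snd RC.id)))).of_le (fun _ _ => le_refl _)
  have h := RS.foldl (f := fun (_ : A) (_ : Unit) (p : ℕ × B) (m : ℕ → M) =>
      ((), Function.update m p.1 (g p.2 (m p.1)))) hl (RC.const_unit) hstep
  have e : ∀ (l : List (ℕ × B)) (m : ℕ → M),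
      l.foldl (fun (s : Unit × (ℕ → M)) (p : ℕ × B) =>
        (((), Function.update s.2 p.1 (g p.2 (s.2 p.1))) : Unit × (ℕ → M))) ((), m) =
        ((), l.foldl
        (fun (m : ℕ → M) (p : ℕ × B) => Function.update m p.1 (g p.2 (m p.1))) m) := by
    intro l
    induction l with
    | nil => intro m; rfl
    | cons x t ih => intro m; simp only [List.foldl_cons, ih]
  refine (h.of_le (fun a m => ?_)).congr (fun a m => ?_)
  · have h1 := foldCost_le_const
      (fun (s : Unit × (ℕ → M)) (p : ℕ × B) =>
        (((), Function.update s.2 p.1 (g p.2 (s.2 p.1))) : Unit × (ℕ → M)))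
      (fun _ _ => 0) 0 (l a) ((), m) (fun _ _ _ => le_refl _)
    try simp only at h1 ⊢
    omega
  · exact (e (l a) m).symm

/-- batch lookup in an association list with keys in ℕ (first match) -/
theorem RC.lookups {l : A → List (ℕ × B)} {q : A → List ℕ} {cl cq : A → ℕ} (hl : RC l cl)
    (hq : RC q cq) :
    RC (fun a => (q a).map (fun i => (l a).lookup i))
      (fun a => cl a + cq a + (l a).length + (q a).length) := by
  have h := RC.run (RS.andThen (storeWith (M := Option B) (g := fun (x : B) _ => Option.some x)
    (RC.reverse hl) (RC.some (RC.fst RC.id))) (mapRead hq))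
  have e : ∀ (l : List (ℕ × B)) (i : ℕ),
      (l.reverse.foldl (fun (m : ℕ → Option B) (p : ℕ × B) =>
        Function.update m p.1 (Option.some p.2)) (fun _ => EncD.dflt)) i = l.lookup i := by
    intro l
    induction l with
    | nil => intro i; rfl
    | cons p t ih =>
      intro i
      obtain ⟨k, x⟩ := p
      rw [List.reverse_cons, List.foldl_append]
      simp only [List.foldl_cons, List.foldl_nil]
      by_cases hi : i = k
      · subst hi; simp
      · rw [Function.update_of_ne hi, ih, List.lookup_cons]
        have : (i == k) = false := by simpa using hi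
        rw [this]
  refine (h.mono 2 (fun a => ?_)).congr (fun a => ?_)
  · simp only [List.length_reverse]
    omega
  · dsimp only
    refine List.map_congr_left (fun i _ => ?_)
    exact (e (l a) i).symm

/-- bucket sort: all values with key `i`, in order, for all `i` in a list `q` -/
theorem RC.groups {l : A → List (ℕ × B)} {q : A → List ℕ} {cl cq : A → ℕ} (hl : RC l cl)
    (hq : RC q cq) :
    RC (fun a => (q a).map (fun i => (l a).filterMap
        (fun p => if p.1 = i then Option.some p.2 else Option.none)))
      (fun a => cl a + cq a + (l a).length + (q a).length) := by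
  have h := RC.run (RS.andThen (storeWith (M := List B) (g := fun (x : B) s => x :: s)
    (RC.reverse hl) (RC.cons (RC.fst RC.id) (RC.snd RC.id))) (mapRead hq))
  have e : ∀ (l : List (ℕ × B)) (i : ℕ),
      (l.reverse.foldl (fun (m : ℕ → List B) (p : ℕ × B) =>
        Function.update m p.1 (p.2 :: m p.1)) (fun _ => EncD.dflt)) i =
      l.filterMap (fun p => if p.1 = i then Option.some p.2 else Option.none) := by
    intro l
    induction l with
    | nil => intro i; rfl
    | cons p t ih =>
      intro i
      obtain ⟨k, x⟩ := p
      rw [List.reverse_cons, List.foldl_append]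
      simp only [List.foldl_cons, List.foldl_nil]
      by_cases hi : i = k
      · subst hi
        rw [Function.update_self, ih]
        simp
      · rw [Function.update_of_ne hi, ih]
        have hk : ¬ k = i := fun h => hi h.symm
        simp [hk]
  refine (h.mono 2 (fun a => ?_)).congr (fun a => ?_)
  · simp only [List.length_reverse]
    omega
  · dsimp only
    refine List.map_congr_left (fun i _ => ?_)
    exact (e (l a) i).symm

end P7m
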