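/-
P7m.Orbits: the cycles of a permutation of {0, ..., n-1} given as a list, linear cost.

State (((x, cur), (done, rem)), memory): x the current element, cur the current orbit reversed,
done the finished orbits, rem the remaining starts; memory cell i = some (successor of i) if i
is not yet visited.
-/
import Pool.Agent.Lib.P7m.Mem

namespace P7m

variable {A B C D M : Type} [Enc A] [Enc B] [Enc C] [Enc D] [Enc M]

/-- one step -/
def orbStep (s : ((ℕ × List ℕ) × (List (List ℕ) × List ℕ)) × (ℕ → Option ℕ)) :
    ((ℕ × List ℕ) × (List (List ℕ) × List ℕ)) × (ℕ → Option ℕ) :=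
  (s.2 s.1.1.1).elim
    ((((s.1.2.2.headD 0), []),
      (if s.1.1.2.isEmpty then s.1.2.1 else s.1.1.2.reverse :: s.1.2.1, s.1.2.2.tail)), s.2)
    (fun y => (((y, s.1.1.1 :: s.1.1.2), s.1.2), Function.update s.2 s.1.1.1 none))

/-- the cycles of the permutation `succ` (list of the values) -/
def orbits (succ : List ℕ) : List (List ℕ) :=
  (orbStep^[2 * succ.length + 2]
    (((0, []), ([], List.range succ.length)), fun i => succ[i]?)).1.2.1

/-- the cycle property -/
def OrbCyc (succ o : List ℕ) : Prop :=
  o ≠ [] ∧ ∀ k i : ℕ, o[k]? = some i → succ[i]? = o[(k + 1) % o.length]?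

/-- chain property of the current orbit (reversed) -/
def OrbCh (succ : List ℕ) : ℕ → List ℕ → Prop
  | _, [] => True
  | x, c :: t => succ[c]? = some x ∧ OrbCh succ c t

/-- invariant -/
structure OrbInv (succ : List ℕ)
    (s : ((ℕ × List ℕ) × (List (List ℕ) × List ℕ)) × (ℕ → Option ℕ)) : Prop where
  mem : ∀ i, s.2 i = none ∨ s.2 i = succ[i]?
  vis : ∀ i, (i ∈ s.1.2.1.flatten ∨ i ∈ s.1.1.2) ↔ (i < succ.length ∧ s.2 i = none)
  nd : (s.1.2.1.flatten ++ s.1.1.2).Nodup
  cyc : ∀ o ∈ s.1.2.1, OrbCyc succ o
  ch : OrbCh succ s.1.1.1 s.1.1.2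
  rest : ∀ i < succ.length, i ∈ s.1.2.2 ∨ s.2 i = none ∨ i = s.1.1.1

lemma orbCh_getElem {succ : List ℕ} : ∀ (cur : List ℕ) (x : ℕ), OrbCh succ x cur →
    ∀ j (h : j + 1 < cur.length), succ[cur[j+1]]? = some cur[j] := by
  intro cur
  induction cur with
  | nil => intro x _ j h; simp at h
  | cons c t ih =>
    intro x hx j h
    cases j with
    | zero =>
      cases t with
      | nil => simp at h
      | cons d t =>
        simp only [OrbCh] at hx
        simpa using hx.2.1
    | succ j =>
      have := ih c hx.2 j (by simpa using h)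
      simpa using this

lemma orbCh_head {succ : List ℕ} {c x : ℕ} {t : List ℕ} (h : OrbCh succ x (c :: t)) :
    succ[c]? = some x := h.1

lemma orb_inj {succ : List ℕ} (hnd : succ.Nodup) {i j x : ℕ} (hi : succ[i]? = some x)
    (hj : succ[j]? = some x) : i = j := by
  rw [List.getElem?_eq_some_iff] at hi hj
  obtain ⟨h1, e1⟩ := hi
  obtain ⟨h2, e2⟩ := hj
  exact (List.Nodup.getElem_inj_iff hnd).1 (e1.trans e2.symm)

/-- every element of a cycle has a predecessor in the cycle -/
lemma OrbCyc.pred {succ o : List ℕ} (h : OrbCyc succ o) {x : ℕ} (hx : x ∈ o) :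
    ∃ y ∈ o, succ[y]? = some x := by
  obtain ⟨k, hk, rfl⟩ := List.getElem_of_mem hx
  have hpos : 0 < o.length := by omega
  -- predecessor index
  refine ⟨o[(k + (o.length - 1)) % o.length]'(Nat.mod_lt _ hpos), List.getElem_mem _, ?_⟩
  rw [h.2 ((k + (o.length - 1)) % o.length) _ (List.getElem?_eq_getElem (Nat.mod_lt _ hpos))]
  have e : ((k + (o.length - 1)) % o.length + 1) % o.length = k := by
    rw [Nat.mod_add_mod]
    have : k + (o.length - 1) + 1 = k + o.length := by omega
    rw [this, Nat.add_mod_right, Nat.mod_eq_of_lt hk]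
  rw [e, List.getElem?_eq_getElem hk]

lemma orbCyc_reverse {succ : List ℕ} (hnd : succ.Nodup) {x c : ℕ} {t : List ℕ}
    (hch : OrbCh succ x (c :: t)) (hn : (c :: t).Nodup) (hx : x ∈ c :: t) :
    OrbCyc succ (c :: t).reverse := by
  refine ⟨by simp, ?_⟩
  -- x is the last element
  have hlast : ∃ h : (t.length) < (c :: t).length, (c :: t)[t.length] = x := by
    obtain ⟨j, hj, hjx⟩ := List.getElem_of_mem hx
    by_cases hjl : j = t.length
    · subst hjl; exact ⟨hj, hjx⟩
    · exfalso
      have hj2 : j + 1 < (c :: t).length := by simp at hj ⊢; omega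
      have h1 := orbCh_getElem (c :: t) x hch j hj2
      rw [hjx] at h1
      have h2 := orb_inj hnd h1 hch.1
      have h3 : (c :: t)[j+1] = (c :: t)[0] := by simpa using h2
      have := (List.Nodup.getElem_inj_iff hn).1 h3
      omega
  obtain ⟨hl, hlx⟩ := hlast
  intro k i hk
  rw [List.getElem?_eq_some_iff] at hk
  obtain ⟨hk, rfl⟩ := hk
  rw [List.getElem_reverse]
  simp only [List.length_reverse] at hk ⊢
  by_cases hkl : k = t.length
  · subst hkl
    have e1 : (t.length + 1) % (c :: t).length = 0 := by simp
    rw [e1]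
    have e2 : (c :: t).length - 1 - t.length = 0 := by simp
    simp only [e2, List.getElem_cons_zero]
    rw [hch.1, List.getElem?_eq_getElem (by simp), List.getElem_reverse]
    congr 1
    rw [← hlx]
    congr 1
  · have hk2 : k < t.length := by simp at hk; omega
    have e1 : (k + 1) % (c :: t).length = k + 1 := Nat.mod_eq_of_lt (by simp; omega)
    rw [e1]
    have h1 := orbCh_getElem (c :: t) x hch ((c :: t).length - 1 - (k + 1)) (by simp; omega)
    have e2 : (c :: t).length - 1 - (k + 1) + 1 = (c :: t).length - 1 - k := by simp; omega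
    simp only [e2] at h1
    rw [h1, List.getElem?_eq_getElem (by simp; omega), List.getElem_reverse]

lemma OrbInv.step {succ : List ℕ} (hlt : ∀ y ∈ succ, y < succ.length) (hnd : succ.Nodup)
    {s : ((ℕ × List ℕ) × (List (List ℕ) × List ℕ)) × (ℕ → Option ℕ)} (h : OrbInv succ s) :
    OrbInv succ (orbStep s) := by
  obtain ⟨⟨⟨x, cur⟩, ⟨dn, rem⟩⟩, m⟩ := s
  obtain ⟨hmem, hvis, hn, hcyc, hch, hrest⟩ := h
  simp only at hmem hvis hn hcyc hch hrest
  unfold orbStep
  simp only
  cases hmx : m x with
  | none =>
    simp only [Option.elim_none]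
    cases cur with
    | nil =>
      simp only [List.isEmpty_nil, if_true]
      refine ⟨hmem, hvis, hn, hcyc, trivial, ?_⟩
      simp only
      intro i hi
      rcases hrest i hi with h1 | h1 | h1
      · cases rem with
        | nil => simp at h1
        | cons r rem =>
          rcases List.mem_cons.1 h1 with rfl | h2
          · right; right; rfl
          · left; exact h2
      · right; left; exact h1
      · right; left; rw [h1]; exact hmx
    | cons c t =>
      simp only [List.isEmpty_cons, Bool.false_eq_true, if_false]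
      have hxlt : x < succ.length := by
        apply hlt
        exact List.mem_of_getElem? hch.1
      have hxv := (hvis x).2 ⟨hxlt, hmx⟩
      have hn' := List.nodup_append.1 hn
      have hxcur : x ∈ c :: t := by
        rcases hxv with h1 | h1
        · exfalso
          obtain ⟨o, ho, hxo⟩ := List.mem_flatten.1 h1
          obtain ⟨y, hy, hyx⟩ := (hcyc o ho).pred hxo
          have hyc : y = c := orb_inj hnd hyx hch.1
          subst hyc
          exact hn'.2.2 y (List.mem_flatten.2 ⟨o, ho, hy⟩) y (by simp) rfl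
        · exact h1
      refine ⟨hmem, ?_, ?_, ?_, trivial, ?_⟩
      · intro i
        simp only [List.flatten_cons, List.mem_append, List.mem_reverse, List.not_mem_nil,
          or_false]
        rw [← hvis i]
        tauto
      · simp only [List.flatten_cons, List.append_nil]
        have : ((c :: t).reverse ++ dn.flatten).Perm (dn.flatten ++ (c :: t)) :=
          (List.perm_append_comm).trans (List.Perm.append_left _ (List.reverse_perm _))
        exact this.nodup_iff.2 hn
      · simp only
        intro o ho
        rcases List.mem_cons.1 ho with rfl | ho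
        · exact orbCyc_reverse hnd hch hn'.2.1 hxcur
        · exact hcyc o ho
      · simp only
        intro i hi
        rcases hrest i hi with h1 | h1 | h1
        · cases rem with
          | nil => simp at h1
          | cons r rem =>
            rcases List.mem_cons.1 h1 with rfl | h2
            · right; right; rfl
            · left; exact h2
        · right; left; exact h1
        · right; left; rw [h1]; exact hmx
  | some y =>
    simp only [Option.elim_some]
    have hxs : succ[x]? = some y := by
      rcases hmem x with h1 | h1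
      · rw [hmx] at h1; simp at h1
      · rw [← h1, hmx]
    have hxlt : x < succ.length := (List.getElem?_eq_some_iff.1 hxs).1
    have hxn : ¬ (x ∈ dn.flatten ∨ x ∈ cur) := by
      intro h1
      have := ((hvis x).1 h1).2
      rw [hmx] at this
      simp at this
    refine ⟨?_, ?_, ?_, hcyc, ⟨hxs, hch⟩, ?_⟩
    · intro i
      by_cases hi : i = x
      · subst hi; left; simp
      · simp only [Function.update_of_ne hi]; exact hmem i
    · intro i
      simp only
      by_cases hi : i = x
      · subst hi; simp [hxlt]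
      · simp only [Function.update_of_ne hi, List.mem_cons, hi, false_or]
        exact hvis i
    · simp only
      have : (dn.flatten ++ x :: cur).Perm (x :: (dn.flatten ++ cur)) := List.perm_middle
      rw [this.nodup_iff, List.nodup_cons]
      refine ⟨?_, hn⟩
      rw [List.mem_append]; exact hxn
    · simp only
      intro i hi
      by_cases hix : i = x
      · subst hix; right; left; simp
      · rcases hrest i hi with h1 | h1 | h1
        · left; exact h1
        · right; left; rw [Function.update_of_ne hix]; exact h1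
        · exact absurd h1 hix

/-- finished -/
def OrbFin (succ : List ℕ)
    (s : ((ℕ × List ℕ) × (List (List ℕ) × List ℕ)) × (ℕ → Option ℕ)) : Prop :=
  s.1.1.1 = 0 ∧ s.1.1.2 = [] ∧ s.1.2.2 = [] ∧ ∀ i, i < succ.length → s.2 i = none

lemma OrbFin.step {succ : List ℕ}
    {s : ((ℕ × List ℕ) × (List (List ℕ) × List ℕ)) × (ℕ → Option ℕ)} (h : OrbInv succ s)
    (hf : OrbFin succ s) : OrbFin succ (orbStep s) := by
  obtain ⟨⟨⟨x, cur⟩, ⟨dn, rem⟩⟩, m⟩ := s
  obtain ⟨h1, h2, h3, h4⟩ := hf
  simp only at h1 h2 h3 h4
  subst h1 h2 h3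
  have hm : m 0 = none := by
    by_cases hl : 0 < succ.length
    · exact h4 0 hl
    · rcases h.mem 0 with h5 | h5
      · exact h5
      · simp only at h5
        rw [h5]
        exact List.getElem?_eq_none (by omega)
  unfold orbStep
  simp only [hm, Option.elim_none]
  exact ⟨rfl, rfl, rfl, h4⟩

lemma OrbInv.iter {succ : List ℕ} (hlt : ∀ y ∈ succ, y < succ.length) (hnd : succ.Nodup)
    (k : ℕ) {s : ((ℕ × List ℕ) × (List (List ℕ) × List ℕ)) × (ℕ → Option ℕ)}
    (h : OrbInv succ s) : OrbInv succ (orbStep^[k] s) := by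
  induction k generalizing s with
  | zero => exact h
  | succ k ih =>
    rw [Function.iterate_succ_apply]
    exact ih (h.step hlt hnd)

lemma OrbFin.iter {succ : List ℕ} (hlt : ∀ y ∈ succ, y < succ.length) (hnd : succ.Nodup)
    (k : ℕ) {s : ((ℕ × List ℕ) × (List (List ℕ) × List ℕ)) × (ℕ → Option ℕ)}
    (h : OrbInv succ s) (hf : OrbFin succ s) : OrbFin succ (orbStep^[k] s) := by
  induction k generalizing s with
  | zero => exact hf
  | succ k ih =>
    rw [Function.iterate_succ_apply]
    exact ih (h.step hlt hnd) (hf.step h)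

lemma OrbInv.le {succ : List ℕ}
    {s : ((ℕ × List ℕ) × (List (List ℕ) × List ℕ)) × (ℕ → Option ℕ)}
    (h : OrbInv succ s) : s.1.2.1.flatten.length + s.1.1.2.length ≤ succ.length := by
  rw [← List.length_append]
  have h1 : (s.1.2.1.flatten ++ s.1.1.2) ⊆ List.range succ.length := by
    intro i hi
    rw [List.mem_append] at hi
    exact List.mem_range.2 ((h.vis i).1 hi).1
  have := (List.subperm_of_subset h.nd h1).length_le
  simpa using this

lemma orb_fin_of_measure {succ : List ℕ} (hlt : ∀ y ∈ succ, y < succ.length) (hnd : succ.Nodup)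
    (k : ℕ) {s : ((ℕ × List ℕ) × (List (List ℕ) × List ℕ)) × (ℕ → Option ℕ)}
    (h : OrbInv succ s)
    (hk : succ.length + s.1.2.2.length ≤ s.1.2.1.flatten.length + s.1.1.2.length + k) :
    OrbFin succ (orbStep^[k + 1] s) := by
  induction k generalizing s with
  | zero =>
    simp only [zero_add, Function.iterate_one]
    have h1 := h.le
    have h2 := (h.step hlt hnd).le
    obtain ⟨⟨⟨x, cur⟩, ⟨dn, rem⟩⟩, m⟩ := s
    obtain ⟨hmem, hvis, hn, hcyc, hch, hrest⟩ := h
    simp only at hmem hvis hn hcyc hch hrest h1 h2 hk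
    unfold orbStep at h2 ⊢
    simp only at h2 ⊢
    cases hmx : m x with
    | none =>
      have hr : rem = [] := List.length_eq_zero_iff.1 (by omega)
      subst hr
      simp only [Option.elim_none]
      refine ⟨rfl, rfl, rfl, fun i hi => ?_⟩
      rcases hrest i hi with h1 | h1 | h1
      · simp at h1
      · exact h1
      · rw [h1]; exact hmx
    | some y =>
      exfalso
      simp only [hmx, Option.elim_some, List.length_cons] at h2
      omega
  | succ k ih =>
    rw [Function.iterate_succ_apply]
    have h1 := h.le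
    have h2 := h.step hlt hnd
    have h2' := h2.le
    obtain ⟨⟨⟨x, cur⟩, ⟨dn, rem⟩⟩, m⟩ := s
    have h0 := h
    obtain ⟨hmem, hvis, hn, hcyc, hch, hrest⟩ := h0
    simp only at hmem hvis hn hcyc hch hrest h1 hk
    cases hmx : m x with
    | none =>
      cases rem with
      | nil =>
        refine OrbFin.iter hlt hnd (k + 1) h2 ?_
        unfold orbStep
        simp only [hmx, Option.elim_none]
        refine ⟨rfl, rfl, rfl, fun i hi => ?_⟩
        rcases hrest i hi with h1 | h1 | h1
        · simp at h1
        · exact h1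
        · rw [h1]; exact hmx
      | cons r rem =>
        apply ih h2
        unfold orbStep
        simp only [hmx, Option.elim_none, List.length_nil, List.tail_cons]
        have e : (if cur.isEmpty = true then dn else cur.reverse :: dn).flatten.length =
            cur.length + dn.flatten.length := by
          cases cur
          · simp
          · simp; omega
        rw [e]
        simp only [List.length_cons] at hk
        omega
    | some y =>
      apply ih h2
      unfold orbStep
      simp only [hmx, Option.elim_some, List.length_cons]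
      omega

lemma orb_inv_init (succ : List ℕ) :
    OrbInv succ (((0, []), ([], List.range succ.length)), fun i => succ[i]?) := by
  refine ⟨fun i => Or.inr rfl, fun i => ?_, by simp, by simp, trivial, fun i hi => ?_⟩
  · simp
  · left; simpa using hi

lemma orbits_final (succ : List ℕ) (hlt : ∀ y ∈ succ, y < succ.length) (hnd : succ.Nodup) :
    OrbInv succ (orbStep^[2 * succ.length + 2]
      (((0, []), ([], List.range succ.length)), fun i => succ[i]?)) ∧
    OrbFin succ (orbStep^[2 * succ.length + 2]
      (((0, []), ([], List.range succ.length)), fun i => succ[i]?)) := by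
  refine ⟨OrbInv.iter hlt hnd _ (orb_inv_init succ), ?_⟩
  have := orb_fin_of_measure hlt hnd (2 * succ.length + 1) (orb_inv_init succ) (by simp; omega)
  exact this

theorem orbits_perm (succ : List ℕ) (hlt : ∀ y ∈ succ, y < succ.length) (hnd : succ.Nodup) :
    (orbits succ).flatten.Perm (List.range succ.length) := by
  obtain ⟨h1, h2⟩ := orbits_final succ hlt hnd
  have hn := h1.nd
  have hv := h1.vis
  rw [h2.2.1] at hn hv
  rw [List.append_nil] at hn
  refine (List.perm_ext_iff_of_nodup hn List.nodup_range).2 (fun i => ?_)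
  have h3 := hv i
  simp only [List.not_mem_nil, or_false] at h3
  rw [h3, List.mem_range]
  exact ⟨fun h => h.1, fun h => ⟨h, h2.2.2.2 i h⟩⟩

theorem orbits_cycle (succ : List ℕ) (hlt : ∀ y ∈ succ, y < succ.length) (hnd : succ.Nodup)
    (o : List ℕ) (ho : o ∈ orbits succ) :
    o ≠ [] ∧ ∀ k i : ℕ, o[k]? = some i → succ[i]? = o[(k + 1) % o.length]? :=
  (orbits_final succ hlt hnd).1.cyc o ho

/-- the step is computable with memory -/
theorem RS.orbStep :
    RS (fun (p : A × ((ℕ × List ℕ) × (List (List ℕ) × List ℕ))) (m : ℕ → Option ℕ) =>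
      P7m.orbStep (p.2, m))
      (fun p m => (m p.2.1.1).elim (p.2.1.2.length) (fun _ => 0)) := by
  have h1 : RS (fun (p : A × ((ℕ × List ℕ) × (List (List ℕ) × List ℕ))) (m : ℕ → Option ℕ) =>
      (m p.2.1.1, m)) (fun _ _ => 0) := RS.read (RC.fst (RC.fst (RC.snd RC.id)))
  have hcur : RC (fun q : (A × ((ℕ × List ℕ) × (List (List ℕ) × List ℕ))) × Option ℕ =>
      q.1.2.1.2) (fun _ => 0) := RC.snd (RC.fst (RC.snd (RC.fst RC.id)))
  have hdn : RC (fun q : (A × ((ℕ × List ℕ) × (List (List ℕ) × List ℕ))) × Option ℕ =>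
      q.1.2.2.1) (fun _ => 0) := RC.fst (RC.snd (RC.snd (RC.fst RC.id)))
  have hrem : RC (fun q : (A × ((ℕ × List ℕ) × (List (List ℕ) × List ℕ))) × Option ℕ =>
      q.1.2.2.2) (fun _ => 0) := RC.snd (RC.snd (RC.snd (RC.fst RC.id)))
  have hnone : RC (fun q : (A × ((ℕ × List ℕ) × (List (List ℕ) × List ℕ))) × Option ℕ =>
      ((((q.1.2.2.2.headD 0), ([] : List ℕ)),
      (if q.1.2.1.2.isEmpty then q.1.2.2.1 else q.1.2.1.2.reverse :: q.1.2.2.1,
        q.1.2.2.2.tail)))) (fun q => q.1.2.1.2.length) := by
    refine (RC.pair (RC.pair (RC.headD hrem (RC.const_nat 0)) RC.nil)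
      (RC.pair (RC.cond (RC.isEmpty hcur) hdn (RC.cons (RC.reverse hcur) hdn))
        (RC.tail hrem))).of_le (fun q => ?_)
    split_ifs <;> simp
  have hsome : RS (fun (q : ((A × ((ℕ × List ℕ) × (List (List ℕ) × List ℕ))) × Option ℕ) × ℕ)
      (m : ℕ → Option ℕ) =>
      ((((q.2, q.1.1.2.1.1 :: q.1.1.2.1.2), q.1.1.2.2) :
        (ℕ × List ℕ) × (List (List ℕ) × List ℕ)),
        Function.update m q.1.1.2.1.1 Option.none)) (fun _ _ => 0) := by
    refine (RS.andThen (RS.write (i := fun q : ((A × ((ℕ × List ℕ) ×
      (List (List ℕ) × List ℕ))) × Option ℕ) × ℕ => q.1.1.2.1.1)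
      (v := fun _ => (Option.none : Option ℕ))
      (RC.fst (RC.fst (RC.snd (RC.fst (RC.fst RC.id))))) RC.none)
      (RS.pure (f := fun q : ((A × ((ℕ × List ℕ) × (List (List ℕ) × List ℕ))) × Option ℕ) × ℕ =>
        (((q.2, q.1.1.2.1.1 :: q.1.1.2.1.2), q.1.1.2.2) :
        (ℕ × List ℕ) × (List (List ℕ) × List ℕ)))
        (RC.pair (RC.pair (RC.snd RC.id)
          (RC.cons (RC.fst (RC.fst (RC.snd (RC.fst (RC.fst RC.id)))))
            (RC.snd (RC.fst (RC.snd (RC.fst (RC.fst RC.id)))))))
          (RC.snd (RC.snd (RC.fst (RC.fst RC.id))))))).of_le (fun _ _ => le_refl _)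
  have h2 := RS.optionElim
    (o := fun q : (A × ((ℕ × List ℕ) × (List (List ℕ) × List ℕ))) × Option ℕ => q.2)
    (s := fun (q : (A × ((ℕ × List ℕ) × (List (List ℕ) × List ℕ))) × Option ℕ) (y : ℕ)
      (m : ℕ → Option ℕ) => ((((y, q.1.2.1.1 :: q.1.2.1.2), q.1.2.2) :
        (ℕ × List ℕ) × (List (List ℕ) × List ℕ)),
        Function.update m q.1.2.1.1 Option.none)) (RC.snd RC.id) (RS.pure (M := Option ℕ) hnone)
    hsome
  have h3 := RS.bind (g := fun (p : A × ((ℕ × List ℕ) × (List (List ℕ) × List ℕ)))
    (o : Option ℕ) (m : ℕ → Option ℕ) => o.elim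
      ((((((p.2.2.2.headD 0), ([] : List ℕ)),
      (if p.2.1.2.isEmpty then p.2.2.1 else p.2.1.2.reverse :: p.2.2.1,
        p.2.2.2.tail))), m))
      (fun y => ((((y, p.2.1.1 :: p.2.1.2), p.2.2) :
        (ℕ × List ℕ) × (List (List ℕ) × List ℕ)),
        Function.update m p.2.1.1 Option.none))) h1 h2
  refine (h3.of_le (fun p m => ?_)).congr (fun p m => rfl)
  cases m p.2.1.1 <;> simp

/-- (note the cost of reversing a finished orbit: amortised, potential = length of `cur`) -/
theorem RC.orbits {succ : A → List ℕ} {cs : A → ℕ} (hs : RC succ cs) :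
    RC (fun a => P7m.orbits (succ a)) (fun a => cs a + (succ a).length) := by
  have hn : RC (fun a => 2 * (succ a).length + 2) (fun a => cs a + (succ a).length) :=
    (RC.nadd (RC.nmulConst 2 (RC.length hs)) (RC.const_nat 2)).of_le (fun _ => le_refl _)
  have hb : RC (fun a => ((((0 : ℕ), ([] : List ℕ)), (([] : List (List ℕ)),
      List.range (succ a).length)))) (fun a => cs a + 2 * (succ a).length) :=
    (RC.pair (RC.pair (RC.const_nat 0) RC.nil) (RC.pair RC.nil
      (RC.range (RC.length hs)))).of_le (fun a => by omega)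
  have h1 := RS.iterate (f := fun (_ : A) (c : (ℕ × List ℕ) × (List (List ℕ) × List ℕ))
    (m : ℕ → Option ℕ) => P7m.orbStep (c, m)) hn hb RS.orbStep
  have h2 := RC.fst (RC.snd (RC.runWith hs h1))
  refine (h2.mono 20 (fun a => ?_)).congr (fun a => rfl)
  have h3 := iterCost_le_potential
    (fun s : ((ℕ × List ℕ) × (List (List ℕ) × List ℕ)) × (ℕ → Option ℕ) =>
      P7m.orbStep (s.1, s.2))
    (fun s => (s.2 s.1.1.1).elim (s.1.1.2.length) (fun _ => 0)) 1
    (fun s => s.1.1.2.length) (fun _ => True) (2 * (succ a).length + 2)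
    (((0, []), ([], List.range (succ a).length)), fun i => (succ a)[i]?) trivial
    (fun _ _ => trivial) (fun s _ => by
      obtain ⟨⟨⟨x, cur⟩, ⟨dn, rem⟩⟩, m⟩ := s
      unfold P7m.orbStep
      simp only
      cases m x <;> simp)
  simp only [List.length_nil] at h3
  simp only
  omega

end P7m
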