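/-
P7m.Reach: graph search (reachable vertices) as an `RC` function, linear cost.

Plan.  State ((stack of adjacency lists, output reversed), memory); memory cell i = some (list
of neighbours) if i is an unvisited vertex.  Every step costs O(1).  Number of steps until the
stack is empty: every step removes one element of a list of the stack or an empty list of the
stack, lists are pushed at most once for each vertex.  Correctness: invariant: visited vertices
= output, every visited vertex is reachable, all elements of stack lists are neighbours of
visited vertices or roots, every neighbour of a visited vertex (and every root) is visited or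
not a vertex or lies in a list of the stack.
-/
import Pool.Agent.Lib.P7m.Mem

namespace P7m

variable {A B C D M : Type} [Enc A] [Enc B] [Enc C] [Enc D] [Enc M]

/-- one step of the search -/
def reachStep (s : (List (List ℕ) × List ℕ) × (ℕ → Option (List ℕ))) :
    (List (List ℕ) × List ℕ) × (ℕ → Option (List ℕ)) :=
  listElim s.1.1 s (fun h st => listElim h ((st, s.1.2), s.2) (fun x xs =>
    (s.2 x).elim ((xs :: st, s.1.2), s.2)
      (fun nb => ((nb :: xs :: st, x :: s.1.2), Function.update s.2 x none))))

/-- the vertices reachable from `roots` in the graph with adjacency lists `adj`, in the order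
of the search -/
def reach (adj : List (List ℕ)) (roots : List ℕ) : List ℕ :=
  ((reachStep^[roots.length + adj.length + (adj.map List.length).sum + 1]
    (([roots], []), fun i => adj[i]?)).1.2).reverse

namespace ReachAux

/-- cost of a memory cell -/
def mc (o : Option (List ℕ)) : ℕ := o.elim 0 (fun nb => nb.length + 1)

/-- the potential: exact number of steps left -/
def pot (N : ℕ) (s : (List (List ℕ) × List ℕ) × (ℕ → Option (List ℕ))) : ℕ :=
  (s.1.1.map (fun l => l.length + 1)).sum + ∑ i ∈ Finset.range N, mc (s.2 i)

/-- the adjacency relation -/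
def E (adj : List (List ℕ)) (i j : ℕ) : Prop := ∃ nb, adj[i]? = some nb ∧ j ∈ nb

/-- the invariant of the search -/
structure Inv (adj : List (List ℕ)) (roots : List ℕ)
    (s : (List (List ℕ) × List ℕ) × (ℕ → Option (List ℕ))) : Prop where
  mem_in : ∀ i ∈ s.1.2, s.2 i = none
  mem_out : ∀ i, i ∉ s.1.2 → s.2 i = adj[i]?
  nodup : s.1.2.Nodup
  lt : ∀ i ∈ s.1.2, i < adj.length
  reach : ∀ i ∈ s.1.2, ∃ r ∈ roots, r < adj.length ∧
    Relation.ReflTransGen (fun i j => j < adj.length ∧ ∃ nb, adj[i]? = some nb ∧ j ∈ nb) r i
  stack : ∀ l ∈ s.1.1, ∀ x ∈ l, x ∈ roots ∨ ∃ v ∈ s.1.2, E adj v x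
  todo : ∀ x, (x ∈ roots ∨ ∃ v ∈ s.1.2, E adj v x) →
    x ∈ s.1.2 ∨ ¬ x < adj.length ∨ ∃ l ∈ s.1.1, x ∈ l

theorem inv_init (adj : List (List ℕ)) (roots : List ℕ) :
    Inv adj roots (([roots], []), fun i => adj[i]?) where
  mem_in := by intro i hi; simp at hi
  mem_out := by intro i _; rfl
  nodup := List.nodup_nil
  lt := by intro i hi; simp at hi
  reach := by intro i hi; simp at hi
  stack := by
    intro l hl x hx
    rw [List.mem_singleton] at hl
    subst hl
    exact Or.inl hx
  todo := by
    rintro x (hx | ⟨v, hv, -⟩)
    · exact Or.inr (Or.inr ⟨roots, List.mem_singleton.2 rfl, hx⟩)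
    · simp at hv

theorem step_inv (adj : List (List ℕ)) (roots : List ℕ)
    (s : (List (List ℕ) × List ℕ) × (ℕ → Option (List ℕ))) (h : Inv adj roots s) :
    Inv adj roots (reachStep s) := by
  obtain ⟨⟨st0, out⟩, m⟩ := s
  cases st0 with
  | nil => exact h
  | cons l st =>
    cases l with
    | nil =>
      change Inv adj roots ((st, out), m)
      refine ⟨h.mem_in, h.mem_out, h.nodup, h.lt, h.reach, ?_, ?_⟩
      · intro l hl x hx
        exact h.stack l (List.mem_cons_of_mem _ hl) x hx
      · intro x hx
        rcases h.todo x hx with h1 | h1 | ⟨l, hl, hxl⟩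
        · exact Or.inl h1
        · exact Or.inr (Or.inl h1)
        · rcases List.mem_cons.1 hl with h2 | h2
          · subst h2; simp at hxl
          · exact Or.inr (Or.inr ⟨l, h2, hxl⟩)
    | cons x xs =>
      cases hm : m x with
      | none =>
        have e : reachStep ((((x :: xs) :: st), out), m) = ((xs :: st, out), m) := by
          simp only [reachStep, listElim_cons, hm, Option.elim_none]
        rw [e]
        refine ⟨h.mem_in, h.mem_out, h.nodup, h.lt, h.reach, ?_, ?_⟩
        · intro l hl y hy
          rcases List.mem_cons.1 hl with h2 | h2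
          · subst h2
            exact h.stack (x :: l) (List.mem_cons.2 (Or.inl rfl)) y (List.mem_cons_of_mem _ hy)
          · exact h.stack l (List.mem_cons_of_mem _ h2) y hy
        · intro y hy
          rcases h.todo y hy with h1 | h1 | ⟨l, hl, hyl⟩
          · exact Or.inl h1
          · exact Or.inr (Or.inl h1)
          · rcases List.mem_cons.1 hl with h2 | h2
            · subst h2
              rcases List.mem_cons.1 hyl with h3 | h3
              · subst h3
                by_cases h4 : y ∈ out
                · exact Or.inl h4
                · right; left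
                  have h5 := h.mem_out y h4
                  change m y = adj[y]? at h5
                  rw [hm] at h5
                  intro h6
                  rw [List.getElem?_eq_getElem h6] at h5
                  exact absurd h5 (by simp)
              · exact Or.inr (Or.inr ⟨xs, List.mem_cons.2 (Or.inl rfl), h3⟩)
            · exact Or.inr (Or.inr ⟨l, List.mem_cons_of_mem _ h2, hyl⟩)
      | some nb =>
        have e : reachStep ((((x :: xs) :: st), out), m) =
            ((nb :: xs :: st, x :: out), Function.update m x none) := by
          simp only [reachStep, listElim_cons, hm, Option.elim_some]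
        rw [e]
        have hxo : x ∉ out := by
          intro hx
          have := h.mem_in x hx
          change m x = none at this
          rw [hm] at this
          exact absurd this (by simp)
        have hadj : adj[x]? = some nb := by
          have := h.mem_out x hxo
          change m x = adj[x]? at this
          rw [← this, hm]
        have hlt : x < adj.length := by
          by_contra hge
          rw [List.getElem?_eq_none (not_lt.1 hge)] at hadj
          exact absurd hadj (by simp)
        refine ⟨?_, ?_, ?_, ?_, ?_, ?_, ?_⟩
        · intro i hi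
          change Function.update m x none i = none
          rcases List.mem_cons.1 hi with h1 | h1
          · subst h1; simp
          · have h2 : i ≠ x := fun h3 => hxo (h3 ▸ h1)
            rw [Function.update_of_ne h2]
            exact h.mem_in i h1
        · intro i hi
          change Function.update m x none i = adj[i]?
          have h2 : i ≠ x := fun h3 => hi (by rw [h3]; exact List.mem_cons.2 (Or.inl rfl))
          rw [Function.update_of_ne h2]
          exact h.mem_out i (fun h3 => hi (List.mem_cons_of_mem _ h3))
        · exact List.nodup_cons.2 ⟨hxo, h.nodup⟩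
        · intro i hi
          rcases List.mem_cons.1 hi with h1 | h1
          · subst h1; exact hlt
          · exact h.lt i h1
        · intro i hi
          rcases List.mem_cons.1 hi with h1 | h1
          · subst h1
            rcases h.stack (i :: xs) (List.mem_cons.2 (Or.inl rfl)) i
              (List.mem_cons.2 (Or.inl rfl)) with h2 | ⟨v, hv, hE⟩
            · exact ⟨i, h2, hlt, Relation.ReflTransGen.refl⟩
            · obtain ⟨r, hr, hrl, hrv⟩ := h.reach v hv
              exact ⟨r, hr, hrl, hrv.tail ⟨hlt, hE⟩⟩
          · exact h.reach i h1
        · intro l hl y hy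
          rcases List.mem_cons.1 hl with h2 | h2
          · subst h2
            exact Or.inr ⟨x, List.mem_cons.2 (Or.inl rfl), l, hadj, hy⟩
          · have h5 : y ∈ roots ∨ ∃ v ∈ out, E adj v y := by
              rcases List.mem_cons.1 h2 with h3 | h3
              · subst h3
                exact h.stack (x :: l) (List.mem_cons.2 (Or.inl rfl)) y
                  (List.mem_cons_of_mem _ hy)
              · exact h.stack l (List.mem_cons_of_mem _ h3) y hy
            rcases h5 with h6 | ⟨v, hv, hE⟩
            · exact Or.inl h6
            · exact Or.inr ⟨v, List.mem_cons_of_mem _ hv, hE⟩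
        · intro y hy
          by_cases hyo : y ∈ x :: out
          · exact Or.inl hyo
          · by_cases hyx : ∃ v ∈ out, E adj v y
            · rcases h.todo y (Or.inr hyx) with h1 | h1 | ⟨l, hl, hyl⟩
              · exact Or.inl (List.mem_cons_of_mem _ h1)
              · exact Or.inr (Or.inl h1)
              · rcases List.mem_cons.1 hl with h2 | h2
                · subst h2
                  rcases List.mem_cons.1 hyl with h3 | h3
                  · exact absurd (List.mem_cons.2 (Or.inl h3)) hyo
                  · exact Or.inr (Or.inr ⟨xs, by simp, h3⟩)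
                · exact Or.inr (Or.inr ⟨l, by simp [h2], hyl⟩)
            · rcases hy with h1 | ⟨v, hv, hE⟩
              · rcases h.todo y (Or.inl h1) with h1 | h1 | ⟨l, hl, hyl⟩
                · exact Or.inl (List.mem_cons_of_mem _ h1)
                · exact Or.inr (Or.inl h1)
                · rcases List.mem_cons.1 hl with h2 | h2
                  · subst h2
                    rcases List.mem_cons.1 hyl with h3 | h3
                    · exact absurd (List.mem_cons.2 (Or.inl h3)) hyo
                    · exact Or.inr (Or.inr ⟨xs, by simp, h3⟩)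
                  · exact Or.inr (Or.inr ⟨l, by simp [h2], hyl⟩)
              · rcases List.mem_cons.1 hv with h2 | h2
                · subst h2
                  obtain ⟨nb', h3, h4⟩ := hE
                  rw [hadj] at h3
                  have h5 : nb = nb' := Option.some.inj h3
                  subst h5
                  exact Or.inr (Or.inr ⟨nb, by simp, h4⟩)
                · exact absurd ⟨v, h2, hE⟩ hyx

theorem iter_inv (adj : List (List ℕ)) (roots : List ℕ) (n : ℕ)
    (s : (List (List ℕ) × List ℕ) × (ℕ → Option (List ℕ))) (h : Inv adj roots s) :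
    Inv adj roots (reachStep^[n] s) := by
  induction n generalizing s with
  | zero => exact h
  | succ n ih => exact ih _ (step_inv adj roots s h)

theorem step_pot (adj : List (List ℕ)) (roots : List ℕ)
    (s : (List (List ℕ) × List ℕ) × (ℕ → Option (List ℕ))) (h : Inv adj roots s) :
    pot adj.length (reachStep s) = pot adj.length s - 1 ∨ s.1.1 = [] := by
  obtain ⟨⟨st0, out⟩, m⟩ := s
  cases st0 with
  | nil => exact Or.inr rfl
  | cons l st =>
    left
    cases l with
    | nil =>
      change pot adj.length ((st, out), m) = _
      simp only [pot, List.map_cons, List.sum_cons, List.length_nil]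
      omega
    | cons x xs =>
      cases hm : m x with
      | none =>
        have e : reachStep ((((x :: xs) :: st), out), m) = ((xs :: st, out), m) := by
          simp only [reachStep, listElim_cons, hm, Option.elim_none]
        rw [e]
        simp only [pot, List.map_cons, List.sum_cons, List.length_cons]
        omega
      | some nb =>
        have e : reachStep ((((x :: xs) :: st), out), m) =
            ((nb :: xs :: st, x :: out), Function.update m x none) := by
          simp only [reachStep, listElim_cons, hm, Option.elim_some]
        rw [e]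
        have hxo : x ∉ out := by
          intro hx
          have := h.mem_in x hx
          change m x = none at this
          rw [hm] at this
          exact absurd this (by simp)
        have hadj : adj[x]? = some nb := by
          have := h.mem_out x hxo
          change m x = adj[x]? at this
          rw [← this, hm]
        have hlt : x < adj.length := by
          by_contra hge
          rw [List.getElem?_eq_none (not_lt.1 hge)] at hadj
          exact absurd hadj (by simp)
        have hs1 : ∑ i ∈ Finset.range adj.length, mc (m i) =
            mc (m x) + ∑ i ∈ (Finset.range adj.length).erase x, mc (m i) :=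
          (Finset.add_sum_erase _ (fun i => mc (m i)) (Finset.mem_range.2 hlt)).symm
        have hs2 : ∑ i ∈ Finset.range adj.length, mc (Function.update m x none i) =
            mc (Function.update m x none x) +
              ∑ i ∈ (Finset.range adj.length).erase x, mc (Function.update m x none i) :=
          (Finset.add_sum_erase _ (fun i => mc (Function.update m x none i))
            (Finset.mem_range.2 hlt)).symm
        have hs3 : ∑ i ∈ (Finset.range adj.length).erase x, mc (Function.update m x none i) =
            ∑ i ∈ (Finset.range adj.length).erase x, mc (m i) := by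
          refine Finset.sum_congr rfl fun i hi => ?_
          rw [Function.update_of_ne (Finset.ne_of_mem_erase hi)]
        rw [Function.update_self, hs3] at hs2
        have hs4 : mc (m x) = nb.length + 1 := by rw [hm]; rfl
        have hs5 : mc none = 0 := rfl
        simp only [pot, List.map_cons, List.sum_cons, List.length_cons, hs1, hs2, hs4, hs5]
        omega

theorem iter_pot (adj : List (List ℕ)) (roots : List ℕ) (n : ℕ)
    (s : (List (List ℕ) × List ℕ) × (ℕ → Option (List ℕ))) (h : Inv adj roots s)
    (hn : pot adj.length s ≤ n) : (reachStep^[n] s).1.1 = [] := by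
  induction n generalizing s with
  | zero =>
    change s.1.1 = []
    cases hs : s.1.1 with
    | nil => rfl
    | cons l st =>
      exfalso
      rw [pot, hs, List.map_cons, List.sum_cons] at hn
      omega
  | succ n ih =>
    rw [Function.iterate_succ_apply]
    rcases step_pot adj roots s h with h1 | h1
    · exact ih _ (step_inv adj roots s h) (by omega)
    · have e : reachStep s = s := by
        unfold reachStep
        rw [h1, listElim_nil]
      have e2 : ∀ k, reachStep^[k] s = s := fun k => Function.iterate_fixed e k
      rw [e, e2]
      exact h1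

theorem pot_init (adj : List (List ℕ)) (roots : List ℕ) :
    pot adj.length (([roots], []), fun i => adj[i]?) =
      roots.length + adj.length + (adj.map List.length).sum + 1 := by
  have h1 : ∑ i ∈ Finset.range adj.length, mc (adj[i]?) =
      (adj.map (fun l => l.length + 1)).sum := by
    induction adj with
    | nil => rfl
    | cons a t ih =>
      rw [List.length_cons, Finset.sum_range_succ']
      simp only [List.getElem?_cons_succ, List.getElem?_cons_zero, List.map_cons, List.sum_cons]
      rw [ih]
      change _ + (a.length + 1) = _
      omega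
  have h2 : (adj.map (fun l => l.length + 1)).sum = (adj.map List.length).sum + adj.length := by
    clear h1
    induction adj with
    | nil => rfl
    | cons a t ih =>
      simp only [List.map_cons, List.sum_cons, List.length_cons, ih]
      omega
  simp only [pot, List.map_cons, List.map_nil, List.sum_cons, List.sum_nil]
  rw [h1, h2]
  omega

/-- the final state -/
theorem final (adj : List (List ℕ)) (roots : List ℕ) :
    Inv adj roots (reachStep^[roots.length + adj.length + (adj.map List.length).sum + 1]
      (([roots], []), fun i => adj[i]?)) ∧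
    (reachStep^[roots.length + adj.length + (adj.map List.length).sum + 1]
      (([roots], []), fun i => adj[i]?)).1.1 = [] :=
  ⟨iter_inv _ _ _ _ (inv_init adj roots),
    iter_pot _ _ _ _ (inv_init adj roots) (pot_init adj roots).le⟩

theorem inv_len (adj : List (List ℕ)) (roots : List ℕ)
    (s : (List (List ℕ) × List ℕ) × (ℕ → Option (List ℕ))) (h : Inv adj roots s) :
    s.1.2.length ≤ adj.length := by
  have h1 : s.1.2.toFinset ⊆ Finset.range adj.length := by
    intro i hi
    rw [List.mem_toFinset] at hi
    exact Finset.mem_range.2 (h.lt i hi)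
  have h2 := Finset.card_le_card h1
  rwa [List.toFinset_card_of_nodup h.nodup, Finset.card_range] at h2

end ReachAux

open ReachAux

theorem reach_nodup (adj : List (List ℕ)) (roots : List ℕ) : (reach adj roots).Nodup := by
  rw [reach, List.nodup_reverse]
  exact (final adj roots).1.nodup

theorem mem_reach (adj : List (List ℕ)) (roots : List ℕ) (j : ℕ) :
    j ∈ reach adj roots ↔ ∃ r ∈ roots, r < adj.length ∧
      Relation.ReflTransGen (fun i j => j < adj.length ∧ ∃ nb, adj[i]? = some nb ∧ j ∈ nb)
        r j := by
  obtain ⟨h, h0⟩ := final adj roots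
  rw [reach, List.mem_reverse]
  constructor
  · intro hj
    exact h.reach j hj
  · rintro ⟨r, hr, hrl, hrj⟩
    induction hrj with
    | refl =>
      rcases h.todo r (Or.inl hr) with h1 | h1 | ⟨l, hl, -⟩
      · exact h1
      · exact absurd hrl h1
      · rw [h0] at hl; simp at hl
    | tail _ hbc ih =>
      rcases h.todo _ (Or.inr ⟨_, ih, hbc.2⟩) with h1 | h1 | ⟨l, hl, -⟩
      · exact h1
      · exact absurd hbc.1 h1
      · rw [h0] at hl; simp at hl

namespace ReachAux

/-- one step of the search as a computation with memory -/
theorem rs_step : RS (fun (p : A × (List (List ℕ) × List ℕ)) (m : ℕ → Option (List ℕ)) =>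
    reachStep (p.2, m)) (fun _ _ => 0) := by
  -- the branch of an unvisited vertex
  have w1 : RS (fun (q : (((A × (List (List ℕ) × List ℕ)) × (List ℕ × List (List ℕ))) ×
      (ℕ × List ℕ)) × Option (List ℕ) × List ℕ) (m : ℕ → Option (List ℕ)) =>
      ((q.2.2 :: q.1.2.2 :: q.1.1.2.2, q.1.2.1 :: q.1.1.1.2.2),
        Function.update m q.1.2.1 none)) (fun _ _ => 0) := by
    have h1 : RC (fun (q : (((A × (List (List ℕ) × List ℕ)) × (List ℕ × List (List ℕ))) ×
      (ℕ × List ℕ)) × Option (List ℕ) × List ℕ) => q.1.2.1) (fun _ => 0) :=
      RC.fst (RC.snd (RC.fst RC.id))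
    have h2 : RC (fun (q : (((A × (List (List ℕ) × List ℕ)) × (List ℕ × List (List ℕ))) ×
      (ℕ × List ℕ)) × Option (List ℕ) × List ℕ) =>
      (q.2.2 :: q.1.2.2 :: q.1.1.2.2, q.1.2.1 :: q.1.1.1.2.2)) (fun _ => 0) :=
      (RC.pair (RC.cons (RC.snd (RC.snd RC.id)) (RC.cons (RC.snd (RC.snd (RC.fst RC.id)))
        (RC.snd (RC.snd (RC.fst (RC.fst RC.id))))))
        (RC.cons h1 (RC.snd (RC.snd (RC.fst (RC.fst (RC.fst RC.id))))))).of_le
          (fun _ => le_refl _)
    exact (RS.andThen (RS.write h1 (RC.none (B := List ℕ))) (RS.pure h2)).of_le
      (fun _ _ => le_refl _)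
  have w3 : RS (fun (q : (((A × (List (List ℕ) × List ℕ)) × (List ℕ × List (List ℕ))) ×
      (ℕ × List ℕ)) × Option (List ℕ)) (m : ℕ → Option (List ℕ)) =>
      (q.2).elim ((q.1.2.2 :: q.1.1.2.2, q.1.1.1.2.2), m)
        (fun nb => ((nb :: q.1.2.2 :: q.1.1.2.2, q.1.2.1 :: q.1.1.1.2.2),
          Function.update m q.1.2.1 none))) (fun _ _ => 0) := by
    have h2 : RC (fun (q : (((A × (List (List ℕ) × List ℕ)) × (List ℕ × List (List ℕ))) ×
      (ℕ × List ℕ)) × Option (List ℕ)) =>
      (q.1.2.2 :: q.1.1.2.2, q.1.1.1.2.2)) (fun _ => 0) :=
      (RC.pair (RC.cons (RC.snd (RC.snd (RC.fst RC.id)))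
        (RC.snd (RC.snd (RC.fst (RC.fst RC.id)))))
        (RC.snd (RC.snd (RC.fst (RC.fst (RC.fst RC.id)))))).of_le (fun _ => le_refl _)
    have w1' : RS (fun (p : ((((A × (List (List ℕ) × List ℕ)) ×
        (List ℕ × List (List ℕ))) × (ℕ × List ℕ)) × Option (List ℕ)) × List ℕ)
        (m : ℕ → Option (List ℕ)) =>
        ((p.2 :: p.1.1.2.2 :: p.1.1.1.2.2, p.1.1.2.1 :: p.1.1.1.1.2.2),
          Function.update m p.1.1.2.1 none)) (fun _ _ => 0) :=
      (RS.comp w1 (f := fun (p : ((((A × (List (List ℕ) × List ℕ)) ×
        (List ℕ × List (List ℕ))) × (ℕ × List ℕ)) × Option (List ℕ)) × List ℕ) =>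
        (p.1.1, p.1.2, p.2)) (cf := fun _ => 0)
        ((RC.pair (RC.fst (RC.fst RC.id)) (RC.pair (RC.snd (RC.fst RC.id))
          (RC.snd RC.id))).of_le (fun _ => le_refl _))).of_le (fun _ _ => le_refl _)
    refine (RS.optionElim (o := fun (q : (((A × (List (List ℕ) × List ℕ)) ×
      (List ℕ × List (List ℕ))) × (ℕ × List ℕ)) × Option (List ℕ)) => q.2)
      (n := fun q m => ((q.1.2.2 :: q.1.1.2.2, q.1.1.1.2.2), m))
      (s := fun q nb m => ((nb :: q.1.2.2 :: q.1.1.2.2, q.1.2.1 :: q.1.1.1.2.2),
          Function.update m q.1.2.1 none)) (RC.snd RC.id) (RS.pure h2) w1').of_le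
      (fun q m => ?_)
    obtain ⟨q1, o⟩ := q
    cases o <;> exact le_refl _
  have w4 : RS (fun (r : ((A × (List (List ℕ) × List ℕ)) × (List ℕ × List (List ℕ))) ×
      (ℕ × List ℕ)) (m : ℕ → Option (List ℕ)) =>
      (m r.2.1).elim ((r.2.2 :: r.1.2.2, r.1.1.2.2), m)
        (fun nb => ((nb :: r.2.2 :: r.1.2.2, r.2.1 :: r.1.1.2.2),
          Function.update m r.2.1 none))) (fun _ _ => 0) :=
    (RS.bind (g := fun (r : ((A × (List (List ℕ) × List ℕ)) × (List ℕ × List (List ℕ))) ×
      (ℕ × List ℕ)) (o : Option (List ℕ)) (m : ℕ → Option (List ℕ)) =>
      (o).elim ((r.2.2 :: r.1.2.2, r.1.1.2.2), m)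
        (fun nb => ((nb :: r.2.2 :: r.1.2.2, r.2.1 :: r.1.1.2.2),
          Function.update m r.2.1 none)))
      (RS.read (M := Option (List ℕ)) (RC.fst (RC.snd RC.id))) w3).of_le
      (fun _ _ => le_refl _)
  have w5 : RS (fun (q : (A × (List (List ℕ) × List ℕ)) × (List ℕ × List (List ℕ)))
      (m : ℕ → Option (List ℕ)) =>
      listElim q.2.1 ((q.2.2, q.1.2.2), m) (fun x xs =>
      (m x).elim ((xs :: q.2.2, q.1.2.2), m)
        (fun nb => ((nb :: xs :: q.2.2, x :: q.1.2.2),
          Function.update m x none)))) (fun _ _ => 0) := by
    have h2 : RC (fun (q : (A × (List (List ℕ) × List ℕ)) × (List ℕ × List (List ℕ))) =>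
      (q.2.2, q.1.2.2)) (fun _ => 0) :=
      (RC.pair (RC.snd (RC.snd RC.id)) (RC.snd (RC.snd (RC.fst RC.id)))).of_le
        (fun _ => le_refl _)
    refine (RS.listElim (l := fun (q : (A × (List (List ℕ) × List ℕ)) ×
      (List ℕ × List (List ℕ))) => q.2.1) (n := fun q m => ((q.2.2, q.1.2.2), m))
      (s := fun q x xs (m : ℕ → Option (List ℕ)) => (m x).elim ((xs :: q.2.2, q.1.2.2), m)
        (fun nb => ((nb :: xs :: q.2.2, x :: q.1.2.2),
          Function.update m x none))) (RC.fst (RC.snd RC.id)) (RS.pure h2) w4).of_le
      (fun q m => ?_)
    obtain ⟨q1, l, st⟩ := q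
    cases l <;> exact le_refl _
  refine (RS.listElim (l := fun (p : A × (List (List ℕ) × List ℕ)) => p.2.1)
    (n := fun p m => (p.2, m))
    (s := fun p h st (m : ℕ → Option (List ℕ)) => listElim h ((st, p.2.2), m) (fun x xs =>
      (m x).elim ((xs :: st, p.2.2), m)
        (fun nb => ((nb :: xs :: st, x :: p.2.2),
          Function.update m x none)))) (RC.fst (RC.snd RC.id)) (RS.pure (RC.snd RC.id))
      w5).of_le (fun p m => ?_)
  obtain ⟨a, l, out⟩ := p
  cases l <;> exact le_refl _

theorem rc_count {adj : A → List (List ℕ)} {roots : A → List ℕ} {ca cr : A → ℕ}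
    (ha : RC adj ca) (hr : RC roots cr) :
    RC (fun a => (roots a).length + (adj a).length + ((adj a).map List.length).sum + 1)
      (fun a => ca a + cr a + (adj a).length + ((adj a).map List.length).sum +
        (roots a).length) := by
  have h1 := RC.map (f := fun (_ : A) (l : List ℕ) => l.length) ha
    (RC.length (RC.snd RC.id))
  have h2 := RC.succ (RC.nadd (RC.nadd (RC.length hr) (RC.length ha)) (RC.nsum h1))
  refine h2.mono 4 (fun a => ?_)
  have e : ((adj a).map (fun x => 0 + x.length + 1)).sum =
      ((adj a).map List.length).sum + (adj a).length := by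
    generalize adj a = t
    induction t with
    | nil => rfl
    | cons x t ih =>
      simp only [List.map_cons, List.sum_cons, List.length_cons, ih]
      omega
  simp only [e, List.length_map]
  omega

end ReachAux

theorem RC.reach {adj : A → List (List ℕ)} {roots : A → List ℕ} {ca cr : A → ℕ}
    (ha : RC adj ca) (hr : RC roots cr) :
    RC (fun a => P7m.reach (adj a) (roots a))
      (fun a => ca a + cr a + (adj a).length + ((adj a).map List.length).sum +
        (roots a).length) := by
  have h1 := RS.iterate (M := Option (List ℕ)) (C := List (List ℕ) × List ℕ)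
    (b := fun a => ([roots a], [])) (f := fun _ c m => reachStep (c, m))
    (rc_count ha hr) (RC.pair (RC.singleton hr) (RC.nil (B := ℕ))) rs_step
  have h2 := RC.runWith ha h1
  have h3 := RC.reverse (RC.snd h2)
  refine (h3.mono 5 (fun a => ?_)).congr (fun a => rfl)
  have e1 := iterCost_le_const
    (fun s : (List (List ℕ) × List ℕ) × (ℕ → Option (List ℕ)) => reachStep (s.1, s.2))
    (fun _ => 0) 0
    ((roots a).length + (adj a).length + ((adj a).map List.length).sum + 1)
    (([roots a], []), fun i => (adj a)[i]?) (fun _ => le_refl _)
  have e2 := inv_len _ _ _ (final (adj a) (roots a)).1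
  change (ca a + (adj a).length + (ca a + cr a + (adj a).length +
    ((adj a).map List.length).sum + (roots a).length + (cr a + 0) +
    iterCost (fun s : (List (List ℕ) × List ℕ) × (ℕ → Option (List ℕ)) =>
      reachStep (s.1, s.2)) (fun _ => 0)
      ((roots a).length + (adj a).length + ((adj a).map List.length).sum + 1)
      (([roots a], []), fun i => (adj a)[i]?))) +
    (reachStep^[(roots a).length + (adj a).length + ((adj a).map List.length).sum + 1]
      (([roots a], []), fun i => (adj a)[i]?)).1.2.length ≤ _
  omega

end P7m
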