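/-
P7m.Sort: merging and merge sort as `RC` functions, cost n log n.

Plan.  (1) `RC.merge`: fold over `xs ++ ys` used only as a counter, state (xs', ys', acc) with
acc reversed: every step moves the smaller head to acc (`List.merge` takes the head of xs if
`le x y`); result acc.reverse.  (2) `RC.mergeOnce`: fold over the list of runs, state
(pending : Option run, output reversed).  (3) `RC.msort`: `RC.iterate` with `(l a).length`
repetitions; after `Nat.clog 2 n` repetitions there is at most one run and every further
repetition costs O(1); use `iterCost` split or the potential lemma.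
-/
import Pool.Agent.Lib.P7m.Lists

namespace P7m

variable {A B C D : Type} [Enc A] [Enc B] [Enc C] [Enc D]

/-- one round of pairwise merging of runs -/
def mergeOnce {X : Type} (le : X → X → Bool) : List (List X) → List (List X)
  | a :: b :: t => List.merge a b le :: mergeOnce le t
  | l => l

/-- bottom up merge sort -/
def msort {X : Type} (le : X → X → Bool) (l : List X) : List X :=
  ((mergeOnce le)^[l.length] (l.map (fun x => [x]))).flatten

section pure
variable {X : Type} (le : X → X → Bool)

private theorem mergeOnce_nil : mergeOnce le [] = [] := by simp [mergeOnce]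
private theorem mergeOnce_one (a : List X) : mergeOnce le [a] = [a] := by simp [mergeOnce]
private theorem mergeOnce_cc (a b : List X) (t : List (List X)) :
    mergeOnce le (a :: b :: t) = List.merge a b le :: mergeOnce le t := by simp [mergeOnce]

private theorem mergeOnce_ind (P : List (List X) → Prop) (h0 : P []) (h1 : ∀ a, P [a])
    (h2 : ∀ a b t, P t → P (a :: b :: t)) : ∀ l, P l
  | [] => h0
  | [a] => h1 a
  | a :: b :: t => h2 a b t (mergeOnce_ind P h0 h1 h2 t)

private theorem mergeOnce_perm (L : List (List X)) : (mergeOnce le L).flatten.Perm L.flatten := by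
  induction L using mergeOnce_ind with
  | h0 => rw [mergeOnce_nil]
  | h1 a => rw [mergeOnce_one]
  | h2 a b t ih =>
    rw [mergeOnce_cc, List.flatten_cons, List.flatten_cons, List.flatten_cons, ← List.append_assoc]
    exact (List.merge_perm_append le).append ih

private theorem mergeOnce_length (L : List (List X)) :
    (mergeOnce le L).length = (L.length + 1) / 2 := by
  induction L using mergeOnce_ind with
  | h0 => rw [mergeOnce_nil]; simp
  | h1 a => rw [mergeOnce_one]; simp
  | h2 a b t ih =>
    rw [mergeOnce_cc, List.length_cons, ih, List.length_cons, List.length_cons]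
    omega

private theorem mergeOnce_sum (L : List (List X)) :
    ((mergeOnce le L).map List.length).sum = (L.map List.length).sum := by
  induction L using mergeOnce_ind with
  | h0 => rw [mergeOnce_nil]
  | h1 a => rw [mergeOnce_one]
  | h2 a b t ih =>
    rw [mergeOnce_cc, List.map_cons, List.sum_cons, ih, List.map_cons, List.map_cons,
      List.sum_cons, List.sum_cons, List.length_merge]
    omega

private theorem mergeOnce_pw
    (htrans : ∀ x y z, le x y = true → le y z = true → le x z = true)
    (htotal : ∀ x y, (le x y || le y x) = true) (L : List (List X))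
    (h : ∀ r ∈ L, r.Pairwise (fun x y => le x y = true)) :
    ∀ r ∈ mergeOnce le L, r.Pairwise (fun x y => le x y = true) := by
  induction L using mergeOnce_ind with
  | h0 => rw [mergeOnce_nil]; exact h
  | h1 a => rw [mergeOnce_one]; exact h
  | h2 a b t ih =>
    rw [mergeOnce_cc]
    intro r hr
    rcases List.mem_cons.mp hr with rfl | hr
    · exact List.pairwise_merge htrans htotal a b (h a (by simp)) (h b (by simp))
    · exact ih (fun s hs => h s (by simp [hs])) r hr

private theorem iter_perm (k : ℕ) (L : List (List X)) :
    ((mergeOnce le)^[k] L).flatten.Perm L.flatten := by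
  induction k with
  | zero => exact List.Perm.refl _
  | succ k ih =>
    rw [Function.iterate_succ_apply']
    exact (mergeOnce_perm le _).trans ih

private theorem iter_length (k : ℕ) (L : List (List X)) :
    ((mergeOnce le)^[k] L).length ≤ max 1 (L.length - k) := by
  induction k with
  | zero => simp
  | succ k ih =>
    rw [Function.iterate_succ_apply', mergeOnce_length]
    omega

private theorem iter_sum (k : ℕ) (L : List (List X)) :
    (((mergeOnce le)^[k] L).map List.length).sum = (L.map List.length).sum := by
  induction k with
  | zero => rfl
  | succ k ih =>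
    rw [Function.iterate_succ_apply', mergeOnce_sum, ih]

private theorem iter_length_le (k : ℕ) (L : List (List X)) :
    ((mergeOnce le)^[k] L).length ≤ L.length := by
  induction k with
  | zero => simp
  | succ k ih =>
    rw [Function.iterate_succ_apply', mergeOnce_length]
    omega

private theorem iter_pw
    (htrans : ∀ x y z, le x y = true → le y z = true → le x z = true)
    (htotal : ∀ x y, (le x y || le y x) = true) (k : ℕ) (L : List (List X))
    (h : ∀ r ∈ L, r.Pairwise (fun x y => le x y = true)) :
    ∀ r ∈ (mergeOnce le)^[k] L, r.Pairwise (fun x y => le x y = true) := by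
  induction k with
  | zero => exact h
  | succ k ih =>
    rw [Function.iterate_succ_apply']
    exact mergeOnce_pw le htrans htotal _ ih

private theorem flatten_singletons (l : List X) : (l.map (fun x => [x])).flatten = l := by
  induction l with
  | nil => rfl
  | cons x t ih => rw [List.map_cons, List.flatten_cons, ih]; rfl

private theorem sum_singletons (l : List X) :
    ((l.map (fun x => [x])).map List.length).sum = l.length := by
  induction l with
  | nil => rfl
  | cons x t ih =>
    rw [List.map_cons, List.map_cons, List.sum_cons, ih]
    simp only [List.length_cons, List.length_nil]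
    omega

private theorem sum_succ (L : List (List X)) :
    (L.map (fun r => r.length + 1)).sum = (L.map List.length).sum + L.length := by
  induction L with
  | nil => rfl
  | cons x t ih =>
    rw [List.map_cons, List.map_cons, List.sum_cons, List.sum_cons, ih, List.length_cons]
    omega

end pure

theorem msort_perm {X : Type} (le : X → X → Bool) (l : List X) : (msort le l).Perm l := by
  unfold msort
  refine (iter_perm le _ _).trans ?_
  rw [flatten_singletons]

theorem msort_sorted {X : Type} (le : X → X → Bool)
    (htrans : ∀ x y z, le x y = true → le y z = true → le x z = true)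
    (htotal : ∀ x y, (le x y || le y x) = true) (l : List X) :
    (msort le l).Pairwise (fun x y => le x y = true) := by
  unfold msort
  have h1 := iter_length le l.length (l.map (fun x => [x]))
  have h2 := iter_pw le htrans htotal l.length (l.map (fun x => [x])) (by
    intro r hr
    obtain ⟨x, -, rfl⟩ := List.mem_map.mp hr
    exact List.pairwise_singleton _ _)
  generalize (mergeOnce le)^[l.length] (l.map (fun x => [x])) = M at h1 h2
  rw [List.length_map, Nat.sub_self] at h1
  match M, h1, h2 with
  | [], _, _ => exact List.Pairwise.nil
  | [a], _, h2 =>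
    rw [List.flatten_cons, List.flatten_nil, List.append_nil]
    exact h2 a (by simp)
  | a :: b :: t, h1, _ => simp at h1

/-- one step of merging -/
private def mstep {X : Type} (le : X → X → Bool) (s : List X × List X × List X) :
    List X × List X × List X :=
  listElim s.1 (listElim s.2.1 s (fun y ys => ([], ys, y :: s.2.2)))
    (fun x xs => listElim s.2.1 (xs, [], x :: s.2.2)
      (fun y ys => if le x y then (xs, y :: ys, x :: s.2.2) else (x :: xs, ys, y :: s.2.2)))

private theorem mstep_iter {X : Type} (le : X → X → Bool) (n : ℕ) (xs ys acc : List X)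
    (h : xs.length + ys.length ≤ n) :
    (mstep le)^[n] (xs, ys, acc) = ([], [], (List.merge xs ys le).reverse ++ acc) := by
  induction n generalizing xs ys acc with
  | zero =>
    have h1 : xs = [] := List.length_eq_zero_iff.mp (by omega)
    have h2 : ys = [] := List.length_eq_zero_iff.mp (by omega)
    subst h1 h2
    simp
  | succ n ih =>
    rw [Function.iterate_succ_apply]
    match xs, ys, h with
    | [], [], _ =>
      have e : mstep le ([], [], acc) = ([], [], acc) := rfl
      rw [e, ih _ _ _ (by simp)]
    | [], y :: ys, h =>
      have e : mstep le ([], y :: ys, acc) = ([], ys, y :: acc) := rfl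
      rw [e, ih _ _ _ (by simp at h ⊢; omega)]
      simp
    | x :: xs, [], h =>
      have e : mstep le (x :: xs, [], acc) = (xs, [], x :: acc) := rfl
      rw [e, ih _ _ _ (by simp at h ⊢; omega)]
      simp
    | x :: xs, y :: ys, h =>
      have e : mstep le (x :: xs, y :: ys, acc) =
        if le x y then (xs, y :: ys, x :: acc) else (x :: xs, ys, y :: acc) := rfl
      rw [e, List.cons_merge_cons]
      by_cases hxy : le x y
      · rw [if_pos hxy, if_pos hxy, ih _ _ _ (by simp at h ⊢; omega)]
        simp
      · rw [if_neg hxy, if_neg hxy, ih _ _ _ (by simp at h ⊢; omega)]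
        simp

theorem RC.merge {l r : A → List B} {le : A → B → B → Bool} {cl cr cle : A → ℕ}
    (hl : RC l cl) (hr : RC r cr)
    (hle : RC (fun p : A × B × B => le p.1 p.2.1 p.2.2) (fun p => cle p.1)) :
    RC (fun a => List.merge (l a) (r a) (le a))
      (fun a => cl a + cr a + (cle a + 1) * ((l a).length + (r a).length)) := by
  have hstep : RC (fun p : A × (List B × List B × List B) => mstep (le p.1) p.2)
      (fun p => cle p.1) := by
    have h1 : RC (fun p : A × (List B × List B × List B) => p.2.1) (fun _ => 0) :=
      RC.fst (RC.snd RC.id)
    have h2 : RC (fun p : A × (List B × List B × List B) => p.2.2.1) (fun _ => 0) :=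
      RC.fst (RC.snd (RC.snd RC.id))
    have hn : RC (fun p : A × (List B × List B × List B) =>
        P7m.listElim p.2.2.1 p.2 (fun y ys => (([] : List B), ys, y :: p.2.2.2))) _ :=
      RC.listElim (s := fun (p : A × (List B × List B × List B)) y ys =>
          (([] : List B), ys, y :: p.2.2.2)) h2 (RC.snd RC.id)
        (RC.pair RC.nil (RC.pair (RC.snd (RC.snd RC.id))
          (RC.cons (RC.fst (RC.snd RC.id)) (RC.snd (RC.snd (RC.snd (RC.fst RC.id)))))))
    have h3 : RC (fun q : (A × (List B × List B × List B)) × B × List B => q.1.2.2.1)
        (fun _ => 0) := RC.fst (RC.snd (RC.snd (RC.fst RC.id)))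
    have hs : RC (fun q : (A × (List B × List B × List B)) × B × List B =>
        P7m.listElim q.1.2.2.1 (q.2.2, ([] : List B), q.2.1 :: q.1.2.2.2)
          (fun y ys => if le q.1.1 q.2.1 y then (q.2.2, y :: ys, q.2.1 :: q.1.2.2.2)
            else (q.2.1 :: q.2.2, ys, y :: q.1.2.2.2))) _ :=
      RC.listElim (s := fun (q : (A × (List B × List B × List B)) × B × List B) y ys =>
          if le q.1.1 q.2.1 y then (q.2.2, y :: ys, q.2.1 :: q.1.2.2.2)
            else (q.2.1 :: q.2.2, ys, y :: q.1.2.2.2)) h3
        (RC.pair (RC.snd (RC.snd RC.id)) (RC.pair RC.nil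
          (RC.cons (RC.fst (RC.snd RC.id)) (RC.snd (RC.snd (RC.snd (RC.fst RC.id)))))))
        (RC.cond
          (RC.comp (g := fun p : A × B × B => le p.1 p.2.1 p.2.2) hle
            (RC.pair (RC.fst (RC.fst (RC.fst RC.id)))
              (RC.pair (RC.fst (RC.snd (RC.fst RC.id))) (RC.fst (RC.snd RC.id)))))
          (RC.pair (RC.snd (RC.snd (RC.fst RC.id))) (RC.pair
            (RC.cons (RC.fst (RC.snd RC.id)) (RC.snd (RC.snd RC.id)))
            (RC.cons (RC.fst (RC.snd (RC.fst RC.id)))
              (RC.snd (RC.snd (RC.snd (RC.fst (RC.fst RC.id))))))))
          (RC.pair (RC.cons (RC.fst (RC.snd (RC.fst RC.id))) (RC.snd (RC.snd (RC.fst RC.id))))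
            (RC.pair (RC.snd (RC.snd RC.id))
              (RC.cons (RC.fst (RC.snd RC.id))
                (RC.snd (RC.snd (RC.snd (RC.fst (RC.fst RC.id)))))))))
    have h := RC.listElim (s := fun (p : A × (List B × List B × List B)) x xs =>
        P7m.listElim p.2.2.1 (xs, ([] : List B), x :: p.2.2.2)
          (fun y ys => if le p.1 x y then (xs, y :: ys, x :: p.2.2.2)
            else (x :: xs, ys, y :: p.2.2.2))) h1 hn hs
    refine (h.of_le (fun p => ?_)).congr (fun p => rfl)
    obtain ⟨a, xs, ys, acc⟩ := p
    cases xs with
    | nil =>
      cases ys with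
      | nil => simp
      | cons y ys => simp
    | cons x xs =>
      cases ys with
      | nil => simp
      | cons y ys =>
        simp only [listElim_cons]
        split_ifs <;> simp
  have h := RC.reverse (RC.snd (RC.snd (RC.iterate (f := fun a s => mstep (le a) s)
    (RC.nadd (RC.length hl) (RC.length hr))
    (RC.pair hl (RC.pair hr (RC.nil (B := B)))) hstep)))
  refine (h.mono 3 (fun a => ?_)).congr (fun a => ?_)
  · have h1 := iterCost_le_const (fun s => mstep (le a) s) (fun _ => cle a) (cle a)
      ((l a).length + (r a).length) (l a, r a, []) (fun _ => le_rfl)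
    rw [mstep_iter (le a) _ _ _ _ le_rfl]
    simp only [List.append_nil, List.length_reverse, List.length_merge] at h1 ⊢
    have h2 : (l a).length + (r a).length ≤ (cle a + 1) * ((l a).length + (r a).length) :=
      Nat.le_mul_of_pos_left _ (Nat.succ_pos _)
    omega
  · rw [mstep_iter (le a) _ _ _ _ le_rfl]
    simp


/-- one step of a round of merging -/
private def ostep {X : Type} (le : X → X → Bool) (s : Option (List X) × List (List X))
    (x : List X) : Option (List X) × List (List X) :=
  s.1.elim (some x, s.2) (fun p => (none, List.merge p x le :: s.2))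

private theorem ostep_fold {X : Type} (le : X → X → Bool) (L : List (List X))
    (acc : List (List X)) :
    ((L.foldl (ostep le) (none, acc)).1.elim (L.foldl (ostep le) (none, acc)).2
      (fun p => p :: (L.foldl (ostep le) (none, acc)).2)).reverse =
      acc.reverse ++ mergeOnce le L := by
  induction L using mergeOnce_ind generalizing acc with
  | h0 => rw [mergeOnce_nil]; simp
  | h1 a => rw [mergeOnce_one]; simp [ostep]
  | h2 a b t ih =>
    have e : (a :: b :: t).foldl (ostep le) (none, acc) =
        t.foldl (ostep le) (none, List.merge a b le :: acc) := rfl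
    rw [e, ih, mergeOnce_cc]
    simp

theorem RC.mergeOnce {l : A → List (List B)} {le : A → B → B → Bool} {cl cle : A → ℕ}
    (hl : RC l cl)
    (hle : RC (fun p : A × B × B => le p.1 p.2.1 p.2.2) (fun p => cle p.1)) :
    RC (fun a => P7m.mergeOnce (le a) (l a))
      (fun a => cl a + (if (l a).length ≤ 1 then 0 else
        (cle a + 1) * ((l a).map (fun r => r.length + 1)).sum)) := by
  -- the fold, in the context (a, L)
  have hmerge : RC (fun q : ((A × List (List B)) × (Option (List B) × List (List B)) × List B) ×
        List B => List.merge q.2 q.1.2.2 (le q.1.1.1))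
      (fun q => 0 + 0 + (cle q.1.1.1 + 1) * (q.2.length + q.1.2.2.length)) :=
    RC.merge (l := fun q : ((A × List (List B)) × (Option (List B) × List (List B)) × List B) ×
        List B => q.2) (r := fun q => q.1.2.2) (le := fun q => le q.1.1.1)
      (cle := fun q => cle q.1.1.1)
      (RC.snd RC.id) (RC.snd (RC.snd (RC.fst RC.id)))
      (RC.comp (g := fun p : A × B × B => le p.1 p.2.1 p.2.2) hle
        (RC.pair (RC.fst (RC.fst (RC.fst (RC.fst RC.id)))) (RC.snd RC.id)) |>.of_le
          (fun _ => by simp))
  have hstep : RC (fun q : (A × List (List B)) × (Option (List B) × List (List B)) × List B =>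
      ostep (le q.1.1) q.2.1 q.2.2)
      (fun q => q.2.1.1.elim 0 (fun p => (cle q.1.1 + 1) * (p.length + q.2.2.length))) := by
    have hn : RC (fun q : (A × List (List B)) × (Option (List B) × List (List B)) × List B =>
        ((Option.some q.2.2 : Option (List B)), q.2.1.2)) (fun _ => 0) :=
      RC.pair (A := (A × List (List B)) × (Option (List B) × List (List B)) × List B)
        (f := fun q => (Option.some q.2.2 : Option (List B))) (g := fun q => q.2.1.2)
        (RC.some (f := fun q : (A × List (List B)) × (Option (List B) × List (List B)) × List B =>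
          q.2.2) (RC.snd (RC.snd RC.id))) (RC.snd (RC.fst (RC.snd RC.id)))
    have h := RC.optionElim
      (s := fun (q : (A × List (List B)) × (Option (List B) × List (List B)) × List B)
        (p : List B) => ((Option.none : Option (List B)), List.merge p q.2.2 (le q.1.1) :: q.2.1.2))
      (o := fun q => q.2.1.1)
      (RC.fst (RC.fst (RC.snd RC.id))) hn
      (RC.pair RC.none (RC.cons hmerge (RC.snd (RC.fst (RC.snd (RC.fst RC.id))))))
    refine (h.of_le (fun q => ?_)).congr (fun q => rfl)
    obtain ⟨⟨a, L⟩, ⟨o, acc⟩, x⟩ := q
    cases o <;> simp
  have hfold := RC.foldl (f := fun (q : A × List (List B)) s x => ostep (le q.1) s x)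
    (l := fun q : A × List (List B) => q.2)
    (b := fun _ => ((Option.none : Option (List B)), ([] : List (List B))))
    (RC.snd RC.id) (RC.pair RC.none RC.nil) hstep
  have hpost : RC (fun s : Option (List B) × List (List B) =>
      (s.1.elim s.2 (fun p => p :: s.2)).reverse) (fun s => s.2.length) := by
    have h := RC.reverse (RC.optionElim
      (s := fun (s : Option (List B) × List (List B)) (p : List B) => p :: s.2)
      (o := fun s => s.1) (n := fun s => s.2) (RC.fst RC.id) (RC.snd RC.id)
      (RC.cons (RC.snd RC.id) (RC.snd (RC.fst RC.id))))
    refine h.mono 2 (fun s => ?_)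
    obtain ⟨o, acc⟩ := s
    cases o <;> simp <;> omega
  have hmain := RC.comp hpost hfold
  have hG : RC (fun q : A × List (List B) => P7m.mergeOnce (le q.1) q.2)
      (fun q => if q.2.length ≤ 1 then 0 else
        (cle q.1 + 1) * (q.2.map (fun r => r.length + 1)).sum) := by
    have hmain' : RC (fun q : A × List (List B) => P7m.mergeOnce (le q.1) q.2)
        (fun q => (cle q.1 + 1) * (q.2.map (fun r => r.length + 1)).sum) := by
      refine (hmain.mono 2 (fun q => ?_)).congr (fun q => ?_)
      · obtain ⟨a, L⟩ := q
        have h1 := foldCost_le_potential (fun s x => ostep (le a) s x)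
          (fun s x => s.1.elim 0 (fun p => (cle a + 1) * (p.length + x.length)))
          (fun x => (cle a + 1) * x.length)
          (fun s => s.1.elim 0 (fun p => (cle a + 1) * p.length)) (fun _ => True) L
          (Option.none, []) trivial (fun _ _ _ _ => trivial) (fun s _ x _ => by
            obtain ⟨o, acc⟩ := s
            cases o with
            | none => simp [ostep]
            | some p => simp [ostep, Nat.mul_add])
        have h2 : (L.map (fun x => (cle a + 1) * x.length + 1)).sum ≤
            (cle a + 1) * (L.map (fun r => r.length + 1)).sum := by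
          clear h1
          induction L with
          | nil => simp
          | cons x t ih =>
            simp only [List.map_cons, List.sum_cons]
            rw [Nat.mul_add, Nat.mul_add]
            have : 1 ≤ (cle a + 1) * 1 := by omega
            omega
        have h3 : (L.foldl (fun s x => ostep (le a) s x) (Option.none, [])).2.length ≤
            (cle a + 1) * (L.map (fun r => r.length + 1)).sum := by
          have e1 := congrArg List.length (ostep_fold (le a) L [])
          rw [List.length_reverse] at e1
          simp only [List.reverse_nil, List.nil_append, mergeOnce_length] at e1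
          have e2 : (L.foldl (ostep (le a)) (Option.none, [])).2.length ≤
              ((L.foldl (ostep (le a)) (Option.none, [])).1.elim (L.foldl (ostep (le a)) (Option.none, [])).2
                (fun p => p :: (L.foldl (ostep (le a)) (Option.none, [])).2)).length := by
            cases (L.foldl (ostep (le a)) (Option.none, [])).1 <;> simp
          have e3 : L.length ≤ (L.map (fun r => r.length + 1)).sum := by
            rw [sum_succ]; omega
          have e4 : (L.map (fun r => r.length + 1)).sum ≤
              (cle a + 1) * (L.map (fun r => r.length + 1)).sum :=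
            Nat.le_mul_of_pos_left _ (Nat.succ_pos _)
          have e5 : (L.foldl (fun s x => ostep (le a) s x) (Option.none, [])).2.length =
            (L.foldl (ostep (le a)) (Option.none, [])).2.length := rfl
          omega
        simp only [Option.elim_none] at h1 h3 ⊢
        omega
      · have := ostep_fold (le q.1) q.2 []
        simpa using this.symm
    have h := RC.listElim (l := fun q : A × List (List B) => q.2)
      (n := fun _ => ([] : List (List B)))
      (s := fun q x t => P7m.listElim t [x] (fun _ _ => P7m.mergeOnce (le q.1) q.2))
      (RC.snd RC.id) RC.nil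
      (RC.listElim (l := fun q : (A × List (List B)) × List B × List (List B) => q.2.2)
        (n := fun q => [q.2.1])
        (s := fun q _ _ => P7m.mergeOnce (le q.1.1) q.1.2)
        (RC.snd (RC.snd RC.id)) (RC.singleton (RC.fst (RC.snd RC.id)))
        (RC.comp hmain' (RC.fst (RC.fst RC.id))))
    refine (h.of_le (fun q => ?_)).congr (fun q => ?_)
    · obtain ⟨a, L⟩ := q
      match L with
      | [] => simp
      | [x] => simp
      | x :: y :: t => simp
    · obtain ⟨a, L⟩ := q
      match L with
      | [] => simp [P7m.mergeOnce]
      | [x] => simp [P7m.mergeOnce]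
      | x :: y :: t => simp
  exact (RC.comp hG (RC.pair RC.id hl)).of_le (fun a => by simp)

/-- merge sort with cost n log n -/
theorem RC.msort {l : A → List B} {le : A → B → B → Bool} {cl cle : A → ℕ}
    (hl : RC l cl)
    (hle : RC (fun p : A × B × B => le p.1 p.2.1 p.2.2) (fun p => cle p.1)) :
    RC (fun a => P7m.msort (le a) (l a))
      (fun a => cl a + (cle a + 1) * ((l a).length * Nat.clog 2 (l a).length + (l a).length)) := by
  have h0 : RC (fun a => (l a).map (fun x => [x])) (fun a => cl a + (l a).length) :=
    (RC.map (f := fun _ x => [x]) hl (RC.singleton (RC.snd RC.id))).of_le (fun a => by simp)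
  have h1 := RC.flatten (RC.iterate (f := fun a s => P7m.mergeOnce (le a) s) (RC.length hl) h0
    ((RC.mergeOnce (l := fun p : A × List (List B) => p.2) (le := fun p => le p.1)
      (cle := fun p => cle p.1) (RC.snd RC.id)
      (RC.comp (g := fun p : A × B × B => le p.1 p.2.1 p.2.2) hle
        (RC.pair (RC.fst (RC.fst RC.id)) (RC.snd RC.id)) |>.of_le
          (fun _ => by simp))).of_le (fun _ => le_refl _)))
  refine (h1.mono 5 (fun a => ?_)).congr (fun a => rfl)
  have hpot := iterCost_le_potential (fun s => P7m.mergeOnce (le a) s)
    (fun s => 0 + (if s.length ≤ 1 then 0 else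
        (cle a + 1) * (s.map (fun r => r.length + 1)).sum)) 0
    (fun s => ((cle a + 1) * (2 * (l a).length)) * Nat.clog 2 s.length)
    (fun s => (s.map List.length).sum = (l a).length ∧ s.length ≤ (l a).length)
    (l a).length ((l a).map (fun x => [x])) ⟨sum_singletons _, by simp⟩
    (fun s hs => ⟨by rw [mergeOnce_sum]; exact hs.1, by rw [mergeOnce_length]; omega⟩)
    (fun s hs => by
      obtain ⟨hs1, hs2⟩ := hs
      by_cases h : s.length ≤ 1
      · have e : (P7m.mergeOnce (le a) s).length = s.length := by rw [mergeOnce_length]; omega
        rw [if_pos h, e]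
        omega
      · rw [if_neg h, mergeOnce_length, Nat.clog_of_two_le (n := s.length) (by norm_num) (by omega)]
        have e2 : (s.length + 2 - 1) / 2 = (s.length + 1) / 2 := by congr 1
        rw [e2, sum_succ, hs1]
        have e3 : (cle a + 1) * ((l a).length + s.length) ≤ (cle a + 1) * (2 * (l a).length) :=
          Nat.mul_le_mul_left _ (by omega)
        have e4 : (cle a + 1) * (2 * (l a).length) * (Nat.clog 2 ((s.length + 1) / 2) + 1) =
          (cle a + 1) * (2 * (l a).length) * Nat.clog 2 ((s.length + 1) / 2) +
          (cle a + 1) * (2 * (l a).length) := by ring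
        omega)
  have hs1 := iter_sum (le a) (l a).length ((l a).map (fun x => [x]))
  have hs2 := iter_length_le (le a) (l a).length ((l a).map (fun x => [x]))
  rw [sum_singletons] at hs1
  rw [List.length_map] at hs2
  have e6 : ((fun s => P7m.mergeOnce (le a) s)^[(l a).length] ((l a).map (fun x => [x]))) =
    ((P7m.mergeOnce (le a))^[(l a).length] ((l a).map (fun x => [x]))) := rfl
  rw [List.length_map] at hpot
  rw [e6, sum_succ, hs1]
  dsimp only at hpot ⊢
  have e7 : (l a).length ≤ (cle a + 1) * (l a).length := Nat.le_mul_of_pos_left _ (Nat.succ_pos _)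
  have e8 : (cle a + 1) * ((l a).length * Nat.clog 2 (l a).length + (l a).length) =
    (cle a + 1) * ((l a).length * Nat.clog 2 (l a).length) + (cle a + 1) * (l a).length :=
    Nat.mul_add _ _ _
  have e9 : (cle a + 1) * (2 * (l a).length) * Nat.clog 2 (l a).length =
    2 * ((cle a + 1) * ((l a).length * Nat.clog 2 (l a).length)) := by ring
  omega

end P7m
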