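/-
P7m.Top: randomized algorithms on the real RAM from pure functions.

Input: a natural number `n` (in register 0) and `ℓ n` real numbers on the input tape; `b n`
random bits are read at the start; the output is a list of natural and real numbers.
-/
import Pool.Agent.Lib.P7m.Main
import Pool.Agent.Lib.P7m.State

namespace P7m

/-- reading the input tape at a list of places -/
theorem eval_readR (inp : ℕ → ℝ) (w : ℕ → Bool) (m : ℕ → Val) (k : ℕ) (out : List (ℕ ⊕ ℝ))
    (l : List ℕ) (acc : List ℝ) :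
    (foldE (eval inp w (.mk 1 (.seq .fst .inp) .snd)) (enc l) ⟨enc acc, m, k, out⟩).1 =
      ⟨enc ((l.map inp).reverse ++ acc), m, k, out⟩ ∧
    (foldE (eval inp w (.mk 1 (.seq .fst .inp) .snd)) (enc l) ⟨enc acc, m, k, out⟩).2 ≤
      6 * l.length + 1 := by
  induction l generalizing acc with
  | nil => exact ⟨rfl, le_refl _⟩
  | cons x t ih =>
    have a3 := ih (inp x :: acc)
    rw [enc_cons, foldE]
    have e1 : eval inp w (.mk 1 (.seq .fst .inp) .snd) ⟨.node 0 0 (enc x) (enc acc), m, k, out⟩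
        = (⟨enc (inp x :: acc), m, k, out⟩, 5) := by
      simp [eval, enc_nat, enc_real]
    simp only [one_ne_zero, if_false, e1]
    refine ⟨?_, ?_⟩
    · rw [a3.1]; simp
    · have := a3.2
      simp only [List.length_cons]
      omega

/-- reading random bits -/
theorem eval_bits (inp : ℕ → ℝ) (w : ℕ → Bool) (m : ℕ → Val) (out : List (ℕ ⊕ ℝ))
    (b : ℕ) (k : ℕ) (acc : List Bool) :
    (loopE (eval inp w (.mk 1 .flip .id)) b ⟨enc acc, m, k, out⟩).1 =
      ⟨enc (((List.range' k b).map w).reverse ++ acc), m, k + b, out⟩ ∧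
    (loopE (eval inp w (.mk 1 .flip .id)) b ⟨enc acc, m, k, out⟩).2 ≤ 4 * b + 1 := by
  induction b generalizing k acc with
  | zero => exact ⟨rfl, le_refl _⟩
  | succ b ih =>
    have a3 := ih (k + 1) (w k :: acc)
    rw [loopE]
    have e1 : eval inp w (.mk 1 .flip .id) ⟨enc acc, m, k, out⟩
        = (⟨enc (w k :: acc), m, k + 1, out⟩, 3) := by
      simp [eval, enc_bool]
    simp only [e1]
    refine ⟨?_, ?_⟩
    · rw [a3.1, List.range'_succ]; simp; omega
    · have := a3.2
      omega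

/-- writing the output -/
theorem eval_write (inp : ℕ → ℝ) (w : ℕ → Bool) (m : ℕ → Val) (k : ℕ) (out : List (ℕ ⊕ ℝ))
    (l : List (ℕ ⊕ ℝ)) :
    (foldE (eval inp w (.ite .fst (.seq .fst (.seq .fst .outr)) (.seq .fst (.seq .fst .outn))))
      (enc l) ⟨.leaf, m, k, out⟩).1 = ⟨.leaf, m, k, out ++ l⟩ ∧
    (foldE (eval inp w (.ite .fst (.seq .fst (.seq .fst .outr)) (.seq .fst (.seq .fst .outn))))
      (enc l) ⟨.leaf, m, k, out⟩).2 ≤ 9 * l.length + 1 := by
  induction l generalizing out with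
  | nil => exact ⟨by simp [foldE], le_refl _⟩
  | cons x t ih =>
    have a3 := ih (out ++ [x])
    rw [enc_cons, foldE]
    have e1 : eval inp w (.ite .fst (.seq .fst (.seq .fst .outr))
        (.seq .fst (.seq .fst .outn))) ⟨.node 0 0 (enc x) .leaf, m, k, out⟩
        = (⟨.leaf, m, k, out ++ [x]⟩, 7) := by
      cases x <;> simp [eval]
    simp only [one_ne_zero, if_false, e1]
    refine ⟨?_, ?_⟩
    · rw [a3.1]; simp
    · have := a3.2
      simp only [List.length_cons]
      omega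

/-- A pure function with `RC` cost gives a randomized real RAM algorithm. -/
theorem ram_alg (f : ℕ × List ℝ × List Bool → List (ℕ ⊕ ℝ)) (c : ℕ × List ℝ × List Bool → ℕ)
    (hf : RC f c) (ℓ b : ℕ → ℕ) (cℓ cb : ℕ → ℕ) (hℓ : RC ℓ cℓ) (hb : RC b cb) :
    ∃ (Q : List Instr) (C : ℕ), ∀ (inp : ℕ → ℝ) (w : ℕ → Bool) (n : ℕ), ∃ t : ℕ,
      t ≤ C * (c (n, (List.range (ℓ n)).map inp, (List.range (b n)).map w) + ℓ n + b n + cℓ n +
        cb n + (f (n, (List.range (ℓ n)).map inp, (List.range (b n)).map w)).length + 1) ∧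
      Halted Q (run Q inp w t (Cfg.init n)) ∧
      (run Q inp w t (Cfg.init n)).out =
        f (n, (List.range (ℓ n)).map inp, (List.range (b n)).map w) ∧
      (run Q inp w t (Cfg.init n)).k = b n := by
  -- the three pure parts
  obtain ⟨P1, C1, h1⟩ := RC.reverse (RC.range hℓ)
  obtain ⟨P2, C2, h2⟩ := hb
  have hf' : RC (fun a : ℕ × List ℝ × List Bool => f (a.1, a.2.1, a.2.2.reverse))
      (fun a => a.2.2.length + c (a.1, a.2.1, a.2.2.reverse)) :=
    (RC.comp hf (RC.pair (RC.fst RC.id) (RC.pair (RC.fst (RC.snd RC.id))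
      (RC.reverse (RC.snd (RC.snd RC.id)))))).of_le (fun a => by simp)
  obtain ⟨P3, C3, h3⟩ := hf'
  set P : Prog := .seq (.mk 0 .id (.seq (.mk 0 P1 .nil) (.fold (.mk 1 (.seq .fst .inp) .snd))))
    (.seq (.mk 0 .fst (.mk 0 .snd (.seq (.mk 0 (.seq .fst P2) .nil)
      (.loop (.mk 1 .flip .id)))))
    (.seq P3 (.seq (.mk 0 .id .nil) (.fold
      (.ite .fst (.seq .fst (.seq .fst .outr)) (.seq .fst (.seq .fst .outn)))))))
    with hP
  obtain ⟨Q, C, hQ⟩ := ram_main P
  refine ⟨Q, C * (2 * C1 + C2 + C3 + 60), fun inp w n => ?_⟩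
  obtain ⟨t, t1, t2, t3, t4⟩ := hQ inp w n
  set R := (List.range (ℓ n)).map inp with hR
  set B := (List.range (b n)).map w with hB
  have ev : (eval inp w P ⟨.nat n, fun _ => .leaf, 0, []⟩).1 =
      ⟨.leaf, fun _ => .leaf, b n, f (n, R, B)⟩ ∧
      (eval inp w P ⟨.nat n, fun _ => .leaf, 0, []⟩).2 ≤
        (2 * C1 + C2 + C3 + 60) * (c (n, R, B) + ℓ n + b n + cℓ n + cb n +
          (f (n, R, B)).length + 1) - 1 := by
    have a1 := h1 inp w n (fun _ => .leaf) 0 []
    have a2 := eval_readR inp w (fun _ => .leaf) 0 [] (List.range (ℓ n)).reverse []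
    have a3 := h2 inp w n (fun _ => .leaf) 0 []
    have a4 := eval_bits inp w (fun _ => .leaf) [] (b n) 0 []
    have a5 := h3 inp w (n, R, B.reverse) (fun _ => .leaf) (b n) []
    have a6 := eval_write inp w (fun _ => .leaf) (b n) [] (f (n, R, B))
    rw [enc_nat] at a1 a3
    simp only [List.map_reverse, List.reverse_reverse, List.append_nil, ← hR] at a2
    have hB' : (List.range' 0 (b n)).map w = B := by rw [hB, List.range_eq_range']
    simp only [List.append_nil, hB', zero_add] at a4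
    simp only [enc_prod, enc_nat, List.reverse_reverse] at a5
    simp only [hP, eval, enc_nil] at a1 a2 a3 a4 a6 ⊢
    rw [a1.1]
    simp only [Val.fst_node, Val.snd_node]
    rw [a2.1]
    rw [a3.1]
    simp only [nn_enc_nat]
    rw [a4.1]
    rw [a5.1]
    rw [a6.1]
    refine ⟨by simp, ?_⟩
    have b1 := a1.2
    have b2 := a2.2
    have b3 := a3.2
    have b4 := a4.2
    have b5 := a5.2
    have b6 := a6.2
    have hBl : B.length = b n := by simp [hB]
    simp only [List.length_reverse, List.length_range, hBl] at b1 b2 b5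
    refine Nat.le_sub_one_of_lt (Nat.lt_of_succ_le ?_)
    set L := (f (n, R, B)).length
    set c0 := c (n, R, B)
    generalize (eval inp w P1 { v := Val.nat n, m := fun x => Val.leaf, k := 0, out := [] }).2 =
      e1 at b1 ⊢
    generalize (eval inp w P2 { v := Val.nat n, m := fun x => Val.leaf, k := 0, out := [] }).2 =
      e2 at b3 ⊢
    generalize (eval inp w P3 _).2 = e3 at b5 ⊢
    generalize (foldE _ (enc (List.range (ℓ n)).reverse) _).2 = e4 at b2 ⊢
    generalize (loopE _ _ _).2 = e5 at b4 ⊢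
    generalize (foldE _ _ _).2 = e6 at b6 ⊢
    rw [Nat.succ_eq_add_one]
    nlinarith [Nat.zero_le (C1 * c0), Nat.zero_le (C1 * b n), Nat.zero_le (C1 * cb n),
      Nat.zero_le (C1 * L), Nat.zero_le (C2 * c0), Nat.zero_le (C2 * b n),
      Nat.zero_le (C2 * cℓ n), Nat.zero_le (C2 * ℓ n), Nat.zero_le (C2 * L),
      Nat.zero_le (C3 * ℓ n), Nat.zero_le (C3 * cℓ n), Nat.zero_le (C3 * cb n),
      Nat.zero_le (C3 * L)]
  refine ⟨t, ?_, t2, ?_, ?_⟩
  · refine t1.trans ?_
    rw [mul_assoc]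
    refine Nat.mul_le_mul_left _ ?_
    have := ev.2
    have hpos : 1 ≤ (2 * C1 + C2 + C3 + 60) * (c (n, R, B) + ℓ n + b n + cℓ n + cb n +
          (f (n, R, B)).length + 1) := Nat.mul_pos (by omega) (by omega)
    omega
  · rw [t3, ev.1]
  · rw [t4, ev.1]

end P7m
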