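/-
P7m.Top2: two phase randomized algorithms on the real RAM from pure functions: the first phase
is deterministic and computes data and the number of random bits wanted, the second phase gets
the random bits.
-/
import Pool.Agent.Lib.P7m.Top

namespace P7m

/-- Two phase version of `ram_alg`.  Input: `n` in register 0 and `ℓ n` real numbers on the
input tape.  The machine halts after at most `C * (...)` steps, has read exactly the random bits
`w 0, ..., w (m - 1)` with `m = (g1 (n, reals)).2`, and its output is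
`g2 ((g1 (n, reals)).1, bits)`. -/
theorem ram_alg2 {D : Type} [Enc D] (g1 : ℕ × List ℝ → D × ℕ)
    (g2 : D × List Bool → List (ℕ ⊕ ℝ)) (c1 : ℕ × List ℝ → ℕ) (c2 : D × List Bool → ℕ)
    (h1 : RC g1 c1) (h2 : RC g2 c2) (ℓ : ℕ → ℕ) (cℓ : ℕ → ℕ) (hℓ : RC ℓ cℓ) :
    ∃ (Q : List Instr) (C : ℕ), ∀ (inp : ℕ → ℝ) (w : ℕ → Bool) (n : ℕ) (R : List ℝ) (d : D)
      (m : ℕ) (B : List Bool), R = (List.range (ℓ n)).map inp → g1 (n, R) = (d, m) →
      B = (List.range m).map w → ∃ t : ℕ,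
      t ≤ C * (c1 (n, R) + c2 (d, B) + ℓ n + cℓ n + m + (g2 (d, B)).length + 1) ∧
      Halted Q (run Q inp w t (Cfg.init n)) ∧
      (run Q inp w t (Cfg.init n)).out = g2 (d, B) ∧
      (run Q inp w t (Cfg.init n)).k = m := by
  obtain ⟨P0, C0, h0⟩ := RC.reverse (RC.range hℓ)
  obtain ⟨P1, C1, h1⟩ := h1
  have hf' : RC (fun a : D × List Bool => g2 (a.1, a.2.reverse))
      (fun a => a.2.length + c2 (a.1, a.2.reverse)) :=
    (RC.comp h2 (RC.pair (RC.fst RC.id) (RC.reverse (RC.snd RC.id)))).of_le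
      (fun a => by simp)
  obtain ⟨P2, C2, h2⟩ := hf'
  set P : Prog := .seq (.mk 0 .id (.seq (.mk 0 P0 .nil) (.fold (.mk 1 (.seq .fst .inp) .snd))))
    (.seq P1 (.seq (.mk 0 .fst (.seq (.mk 0 .snd .nil) (.loop (.mk 1 .flip .id))))
    (.seq P2 (.seq (.mk 0 .id .nil) (.fold
      (.ite .fst (.seq .fst (.seq .fst .outr)) (.seq .fst (.seq .fst .outn))))))))
    with hP
  obtain ⟨Q, C, hQ⟩ := ram_main P
  refine ⟨Q, C * (2 * C0 + C1 + C2 + 60), fun inp w n R d m B hR hd hB => ?_⟩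
  obtain ⟨t, t1, t2, t3, t4⟩ := hQ inp w n
  have ev : (eval inp w P ⟨.nat n, fun _ => .leaf, 0, []⟩).1 =
      ⟨.leaf, fun _ => .leaf, m, g2 (d, B)⟩ ∧
      (eval inp w P ⟨.nat n, fun _ => .leaf, 0, []⟩).2 ≤
        (2 * C0 + C1 + C2 + 60) * (c1 (n, R) + c2 (d, B) + ℓ n + cℓ n + m +
          (g2 (d, B)).length + 1) - 1 := by
    have a1 := h0 inp w n (fun _ => .leaf) 0 []
    have a2 := eval_readR inp w (fun _ => .leaf) 0 [] (List.range (ℓ n)).reverse []
    have a3 := h1 inp w (n, R) (fun _ => .leaf) 0 []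
    have a4 := eval_bits inp w (fun _ => .leaf) [] m 0 []
    have a5 := h2 inp w (d, B.reverse) (fun _ => .leaf) m []
    have a6 := eval_write inp w (fun _ => .leaf) m [] (g2 (d, B))
    rw [enc_nat] at a1
    rw [hd, enc_prod, enc_prod, enc_nat, enc_nat] at a3
    simp only [List.map_reverse, List.reverse_reverse, List.append_nil, ← hR] at a2
    have hB' : (List.range' 0 m).map w = B := by rw [hB, List.range_eq_range']
    simp only [List.append_nil, hB', zero_add] at a4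
    simp only [enc_prod, List.reverse_reverse] at a5
    simp only [hP, eval, enc_nil] at a1 a2 a3 a4 a6 ⊢
    rw [a1.1]
    simp only [Val.fst_node, Val.snd_node]
    rw [a2.1]
    rw [a3.1]
    simp only [Val.fst_node, Val.snd_node, Val.nn_nat]
    rw [a4.1]
    rw [a5.1]
    rw [a6.1]
    refine ⟨by simp, ?_⟩
    have b1 := a1.2
    have b2 := a2.2
    have b3 := a3.2
    have b4 := a4.2
    have b5 := a5.2
    have b6 := a6.2
    have hBl : B.length = m := by simp [hB]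
    simp only [List.length_reverse, List.length_range, hBl] at b1 b2 b5
    refine Nat.le_sub_one_of_lt (Nat.lt_of_succ_le ?_)
    set L := (g2 (d, B)).length
    set x1 := c1 (n, R)
    set x2 := c2 (d, B)
    generalize (eval inp w P0 _).2 = e1 at b1 ⊢
    generalize (eval inp w P1 _).2 = e2 at b3 ⊢
    generalize (eval inp w P2 _).2 = e3 at b5 ⊢
    generalize (foldE _ (enc (List.range (ℓ n)).reverse) _).2 = e4 at b2 ⊢
    generalize (loopE _ _ _).2 = e5 at b4 ⊢
    generalize (foldE _ _ _).2 = e6 at b6 ⊢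
    rw [Nat.succ_eq_add_one]
    nlinarith [Nat.zero_le (C0 * x1), Nat.zero_le (C0 * x2), Nat.zero_le (C0 * m),
      Nat.zero_le (C0 * cℓ n), Nat.zero_le (C0 * L),
      Nat.zero_le (C1 * x2), Nat.zero_le (C1 * ℓ n),
      Nat.zero_le (C1 * cℓ n), Nat.zero_le (C1 * m), Nat.zero_le (C1 * L),
      Nat.zero_le (C2 * ℓ n), Nat.zero_le (C2 * cℓ n), Nat.zero_le (C2 * x1),
      Nat.zero_le (C2 * L)]
  refine ⟨t, ?_, t2, ?_, ?_⟩
  · refine t1.trans ?_
    rw [mul_assoc]
    refine Nat.mul_le_mul_left _ ?_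
    have := ev.2
    have hpos : 1 ≤ (2 * C0 + C1 + C2 + 60) * (c1 (n, R) + c2 (d, B) + ℓ n + cℓ n + m +
          (g2 (d, B)).length + 1) := Nat.mul_pos (by omega) (by omega)
    omega
  · rw [t3, ev.1]
  · rw [t4, ev.1]

/-- The case of `4 n + 2` real numbers on the input tape (`n` segments and a point). -/
theorem ram_top {D : Type} [Enc D] (g1 : ℕ × List ℝ → D × ℕ)
    (g2 : D × List Bool → List (ℕ ⊕ ℝ)) (c1 : ℕ × List ℝ → ℕ) (c2 : D × List Bool → ℕ)
    (h1 : RC g1 c1) (h2 : RC g2 c2) :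
    ∃ (Q : List Instr) (C : ℕ), ∀ (inp : ℕ → ℝ) (w : ℕ → Bool) (n : ℕ) (R : List ℝ) (d : D)
      (m : ℕ) (B : List Bool), R = (List.range (4 * n + 2)).map inp → g1 (n, R) = (d, m) →
      B = (List.range m).map w → ∃ t : ℕ,
      t ≤ C * (n + c1 (n, R) + c2 (d, B) + m + (g2 (d, B)).length + 1) ∧
      Halted Q (run Q inp w t (Cfg.init n)) ∧
      (run Q inp w t (Cfg.init n)).out = g2 (d, B) ∧
      (run Q inp w t (Cfg.init n)).k = m := by
  have hℓ : RC (fun n : ℕ => 4 * n + 2) (fun _ => 0) :=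
    (RC.nadd (RC.nmulConst 4 RC.id) (RC.const_nat 2)).of_le (fun _ => le_refl _)
  obtain ⟨Q, C, hQ⟩ := ram_alg2 g1 g2 c1 c2 h1 h2 _ _ hℓ
  refine ⟨Q, 4 * C, fun inp w n R d m B hR hd hB => ?_⟩
  obtain ⟨t, t1, t2, t3, t4⟩ := hQ inp w n R d m B hR hd hB
  refine ⟨t, t1.trans ?_, t2, t3, t4⟩
  nlinarith [Nat.zero_le (C * c1 (n, R)), Nat.zero_le (C * c2 (d, B)), Nat.zero_le (C * m),
    Nat.zero_le (C * (g2 (d, B)).length), Nat.zero_le C]

end P7m
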