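/-
P7m.Top3: randomized algorithms on the real RAM which work in rounds, every round gets fresh
random bits, their number depends on the state.
-/
import Pool.Agent.Lib.P7m.Top

namespace P7m

section
variable {D : Type}

/-- Round based algorithms: the state after `i` rounds and the number of random bits used. In a
round with state `d` the algorithm gets `nb d` new random bits. -/
def rnd (nb : D → ℕ) (g : D × List Bool → D) (w : ℕ → Bool) (d : D) : ℕ → D × ℕ
  | 0 => (d, 0)
  | i + 1 =>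
    (g ((rnd nb g w d i).1, (List.range (nb (rnd nb g w d i).1)).map
      (fun j => w ((rnd nb g w d i).2 + j))), (rnd nb g w d i).2 + nb (rnd nb g w d i).1)

/-- cost of the first `i` rounds -/
def rndCost (nb : D → ℕ) (g : D × List Bool → D) (cb : D → ℕ) (c : D × List Bool → ℕ)
    (w : ℕ → Bool) (d : D) : ℕ → ℕ
  | 0 => 0
  | i + 1 => rndCost nb g cb c w d i + (nb (rnd nb g w d i).1 + cb (rnd nb g w d i).1 +
      c ((rnd nb g w d i).1, (List.range (nb (rnd nb g w d i).1)).map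
        (fun j => w ((rnd nb g w d i).2 + j))) + 1)

/-- the same started later: state `d`, `k` bits used before -/
def rndFrom (nb : D → ℕ) (g : D × List Bool → D) (w : ℕ → Bool) : ℕ → D → ℕ → D × ℕ
  | 0, d, k => (d, k)
  | i + 1, d, k => rndFrom nb g w i (g (d, (List.range (nb d)).map (fun j => w (k + j))))
      (k + nb d)

def rndFromCost (nb : D → ℕ) (g : D × List Bool → D) (cb : D → ℕ) (c : D × List Bool → ℕ)
    (w : ℕ → Bool) : ℕ → D → ℕ → ℕ
  | 0, _, _ => 0
  | i + 1, d, k => (nb d + cb d + c (d, (List.range (nb d)).map (fun j => w (k + j))) + 1) +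
      rndFromCost nb g cb c w i (g (d, (List.range (nb d)).map (fun j => w (k + j)))) (k + nb d)

theorem rndFrom_succ (nb : D → ℕ) (g : D × List Bool → D) (w : ℕ → Bool) (i : ℕ) (d : D)
    (k : ℕ) : rndFrom nb g w (i + 1) d k =
      (g ((rndFrom nb g w i d k).1, (List.range (nb (rndFrom nb g w i d k).1)).map
        (fun j => w ((rndFrom nb g w i d k).2 + j))),
        (rndFrom nb g w i d k).2 + nb (rndFrom nb g w i d k).1) := by
  induction i generalizing d k with
  | zero => rfl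
  | succ i ih => rw [rndFrom, ih]; rfl

theorem rndFromCost_succ (nb : D → ℕ) (g : D × List Bool → D) (cb : D → ℕ)
    (c : D × List Bool → ℕ) (w : ℕ → Bool) (i : ℕ) (d : D) (k : ℕ) :
    rndFromCost nb g cb c w (i + 1) d k = rndFromCost nb g cb c w i d k +
      (nb (rndFrom nb g w i d k).1 + cb (rndFrom nb g w i d k).1 +
      c ((rndFrom nb g w i d k).1, (List.range (nb (rndFrom nb g w i d k).1)).map
        (fun j => w ((rndFrom nb g w i d k).2 + j))) + 1) := by
  induction i generalizing d k with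
  | zero => simp [rndFromCost, rndFrom]
  | succ i ih => rw [rndFromCost, ih, rndFromCost]; simp only [rndFrom]; omega

theorem rnd_eq (nb : D → ℕ) (g : D × List Bool → D) (w : ℕ → Bool) (d : D) (i : ℕ) :
    rndFrom nb g w i d 0 = rnd nb g w d i := by
  induction i with
  | zero => rfl
  | succ i ih => rw [rndFrom_succ, ih]; rfl

theorem rndCost_eq (nb : D → ℕ) (g : D × List Bool → D) (cb : D → ℕ) (c : D × List Bool → ℕ)
    (w : ℕ → Bool) (d : D) (i : ℕ) :
    rndFromCost nb g cb c w i d 0 = rndCost nb g cb c w d i := by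
  induction i with
  | zero => rfl
  | succ i ih => rw [rndFromCost_succ, ih, rnd_eq]; rfl

/-- the rounds in the working language -/
theorem eval_rounds [Enc D] {nb : D → ℕ} {g : D × List Bool → D} {cb : D → ℕ}
    {c : D × List Bool → ℕ} {P1 P2 : Prog} {C1 C2 : ℕ}
    (h1 : ∀ (inp : ℕ → ℝ) (w : ℕ → Bool) (a : D) (m : ℕ → Val) (k : ℕ)
      (out : List (ℕ ⊕ ℝ)), (eval inp w P1 ⟨enc a, m, k, out⟩).1 = ⟨enc (nb a), m, k, out⟩ ∧
      (eval inp w P1 ⟨enc a, m, k, out⟩).2 ≤ C1 * (cb a + 1))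
    (h2 : ∀ (inp : ℕ → ℝ) (w : ℕ → Bool) (a : D × List Bool) (m : ℕ → Val) (k : ℕ)
      (out : List (ℕ ⊕ ℝ)), (eval inp w P2 ⟨enc a, m, k, out⟩).1 =
        ⟨enc (g (a.1, a.2.reverse)), m, k, out⟩ ∧
      (eval inp w P2 ⟨enc a, m, k, out⟩).2 ≤ C2 * (a.2.length + c (a.1, a.2.reverse) + 1))
    (inp : ℕ → ℝ) (w : ℕ → Bool) (m : ℕ → Val) (out : List (ℕ ⊕ ℝ)) (i : ℕ) (d : D) (k : ℕ) :
    (loopE (eval inp w (.seq (.mk 0 .id (.seq (.mk 0 P1 .nil) (.loop (.mk 1 .flip .id)))) P2))
      i ⟨enc d, m, k, out⟩).1 = ⟨enc (rndFrom nb g w i d k).1, m, (rndFrom nb g w i d k).2, out⟩ ∧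
    (loopE (eval inp w (.seq (.mk 0 .id (.seq (.mk 0 P1 .nil) (.loop (.mk 1 .flip .id)))) P2))
      i ⟨enc d, m, k, out⟩).2 ≤ (C1 + C2 + 12) * rndFromCost nb g cb c w i d k + 1 := by
  induction i generalizing d k with
  | zero => exact ⟨rfl, by simp [loopE]⟩
  | succ i ih =>
    rw [loopE]
    set bits := (List.range (nb d)).map (fun j => w (k + j)) with hbits
    have hbits' : (List.range' k (nb d)).map w = bits := by
      rw [hbits, List.range'_eq_map_range, List.map_map]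
      rfl
    have a3 := h1 inp w d m k out
    have a4 := eval_bits inp w m out (nb d) k []
    have a5 := h2 inp w (d, bits.reverse) m (k + nb d) out
    simp only [List.append_nil, hbits'] at a4
    simp only [enc_prod, List.reverse_reverse] at a5
    have hbl : bits.length = nb d := by simp [hbits]
    simp only [List.length_reverse, hbl] at a5
    have e1 : (eval inp w (.seq (.mk 0 .id (.seq (.mk 0 P1 .nil) (.loop (.mk 1 .flip .id)))) P2)
        ⟨enc d, m, k, out⟩).1 = ⟨enc (g (d, bits)), m, k + nb d, out⟩ ∧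
        (eval inp w (.seq (.mk 0 .id (.seq (.mk 0 P1 .nil) (.loop (.mk 1 .flip .id)))) P2)
        ⟨enc d, m, k, out⟩).2 ≤ (C1 + C2 + 12) * (nb d + cb d + c (d, bits) + 1) - 1 := by
      simp only [eval, enc_nil] at a3 a4 a5 ⊢
      rw [a3.1]
      simp only [Val.fst_node, Val.snd_node, nn_enc_nat]
      rw [a4.1]
      rw [a5.1]
      refine ⟨rfl, ?_⟩
      have b3 := a3.2
      have b4 := a4.2
      have b5 := a5.2
      refine Nat.le_sub_one_of_lt (Nat.lt_of_succ_le ?_)
      set x1 := cb d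
      set x2 := c (d, bits)
      generalize (eval inp w P1 _).2 = e1 at b3 ⊢
      generalize (eval inp w P2 _).2 = e3 at b5 ⊢
      generalize (loopE _ _ _).2 = e5 at b4 ⊢
      rw [Nat.succ_eq_add_one]
      nlinarith [Nat.zero_le (C1 * x2), Nat.zero_le (C1 * nb d), Nat.zero_le (C2 * x1),
        Nat.zero_le (C2 * x2), Nat.zero_le (C2 * nb d)]
    have a6 := ih (g (d, bits)) (k + nb d)
    have e2 := e1.2
    rw [e1.1]
    refine ⟨?_, ?_⟩
    · rw [a6.1, rndFrom]
    · have b6 := a6.2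
      rw [rndFromCost, ← hbits, Nat.mul_add]
      have hpos : 1 ≤ (C1 + C2 + 12) * (nb d + cb d + c (d, bits) + 1) :=
        Nat.mul_pos (by omega) (by omega)
      omega

end

/-- Round based randomized algorithms.  The machine first computes `g0 (n, reals) = (I, d)`,
then makes `I` rounds, and then writes the output `gf` of the last state. -/
theorem ram_rounds {D : Type} [Enc D] (g0 : ℕ × List ℝ → ℕ × D) (nb : D → ℕ)
    (g : D × List Bool → D) (gf : D → List (ℕ ⊕ ℝ)) (c0 : ℕ × List ℝ → ℕ) (cb : D → ℕ)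
    (c : D × List Bool → ℕ) (cf : D → ℕ) (h0 : RC g0 c0) (hb : RC nb cb) (hg : RC g c)
    (hf : RC gf cf) (ℓ : ℕ → ℕ) (cℓ : ℕ → ℕ) (hℓ : RC ℓ cℓ) :
    ∃ (Q : List Instr) (C : ℕ), ∀ (inp : ℕ → ℝ) (w : ℕ → Bool) (n : ℕ) (R : List ℝ) (I : ℕ)
      (d : D), R = (List.range (ℓ n)).map inp → g0 (n, R) = (I, d) → ∃ t : ℕ,
      t ≤ C * (c0 (n, R) + rndCost nb g cb c w d I + cf (rnd nb g w d I).1 + ℓ n + cℓ n +
        (gf (rnd nb g w d I).1).length + 1) ∧
      Halted Q (run Q inp w t (Cfg.init n)) ∧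
      (run Q inp w t (Cfg.init n)).out = gf (rnd nb g w d I).1 ∧
      (run Q inp w t (Cfg.init n)).k = (rnd nb g w d I).2 := by
  obtain ⟨P0, C0, h0'⟩ := RC.reverse (RC.range hℓ)
  obtain ⟨P1, C1, h1⟩ := h0
  obtain ⟨Pb, Cb, hb⟩ := hb
  have hf' : RC (fun a : D × List Bool => g (a.1, a.2.reverse))
      (fun a => a.2.length + c (a.1, a.2.reverse)) :=
    (RC.comp hg (RC.pair (RC.fst RC.id) (RC.reverse (RC.snd RC.id)))).of_le
      (fun a => by simp)
  obtain ⟨Pg, Cg, hg'⟩ := hf'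
  obtain ⟨Pf, Cf, hf⟩ := hf
  obtain ⟨PB, hPB⟩ : ∃ PB : Prog, PB =
    .seq (.mk 0 .id (.seq (.mk 0 Pb .nil) (.loop (.mk 1 .flip .id)))) Pg := ⟨_, rfl⟩
  set P : Prog := .seq (.mk 0 .id (.seq (.mk 0 P0 .nil) (.fold (.mk 1 (.seq .fst .inp) .snd))))
    (.seq P1 (.seq (.loop PB)
    (.seq Pf (.seq (.mk 0 .id .nil) (.fold
      (.ite .fst (.seq .fst (.seq .fst .outr)) (.seq .fst (.seq .fst .outn))))))))
    with hP
  obtain ⟨Q, C, hQ⟩ := ram_main P
  refine ⟨Q, C * (2 * C0 + C1 + Cb + Cg + Cf + 60), fun inp w n R I d hR hd => ?_⟩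
  obtain ⟨t, t1, t2, t3, t4⟩ := hQ inp w n
  have ev : (eval inp w P ⟨.nat n, fun _ => .leaf, 0, []⟩).1 =
      ⟨.leaf, fun _ => .leaf, (rnd nb g w d I).2, gf (rnd nb g w d I).1⟩ ∧
      (eval inp w P ⟨.nat n, fun _ => .leaf, 0, []⟩).2 ≤
        (2 * C0 + C1 + Cb + Cg + Cf + 60) * (c0 (n, R) + rndCost nb g cb c w d I +
          cf (rnd nb g w d I).1 + ℓ n + cℓ n + (gf (rnd nb g w d I).1).length + 1) - 1 := by
    have a1 := h0' inp w n (fun _ => .leaf) 0 []
    have a2 := eval_readR inp w (fun _ => .leaf) 0 [] (List.range (ℓ n)).reverse []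
    have a3 := h1 inp w (n, R) (fun _ => .leaf) 0 []
    have a4 := eval_rounds hb hg' inp w (fun _ => .leaf) [] I d 0
    rw [rnd_eq, rndCost_eq, ← hPB] at a4
    have a5 := hf inp w (rnd nb g w d I).1 (fun _ => .leaf) (rnd nb g w d I).2 []
    have a6 := eval_write inp w (fun _ => .leaf) (rnd nb g w d I).2 [] (gf (rnd nb g w d I).1)
    rw [enc_nat] at a1
    rw [hd, enc_prod, enc_prod, enc_nat, enc_nat] at a3
    simp only [List.map_reverse, List.reverse_reverse, List.append_nil, ← hR] at a2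
    simp only [hP, eval, enc_nil] at a1 a2 a3 a4 a6 ⊢
    rw [a1.1]
    simp only [Val.fst_node, Val.snd_node]
    rw [a2.1]
    rw [a3.1]
    simp only [Val.fst_node, Val.snd_node, Val.nn_nat]
    rw [a4.1]
    rw [a5.1]
    rw [a6.1]
    refine ⟨by simp, ?_⟩
    have b1 := a1.2
    have b2 := a2.2
    have b3 := a3.2
    have b4 := a4.2
    have b5 := a5.2
    have b6 := a6.2
    simp only [List.length_reverse, List.length_range] at b1 b2
    refine Nat.le_sub_one_of_lt (Nat.lt_of_succ_le ?_)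
    set L := (gf (rnd nb g w d I).1).length
    set x0 := c0 (n, R)
    set x1 := rndCost nb g cb c w d I
    set x2 := cf (rnd nb g w d I).1
    generalize (eval inp w P0 _).2 = e1 at b1 ⊢
    generalize (eval inp w P1 _).2 = e2 at b3 ⊢
    generalize (eval inp w Pf _).2 = e3 at b5 ⊢
    generalize (foldE _ (enc (List.range (ℓ n)).reverse) _).2 = e4 at b2 ⊢
    generalize (loopE _ _ _).2 = e5 at b4 ⊢
    generalize (foldE _ _ _).2 = e6 at b6 ⊢
    rw [Nat.succ_eq_add_one]
    nlinarith [Nat.zero_le (C0 * x0), Nat.zero_le (C0 * x1), Nat.zero_le (C0 * x2),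
      Nat.zero_le (C0 * cℓ n), Nat.zero_le (C0 * L), Nat.zero_le (C0 * ℓ n),
      Nat.zero_le (C1 * x1), Nat.zero_le (C1 * x2), Nat.zero_le (C1 * ℓ n),
      Nat.zero_le (C1 * cℓ n), Nat.zero_le (C1 * L), Nat.zero_le (C1 * x0),
      Nat.zero_le (Cb * x0), Nat.zero_le (Cb * x2), Nat.zero_le (Cb * ℓ n),
      Nat.zero_le (Cb * cℓ n), Nat.zero_le (Cb * L), Nat.zero_le (Cb * x1),
      Nat.zero_le (Cg * x0), Nat.zero_le (Cg * x2), Nat.zero_le (Cg * ℓ n),
      Nat.zero_le (Cg * cℓ n), Nat.zero_le (Cg * L), Nat.zero_le (Cg * x1),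
      Nat.zero_le (Cf * x0), Nat.zero_le (Cf * x1), Nat.zero_le (Cf * ℓ n),
      Nat.zero_le (Cf * cℓ n), Nat.zero_le (Cf * L), Nat.zero_le (Cf * x2)]
  refine ⟨t, ?_, t2, ?_, ?_⟩
  · refine t1.trans ?_
    rw [mul_assoc]
    refine Nat.mul_le_mul_left _ ?_
    have := ev.2
    have hpos : 1 ≤ (2 * C0 + C1 + Cb + Cg + Cf + 60) * (c0 (n, R) + rndCost nb g cb c w d I +
          cf (rnd nb g w d I).1 + ℓ n + cℓ n + (gf (rnd nb g w d I).1).length + 1) :=
      Nat.mul_pos (by omega) (by omega)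
    omega
  · rw [t3, ev.1]
  · rw [t4, ev.1]

section phases
variable {X O : Type}

/-- number of random bits used by the first `i` phases -/
def phOff (nb : ℕ × X → ℕ) (x : X) (i : ℕ) : ℕ := ∑ j ∈ Finset.range i, nb (j, x)

/-- the random bits of phase `i` -/
def phBits (nb : ℕ × X → ℕ) (w : ℕ → Bool) (x : X) (i : ℕ) : List Bool :=
  (List.range (nb (i, x))).map (fun j => w (phOff nb x i + j))

/-- number of bits wanted, state = ((phase, input), result) -/
def phNb (nb : ℕ × X → ℕ) (d : (ℕ × X) × Option O) : ℕ := d.2.elim (nb d.1) (fun _ => 0)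

/-- one phase -/
def phG (ph : (ℕ × X) × List Bool → Option O) (a : ((ℕ × X) × Option O) × List Bool) :
    (ℕ × X) × Option O :=
  a.1.2.elim ((a.1.1.1 + 1, a.1.1.2), ph (a.1.1, a.2)) (fun o => (a.1.1, some o))

theorem rnd_phases (nb : ℕ × X → ℕ) (ph : (ℕ × X) × List Bool → Option O) (w : ℕ → Bool)
    (x : X) (i : ℕ) (h : ∀ j < i, ph ((j, x), phBits nb w x j) = none) :
    rnd (phNb nb) (phG ph) w ((0, x), none) i = (((i, x), none), phOff nb x i) := by
  induction i with
  | zero => simp [rnd, phOff]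
  | succ i ih =>
    have h1 := ih (fun j hj => h j (Nat.lt_succ_of_lt hj))
    have h2 := h i (Nat.lt_succ_self i)
    rw [rnd, h1]
    simp only [phNb, phG, Option.elim_none]
    rw [phBits] at h2
    rw [h2, phOff, phOff, Finset.sum_range_succ]

theorem rnd_phases_done (nb : ℕ × X → ℕ) (ph : (ℕ × X) × List Bool → Option O) (w : ℕ → Bool)
    (x : X) (s : ℕ) (o : O) (h : ∀ j < s, ph ((j, x), phBits nb w x j) = none)
    (hs : ph ((s, x), phBits nb w x s) = some o) (r : ℕ) :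
    rnd (phNb nb) (phG ph) w ((0, x), none) (s + 1 + r) =
      (((s + 1, x), some o), phOff nb x (s + 1)) := by
  induction r with
  | zero =>
    rw [Nat.add_zero, rnd, rnd_phases nb ph w x s h]
    simp only [phNb, phG, Option.elim_none]
    rw [phBits] at hs
    rw [hs, phOff, phOff, Finset.sum_range_succ]
  | succ r ih =>
    rw [← Nat.add_assoc, rnd, ih]
    simp [phNb, phG]

theorem rndCost_phases (nb : ℕ × X → ℕ) (ph : (ℕ × X) × List Bool → Option O) (w : ℕ → Bool)
    (x : X) (cb : ℕ × X → ℕ) (c : (ℕ × X) × List Bool → ℕ) (i : ℕ)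
    (h : ∀ j < i, ph ((j, x), phBits nb w x j) = none) :
    rndCost (phNb nb) (phG ph) (fun d => d.2.elim (cb d.1) (fun _ => 0))
      (fun a => a.1.2.elim (c (a.1.1, a.2)) (fun _ => 0)) w ((0, x), none) i =
      ∑ j ∈ Finset.range i, (nb (j, x) + cb (j, x) + c ((j, x), phBits nb w x j) + 1) := by
  induction i with
  | zero => simp [rndCost]
  | succ i ih =>
    have h0 := fun j (hj : j < i) => h j (Nat.lt_succ_of_lt hj)
    rw [rndCost, ih h0, rnd_phases nb ph w x i h0, Finset.sum_range_succ]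
    simp only [phNb, Option.elim_none, phBits]

theorem rndCost_phases_done (nb : ℕ × X → ℕ) (ph : (ℕ × X) × List Bool → Option O)
    (w : ℕ → Bool) (x : X) (cb : ℕ × X → ℕ) (c : (ℕ × X) × List Bool → ℕ) (s : ℕ) (o : O)
    (h : ∀ j < s, ph ((j, x), phBits nb w x j) = none)
    (hs : ph ((s, x), phBits nb w x s) = some o) (r : ℕ) :
    rndCost (phNb nb) (phG ph) (fun d => d.2.elim (cb d.1) (fun _ => 0))
      (fun a => a.1.2.elim (c (a.1.1, a.2)) (fun _ => 0)) w ((0, x), none) (s + 1 + r) =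
      ∑ j ∈ Finset.range (s + 1), (nb (j, x) + cb (j, x) + c ((j, x), phBits nb w x j) + 1) +
        r := by
  induction r with
  | zero =>
    rw [Nat.add_zero, rndCost, rndCost_phases nb ph w x cb c s h,
      rnd_phases nb ph w x s h, Finset.sum_range_succ]
    simp only [phNb, Option.elim_none, phBits, Nat.add_zero]
  | succ r ih =>
    rw [← Nat.add_assoc, rndCost, ih, rnd_phases_done nb ph w x s o h hs r]
    simp [phNb]
    omega

/-- Algorithms with phases.  `g0` computes the data `x` from the input, `Ir x` is the maximal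
number of phases, phase `i` gets `nb (i, x)` fresh random bits and gives the result
`ph ((i, x), bits)`; the first result different from `none` is written by `gf`. -/
theorem ram_phases [Enc X] [Enc O] (g0 : ℕ × List ℝ → X) (Ir : X → ℕ) (nb : ℕ × X → ℕ)
    (ph : (ℕ × X) × List Bool → Option O) (gf : O → List (ℕ ⊕ ℝ)) (c0 : ℕ × List ℝ → ℕ)
    (cI : X → ℕ) (cb : ℕ × X → ℕ) (c : (ℕ × X) × List Bool → ℕ) (cf : O → ℕ) (h0 : RC g0 c0)
    (hI : RC Ir cI) (hb : RC nb cb) (hg : RC ph c) (hf : RC gf cf) (ℓ : ℕ → ℕ) (cℓ : ℕ → ℕ)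
    (hℓ : RC ℓ cℓ) :
    ∃ (Q : List Instr) (C : ℕ), ∀ (inp : ℕ → ℝ) (w : ℕ → Bool) (n : ℕ) (R : List ℝ) (x : X),
      R = (List.range (ℓ n)).map inp → g0 (n, R) = x → ∀ (s : ℕ) (o : O), s < Ir x →
      (∀ i < s, ph ((i, x), phBits nb w x i) = none) →
      ph ((s, x), phBits nb w x s) = some o → ∃ t : ℕ,
      t ≤ C * (c0 (n, R) + cI x + Ir x +
        ∑ i ∈ Finset.range (s + 1), (nb (i, x) + cb (i, x) + c ((i, x), phBits nb w x i)) +
        cf o + ℓ n + cℓ n + (gf o).length + 1) ∧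
      Halted Q (run Q inp w t (Cfg.init n)) ∧
      (run Q inp w t (Cfg.init n)).out = gf o ∧
      (run Q inp w t (Cfg.init n)).k = phOff nb x (s + 1) := by
  have k0 : RC (fun p : ℕ × List ℝ => (Ir (g0 p), (((0 : ℕ), g0 p), (none : Option O))))
      (fun p => 2 * c0 p + cI (g0 p)) :=
    (RC.pair (RC.comp hI h0) (RC.pair (RC.pair (RC.const_nat 0) h0) RC.none)).of_le
      (fun p => by omega)
  have kb : RC (phNb (O := O) nb) (fun d => d.2.elim (cb d.1) (fun _ => 0)) :=
    (RC.optionElim (o := fun d : (ℕ × X) × Option O => d.2) (n := fun d => nb d.1)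
      (s := fun _ _ => 0) (RC.snd RC.id) (RC.comp hb (RC.fst RC.id)) (RC.const_nat 0)).of_le
      (fun d => by simp)
  have kg : RC (phG ph) (fun a => a.1.2.elim (c (a.1.1, a.2)) (fun _ => 0)) :=
    (RC.optionElim (o := fun a : ((ℕ × X) × Option O) × List Bool => a.1.2)
      (n := fun a => ((a.1.1.1 + 1, a.1.1.2), ph (a.1.1, a.2)))
      (s := fun a o => (a.1.1, some o)) (RC.snd (RC.fst RC.id))
      (RC.pair (RC.pair (RC.succ (RC.fst (RC.fst (RC.fst RC.id))))
        (RC.snd (RC.fst (RC.fst RC.id))))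
        (RC.comp hg (RC.pair (RC.fst (RC.fst RC.id)) (RC.snd RC.id))))
      (RC.pair (RC.fst (RC.fst (RC.fst RC.id))) (RC.some (RC.snd RC.id)))).of_le
      (fun d => by simp)
  have kf : RC (fun d : (ℕ × X) × Option O => d.2.elim [] gf) (fun d => d.2.elim 0 cf) :=
    (RC.optionElim (o := fun d : (ℕ × X) × Option O => d.2) (n := fun d => ([] : List (ℕ ⊕ ℝ)))
      (s := fun _ o => gf o) (RC.snd RC.id) RC.nil (RC.comp hf (RC.snd RC.id))).of_le
      (fun d => by simp)
  obtain ⟨Q, C, hQ⟩ := ram_rounds _ _ _ _ _ _ _ _ k0 kb kg kf ℓ cℓ hℓ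
  refine ⟨Q, 3 * C, fun inp w n R x hR hx s o hs h1 h2 => ?_⟩
  obtain ⟨t, t1, t2, t3, t4⟩ := hQ inp w n R (Ir x) ((0, x), none) hR (by rw [hx])
  obtain ⟨r, hr⟩ := Nat.exists_eq_add_of_le (Nat.succ_le_of_lt hs)
  rw [Nat.succ_eq_add_one] at hr
  have e1 := rnd_phases_done nb ph w x s o h1 h2 r
  have e2 := rndCost_phases_done nb ph w x cb c s o h1 h2 r
  rw [← hr] at e1 e2
  rw [e1] at t1 t3 t4
  rw [e2] at t1
  simp only [Option.elim_some, hx] at t1 t3
  refine ⟨t, t1.trans ?_, t2, t3, t4⟩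
  have e3 : ∑ j ∈ Finset.range (s + 1), (nb (j, x) + cb (j, x) + c ((j, x), phBits nb w x j) + 1)
      = ∑ i ∈ Finset.range (s + 1), (nb (i, x) + cb (i, x) + c ((i, x), phBits nb w x i)) +
        (s + 1) := by
    rw [Finset.sum_add_distrib]; simp
  rw [e3, mul_comm 3 C, mul_assoc]
  refine Nat.mul_le_mul_left _ ?_
  omega

end phases

end P7m
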